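import Mathlib

/-!
Base file: the lattice `B = ℤ²`, the hyperbolic automorphism `phi`, the polycyclic group
`Q = ℤ² ⋊ ℤ`, semilinear systems and equivariant maps.
-/

set_option autoImplicit false

namespace Pool.Agent.Helper22.AutMet

/-- The lattice `ℤ²`. -/
abbrev B : Type := ℤ × ℤ

/-- The hyperbolic automorphism `(p, q) ↦ (2p + q, p + q)` of `ℤ²`. -/
def phi : B ≃ₗ[ℤ] B :=
  { toFun := fun p => (2 * p.1 + p.2, p.1 + p.2)
    invFun := fun p => (p.1 - p.2, 2 * p.2 - p.1)
    left_inv := by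
      intro p
      ext <;> simp <;> ring
    right_inv := by
      intro p
      ext <;> simp <;> ring
    map_add' := by
      intro p q
      ext <;> simp <;> ring
    map_smul' := by
      intro c p
      ext <;> simp <;> ring }

@[simp] lemma phi_apply (p : B) : phi p = (2 * p.1 + p.2, p.1 + p.2) := rfl

@[simp] lemma phi_inv_apply (p : B) : (phi⁻¹ : B ≃ₗ[ℤ] B) p = (p.1 - p.2, 2 * p.2 - p.1) := rfl

/-- The group `ℤ² ⋊ ℤ`, where the generator of `ℤ` acts by `phi`. -/
@[ext] structure Q where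
  /-- the lattice part -/
  v : B
  /-- the `ℤ` part -/
  n : ℤ

namespace Q

instance : Mul Q := ⟨fun a b => ⟨a.v + (phi ^ a.n) b.v, a.n + b.n⟩⟩
instance : One Q := ⟨⟨0, 0⟩⟩
instance : Inv Q := ⟨fun a => ⟨-((phi ^ (-a.n)) a.v), -a.n⟩⟩

@[simp] lemma mul_v (a b : Q) : (a * b).v = a.v + (phi ^ a.n) b.v := rfl
@[simp] lemma mul_n (a b : Q) : (a * b).n = a.n + b.n := rfl
@[simp] lemma one_v : (1 : Q).v = 0 := rfl
@[simp] lemma one_n : (1 : Q).n = 0 := rfl
@[simp] lemma inv_v (a : Q) : (a⁻¹).v = -((phi ^ (-a.n)) a.v) := rfl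
@[simp] lemma inv_n (a : Q) : (a⁻¹).n = -a.n := rfl

instance : Group Q :=
  Group.ofLeftAxioms
    (by
      intro a b c
      ext1
      · simp [map_add, zpow_add, add_assoc, LinearEquiv.mul_apply]
      · simp [add_assoc])
    (by
      intro a
      ext1 <;> simp)
    (by
      intro a
      ext1 <;> simp)

/-- The projection to `ℤ`. -/
def proj : Q →* Multiplicative ℤ where
  toFun q := Multiplicative.ofAdd q.n
  map_one' := rfl
  map_mul' _ _ := rfl

end Q

/-- The inclusion of the lattice in `Q`. -/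
def bb (v : B) : Q := ⟨v, 0⟩

/-- The stable letter of `Q`. -/
def tt : Q := ⟨0, 1⟩

@[simp] lemma bb_v (v : B) : (bb v).v = v := rfl
@[simp] lemma bb_n (v : B) : (bb v).n = 0 := rfl

lemma bb_add (v w : B) : bb (v + w) = bb v * bb w := by
  ext1 <;> simp

@[simp] lemma bb_zero : bb 0 = 1 := rfl

lemma bb_neg (v : B) : bb (-v) = (bb v)⁻¹ := by
  ext1 <;> simp

lemma bb_comm (v w : B) : bb v * bb w = bb w * bb v := by
  rw [← bb_add, ← bb_add, add_comm]

lemma bb_injective : Function.Injective bb := by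
  intro v w h
  exact congrArg Q.v h

lemma tt_zpow (k : ℤ) : tt ^ k = ⟨0, k⟩ := by
  induction k using Int.induction_on with
  | zero => rfl
  | succ i ih =>
    rw [zpow_add_one, ih]
    ext1 <;> simp [tt]
  | pred i ih =>
    rw [zpow_sub_one, ih]
    ext1
    · simp [tt]
    · simp [tt]; ring

lemma tt_pow (k : ℕ) : tt ^ k = ⟨0, k⟩ := by
  rw [← zpow_natCast, tt_zpow]

lemma eq_bb_mul_tt (q : Q) : q = bb q.v * tt ^ q.n := by
  rw [tt_zpow]; ext1 <;> simp

lemma tt_conj (k : ℤ) (v : B) : tt ^ k * bb v * (tt ^ k)⁻¹ = bb ((phi ^ k) v) := by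
  rw [tt_zpow]; ext1 <;> simp

lemma bb_nsmul (k : ℕ) (v : B) : bb (k • v) = bb v ^ k := by
  induction k with
  | zero => simp
  | succ k ih => rw [succ_nsmul, bb_add, ih, pow_succ]

/-- A semilinear action of a group `H` on a module `N` over a commutative ring `R`. -/
structure Sys (H : Type) [Group H] (R N : Type) [CommRing R] [AddCommGroup N] [Module R N] where
  /-- the action on the ring -/
  r : H →* (R →+* R)
  /-- the action on the module -/
  m : H →* AddMonoid.End N
  semi : ∀ (q : H) (a : R) (n : N), m q (a • n) = r q a • m q n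

/-- `θ`, restricted to the `H`-stable subgroup `S`, is additive and `H`-equivariant. -/
structure Eqv {A N : Type} [AddCommGroup A] [DistribMulAction Q A] [AddCommGroup N]
    (H : Subgroup Q) (m : H →* AddMonoid.End N) (S : AddSubgroup A) (θ : A → N) : Prop where
  add : ∀ x ∈ S, ∀ y ∈ S, θ (x + y) = θ x + θ y
  stab : ∀ q : H, ∀ x ∈ S, (q : Q) • x ∈ S
  eqv : ∀ q : H, ∀ x ∈ S, θ ((q : Q) • x) = m q (θ x)

/-- The basic property of the module `A`: equivariant maps to modules on which the lattice part acts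
linearly have finite image. -/
def T0Prop (A : Type) [AddCommGroup A] [DistribMulAction Q A] : Prop :=
  ∀ (H : Subgroup Q) (_ : H.FiniteIndex) (R N : Type) (_ : CommRing R) (_ : Algebra (ZMod 2) R)
    (_ : Algebra.FiniteType (ZMod 2) R) (_ : AddCommGroup N) (_ : Module R N)
    (_ : Module.Finite R N) (m : H →* AddMonoid.End N)
    (_ : ∀ (v : B) (hv : bb v ∈ H) (a : R) (n : N), m ⟨bb v, hv⟩ (a • n) = a • m ⟨bb v, hv⟩ n)
    (S : AddSubgroup A) (_ : S.FiniteIndex) (θ : A → N) (_ : Eqv H m S θ),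
    (θ '' (S : Set A)).Finite

/-- The generation property of `A`. -/
def GenProp (A : Type) [AddCommGroup A] [DistribMulAction Q A] : Prop :=
  ∀ (H : Subgroup Q) (_ : H.FiniteIndex) (S : AddSubgroup A) (_ : S.FiniteIndex)
    (_ : ∀ q : H, ∀ x ∈ S, (q : Q) • x ∈ S),
    ∃ F : Finset A, (F : Set A) ⊆ S ∧ ∀ x ∈ S, ∀ K : ℕ, 0 < K → tt ^ K ∈ H →
      ∃ j0 : ℕ, ∀ j : ℕ, j0 ≤ j →
        (tt ^ (K * j)) • x ∈ AddSubgroup.closure {y : A | ∃ v : B, bb v ∈ H ∧ ∃ z ∈ F, y = bb v • z}

/-- The subring generated by a group of units. -/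
def KU {R : Type} [CommRing R] (U : Subgroup Rˣ) : Subring R :=
  Subring.closure ((fun u : Rˣ => (u : R)) '' (U : Set Rˣ))

/-- `V` is stable under the ring endomorphism `f`. -/
def UStable {R : Type} [CommRing R] (f : R →+* R) (U : Subgroup Rˣ) : Prop :=
  ∀ u ∈ U, Units.map (f : R →* R) u ∈ U

/-- The finiteness statement for unit groups of rank at most `n`. -/
def GoodN (A : Type) [AddCommGroup A] [DistribMulAction Q A] (n : ℕ) : Prop :=
  ∀ (R N : Type) (_ : CommRing R) (_ : AddCommGroup N) (_ : Module R N) (_ : Module.Finite R N)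
    (V : Subgroup Rˣ) (_ : V.FG) (_ : KU V = ⊤) (_ : Module.finrank ℤ (Additive V) ≤ n)
    (H : Subgroup Q) (_ : H.FiniteIndex) (S : Sys H R N) (_ : ∀ q, UStable (S.r q) V)
    (T : AddSubgroup A) (_ : T.FiniteIndex) (θ : A → N) (_ : Eqv H S.m T θ),
    (θ '' (T : Set A)).Finite

/-- The same for domains of characteristic two and torsion-free modules. -/
def DomN (A : Type) [AddCommGroup A] [DistribMulAction Q A] (n : ℕ) : Prop :=
  ∀ (R N : Type) (_ : CommRing R) (_ : IsDomain R) (_ : CharP R 2) (_ : AddCommGroup N)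
    (_ : Module R N) (_ : Module.Finite R N) (_ : ∀ (a : R) (x : N), a • x = 0 → a = 0 ∨ x = 0)
    (V : Subgroup Rˣ) (_ : V.FG) (_ : KU V = ⊤) (_ : Module.finrank ℤ (Additive V) ≤ n)
    (H : Subgroup Q) (_ : H.FiniteIndex) (S : Sys H R N) (_ : ∀ q, UStable (S.r q) V)
    (T : AddSubgroup A) (_ : T.FiniteIndex) (θ : A → N) (_ : Eqv H S.m T θ),
    (θ '' (T : Set A)).Finite

/-- The split extension of the module `A` by `Q`. -/
@[ext] structure GA (A : Type) where
  /-- the module part -/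
  a : A
  /-- the quotient part -/
  q : Q

namespace GA
variable {A : Type} [AddCommGroup A] [DistribMulAction Q A]

instance : Mul (GA A) := ⟨fun x y => ⟨x.a + x.q • y.a, x.q * y.q⟩⟩
instance : One (GA A) := ⟨⟨0, 1⟩⟩
instance : Inv (GA A) := ⟨fun x => ⟨-(x.q⁻¹ • x.a), x.q⁻¹⟩⟩

@[simp] lemma mul_a (x y : GA A) : (x * y).a = x.a + x.q • y.a := rfl
@[simp] lemma mul_q (x y : GA A) : (x * y).q = x.q * y.q := rfl
@[simp] lemma one_a : (1 : GA A).a = 0 := rfl
@[simp] lemma one_q : (1 : GA A).q = 1 := rfl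
@[simp] lemma inv_a (x : GA A) : (x⁻¹).a = -(x.q⁻¹ • x.a) := rfl
@[simp] lemma inv_q (x : GA A) : (x⁻¹).q = x.q⁻¹ := rfl

instance : Group (GA A) :=
  Group.ofLeftAxioms
    (by
      intro x y z
      ext1
      · simp [smul_add, mul_smul, add_assoc]
      · simp [mul_assoc])
    (by
      intro x
      ext1 <;> simp)
    (by
      intro x
      ext1 <;> simp)

/-- The projection to `Q`. -/
def proj : GA A →* Q where
  toFun := GA.q
  map_one' := rfl
  map_mul' _ _ := rfl

/-- The inclusion of `A`. -/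
def inA : Multiplicative A →* GA A where
  toFun x := ⟨Multiplicative.toAdd x, 1⟩
  map_one' := rfl
  map_mul' x y := by ext1 <;> simp

/-- The inclusion of `Q`. -/
def inQ : Q →* GA A where
  toFun x := ⟨0, x⟩
  map_one' := rfl
  map_mul' x y := by ext1 <;> simp

end GA

/-- The group algebra of the lattice over the field with two elements. -/
abbrev D : Type := AddMonoidAlgebra (ZMod 2) B

/-- The monomial `x^v`. -/
noncomputable def mon (v : B) : D := AddMonoidAlgebra.single v 1

/-- The automorphism of `D` induced by an automorphism of the lattice. -/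
noncomputable def phiD (e : B ≃ₗ[ℤ] B) : D ≃ₐ[ZMod 2] D :=
  AddMonoidAlgebra.domCongr (ZMod 2) (ZMod 2) e.toAddEquiv

@[simp] lemma phiD_mon (e : B ≃ₗ[ℤ] B) (v : B) : phiD e (mon v) = mon (e v) := by
  simp [phiD, mon]

end Pool.Agent.Helper22.AutMet
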