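import Mathlib
import Pool.Agent.Helper22.AutMet.Base

/-! Arithmetic of the hyperbolic automorphism. -/

set_option autoImplicit false

namespace Pool.Agent.Helper22.AutMet

/-- the (Fibonacci type) numbers with `phi ^ m = U m • phi - U (m-1)`. -/
def uu : ℕ → ℤ
  | 0 => 0
  | 1 => 1
  | (n + 2) => 3 * uu (n + 1) - uu n

lemma uu_step (n : ℕ) : 0 ≤ uu n ∧ uu n < uu (n + 1) := by
  induction n with
  | zero => simp [uu]
  | succ n ih =>
    obtain ⟨h1, h2⟩ := ih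
    refine ⟨by omega, ?_⟩
    show uu (n + 1) < 3 * uu (n + 1) - uu n
    omega

lemma uu_pos (n : ℕ) (hn : 0 < n) : 0 < uu n := by
  obtain ⟨m, rfl⟩ : ∃ m, n = m + 1 := ⟨n - 1, by omega⟩
  have := uu_step m
  omega

lemma phi_pow_succ (m : ℕ) (z : B) : (phi ^ (m + 1)) z = uu (m + 1) • phi z - uu m • z := by
  induction m generalizing z with
  | zero => simp [uu]
  | succ m ih =>
    have : (phi ^ (m + 2)) z = (phi ^ (m + 1)) (phi z) := by
      rw [pow_succ (phi) (m + 1)]; rfl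
    rw [this, ih]
    have h2 : uu (m + 1 + 1) = 3 * uu (m + 1) - uu m := rfl
    rw [h2]
    ext <;> simp <;> ring

/-- the determinant of two vectors -/
def det (z w : B) : ℤ := z.1 * w.2 - z.2 * w.1

lemma det_phi_pow (m : ℕ) (z : B) :
    det z ((phi ^ m) z) = uu m * (z.1 ^ 2 - z.1 * z.2 - z.2 ^ 2) := by
  cases m with
  | zero => simp [det, uu]; ring
  | succ m =>
    rw [phi_pow_succ]
    simp [det]
    ring

lemma form_ne_zero (z : B) (hz : z ≠ 0) : z.1 ^ 2 - z.1 * z.2 - z.2 ^ 2 ≠ 0 := by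
  intro h
  have h5 : (2 * z.1 - z.2) ^ 2 = 5 * z.2 ^ 2 := by linarith
  by_cases h2 : z.2 = 0
  · rw [h2] at h5
    have : z.1 = 0 := by nlinarith
    exact hz (Prod.ext this h2)
  · have hp : Prime (5 : ℤ) := by norm_num
    have hirr : Irrational (√(5 : ℝ)) := by
      have := Nat.Prime.irrational_sqrt (p := 5) (by norm_num)
      simpa using this
    apply hirr
    have h2' : (z.2 : ℝ) ≠ 0 := by exact_mod_cast h2
    have h6 : ((2 * z.1 - z.2 : ℝ) / z.2) ^ 2 = 5 := by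
      have : ((2 * z.1 - z.2 : ℝ)) ^ 2 = 5 * (z.2 : ℝ) ^ 2 := by exact_mod_cast h5
      field_simp
      linarith
    have h7 : √(5 : ℝ) = |(2 * z.1 - z.2 : ℝ) / z.2| := by
      rw [← h6, Real.sqrt_sq_eq_abs]
    refine ⟨|(2 * z.1 - z.2 : ℚ) / z.2|, ?_⟩
    rw [h7]
    push_cast
    rfl

lemma det_phi_ne (m : ℕ) (hm : 0 < m) (z : B) (hz : z ≠ 0) : det z ((phi ^ m) z) ≠ 0 := by
  rw [det_phi_pow]
  exact mul_ne_zero (uu_pos m hm).ne' (form_ne_zero z hz)

/-- Vectors in different positions of an orbit are not parallel. -/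
lemma not_parallel (i j : ℤ) (hij : i ≠ j) (z : B) (hz : z ≠ 0) :
    det ((phi ^ i) z) ((phi ^ j) z) ≠ 0 := by
  rcases lt_or_gt_of_ne hij with h | h
  · have hz' : (phi ^ i) z ≠ 0 := by simpa using hz
    have := det_phi_ne (j - i).toNat (by omega) _ hz'
    have h2 : (phi ^ (j - i).toNat) ((phi ^ i) z) = (phi ^ j) z := by
      rw [← zpow_natCast, ← LinearEquiv.mul_apply, ← zpow_add]
      congr 2; omega
    rwa [h2] at this
  · have hz' : (phi ^ j) z ≠ 0 := by simpa using hz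
    have := det_phi_ne (i - j).toNat (by omega) _ hz'
    have h2 : (phi ^ (i - j).toNat) ((phi ^ j) z) = (phi ^ i) z := by
      rw [← zpow_natCast, ← LinearEquiv.mul_apply, ← zpow_add]
      congr 2; omega
    rw [h2] at this
    intro h0
    apply this
    unfold det at *
    linarith

/-- the traces: `phi ^ K + phi ^ (-K) = tr K`. -/
def tr : ℕ → ℤ
  | 0 => 2
  | 1 => 3
  | (n + 2) => 3 * tr (n + 1) - tr n

lemma tr_step (n : ℕ) : 2 ≤ tr n ∧ tr n < tr (n + 1) := by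
  induction n with
  | zero => simp [tr]
  | succ n ih =>
    obtain ⟨h1, h2⟩ := ih
    refine ⟨by omega, ?_⟩
    show tr (n + 1) < 3 * tr (n + 1) - tr n
    omega

lemma three_le_tr (n : ℕ) (hn : 0 < n) : 3 ≤ tr n := by
  obtain ⟨m, rfl⟩ : ∃ m, n = m + 1 := ⟨n - 1, by omega⟩
  have := tr_step m
  omega

lemma phi_sum_one (z : B) : phi z + (phi⁻¹ : B ≃ₗ[ℤ] B) z = (3 : ℤ) • z := by
  ext <;> simp <;> ring

lemma phi_tr (K : ℕ) (z : B) : (phi ^ (K : ℤ)) z + (phi ^ (-(K : ℤ))) z = tr K • z := by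
  induction K using Nat.strong_induction_on generalizing z with
  | _ K ih =>
    match K with
    | 0 => simp [tr, two_smul]
    | 1 =>
      have := phi_sum_one z
      simpa [tr] using this
    | (K + 2) =>
      have h1 := ih (K + 1) (by omega)
      have h0 := ih K (by omega) z
      have e1 : (phi ^ ((K + 2 : ℕ) : ℤ)) z = (phi ^ ((K + 1 : ℕ) : ℤ)) (phi z) := by
        rw [show ((K + 2 : ℕ) : ℤ) = ((K + 1 : ℕ) : ℤ) + 1 by push_cast; ring, zpow_add, zpow_one]; rfl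
      have e2 : (phi ^ (-((K + 2 : ℕ) : ℤ))) z = (phi ^ (-((K + 1 : ℕ) : ℤ))) ((phi⁻¹ : B ≃ₗ[ℤ] B) z) := by
        rw [show (-((K + 2 : ℕ) : ℤ)) = (-((K + 1 : ℕ) : ℤ)) + (-1) by push_cast; ring, zpow_add, zpow_neg_one]; rfl
      have e3 : (phi ^ ((K : ℕ) : ℤ)) z = (phi ^ ((K + 1 : ℕ) : ℤ)) ((phi⁻¹ : B ≃ₗ[ℤ] B) z) := by
        rw [show ((K : ℕ) : ℤ) = ((K + 1 : ℕ) : ℤ) + (-1) by push_cast; ring, zpow_add, zpow_neg_one]; rfl
      have e4 : (phi ^ (-((K : ℕ) : ℤ))) z = (phi ^ (-((K + 1 : ℕ) : ℤ))) (phi z) := by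
        rw [show (-((K : ℕ) : ℤ)) = (-((K + 1 : ℕ) : ℤ)) + 1 by push_cast; ring, zpow_add, zpow_one]; rfl
      have h5 := h1 (phi z)
      have h6 := h1 ((phi⁻¹ : B ≃ₗ[ℤ] B) z)
      have h7 : tr (K + 2) = 3 * tr (K + 1) - tr K := rfl
      rw [h7, sub_smul, ← h0, e1, e2, e3, e4, mul_comm, mul_smul, ← phi_sum_one z, smul_add, ← h5, ← h6]
      abel

end Pool.Agent.Helper22.AutMet
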