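import Mathlib
import Pool.Agent.Helper22.AutMet.Base
import Pool.Agent.Helper22.AutMet.Arith
/-! (U) the lattice part acts virtually unipotently on every finitely generated abelian group. -/

set_option autoImplicit false

namespace Pool.Agent.Helper22.AutMet

/-- rational group algebra of the lattice -/
abbrev UnipP : Type := AddMonoidAlgebra ℚ B

lemma unip_emb (L : Type) [Field L] [Algebra ℚ L] [Module.Finite ℚ L] : Nonempty (L →ₐ[ℚ] ℂ) :=
  ⟨IsAlgClosed.lift⟩

/-- A non-nilpotent element of a finite algebra is detected by a complex point. -/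
lemma unip_nil0 (C : Type) [CommRing C] [Algebra ℚ C] [Module.Finite ℚ C] (a : C)
    (h : ∀ f : C →ₐ[ℚ] ℂ, f a = 0) : a ∈ nilradical C := by
  have hart : IsArtinianRing C := IsArtinianRing.of_finite ℚ _
  rw [nilradical_eq_sInf, Ideal.mem_sInf]
  intro J hJ
  have hJ' : J.IsPrime := hJ
  have hJm : J.IsMaximal := inferInstance
  obtain ⟨g⟩ := @unip_emb (C ⧸ J) (Ideal.Quotient.field J) inferInstance inferInstance
  have hf2 : g (Ideal.Quotient.mk J a) = 0 := h (g.comp (Ideal.Quotient.mkₐ ℚ J))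
  by_contra hne
  have h1 : Ideal.Quotient.mk J a ≠ 0 := fun h0 => hne (Ideal.Quotient.eq_zero_iff_mem.mp h0)
  obtain ⟨c, hc⟩ := Ideal.Quotient.exists_inv (I := J) h1
  have h2 := congrArg g hc
  rw [map_mul, hf2, zero_mul, map_one] at h2
  exact zero_ne_one h2

lemma unip_nil {I : Ideal UnipP} [Module.Finite ℚ (UnipP ⧸ I)] (a : UnipP)
    (h : ∀ f : UnipP →ₐ[ℚ] ℂ, (∀ p ∈ I, f p = 0) → f a = 0) :
    (Ideal.Quotient.mk I a) ∈ nilradical (UnipP ⧸ I) := by
  apply unip_nil0
  intro g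
  apply h (g.comp (Ideal.Quotient.mkₐ ℚ I))
  intro p hp
  have h1 : Ideal.Quotient.mkₐ ℚ I p = 0 := Ideal.Quotient.eq_zero_iff_mem.mpr hp
  rw [AlgHom.comp_apply, h1, map_zero]

lemma unip_lin (E : Type) [AddCommGroup E] [Module ℚ E] [Module.Finite ℚ E] (K : ℕ) (hK : 0 < K)
    (b : Multiplicative B →* Module.End ℚ E) (t t' : Module.End ℚ E) (h1 : t * t' = 1)
    (h2 : t' * t = 1)
    (hrel : ∀ v : B, t * b (Multiplicative.ofAdd v) = b (Multiplicative.ofAdd ((phi ^ K) v)) * t) :
    ∃ L k : ℕ, 0 < L ∧ ∀ v : B, (b (Multiplicative.ofAdd (L • v)) - 1) ^ k = 0 := by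
  classical
  let π : UnipP →ₐ[ℚ] Module.End ℚ E := AddMonoidAlgebra.lift ℚ (Module.End ℚ E) B b
  have hπ : ∀ v : B, π (AddMonoidAlgebra.single v 1) = b (Multiplicative.ofAdd v) := by
    intro v
    simp [π]
  let g : UnipP ≃ₐ[ℚ] UnipP := AddMonoidAlgebra.domCongr ℚ ℚ (phi ^ K).toAddEquiv
  have hg : ∀ v : B, g (AddMonoidAlgebra.single v 1) = AddMonoidAlgebra.single ((phi ^ K) v) 1 := by
    intro v
    simp [g]
  have hgs : ∀ v : B, ∀ N : ℕ, (g ^ N) (AddMonoidAlgebra.single v 1) =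
      AddMonoidAlgebra.single ((phi ^ (K * N)) v) 1 := by
    intro v N
    induction N with
    | zero => rfl
    | succ N ih =>
      rw [pow_succ', Nat.mul_succ, add_comm (K * N) K, pow_add]
      show g ((g ^ N) _) = _
      rw [ih, hg]
      rfl
  have htg : ∀ p : UnipP, t * π p = π (g p) * t := by
    intro p
    induction p using AddMonoidAlgebra.induction_on with
    | of v =>
      have h3 := hrel (Multiplicative.toAdd v)
      show t * π (AddMonoidAlgebra.single (Multiplicative.toAdd v) 1) =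
        π (g (AddMonoidAlgebra.single (Multiplicative.toAdd v) 1)) * t
      rw [hπ, hg, hπ, h3]
    | add p q hp hq => rw [map_add, mul_add, hp, hq, map_add, map_add, add_mul]
    | smul c p hp => rw [map_smul, mul_smul_comm, hp, map_smul, map_smul, smul_mul_assoc]
  let I : Ideal UnipP := RingHom.ker (π : UnipP →+* Module.End ℚ E)
  have hI : ∀ p, p ∈ I ↔ π p = 0 := fun p => Iff.rfl
  have hIg : ∀ p, π p = 0 → π (g p) = 0 := by
    intro p hp
    have h3 := htg p
    rw [hp, mul_zero] at h3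
    have h4 := congrArg (· * t') h3
    simp only [zero_mul, mul_assoc, h1, mul_one] at h4
    exact h4.symm
  have hIg' : ∀ p, π p = 0 → π (g.symm p) = 0 := by
    intro p hp
    have h3 := htg (g.symm p)
    rw [AlgEquiv.apply_symm_apply, hp, zero_mul] at h3
    have h4 := congrArg (t' * ·) h3
    simp only [mul_zero, ← mul_assoc, h2, one_mul] at h4
    exact h4
  have hfin : Module.Finite ℚ (UnipP ⧸ I) := by
    let e : (UnipP ⧸ I) →ₗ[ℚ] Module.End ℚ E := (Ideal.kerLiftAlg π).toLinearMap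
    exact Module.Finite.of_injective e (Ideal.kerLiftAlg_injective π)
  let X : Type := {f : UnipP →ₐ[ℚ] ℂ // ∀ p, π p = 0 → f p = 0}
  have hX : Finite X := by
    have : Finite ((UnipP ⧸ I) →ₐ[ℚ] ℂ) := Finite.of_fintype _
    refine Finite.of_injective (fun f : X => (Ideal.Quotient.liftₐ I f.1 (fun p hp => f.2 p hp))) ?_
    intro f f' hff
    apply Subtype.ext
    apply AlgHom.ext
    intro p
    exact congrArg (fun e : (UnipP ⧸ I) →ₐ[ℚ] ℂ => e (Ideal.Quotient.mk I p)) hff
  let σ : Equiv.Perm X :=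
    { toFun := fun f => ⟨f.1.comp (g : UnipP →ₐ[ℚ] UnipP), fun p hp => f.2 _ (hIg p hp)⟩
      invFun := fun f => ⟨f.1.comp (g.symm : UnipP →ₐ[ℚ] UnipP), fun p hp => f.2 _ (hIg' p hp)⟩
      left_inv := by
        intro f
        apply Subtype.ext
        apply AlgHom.ext
        intro p
        simp
      right_inv := by
        intro f
        apply Subtype.ext
        apply AlgHom.ext
        intro p
        simp }
  have hσ : ∀ (N : ℕ) (f : X) (p : UnipP), ((σ ^ N) f).1 p = f.1 ((g ^ N) p) := by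
    intro N
    induction N with
    | zero => intro f p; rfl
    | succ N ih =>
      intro f p
      rw [pow_succ, pow_succ]
      show ((σ ^ N) (σ f)).1 p = f.1 ((g ^ N) (g p))
      rw [ih (σ f)]
      show f.1 (g ((g ^ N) p)) = f.1 ((g ^ N) (g p))
      congr 1
      have : g * g ^ N = g ^ N * g := by rw [← pow_succ, ← pow_succ']
      exact congrArg (fun e : UnipP ≃ₐ[ℚ] UnipP => e p) this
  obtain ⟨N, hN0, hN⟩ : ∃ N : ℕ, 0 < N ∧ σ ^ N = 1 := ⟨orderOf σ, orderOf_pos _, pow_orderOf_eq_one σ⟩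
  have hfix : ∀ (f : X) (v : B), f.1 (AddMonoidAlgebra.single ((phi ^ (K * N)) v) 1) =
      f.1 (AddMonoidAlgebra.single v 1) := by
    intro f v
    have := hσ N f (AddMonoidAlgebra.single v 1)
    rw [hN, hgs] at this
    exact this.symm
  have hart : IsArtinianRing (UnipP ⧸ I) := IsArtinianRing.of_finite ℚ _
  obtain ⟨k, hk⟩ := IsArtinianRing.isNilpotent_nilradical (R := UnipP ⧸ I)
  have hKN : 0 < K * N := Nat.mul_pos hK hN0
  have htr := three_le_tr (K * N) hKN
  refine ⟨(tr (K * N) - 2).toNat, k, by omega, ?_⟩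
  intro v
  have hLv : (tr (K * N) - 2).toNat • v = (tr (K * N) - 2) • v := by
    rw [← natCast_zsmul]
    congr 1
    omega
  set v' : B := v - (phi ^ (-((K * N : ℕ) : ℤ))) v with hv'
  have hw : (tr (K * N) - 2) • v = (phi ^ (K * N)) v' - v' := by
    have h3 := phi_tr (K * N) v
    have h4 : (phi ^ (K * N)) ((phi ^ (-((K * N : ℕ) : ℤ))) v) = v := by
      rw [zpow_neg, zpow_natCast]
      show (phi ^ (K * N)) ((phi ^ (K * N))⁻¹ v) = v
      rw [← LinearEquiv.mul_apply, mul_inv_cancel]; rfl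
    rw [hv', map_sub, h4, sub_smul, ← h3, zpow_natCast, two_smul]
    abel
  rw [hLv, hw]
  set w : B := (phi ^ (K * N)) v' - v' with hw'
  have hnil : (Ideal.Quotient.mk I (AddMonoidAlgebra.single w 1 - 1)) ∈ nilradical (UnipP ⧸ I) := by
    apply unip_nil
    intro f hf
    have h5 := hfix ⟨f, fun p hp => hf p hp⟩ v'
    have h6 : (AddMonoidAlgebra.single ((phi ^ (K * N)) v') 1 : UnipP) =
      AddMonoidAlgebra.single w 1 * AddMonoidAlgebra.single v' 1 := by
      rw [AddMonoidAlgebra.single_mul_single, hw', sub_add_cancel, one_mul]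
    have h7 : f (AddMonoidAlgebra.single v' 1) ≠ 0 := by
      intro h0
      have h8 : (AddMonoidAlgebra.single v' 1 : UnipP) * AddMonoidAlgebra.single (-v') 1 = 1 := by
        rw [AddMonoidAlgebra.single_mul_single, add_neg_cancel, one_mul]; rfl
      have h9 := congrArg f h8
      rw [map_mul, h0, zero_mul, map_one] at h9
      exact zero_ne_one h9
    have h10 : f (AddMonoidAlgebra.single ((phi ^ (K * N)) v') 1) = f (AddMonoidAlgebra.single v' 1) := h5
    rw [h6, map_mul] at h10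
    rw [map_sub, map_one, sub_eq_zero]
    exact mul_right_cancel₀ h7 (h10.trans (one_mul _).symm)
  have hpow : (Ideal.Quotient.mk I (AddMonoidAlgebra.single w 1 - 1)) ^ k = 0 := by
    have := Ideal.pow_mem_pow hnil k
    rw [hk] at this
    exact this
  rw [← map_pow, Ideal.Quotient.eq_zero_iff_mem, hI, map_pow, map_sub, map_one, hπ] at hpow
  exact hpow

theorem unip_core (W : Type) [AddCommGroup W] [Module.Finite ℤ W] (K : ℕ) (hK : 0 < K)
    (β : Multiplicative B →* AddMonoid.End W) (τ τ' : AddMonoid.End W) (h1 : τ * τ' = 1)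
    (h2 : τ' * τ = 1)
    (hrel : ∀ v : B, τ * β (Multiplicative.ofAdd v) = β (Multiplicative.ofAdd ((phi ^ K) v)) * τ) :
    ∃ L k : ℕ, 0 < L ∧ ∀ (v : B) (x : W),
      ∃ d : ℕ, 0 < d ∧ d • ((β (Multiplicative.ofAdd (L • v)) - 1) ^ k) x = 0 := by
  let F : AddMonoid.End W →+* Module.End ℚ (TensorProduct ℤ ℚ W) :=
    ((Module.End.baseChangeHom ℤ ℚ W : Module.End ℤ W →ₐ[ℤ] _) : Module.End ℤ W →+* _).comp
      (addMonoidEndRingEquivInt W : AddMonoid.End W →+* Module.End ℤ W)
  have hF : ∀ (f : AddMonoid.End W) (x : W), F f (TensorProduct.tmul ℤ 1 x) = TensorProduct.tmul ℤ 1 (f x) := by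
    intro f x
    rfl
  obtain ⟨L, k, hL, hk⟩ := unip_lin (TensorProduct ℤ ℚ W) K hK ((F : AddMonoid.End W →* _).comp β) (F τ) (F τ')
    (by rw [← map_mul, h1, map_one]) (by rw [← map_mul, h2, map_one]) (by
      intro v
      show F τ * F _ = F _ * F τ
      rw [← map_mul, hrel, map_mul])
  refine ⟨L, k, hL, ?_⟩
  intro v x
  have h3 : F ((β (Multiplicative.ofAdd (L • v)) - 1) ^ k) = 0 := by
    rw [map_pow, map_sub, map_one]
    exact hk v
  have h4 : TensorProduct.tmul ℤ (1 : ℚ) (((β (Multiplicative.ofAdd (L • v)) - 1) ^ k) x) = 0 := by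
    rw [← hF, h3]; rfl
  have hloc : IsLocalizedModule (nonZeroDivisors ℤ) (TensorProduct.mk ℤ ℚ W 1) := inferInstance
  have h5 := (IsLocalizedModule.eq_zero_iff (nonZeroDivisors ℤ) (TensorProduct.mk ℤ ℚ W 1)).mp h4
  obtain ⟨⟨c, hc⟩, hc2⟩ := h5
  have hc0 : c ≠ 0 := nonZeroDivisors.ne_zero hc
  refine ⟨c.natAbs, Int.natAbs_pos.mpr hc0, ?_⟩
  have hc3 : c • (((β (Multiplicative.ofAdd (L • v)) - 1) ^ k) x) = 0 := hc2
  rw [← natCast_zsmul]
  rcases Int.natAbs_eq c with h | h
  · rw [← h]; exact hc3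
  · have : ((c.natAbs : ℕ) : ℤ) = -c := by omega
    rw [this, neg_smul, hc3, neg_zero]

end Pool.Agent.Helper22.AutMet
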