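import Mathlib
import Pool.Agent.Helper22.AutMet.Base
import Pool.Agent.Helper22.AutMet.Arith
import Pool.Agent.Helper22.AutMet.Unip

/-! (Choice) choice of a good stable isolated subgroup. -/

set_option autoImplicit false

namespace Pool.Agent.Helper22.AutMet

/-- elements of `Q` with lattice part in `m ℤ²` -/
def choiceHB (m : ℕ) : Subgroup Q where
  carrier := {q | ∃ w : B, q.v = m • w}
  one_mem' := ⟨0, by simp⟩
  mul_mem' := by
    rintro a b ⟨x, hx⟩ ⟨y, hy⟩
    refine ⟨x + (phi ^ a.n) y, ?_⟩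
    rw [Q.mul_v, hx, hy, map_nsmul, smul_add]
  inv_mem' := by
    rintro a ⟨x, hx⟩
    refine ⟨-((phi ^ (-a.n)) x), ?_⟩
    rw [Q.inv_v, hx, map_nsmul, smul_neg]

lemma choiceHB_bb (m : ℕ) (v : B) (h : bb v ∈ choiceHB m) : ∃ w : B, v = m • w := h

lemma choiceHB_fi (m : ℕ) (hm : 0 < m) : (choiceHB m).FiniteIndex := by
  have : NeZero m := ⟨hm.ne'⟩
  have key : ∀ a b : Q, (((a.v.1 : ZMod m), (a.v.2 : ZMod m)) =
      ((b.v.1 : ZMod m), (b.v.2 : ZMod m))) → a⁻¹ * b ∈ choiceHB m := by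
    intro a b h
    have h1 : (m : ℤ) ∣ b.v.1 - a.v.1 := by
      rw [← ZMod.intCast_zmod_eq_zero_iff_dvd]
      have := congrArg Prod.fst h
      push_cast
      simp only at this
      rw [this, sub_self]
    have h2 : (m : ℤ) ∣ b.v.2 - a.v.2 := by
      rw [← ZMod.intCast_zmod_eq_zero_iff_dvd]
      have := congrArg Prod.snd h
      push_cast
      simp only at this
      rw [this, sub_self]
    obtain ⟨c, hc⟩ := h1
    obtain ⟨d, hd⟩ := h2
    refine ⟨(phi ^ (-a.n)) (c, d), ?_⟩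
    have h3 : b.v = a.v + m • (c, d) := by
      ext
      · simp
        linarith
      · simp
        linarith
    rw [Q.mul_v, Q.inv_v, Q.inv_n, h3, map_add, map_nsmul]
    abel
  have : Finite (Q ⧸ choiceHB m) := by
    let f : (Q ⧸ choiceHB m) → ZMod m × ZMod m := fun x =>
      ((x.out.v.1 : ZMod m), (x.out.v.2 : ZMod m))
    refine Finite.of_injective f ?_
    intro x y hxy
    have := key x.out y.out hxy
    rw [← QuotientGroup.eq, QuotientGroup.out_eq', QuotientGroup.out_eq'] at this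
    exact this
  exact Subgroup.finiteIndex_of_finite_quotient

/-- elements of `Q` with `ℤ` part divisible by `m` -/
def choiceHN (m : ℕ) : Subgroup Q where
  carrier := {q | (m : ℤ) ∣ q.n}
  one_mem' := by simp
  mul_mem' := by
    intro a b ha hb
    exact dvd_add ha hb
  inv_mem' := by
    intro a ha
    simpa using ha

lemma choiceHN_fi (m : ℕ) (hm : 0 < m) : (choiceHN m).FiniteIndex := by
  have : NeZero m := ⟨hm.ne'⟩
  have key : ∀ a b : Q, (a.n : ZMod m) = (b.n : ZMod m) → a⁻¹ * b ∈ choiceHN m := by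
    intro a b h
    have h1 : (m : ℤ) ∣ b.n - a.n := by
      rw [← ZMod.intCast_zmod_eq_zero_iff_dvd]
      push_cast
      rw [h, sub_self]
    show (m : ℤ) ∣ (a⁻¹ * b).n
    rw [Q.mul_n, Q.inv_n, neg_add_eq_sub]
    exact h1
  have : Finite (Q ⧸ choiceHN m) := by
    let f : (Q ⧸ choiceHN m) → ZMod m := fun x => (x.out.n : ZMod m)
    refine Finite.of_injective f ?_
    intro x y hxy
    have := key x.out y.out hxy
    rw [← QuotientGroup.eq, QuotientGroup.out_eq', QuotientGroup.out_eq'] at this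
    exact this
  exact Subgroup.finiteIndex_of_finite_quotient

/-- a power of every element lies in a given subgroup of finite index -/
lemma choice_pow (H : Subgroup Q) (hH : H.FiniteIndex) : ∃ K : ℕ, 0 < K ∧ ∀ q : Q, q ^ K ∈ H := by
  refine ⟨H.index.factorial, Nat.factorial_pos _, fun q => ?_⟩
  exact Subgroup.pow_mem_of_index_ne_zero_of_dvd hH.index_ne_zero q
    (fun m hm hm2 => Nat.dvd_factorial hm hm2)

lemma choice_powB (H : Subgroup Q) (hH : H.FiniteIndex) : ∃ K : ℕ, 0 < K ∧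
    (∀ v : B, bb (K • v) ∈ H) ∧ tt ^ K ∈ H := by
  obtain ⟨K, hK, h⟩ := choice_pow H hH
  exact ⟨K, hK, fun v => by rw [bb_nsmul]; exact h _, h _⟩

/-- `r` is multiplicative on `H` -/
structure ChoiceR {W : Type} [AddCommGroup W] (H : Subgroup Q) (r : Q → AddMonoid.End W) :
    Prop where
  one : r 1 = 1
  mul : ∀ q ∈ H, ∀ q' ∈ H, r (q * q') = r q * r q'

section
variable {W : Type} [AddCommGroup W] {H : Subgroup Q} {r : Q → AddMonoid.End W}

lemma ChoiceR.mul' (hr : ChoiceR H r) {q q' : Q} (hq : q ∈ H) (hq' : q' ∈ H) (w : W) :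
    r (q * q') w = r q (r q' w) := by
  rw [hr.mul q hq q' hq']
  rfl

lemma ChoiceR.inv_l (hr : ChoiceR H r) {q : Q} (hq : q ∈ H) (w : W) : r q⁻¹ (r q w) = w := by
  rw [← hr.mul' (H.inv_mem hq) hq, inv_mul_cancel, hr.one]
  rfl

lemma ChoiceR.inv_r (hr : ChoiceR H r) {q : Q} (hq : q ∈ H) (w : W) : r q (r q⁻¹ w) = w := by
  rw [← hr.mul' hq (H.inv_mem hq), mul_inv_cancel, hr.one]
  rfl

lemma ChoiceR.pow (hr : ChoiceR H r) {q : Q} (hq : q ∈ H) (n : ℕ) : r (q ^ n) = r q ^ n := by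
  induction n with
  | zero => simp [hr.one]
  | succ n ih => rw [pow_succ, pow_succ, hr.mul _ (H.pow_mem hq n) _ hq, ih]

lemma ChoiceR.comm (hr : ChoiceR H r) {v v' : B} (hv : bb v ∈ H) (hv' : bb v' ∈ H) (w : W) :
    r (bb v) (r (bb v') w) = r (bb v') (r (bb v) w) := by
  rw [← hr.mul' hv hv', ← hr.mul' hv' hv, bb_comm]

/-- the subgroup of `ℤ²` in `H` -/
def choiceBH (H : Subgroup Q) : AddSubgroup B where
  carrier := {v | bb v ∈ H}
  zero_mem' := by simp [H.one_mem]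
  add_mem' := by
    intro a b ha hb
    show bb (a + b) ∈ H
    rw [bb_add]
    exact H.mul_mem ha hb
  neg_mem' := by
    intro a ha
    show bb (-a) ∈ H
    rw [bb_neg]
    exact H.inv_mem ha

lemma choiceBH_mem {H : Subgroup Q} {v : B} : v ∈ choiceBH H ↔ bb v ∈ H := Iff.rfl

/-- (UN) -/
lemma choice_un (hr : ChoiceR H r) (H' : Subgroup Q) (hle : H' ≤ H) (k : ℕ)
    (htor : ∀ v : B, bb v ∈ H' → ∀ w : W, ∃ d : ℕ, 0 < d ∧ d • (((r (bb v) - 1) ^ k) w) = 0)
    (U' U'' : AddSubgroup W) (hlt : U' < U'')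
    (hs' : ∀ (v : B), bb v ∈ H' → ∀ w : W, w ∈ U' → r (bb v) w ∈ U')
    (hs'' : ∀ (v : B), bb v ∈ H' → ∀ w : W, w ∈ U'' → r (bb v) w ∈ U'')
    (hiso : ∀ (w : W) (j : ℕ), 0 < j → j • w ∈ U' → w ∈ U') :
    ∃ w ∈ U'', w ∉ U' ∧ ∀ v : B, bb v ∈ H' → r (bb v) w - w ∈ U' := by
  -- finite sets of generators
  have step : ∀ F : Finset B, (∀ v ∈ F, bb v ∈ H') →
      ∃ w ∈ U'', w ∉ U' ∧ ∀ v ∈ F, r (bb v) w - w ∈ U' := by
    classical
    intro F
    induction F using Finset.induction_on with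
    | empty =>
      intro _
      obtain ⟨w, hw, hw'⟩ := SetLike.exists_of_lt hlt
      exact ⟨w, hw, hw', fun v hv => by simp at hv⟩
    | insert b F hb ih =>
      intro hF
      obtain ⟨w, hw, hw', hfix⟩ := ih fun v hv => hF v (Finset.mem_insert_of_mem hv)
      have hbH := hF b (Finset.mem_insert_self b F)
      have hkin : ((r (bb b) - 1) ^ k) w ∈ U' := by
        obtain ⟨d, hd, hd'⟩ := htor b hbH w
        refine hiso _ d hd ?_
        rw [hd']
        exact U'.zero_mem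
      have hex : ∃ i : ℕ, ((r (bb b) - 1) ^ i) w ∈ U' := ⟨k, hkin⟩
      have hi := Nat.find_spec hex
      have hmin := fun i => Nat.find_min (m := i) hex
      set i := Nat.find hex with hidef
      have hi0 : i ≠ 0 := by
        intro h
        rw [h] at hi
        exact hw' hi
      obtain ⟨i', hi'⟩ := Nat.exists_eq_succ_of_ne_zero hi0
      have hN'' : ∀ n : ℕ, ((r (bb b) - 1) ^ n) w ∈ U'' := by
        intro n
        induction n with
        | zero => exact hw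
        | succ n ihn =>
          rw [pow_succ']
          exact U''.sub_mem (hs'' b hbH _ ihn) ihn
      have hN' : ∀ n : ℕ, ∀ x ∈ U', ((r (bb b) - 1) ^ n) x ∈ U' := by
        intro n
        induction n with
        | zero => exact fun x hx => hx
        | succ n ihn =>
          intro x hx
          rw [pow_succ']
          exact U'.sub_mem (hs' b hbH _ (ihn x hx)) (ihn x hx)
      refine ⟨((r (bb b) - 1) ^ i') w, hN'' i', hmin i' (by omega), ?_⟩
      intro v hv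
      rcases Finset.mem_insert.1 hv with rfl | hv
      · have e : r (bb v) (((r (bb v) - 1) ^ i') w) - ((r (bb v) - 1) ^ i') w =
            ((r (bb v) - 1) ^ (i' + 1)) w := by
          rw [pow_succ']
          rfl
        rw [e]
        rw [hi'] at hi
        exact hi
      · have hvH := hF v (Finset.mem_insert_of_mem hv)
        have e : ∀ n : ℕ, r (bb v) (((r (bb b) - 1) ^ n) w) =
            ((r (bb b) - 1) ^ n) (r (bb v) w) := by
          intro n
          induction n with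
          | zero => rfl
          | succ n ihn =>
            rw [pow_succ']
            show r (bb v) (r (bb b) (((r (bb b) - 1) ^ n) w) - ((r (bb b) - 1) ^ n) w) =
              r (bb b) (((r (bb b) - 1) ^ n) (r (bb v) w)) - ((r (bb b) - 1) ^ n) (r (bb v) w)
            rw [map_sub, hr.comm (hle hvH) (hle hbH), ihn]
        rw [e, ← map_sub]
        exact hN' i' _ (hfix v hv)
  have hfg : (choiceBH H').FG := by
    have : IsNoetherian ℤ B := inferInstance
    have h := this.noetherian (AddSubgroup.toIntSubmodule (choiceBH H'))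
    exact (Submodule.fg_iff_addSubgroup_fg _).1 h
  obtain ⟨F, hF⟩ := hfg
  obtain ⟨w, hw, hw', hfix⟩ := step F fun v hv => by
    rw [← choiceBH_mem, ← hF]
    exact AddSubgroup.subset_closure hv
  refine ⟨w, hw, hw', fun v hv => ?_⟩
  have hv' : v ∈ AddSubgroup.closure (F : Set B) := by
    rw [hF]
    exact hv
  have key : bb v ∈ H' ∧ r (bb v) w - w ∈ U' := by
    clear hv
    induction hv' using AddSubgroup.closure_induction with
    | mem x hx => exact ⟨by rw [← choiceBH_mem, ← hF]; exact AddSubgroup.subset_closure hx,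
        hfix x hx⟩
    | zero => exact ⟨by simp [H'.one_mem], by simp [hr.one]⟩
    | add x y hx hy ihx ihy =>
      refine ⟨by rw [bb_add]; exact H'.mul_mem ihx.1 ihy.1, ?_⟩
      rw [bb_add, hr.mul' (hle ihx.1) (hle ihy.1)]
      have e : r (bb x) (r (bb y) w) - w = r (bb x) (r (bb y) w - w) + (r (bb x) w - w) := by
        rw [map_sub]
        abel
      rw [e]
      exact U'.add_mem (hs' x ihx.1 _ ihy.2) ihx.2
    | neg x hx ihx =>
      refine ⟨by rw [bb_neg]; exact H'.inv_mem ihx.1, ?_⟩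
      have hm : bb (-x) ∈ H' := by rw [bb_neg]; exact H'.inv_mem ihx.1
      have e : r (bb (-x)) w - w = - r (bb (-x)) (r (bb x) w - w) := by
        rw [map_sub, bb_neg, hr.inv_l (hle ihx.1)]
        abel
      rw [e]
      exact U'.neg_mem (hs' _ hm _ ihx.2)
  exact key.2

end

section
variable {W : Type} [AddCommGroup W] {H : Subgroup Q} {r : Q → AddMonoid.End W}

/-- vectors fixed by the lattice part of `H'` -/
def ChoiceFix (r : Q → AddMonoid.End W) (H' : Subgroup Q) (w : W) : Prop :=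
  ∀ v : B, bb v ∈ H' → r (bb v) w = w

lemma ChoiceFix.mono {H' H'' : Subgroup Q} (h : H'' ≤ H') {w : W} (hw : ChoiceFix r H' w) :
    ChoiceFix r H'' w := fun v hv => hw v (h hv)

/-- a common power of lattice elements fixing the vector -/
lemma choice_period [Module.Finite ℤ W] (hr : ChoiceR H r) (H' : Subgroup Q) (hle : H' ≤ H)
    (w : W) (j : ℕ) (hj : 0 < j) (hw : ChoiceFix r H' (j • w)) :
    ∃ M : ℕ, 0 < M ∧ ∀ v : B, bb v ∈ H' → r (bb (M • v)) w = w := by
  classical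
  let E : Submodule ℤ W := LinearMap.ker (LinearMap.lsmul ℤ W (j : ℤ))
  have hE : ∀ x : W, x ∈ E ↔ j • x = 0 := by
    intro x
    simp [E]
  have hfin : Finite E := by
    refine Module.finite_of_fg_torsion E ?_
    intro x
    refine ⟨⟨(j : ℤ), mem_nonZeroDivisors_of_ne_zero (by exact_mod_cast hj.ne')⟩, ?_⟩
    have := (hE x.1).1 x.2
    ext
    simpa using this
  let S : Type := {x : W // j • x = j • w}
  have hS : Finite S := by
    refine Finite.of_injective (fun x : S => (⟨x.1 - w, (hE _).2 (by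
      rw [smul_sub, x.2, sub_self])⟩ : E)) ?_
    intro x y hxy
    have := congrArg Subtype.val hxy
    simp only [sub_left_inj] at this
    exact Subtype.ext this
  refine ⟨Nat.card (Equiv.Perm S), Nat.card_pos, ?_⟩
  intro v hv
  have hvH := hle hv
  let f : S → S := fun x => ⟨r (bb v) x.1, by
    rw [← map_nsmul, x.2]
    exact hw v hv⟩
  have hf : Function.Bijective f := by
    rw [← Finite.injective_iff_bijective]
    intro x y hxy
    have := congrArg Subtype.val hxy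
    have h2 : r (bb v)⁻¹ (r (bb v) x.1) = r (bb v)⁻¹ (r (bb v) y.1) := by
      rw [show r (bb v) x.1 = r (bb v) y.1 from this]
    rw [hr.inv_l hvH, hr.inv_l hvH] at h2
    exact Subtype.ext h2
  have hpow : (Equiv.ofBijective f hf) ^ (Nat.card (Equiv.Perm S)) = 1 := pow_card_eq_one'
  have hval : ∀ n : ℕ, (((Equiv.ofBijective f hf) ^ n) ⟨w, rfl⟩ : S).1 = r (bb v ^ n) w := by
    intro n
    induction n with
    | zero => simp [hr.one]
    | succ n ih =>
      rw [pow_succ', pow_succ', Equiv.Perm.mul_apply, hr.mul' hvH (H.pow_mem hvH n), ← ih]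
      rfl
  rw [bb_nsmul, ← hval, hpow]
  rfl

lemma choice_iso_fix [Module.Finite ℤ W] (hr : ChoiceR H r) (H' : Subgroup Q) (hle : H' ≤ H)
    (hfi : H'.FiniteIndex) (w : W) (j : ℕ) (hj : 0 < j) (hw : ChoiceFix r H' (j • w)) :
    ∃ H'' : Subgroup Q, H'' ≤ H' ∧ H''.FiniteIndex ∧ ChoiceFix r H'' w := by
  obtain ⟨M, hM, h⟩ := choice_period hr H' hle w j hj hw
  obtain ⟨K, hK, hK1, -⟩ := choice_powB H' hfi
  have := choiceHB_fi (M * K) (Nat.mul_pos hM hK)
  refine ⟨H' ⊓ choiceHB (M * K), inf_le_left, inferInstance, ?_⟩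
  intro v hv
  obtain ⟨u, rfl⟩ := choiceHB_bb _ _ hv.2
  rw [mul_smul]
  exact h _ (hK1 u)

/-- the vectors fixed by the lattice part of some subgroup of finite index of `H₁` -/
def choiceWinf (r : Q → AddMonoid.End W) (H₁ : Subgroup Q) (hfi : H₁.FiniteIndex) :
    AddSubgroup W where
  carrier := {w | ∃ H' : Subgroup Q, H' ≤ H₁ ∧ H'.FiniteIndex ∧ ChoiceFix r H' w}
  zero_mem' := ⟨H₁, le_rfl, hfi, fun v _ => map_zero _⟩
  add_mem' := by
    rintro a b ⟨H', h1, h2, h3⟩ ⟨H'', g1, g2, g3⟩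
    refine ⟨H' ⊓ H'', inf_le_left.trans h1, inferInstance, ?_⟩
    intro v hv
    rw [map_add, h3 v hv.1, g3 v hv.2]
  neg_mem' := by
    rintro a ⟨H', h1, h2, h3⟩
    refine ⟨H', h1, h2, fun v hv => ?_⟩
    rw [map_neg, h3 v hv]

end

section
variable {W : Type} [AddCommGroup W] {H : Subgroup Q} {r : Q → AddMonoid.End W}

lemma choiceWinf_mem (r : Q → AddMonoid.End W) (H₁ : Subgroup Q) (hfi : H₁.FiniteIndex) (w : W) :
    w ∈ choiceWinf r H₁ hfi ↔ ∃ H' : Subgroup Q, H' ≤ H₁ ∧ H'.FiniteIndex ∧ ChoiceFix r H' w :=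
  Iff.rfl

/-- uniform choice of the subgroup -/
lemma choiceWinf_unif [Module.Finite ℤ W] (r : Q → AddMonoid.End W) (H₁ : Subgroup Q)
    (hfi : H₁.FiniteIndex) :
    ∃ H₂ : Subgroup Q, H₂ ≤ H₁ ∧ H₂.FiniteIndex ∧ ∀ w, w ∈ choiceWinf r H₁ hfi →
      ChoiceFix r H₂ w := by
  classical
  have step : ∀ F : Finset W, (∀ w ∈ F, w ∈ choiceWinf r H₁ hfi) →
      ∃ H₂ : Subgroup Q, H₂ ≤ H₁ ∧ H₂.FiniteIndex ∧ ∀ w ∈ F, ChoiceFix r H₂ w := by
    intro F
    induction F using Finset.induction_on with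
    | empty => exact fun _ => ⟨H₁, le_rfl, hfi, fun w hw => by simp at hw⟩
    | insert a F ha ih =>
      intro hF
      obtain ⟨H₂, h1, h2, h3⟩ := ih fun w hw => hF w (Finset.mem_insert_of_mem hw)
      obtain ⟨H', g1, g2, g3⟩ := hF a (Finset.mem_insert_self a F)
      refine ⟨H₂ ⊓ H', inf_le_left.trans h1, inferInstance, ?_⟩
      intro w hw
      rcases Finset.mem_insert.1 hw with rfl | hw
      · exact g3.mono inf_le_right
      · exact (h3 w hw).mono inf_le_left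
  have hfg : (choiceWinf r H₁ hfi).FG := by
    have : IsNoetherian ℤ W := inferInstance
    have h := this.noetherian (AddSubgroup.toIntSubmodule (choiceWinf r H₁ hfi))
    exact (Submodule.fg_iff_addSubgroup_fg _).1 h
  obtain ⟨F, hF⟩ := hfg
  obtain ⟨H₂, h1, h2, h3⟩ := step F fun w hw => by
    rw [← hF]
    exact AddSubgroup.subset_closure hw
  refine ⟨H₂, h1, h2, fun w hw => ?_⟩
  rw [← hF] at hw
  induction hw using AddSubgroup.closure_induction with
  | mem x hx => exact h3 x hx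
  | zero => exact fun v _ => map_zero _
  | add x y _ _ ihx ihy => exact fun v hv => by rw [map_add, ihx v hv, ihy v hv]
  | neg x _ ihx => exact fun v hv => by rw [map_neg, ihx v hv]

/-- pairs in the choice -/
structure ChoicePair (r : Q → AddMonoid.End W) (H₂ : Subgroup Q) (W₀ : AddSubgroup W)
    (H' : Subgroup Q) (U : AddSubgroup W) : Prop where
  le : H' ≤ H₂
  fi : H'.FiniteIndex
  stab : ∀ q ∈ H', ∀ w ∈ U, r q w ∈ U
  ge : W₀ ≤ U
  ne : U ≠ ⊤
  iso : ∀ (w : W) (j : ℕ), 0 < j → j • w ∈ U → w ∈ U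

lemma choice_max [Module.Finite ℤ W] (r : Q → AddMonoid.End W) (H₂ : Subgroup Q)
    (W₀ : AddSubgroup W) (h : ∃ H' U, ChoicePair r H₂ W₀ H' U) :
    ∃ H' U, ChoicePair r H₂ W₀ H' U ∧ ∀ H'' U', ChoicePair r H₂ W₀ H'' U' → U ≤ U' → U' ≤ U := by
  have hwf : WellFounded ((· > ·) : Submodule ℤ W → Submodule ℤ W → Prop) := wellFounded_gt
  obtain ⟨H₀, U₀, h0⟩ := h
  obtain ⟨P, ⟨H', hP⟩, hmax⟩ := hwf.has_min
    {P : Submodule ℤ W | ∃ H', ChoicePair r H₂ W₀ H' P.toAddSubgroup}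
    ⟨AddSubgroup.toIntSubmodule U₀, H₀, h0⟩
  refine ⟨H', P.toAddSubgroup, hP, ?_⟩
  intro H'' U' hU' hle
  by_contra hcon
  refine hmax (AddSubgroup.toIntSubmodule U') ⟨H'', hU'⟩ ?_
  refine lt_of_le_not_ge (fun x hx => hle hx) (fun hle' => hcon fun x hx => hle' hx)

/-- conjugation of lattice elements -/
lemma choice_conj {H' : Subgroup Q} {q : Q} (hq : q ∈ H') {v : B} (hv : bb v ∈ H') :
    ∃ v' : B, bb v' ∈ H' ∧ bb v * q = q * bb v' := by
  refine ⟨(phi ^ (-q.n)) v, ?_, ?_⟩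
  · have e : bb ((phi ^ (-q.n)) v) = q⁻¹ * bb v * q := by
      ext1 <;> simp
    rw [e]
    exact H'.mul_mem (H'.mul_mem (H'.inv_mem hq) hv) hq
  · ext1 <;> simp [add_comm]

/-- commutators with the stable letter -/
lemma choice_conj_tt {H' : Subgroup Q} {q : Q} (hq : q ∈ H') {m : ℕ} (hm : tt ^ m ∈ H') :
    ∃ v' : B, bb v' ∈ H' ∧ tt ^ m * q = q * (tt ^ m * bb v') := by
  have e : (tt ^ m)⁻¹ * q⁻¹ * tt ^ m * q = bb ((tt ^ m)⁻¹ * q⁻¹ * tt ^ m * q).v := by
    refine Q.ext rfl ?_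
    rw [bb_n, tt_pow]
    simp
  refine ⟨((tt ^ m)⁻¹ * q⁻¹ * tt ^ m * q).v, ?_, ?_⟩
  · rw [← e]
    exact H'.mul_mem (H'.mul_mem (H'.mul_mem (H'.inv_mem hm) (H'.inv_mem hq)) hm) hq
  · rw [← e]
    group

end

section
variable {W : Type} [AddCommGroup W] {H : Subgroup Q} {r : Q → AddMonoid.End W}

/-- a surjection onto `ℤ` killing an isolated proper subgroup -/
lemma choice_surj [Module.Finite ℤ W] (U : AddSubgroup W) (hne : U ≠ ⊤)
    (hiso : ∀ (w : W) (j : ℕ), 0 < j → j • w ∈ U → w ∈ U) :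
    ∃ (f : W →+ ℤ) (s : W), (∀ w ∈ U, f w = 0) ∧ f s = 1 := by
  classical
  let P : Submodule ℤ W := AddSubgroup.toIntSubmodule U
  have htf : Module.IsTorsionFree ℤ (W ⧸ P) := by
    rw [Module.isTorsionFree_iff_smul_eq_zero]
    intro c x hcx
    obtain ⟨w, rfl⟩ := P.mkQ_surjective x
    by_cases hc : c = 0
    · exact Or.inl hc
    · refine Or.inr ?_
      rw [← map_smul, Submodule.mkQ_apply, Submodule.Quotient.mk_eq_zero] at hcx
      rw [Submodule.mkQ_apply, Submodule.Quotient.mk_eq_zero]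
      have hpos : 0 < c.natAbs := Int.natAbs_pos.2 hc
      refine hiso w c.natAbs hpos ?_
      have h1 : c • w ∈ U := hcx
      rcases Int.natAbs_eq c with h | h
      · rw [h, natCast_zsmul] at h1
        exact h1
      · rw [h, neg_smul, natCast_zsmul] at h1
        have := U.neg_mem h1
        rwa [neg_neg] at this
  have : Module.Free ℤ (W ⧸ P) := inferInstance
  have hnt : Nontrivial (W ⧸ P) := by
    rw [Submodule.Quotient.nontrivial_iff]
    intro h
    apply hne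
    rw [eq_top_iff]
    intro x _
    have : x ∈ P := by rw [h]; trivial
    exact this
  let b := Module.Free.chooseBasis ℤ (W ⧸ P)
  have : Nonempty (Module.Free.ChooseBasisIndex ℤ (W ⧸ P)) := b.index_nonempty
  obtain ⟨i⟩ := this
  obtain ⟨s, hs⟩ := P.mkQ_surjective (b i)
  refine ⟨((b.coord i).comp P.mkQ).toAddMonoidHom, s, ?_, ?_⟩
  · intro w hw
    have : P.mkQ w = 0 := by
      rw [Submodule.mkQ_apply, Submodule.Quotient.mk_eq_zero]
      exact hw
    simp [this]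
  · show b.coord i (P.mkQ s) = 1
    rw [hs]
    simp

end

section
variable {W : Type} [AddCommGroup W] {H : Subgroup Q} {r : Q → AddMonoid.End W}

/-- vectors fixed modulo `U` by the lattice part -/
def choiceUp (r : Q → AddMonoid.End W) (H' : Subgroup Q) (U : AddSubgroup W) : AddSubgroup W where
  carrier := {w | ∀ v : B, bb v ∈ H' → r (bb v) w - w ∈ U}
  zero_mem' := fun v _ => by simp
  add_mem' := by
    intro a b ha hb v hv
    have e : r (bb v) (a + b) - (a + b) = (r (bb v) a - a) + (r (bb v) b - b) := by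
      rw [map_add]
      abel
    rw [e]
    exact U.add_mem (ha v hv) (hb v hv)
  neg_mem' := by
    intro a ha v hv
    have e : r (bb v) (-a) - (-a) = -(r (bb v) a - a) := by
      rw [map_neg]
      abel
    rw [e]
    exact U.neg_mem (ha v hv)

lemma choiceUp_mem {H' : Subgroup Q} {U : AddSubgroup W} {w : W} :
    w ∈ choiceUp r H' U ↔ ∀ v : B, bb v ∈ H' → r (bb v) w - w ∈ U := Iff.rfl

lemma choice_pow_fix (r : Q → AddMonoid.End W) (q : Q) (U : AddSubgroup W)
    (hU : ∀ x ∈ U, r q x ∈ U) (w : W) (hw : r q w - w ∈ U) (n : ℕ) :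
    (r q ^ n) w - w ∈ U := by
  induction n with
  | zero => simp
  | succ n ih =>
    rw [pow_succ']
    have e : (r q * r q ^ n) w - w = r q ((r q ^ n) w - w) + (r q w - w) := by
      rw [map_sub]
      show r q ((r q ^ n) w) - w = _
      abel
    rw [e]
    exact U.add_mem (hU _ ih) hw

/-- vectors fixed modulo `U` by a power of the stable letter -/
def choiceUt (hr : ChoiceR H r) (H' : Subgroup Q) (hle : H' ≤ H) (hfi : H'.FiniteIndex)
    (U : AddSubgroup W) (hU : ∀ q ∈ H', ∀ w ∈ U, r q w ∈ U) : AddSubgroup W where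
  carrier := {w | ∃ m : ℕ, 0 < m ∧ tt ^ m ∈ H' ∧ r (tt ^ m) w - w ∈ U}
  zero_mem' := by
    obtain ⟨K, hK, -, hK2⟩ := choice_powB H' hfi
    exact ⟨K, hK, hK2, by simp⟩
  add_mem' := by
    rintro a b ⟨m, hm, hm1, hm2⟩ ⟨n, hn, hn1, hn2⟩
    refine ⟨m * n, Nat.mul_pos hm hn, by rw [pow_mul]; exact H'.pow_mem hm1 n, ?_⟩
    have e : r (tt ^ (m * n)) (a + b) - (a + b) = (r (tt ^ (m * n)) a - a) +
        (r (tt ^ (n * m)) b - b) := by
      rw [map_add, mul_comm n m]
      abel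
    rw [e, pow_mul, pow_mul, hr.pow (hle hm1), hr.pow (hle hn1)]
    exact U.add_mem (choice_pow_fix r _ U (hU _ hm1) a hm2 n)
      (choice_pow_fix r _ U (hU _ hn1) b hn2 m)
  neg_mem' := by
    rintro a ⟨m, hm, hm1, hm2⟩
    refine ⟨m, hm, hm1, ?_⟩
    have e : r (tt ^ m) (-a) - (-a) = -(r (tt ^ m) a - a) := by
      rw [map_neg]
      abel
    rw [e]
    exact U.neg_mem hm2

theorem choice_core [Module.Finite ℤ W] (hr : ChoiceR H r) (H₁ : Subgroup Q) (hle1 : H₁ ≤ H)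
    (hfi1 : H₁.FiniteIndex) (k : ℕ)
    (htor : ∀ v : B, bb v ∈ H₁ → ∀ w : W, ∃ d : ℕ, 0 < d ∧ d • (((r (bb v) - 1) ^ k) w) = 0) :
    (∃ H' : Subgroup Q, H'.FiniteIndex ∧ H' ≤ H ∧ ∀ v : B, bb v ∈ H' → r (bb v) = 1) ∨
    (∃ H' : Subgroup Q, H'.FiniteIndex ∧ H' ≤ H ∧ ∃ U : AddSubgroup W,
      (∀ q ∈ H', ∀ w ∈ U, r q w ∈ U) ∧
      U ≠ ⊤ ∧
      (∀ (w : W) (j : ℕ), 0 < j → j • w ∈ U → w ∈ U) ∧
      (∀ w : W, ChoiceFix r H' w → w ∈ U) ∧
      (∀ (w : W) (j : ℕ), 0 < j → ChoiceFix r H' (j • w) → ChoiceFix r H' w) ∧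
      (∀ v : B, bb v ∈ H' → ∀ w : W, r (bb v) w - w ∈ U) ∧
      (∀ U' U'' : AddSubgroup W, U' < U'' →
        (∀ v : B, bb v ∈ H' → ∀ w : W, w ∈ U' → r (bb v) w ∈ U') →
        (∀ v : B, bb v ∈ H' → ∀ w : W, w ∈ U'' → r (bb v) w ∈ U'') →
        (∀ (w : W) (j : ℕ), 0 < j → j • w ∈ U' → w ∈ U') →
        ∃ w ∈ U'', w ∉ U' ∧ ∀ v : B, bb v ∈ H' → r (bb v) w - w ∈ U') ∧
      ((∀ m : ℕ, 0 < m → tt ^ m ∈ H' → ∀ w : W, r (tt ^ m) w - w ∈ U → w ∈ U) ∨
       (∃ s : W, (∀ w : W, ∃ k : ℤ, w - k • s ∈ U) ∧ ∀ q ∈ H', r q s - s ∈ U))) := by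
  classical
  obtain ⟨H₂, hle2, hfi2, hfix2⟩ := choiceWinf_unif r H₁ hfi1
  set W₀ := choiceWinf r H₁ hfi1 with hW₀
  have hW₀mem : ∀ w, w ∈ W₀ ↔ ∃ H' : Subgroup Q, H' ≤ H₁ ∧ H'.FiniteIndex ∧ ChoiceFix r H' w :=
    fun w => Iff.rfl
  by_cases htop : W₀ = ⊤
  · refine Or.inl ⟨H₂, hfi2, hle2.trans hle1, fun v hv => ?_⟩
    ext w
    exact hfix2 w (by rw [htop]; trivial) v hv
  refine Or.inr ?_
  -- isolated and stable
  have hisoW : ∀ (w : W) (j : ℕ), 0 < j → j • w ∈ W₀ → w ∈ W₀ := by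
    intro w j hj hw
    obtain ⟨H', h1, h2, h3⟩ := hw
    obtain ⟨H'', g1, g2, g3⟩ := choice_iso_fix hr H' (h1.trans hle1) h2 w j hj h3
    exact ⟨H'', g1.trans h1, g2, g3⟩
  have hpair0 : ChoicePair r H₂ W₀ H₂ W₀ := by
    refine ⟨le_rfl, hfi2, ?_, le_rfl, htop, hisoW⟩
    intro q hq w hw
    refine ⟨H₂, hle2, hfi2, fun v hv => ?_⟩
    obtain ⟨v', hv', e⟩ := choice_conj hq hv
    have hqH := hle1 (hle2 hq)
    rw [← hr.mul' (hle1 (hle2 hv)) hqH, e, hr.mul' hqH (hle1 (hle2 hv')), hfix2 w hw v' hv']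
  obtain ⟨H', U, hP, hmax⟩ := choice_max r H₂ W₀ ⟨H₂, W₀, hpair0⟩
  have hle' : H' ≤ H := hP.le.trans (hle2.trans hle1)
  have hle'1 : H' ≤ H₁ := hP.le.trans hle2
  -- (UN)
  have hUN : ∀ H'' : Subgroup Q, H'' ≤ H' → ∀ U' U'' : AddSubgroup W, U' < U'' →
        (∀ v : B, bb v ∈ H'' → ∀ w : W, w ∈ U' → r (bb v) w ∈ U') →
        (∀ v : B, bb v ∈ H'' → ∀ w : W, w ∈ U'' → r (bb v) w ∈ U'') →
        (∀ (w : W) (j : ℕ), 0 < j → j • w ∈ U' → w ∈ U') →
        ∃ w ∈ U'', w ∉ U' ∧ ∀ v : B, bb v ∈ H'' → r (bb v) w - w ∈ U' := by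
    intro H'' h'' U' U'' hlt hs' hs'' hiso
    exact choice_un hr H'' (h''.trans hle') k (fun v hv => htor v (hle'1 (h'' hv))) U' U'' hlt hs'
      hs'' hiso
  -- fixed vectors
  have hFix : ∀ H'' : Subgroup Q, H'' ≤ H' → H''.FiniteIndex → ∀ w : W, ChoiceFix r H'' w →
      w ∈ W₀ := fun H'' h1 h2 w hw => ⟨H'', h1.trans hle'1, h2, hw⟩
  have hFixj : ∀ H'' : Subgroup Q, H'' ≤ H' → H''.FiniteIndex → ∀ (w : W) (j : ℕ), 0 < j →
      ChoiceFix r H'' (j • w) → ChoiceFix r H'' w := by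
    intro H'' h1 h2 w j hj hw
    exact (hfix2 w (hisoW w j hj (hFix H'' h1 h2 _ hw))).mono (h1.trans hP.le)
  -- the lattice acts trivially modulo `U`
  have hUp : choiceUp r H' U = ⊤ := by
    by_contra hne
    have hp : ChoicePair r H₂ W₀ H' (choiceUp r H' U) := by
      refine ⟨hP.le, hP.fi, ?_, ?_, hne, ?_⟩
      · intro q hq w hw v hv
        obtain ⟨v', hv', e⟩ := choice_conj hq hv
        rw [← hr.mul' (hle' hv) (hle' hq), e, hr.mul' (hle' hq) (hle' hv'), ← map_sub]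
        exact hP.stab q hq _ (hw v' hv')
      · exact fun w hw v hv => U.sub_mem (hP.stab _ hv w (hP.ge hw)) (hP.ge hw)
      · intro w j hj hw v hv
        refine hP.iso _ j hj ?_
        have := hw v hv
        rwa [map_nsmul, ← smul_sub] at this
    have hle := hmax H' _ hp (fun w hw v hv => U.sub_mem (hP.stab _ hv w hw) hw)
    obtain ⟨w, -, hw, hw'⟩ := hUN H' le_rfl U ⊤ (lt_top_iff_ne_top.2 hP.ne)
      (fun v hv w hw => hP.stab _ hv w hw) (fun _ _ _ _ => trivial) hP.iso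
    exact hw (hle hw')
  have hUp' : ∀ v : B, bb v ∈ H' → ∀ w : W, r (bb v) w - w ∈ U := by
    intro v hv w
    have : w ∈ choiceUp r H' U := by rw [hUp]; trivial
    exact this v hv
  by_cases hUt : choiceUt hr H' hle' hP.fi U hP.stab ≤ U
  · -- type N
    refine ⟨H', hP.fi, hle', U, hP.stab, hP.ne, hP.iso, fun w hw => hP.ge (hFix H' le_rfl hP.fi w hw),
      hFixj H' le_rfl hP.fi, hUp', hUN H' le_rfl, Or.inl ?_⟩
    intro m hm hm1 w hw
    exact hUt ⟨m, hm, hm1, hw⟩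
  · -- type F
    have hUt' : choiceUt hr H' hle' hP.fi U hP.stab = ⊤ := by
      by_contra hne
      apply hUt
      refine hmax H' _ ⟨hP.le, hP.fi, ?_, ?_, hne, ?_⟩ ?_
      · rintro q hq w ⟨m, hm, hm1, hm2⟩
        refine ⟨m, hm, hm1, ?_⟩
        obtain ⟨v', hv', e⟩ := choice_conj_tt hq hm1
        rw [← hr.mul' (hle' hm1) (hle' hq), e, hr.mul' (hle' hq) (hle' (H'.mul_mem hm1 hv')),
          hr.mul' (hle' hm1) (hle' hv'), ← map_sub]
        refine hP.stab q hq _ ?_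
        have e2 : r (tt ^ m) (r (bb v') w) - w =
            r (tt ^ m) (r (bb v') w - w) + (r (tt ^ m) w - w) := by
          rw [map_sub]
          abel
        rw [e2]
        exact U.add_mem (hP.stab _ hm1 _ (hUp' v' hv' w)) hm2
      · intro w hw
        obtain ⟨K, hK, -, hK2⟩ := choice_powB H' hP.fi
        exact ⟨K, hK, hK2, U.sub_mem (hP.stab _ hK2 w (hP.ge hw)) (hP.ge hw)⟩
      · rintro w j hj ⟨m, hm, hm1, hm2⟩
        refine ⟨m, hm, hm1, hP.iso _ j hj ?_⟩
        rwa [map_nsmul, ← smul_sub] at hm2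
      · intro w hw
        obtain ⟨K, hK, -, hK2⟩ := choice_powB H' hP.fi
        exact ⟨K, hK, hK2, U.sub_mem (hP.stab _ hK2 w hw) hw⟩
    -- one exponent
    have hstep : ∀ F : Finset W, ∃ m : ℕ, 0 < m ∧ tt ^ m ∈ H' ∧ ∀ w ∈ F, r (tt ^ m) w - w ∈ U := by
      intro F
      induction F using Finset.induction_on with
      | empty =>
        obtain ⟨K, hK, -, hK2⟩ := choice_powB H' hP.fi
        exact ⟨K, hK, hK2, fun w hw => by simp at hw⟩
      | insert a F ha ih =>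
        obtain ⟨m, hm, hm1, hm2⟩ := ih
        have ha' : a ∈ choiceUt hr H' hle' hP.fi U hP.stab := by rw [hUt']; trivial
        obtain ⟨n, hn, hn1, hn2⟩ := ha'
        refine ⟨m * n, Nat.mul_pos hm hn, by rw [pow_mul]; exact H'.pow_mem hm1 n, ?_⟩
        intro w hw
        rcases Finset.mem_insert.1 hw with rfl | hw
        · rw [mul_comm, pow_mul, hr.pow (hle' hn1)]
          exact choice_pow_fix r _ U (hP.stab _ hn1) w hn2 m
        · rw [pow_mul, hr.pow (hle' hm1)]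
          exact choice_pow_fix r _ U (hP.stab _ hm1) w (hm2 w hw) n
    have hfg : (⊤ : AddSubgroup W).FG := by
      have : IsNoetherian ℤ W := inferInstance
      have h := this.noetherian (AddSubgroup.toIntSubmodule (⊤ : AddSubgroup W))
      exact (Submodule.fg_iff_addSubgroup_fg _).1 h
    obtain ⟨F, hF⟩ := hfg
    obtain ⟨m, hm, hm1, hm2⟩ := hstep F
    have hm3 : ∀ w : W, r (tt ^ m) w - w ∈ U := by
      intro w
      have hw : w ∈ AddSubgroup.closure (F : Set W) := by rw [hF]; trivial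
      induction hw using AddSubgroup.closure_induction with
      | mem x hx => exact hm2 x hx
      | zero => simp
      | add x y _ _ ihx ihy =>
        have e : r (tt ^ m) (x + y) - (x + y) = (r (tt ^ m) x - x) + (r (tt ^ m) y - y) := by
          rw [map_add]
          abel
        rw [e]
        exact U.add_mem ihx ihy
      | neg x _ ihx =>
        have e : r (tt ^ m) (-x) - (-x) = -(r (tt ^ m) x - x) := by
          rw [map_neg]
          abel
        rw [e]
        exact U.neg_mem ihx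
    have hfin := choiceHN_fi m hm
    have hfi' := hP.fi
    -- triviality modulo `U`
    have htriv : ∀ q ∈ H' ⊓ choiceHN m, ∀ w : W, r q w - w ∈ U := by
      rintro q ⟨hq, ⟨c, hc⟩⟩ w
      have hz : ∀ n : ℕ, r ((tt ^ m) ^ n) w - w ∈ U := by
        intro n
        rw [hr.pow (hle' hm1)]
        exact choice_pow_fix r _ U (hP.stab _ hm1) w (hm3 w) n
      have hz' : r ((tt ^ m) ^ c) w - w ∈ U := by
        obtain ⟨n, rfl | rfl⟩ := c.eq_nat_or_neg
        · rw [zpow_natCast]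
          exact hz n
        · rw [zpow_neg, zpow_natCast]
          have hmem : (tt ^ m) ^ n ∈ H' := H'.pow_mem hm1 n
          have e : r ((tt ^ m) ^ n)⁻¹ w - w = -(r ((tt ^ m) ^ n)⁻¹ (r ((tt ^ m) ^ n) w - w)) := by
            rw [map_sub, hr.inv_l (hle' hmem)]
            abel
          rw [e]
          exact U.neg_mem (hP.stab _ (H'.inv_mem hmem) _ (hz n))
      have hmem : (tt ^ m) ^ c ∈ H' := H'.zpow_mem hm1 c
      have eq : q = bb q.v * (tt ^ m) ^ c := by
        conv_lhs => rw [eq_bb_mul_tt q, hc, zpow_mul, zpow_natCast]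
      have hbv : bb q.v ∈ H' := by
        have : bb q.v = q * ((tt ^ m) ^ c)⁻¹ := eq_mul_inv_of_mul_eq eq.symm
        rw [this]
        exact H'.mul_mem hq (H'.inv_mem hmem)
      rw [eq, hr.mul' (hle' hbv) (hle' hmem)]
      have e : r (bb q.v) (r ((tt ^ m) ^ c) w) - w =
          r (bb q.v) (r ((tt ^ m) ^ c) w - w) + (r (bb q.v) w - w) := by
        rw [map_sub]
        abel
      rw [e]
      exact U.add_mem (hP.stab _ hbv _ hz') (hUp' _ hbv w)
    obtain ⟨f, s, hf, hs⟩ := choice_surj U hP.ne hP.iso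
    have hUf : ∀ x ∈ U, x ∈ f.ker := fun x hx => by
      rw [AddMonoidHom.mem_ker]
      exact hf x hx
    refine ⟨H' ⊓ choiceHN m, inferInstance, inf_le_left.trans hle', f.ker, ?_, ?_, ?_, ?_, ?_, ?_,
      hUN _ inf_le_left, Or.inr ⟨s, ?_, ?_⟩⟩
    · intro q hq w hw
      have h1 := hUf _ (htriv q hq w)
      have := f.ker.add_mem h1 hw
      rwa [sub_add_cancel] at this
    · intro h
      have : s ∈ f.ker := by rw [h]; trivial
      rw [AddMonoidHom.mem_ker, hs] at this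
      exact one_ne_zero this
    · intro w j hj hw
      rw [AddMonoidHom.mem_ker, map_nsmul] at hw
      rw [AddMonoidHom.mem_ker]
      have h2 : (j : ℤ) * f w = 0 := by simpa using hw
      rcases mul_eq_zero.1 h2 with h | h
      · exact absurd (by exact_mod_cast h) hj.ne'
      · exact h
    · exact fun w hw => hUf _ (hP.ge (hFix _ inf_le_left inferInstance w hw))
    · exact hFixj _ inf_le_left inferInstance
    · exact fun v hv w => hUf _ (hUp' v hv.1 w)
    · intro w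
      refine ⟨f w, ?_⟩
      rw [AddMonoidHom.mem_ker, map_sub, map_zsmul, hs]
      simp
    · exact fun q hq => hUf _ (htriv q hq s)

end

theorem choice (W : Type) [AddCommGroup W] [Module.Finite ℤ W] (H : Subgroup Q) (hH : H.FiniteIndex)
    (ρ : H →* AddMonoid.End W) :
    (∃ (H' : Subgroup Q) (_ : H'.FiniteIndex) (hle : H' ≤ H), ∀ (v : B) (hv : bb v ∈ H'),
        ρ ⟨bb v, hle hv⟩ = 1) ∨
    (∃ (H' : Subgroup Q) (_ : H'.FiniteIndex) (hle : H' ≤ H) (U : AddSubgroup W),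
      (∀ (q : Q) (hq : q ∈ H') (w : W), w ∈ U → ρ ⟨q, hle hq⟩ w ∈ U) ∧
      U ≠ ⊤ ∧
      (∀ (w : W) (j : ℕ), 0 < j → j • w ∈ U → w ∈ U) ∧
      (∀ w : W, (∀ (v : B) (hv : bb v ∈ H'), ρ ⟨bb v, hle hv⟩ w = w) → w ∈ U) ∧
      (∀ (w : W) (j : ℕ), 0 < j → (∀ (v : B) (hv : bb v ∈ H'), ρ ⟨bb v, hle hv⟩ (j • w) = j • w) →
        ∀ (v : B) (hv : bb v ∈ H'), ρ ⟨bb v, hle hv⟩ w = w) ∧
      (∀ (v : B) (hv : bb v ∈ H') (w : W), ρ ⟨bb v, hle hv⟩ w - w ∈ U) ∧
      (∀ U' U'' : AddSubgroup W, U' < U'' →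
        (∀ (v : B) (hv : bb v ∈ H') (w : W), w ∈ U' → ρ ⟨bb v, hle hv⟩ w ∈ U') →
        (∀ (v : B) (hv : bb v ∈ H') (w : W), w ∈ U'' → ρ ⟨bb v, hle hv⟩ w ∈ U'') →
        (∀ (w : W) (j : ℕ), 0 < j → j • w ∈ U' → w ∈ U') →
        ∃ w ∈ U'', w ∉ U' ∧ ∀ (v : B) (hv : bb v ∈ H'), ρ ⟨bb v, hle hv⟩ w - w ∈ U') ∧
      ((∀ (m : ℕ), 0 < m → ∀ (hm : tt ^ m ∈ H') (w : W), ρ ⟨tt ^ m, hle hm⟩ w - w ∈ U → w ∈ U) ∨
       (∃ s : W, (∀ w : W, ∃ k : ℤ, w - k • s ∈ U) ∧
          ∀ (q : Q) (hq : q ∈ H'), ρ ⟨q, hle hq⟩ s - s ∈ U))) := by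
  classical
  let r : Q → AddMonoid.End W := fun q => if h : q ∈ H then ρ ⟨q, h⟩ else 1
  have hrρ : ∀ (q : Q) (h : q ∈ H), r q = ρ ⟨q, h⟩ := fun q h => dif_pos h
  have hr : ChoiceR H r := by
    constructor
    · rw [hrρ 1 H.one_mem]
      exact map_one ρ
    · intro q hq q' hq'
      rw [hrρ q hq, hrρ q' hq', hrρ _ (H.mul_mem hq hq'), ← map_mul]
      rfl
  obtain ⟨K, hK, hK1, hK2⟩ := choice_powB H hH
  let β : Multiplicative B →* AddMonoid.End W :=
    { toFun := fun v => r (bb (K • Multiplicative.toAdd v))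
      map_one' := by simp [hr.one]
      map_mul' := by
        intro x y
        rw [toAdd_mul, smul_add, bb_add, hr.mul _ (hK1 _) _ (hK1 _)] }
  have hrel : ∀ v : B, r (tt ^ K) * β (Multiplicative.ofAdd v) =
      β (Multiplicative.ofAdd ((phi ^ K) v)) * r (tt ^ K) := by
    intro v
    show r (tt ^ K) * r (bb (K • v)) = r (bb (K • ((phi ^ K) v))) * r (tt ^ K)
    rw [← hr.mul _ hK2 _ (hK1 _), ← hr.mul _ (hK1 _) _ hK2, ← map_nsmul]
    congr 1
    have := tt_conj (K : ℤ) (K • v)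
    rw [zpow_natCast, zpow_natCast] at this
    rw [← this]
    group
  obtain ⟨L, k, hL, hLk⟩ := unip_core W K hK β (r (tt ^ K)) (r (tt ^ K)⁻¹)
    (by rw [← hr.mul _ hK2 _ (H.inv_mem hK2), mul_inv_cancel, hr.one])
    (by rw [← hr.mul _ (H.inv_mem hK2) _ hK2, inv_mul_cancel, hr.one]) hrel
  have hfiB := choiceHB_fi (K * L) (Nat.mul_pos hK hL)
  have hcore := choice_core hr (H ⊓ choiceHB (K * L)) inf_le_left inferInstance k (by
    rintro v ⟨-, hv⟩ w
    obtain ⟨v', rfl⟩ := choiceHB_bb _ _ hv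
    obtain ⟨d, hd, hd'⟩ := hLk v' w
    refine ⟨d, hd, ?_⟩
    rw [mul_smul]
    exact hd')
  rcases hcore with ⟨H', h1, h2, h3⟩ | ⟨H', h1, h2, U, g1, g2, g3, g4, g5, g6, g7, g8⟩
  · refine Or.inl ⟨H', h1, h2, fun v hv => ?_⟩
    rw [← hrρ]
    exact h3 v hv
  · refine Or.inr ⟨H', h1, h2, U, ?_, g2, g3, ?_, ?_, ?_, ?_, ?_⟩
    · intro q hq w hw
      rw [← hrρ]
      exact g1 q hq w hw
    · intro w hw
      refine g4 w fun v hv => ?_
      rw [hrρ _ (h2 hv)]
      exact hw v hv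
    · intro w j hj hw v hv
      rw [← hrρ]
      refine g5 w j hj (fun v hv => ?_) v hv
      rw [hrρ _ (h2 hv)]
      exact hw v hv
    · intro v hv w
      rw [← hrρ]
      exact g6 v hv w
    · intro U' U'' hlt hs' hs'' hiso
      obtain ⟨w, hw, hw', hw''⟩ := g7 U' U'' hlt
        (fun v hv w hw => by rw [hrρ _ (h2 hv)]; exact hs' v hv w hw)
        (fun v hv w hw => by rw [hrρ _ (h2 hv)]; exact hs'' v hv w hw) hiso
      refine ⟨w, hw, hw', fun v hv => ?_⟩
      rw [← hrρ]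
      exact hw'' v hv
    · rcases g8 with g8 | ⟨s, g8, g9⟩
      · refine Or.inl fun m hm hm1 w hw => g8 m hm hm1 w ?_
        rw [hrρ _ (h2 hm1)]
        exact hw
      · refine Or.inr ⟨s, g8, fun q hq => ?_⟩
        rw [← hrρ]
        exact g9 q hq

end Pool.Agent.Helper22.AutMet
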