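import Mathlib
import Pool.Agent.Helper22.AutMet.Base
import Pool.Agent.Helper22.AutMet.Arith
/-! (J') ideals containing an orbit are of finite index. -/

set_option autoImplicit false

namespace Pool.Agent.Helper22.AutMet

/-- Finiteness of a quotient ring in two steps. -/
lemma jprime_finite_step {R : Type} [CommRing R] (I : Ideal R) (a : R)
    (h1 : Finite (R ⧸ (I ⊔ Ideal.span {a}))) (h2 : Finite (R ⧸ (I.colon (Ideal.span {a})))) :
    Finite (R ⧸ I) := by
  classical
  -- the image of multiplication by `a`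
  let g : R → R ⧸ I := fun r => Ideal.Quotient.mk I (r * a)
  have hg : (Set.range g).Finite := by
    let g' : (R ⧸ (I.colon (Ideal.span {a}))) → R ⧸ I := fun x => g (Quotient.out x)
    refine (Set.finite_range g').subset ?_
    rintro _ ⟨r, rfl⟩
    refine ⟨Ideal.Quotient.mk _ r, ?_⟩
    have : Ideal.Quotient.mk (I.colon (Ideal.span {a})) (Quotient.out
        (Ideal.Quotient.mk (I.colon (Ideal.span {a})) r)) =
        Ideal.Quotient.mk (I.colon (Ideal.span {a})) r := Quotient.out_eq _
    rw [Ideal.Quotient.eq] at this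
    have h3 := Ideal.mem_colon_span_singleton.1 this
    show Ideal.Quotient.mk I _ = Ideal.Quotient.mk I _
    rw [Ideal.Quotient.eq]
    rw [← sub_mul]
    exact h3
  let f : R ⧸ I →+* R ⧸ (I ⊔ Ideal.span {a}) := Ideal.Quotient.factor le_sup_left
  have hfin : (Set.univ : Set (R ⧸ I)).Finite := by
    refine Set.Finite.of_finite_fibers f (s := Set.univ) (Set.toFinite _) ?_
    rintro y -
    by_cases hy : ∃ x, f x = y
    · obtain ⟨x, hx⟩ := hy
      refine (hg.image (fun z => x + z)).subset ?_
      rintro z ⟨-, hz⟩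
      refine ⟨z - x, ?_, by simp⟩
      have hzx : f (z - x) = 0 := by
        rw [map_sub, hx]
        have : f z = y := hz
        rw [this, sub_self]
      obtain ⟨w, hw⟩ := Ideal.Quotient.mk_surjective (z - x)
      rw [← hw] at hzx ⊢
      have hw2 : w ∈ I ⊔ Ideal.span {a} := by
        have : f (Ideal.Quotient.mk I w) = Ideal.Quotient.mk (I ⊔ Ideal.span {a}) w := rfl
        rw [this] at hzx
        exact Ideal.Quotient.eq_zero_iff_mem.1 hzx
      obtain ⟨i, hi, s, hs, rfl⟩ := Submodule.mem_sup.1 hw2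
      obtain ⟨c, rfl⟩ := Ideal.mem_span_singleton'.1 hs
      refine ⟨c, ?_⟩
      show Ideal.Quotient.mk I _ = Ideal.Quotient.mk I _
      rw [Ideal.Quotient.eq]
      simpa using I.neg_mem hi
    · convert Set.finite_empty
      ext z
      simp only [Set.mem_inter_iff, Set.mem_univ, true_and, Set.mem_preimage,
        Set.mem_singleton_iff, Set.mem_empty_iff_false, iff_false]
      exact fun h => hy ⟨z, h⟩
  exact Set.finite_univ_iff.1 hfin

/-- The Oka property. -/
lemma jprime_oka (c : ℕ → D) :
    Ideal.IsOka (fun 𝔞 : Ideal D => (∀ j : ℕ, c j ∈ 𝔞) → Finite (D ⧸ 𝔞)) where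
  top := by
    intro _
    have : Subsingleton (D ⧸ (⊤ : Ideal D)) := Ideal.Quotient.subsingleton_iff.2 rfl
    infer_instance
  oka := by
    intro I a h1 h2 h
    refine jprime_finite_step I a (h1 fun j => ?_) (h2 fun j => ?_)
    · exact Submodule.mem_sup_left (h j)
    · exact Ideal.mem_colon_span_singleton.2 (I.mul_mem_right _ (h j))

instance jprime_noeth : IsNoetherianRing D := by
  have h1 : AddMonoid.FG B := by infer_instance
  have h2 : Algebra.FiniteType (ZMod 2) D := by infer_instance
  exact Algebra.FiniteType.isNoetherianRing (ZMod 2) D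


lemma jprime_sum_mon (d : D) : d = ∑ v ∈ d.coeff.support, mon v := by
  conv_lhs => rw [← AddMonoidAlgebra.sum_coeff_single d]
  rw [Finsupp.sum]
  refine Finset.sum_congr rfl fun v hv => ?_
  have h0 : d.coeff v ≠ 0 := Finsupp.mem_support_iff.1 hv
  have h1 : d.coeff v = 1 := by
    generalize d.coeff v = c at h0
    revert c
    decide
  rw [h1]
  rfl

lemma jprime_mon_add (v w : B) : mon (v + w) = mon v * mon w := by
  simp [mon, AddMonoidAlgebra.single_mul_single]

lemma jprime_mon_zero : mon 0 = 1 := rfl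

/-- If every monomial is integral, then so is everything. -/
lemma jprime_integral (P : Ideal D)
    (hall : ∀ b : B, IsIntegral (ZMod 2) (Ideal.Quotient.mk P (mon b))) :
    Finite (D ⧸ P) := by
  have hint : Algebra.IsIntegral (ZMod 2) (D ⧸ P) := by
    refine ⟨fun x => ?_⟩
    obtain ⟨d, rfl⟩ := Ideal.Quotient.mk_surjective x
    rw [jprime_sum_mon d, map_sum]
    exact IsIntegral.sum _ fun v _ => hall v
  have hft : Algebra.FiniteType (ZMod 2) D := by infer_instance
  have hft2 : Algebra.FiniteType (ZMod 2) (D ⧸ P) :=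
    Algebra.FiniteType.of_surjective (Ideal.Quotient.mkₐ (ZMod 2) P)
      (Ideal.Quotient.mkₐ_surjective _ _)
  have : Module.Finite (ZMod 2) (D ⧸ P) := Algebra.IsIntegral.finite
  exact Module.finite_of_finite (ZMod 2)

/-- A valuation which is not bounded by one on a non integral element. -/
lemma jprime_val {L : Type} [Field L] [Algebra (ZMod 2) L] (x : L)
    (hx : ¬ IsIntegral (ZMod 2) x) : ∃ O : ValuationSubring L, x ∉ O := by
  by_contra hall
  push Not at hall
  apply hx
  have h1 := iInf_valuationSubring_superset (K := L) (s := ∅)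
  have h2 : x ∈ (integralClosure (Subring.closure (∅ : Set L)) L).toSubring := by
    rw [← h1]
    rw [Subring.mem_iInf]
    intro V
    exact hall V.1
  have h3 : IsIntegral (Subring.closure (∅ : Set L)) x := h2
  have h4 : Algebra.IsIntegral ℤ (Subring.closure (∅ : Set L)) := by
    refine ⟨fun y => ?_⟩
    have hy : (y : L) ∈ (Int.castRingHom L).range := by
      have : Subring.closure (∅ : Set L) ≤ (Int.castRingHom L).range := by
        rw [Subring.closure_le]; simp
      exact this y.2
    obtain ⟨n, hn⟩ := hy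
    have : y = algebraMap ℤ _ n := by
      apply Subtype.ext
      rw [← hn]
      simp
    rw [this]
    exact isIntegral_algebraMap
  have h5 : IsIntegral ℤ x := isIntegral_trans (A := Subring.closure (∅ : Set L)) x h3
  exact h5.tower_top

/-- The prime case. -/
lemma jprime_prime (K : ℕ) (hK : 0 < K) (δ : D) (hδ : δ ≠ 0) (P : Ideal D) (hP : P.IsPrime)
    (h : ∀ j : ℕ, phiD (phi ^ (-(j * K : ℤ))) δ ∈ P) : Finite (D ⧸ P) := by
  classical
  by_contra hinf
  obtain ⟨b0, hb0⟩ : ∃ b : B, ¬ IsIntegral (ZMod 2) (Ideal.Quotient.mk P (mon b)) := by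
    by_contra hall
    push Not at hall
    exact hinf (jprime_integral P hall)
  let L := FractionRing (D ⧸ P)
  let X : B → L := fun v => algebraMap (D ⧸ P) L (Ideal.Quotient.mk P (mon v))
  have hinj : Function.Injective (algebraMap (D ⧸ P) L) := IsFractionRing.injective _ _
  have hXadd : ∀ v w, X (v + w) = X v * X w := by
    intro v w
    simp only [X, jprime_mon_add, map_mul]
  have hX0 : X 0 = 1 := by
    simp only [X, jprime_mon_zero, map_one]
  have hXne : ∀ v, X v ≠ 0 := by
    intro v hv
    have := hXadd v (-v)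
    rw [hv, zero_mul, add_neg_cancel, hX0] at this
    exact one_ne_zero this
  have hb1 : ¬ IsIntegral (ZMod 2) (X b0) := by
    intro hi
    exact hb0 ((isIntegral_algebraMap_iff hinj).1 hi)
  obtain ⟨O, hO⟩ := jprime_val (X b0) hb1
  let val := O.valuation
  -- the subgroup of trivial vectors
  let U : AddSubgroup B :=
    { carrier := {u | val (X u) = 1}
      zero_mem' := by simp [hX0]
      add_mem' := by
        intro a b ha hb
        simp only [Set.mem_ofPred_eq] at *
        rw [hXadd, map_mul, ha, hb, mul_one]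
      neg_mem' := by
        intro a ha
        simp only [Set.mem_ofPred_eq] at *
        have h1 : val (X (a + -a)) = 1 := by rw [add_neg_cancel, hX0, map_one]
        rw [hXadd, map_mul, ha, one_mul] at h1
        exact h1 }
  have hUmem : ∀ u, u ∈ U ↔ val (X u) = 1 := fun u => Iff.rfl
  have hXn : ∀ (n : ℕ) u, X (n • u) = X u ^ n := by
    intro n u
    induction n with
    | zero => simp [hX0]
    | succ n ih => rw [succ_nsmul, hXadd, ih, pow_succ]
  have hUnat : ∀ (n : ℕ) u, n ≠ 0 → n • u ∈ U → u ∈ U := by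
    intro n u hn hu
    rw [hUmem, hXn, map_pow] at hu
    rw [hUmem]
    exact (pow_eq_one_iff_of_nonneg zero_le hn).1 hu
  have hUint : ∀ (n : ℤ) u, n ≠ 0 → n • u ∈ U → u ∈ U := by
    intro n u hn hu
    have h1 : (n.natAbs : ℤ) • u ∈ U := by
      rcases Int.natAbs_eq n with h2 | h2
      · rw [← h2]; exact hu
      · have : (n.natAbs : ℤ) • u = -(n • u) := by
          conv_rhs => rw [h2]
          simp
        rw [this]
        exact U.neg_mem hu
    rw [natCast_zsmul] at h1
    exact hUnat _ u (Int.natAbs_ne_zero.2 hn) h1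
  -- relations
  have hrel : ∀ j : ℕ, ∑ v ∈ δ.coeff.support, X ((phi ^ (-(j * K : ℤ))) v) = 0 := by
    intro j
    have h1 := h j
    rw [jprime_sum_mon δ, map_sum] at h1
    simp only [phiD_mon] at h1
    have h2 := (Ideal.Quotient.eq_zero_iff_mem).2 h1
    have h3 := congrArg (algebraMap (D ⧸ P) L) h2
    rw [map_sum, map_sum, map_zero] at h3
    convert h3 using 1
  have hne : δ.coeff.support.Nonempty := by
    rw [Finset.nonempty_iff_ne_empty]
    intro he
    apply hδ
    rw [jprime_sum_mon δ, he, Finset.sum_empty]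
  -- two terms of the same valuation
  have hz : ∀ j : ℕ, ∃ p ∈ δ.coeff.support ×ˢ δ.coeff.support, p.1 ≠ p.2 ∧
      (phi ^ (-(j * K : ℤ))) (p.1 - p.2) ∈ U := by
    intro j
    obtain ⟨v0, hv0, hmax⟩ := Finset.exists_max_image δ.coeff.support
      (fun v => val (X ((phi ^ (-(j * K : ℤ))) v))) hne
    by_contra hcon
    push Not at hcon
    have hlt : ∀ v ∈ δ.coeff.support \ {v0}, val (X ((phi ^ (-(j * K : ℤ))) v)) <
        val (X ((phi ^ (-(j * K : ℤ))) v0)) := by
      intro v hv
      rw [Finset.mem_sdiff, Finset.mem_singleton] at hv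
      refine lt_of_le_of_ne (hmax v hv.1) ?_
      intro he
      refine hcon (v, v0) (Finset.mem_product.2 ⟨hv.1, hv0⟩) hv.2 ?_
      rw [hUmem]
      have h1 : X ((phi ^ (-(j * K : ℤ))) v) = X ((phi ^ (-(j * K : ℤ))) (v - v0)) *
          X ((phi ^ (-(j * K : ℤ))) v0) := by
        rw [← hXadd, ← map_add, sub_add_cancel]
      rw [h1, map_mul] at he
      have hne0 : val (X ((phi ^ (-(j * K : ℤ))) v0)) ≠ 0 :=
        (Valuation.ne_zero_iff val).2 (hXne _)
      exact mul_right_cancel₀ hne0 (by rw [he, one_mul])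
    have h1 := Valuation.map_sum_eq_of_lt val hv0 hlt
    rw [hrel j, map_zero] at h1
    exact (Valuation.ne_zero_iff val).2 (hXne _) h1.symm
  choose p hp hpne hpU using hz
  obtain ⟨j, j', hjj, hpp⟩ : ∃ j j' : ℕ, j ≠ j' ∧ p j = p j' := by
    let f : ℕ → (δ.coeff.support ×ˢ δ.coeff.support : Finset (B × B)) := fun j => ⟨p j, hp j⟩
    obtain ⟨j, j', hjj, hf⟩ := Finite.exists_ne_map_eq_of_infinite f
    exact ⟨j, j', hjj, congrArg Subtype.val hf⟩
  set z : B := (p j).1 - (p j).2 with hzdef
  have hz0 : z ≠ 0 := sub_ne_zero.2 (hpne j)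
  have ha : (phi ^ (-(j * K : ℤ))) z ∈ U := hpU j
  have ha' : (phi ^ (-(j' * K : ℤ))) z ∈ U := by
    have := hpU j'
    rwa [← hpp] at this
  have hdet := not_parallel (-(j * K : ℤ)) (-(j' * K : ℤ)) (by
    intro he
    apply hjj
    have h1 : (j : ℤ) * K = j' * K := by linarith
    have h2 : (K : ℤ) ≠ 0 := by positivity
    exact_mod_cast mul_right_cancel₀ h2 h1) z hz0
  generalize (phi ^ (-(j * K : ℤ))) z = a at ha hdet
  generalize (phi ^ (-(j' * K : ℤ))) z = a' at ha' hdet
  have hall : b0 ∈ U := by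
    refine hUint (det a a') b0 hdet ?_
    have h1 : det a a' • b0 = det b0 a' • a + det a b0 • a' := by
      ext <;> simp [det] <;> ring
    rw [h1]
    exact U.add_mem (U.zsmul_mem ha _) (U.zsmul_mem ha' _)
  rw [hUmem] at hall
  exact hO ((ValuationSubring.valuation_le_one_iff O _).1 hall.le)

theorem jprime (K : ℕ) (hK : 0 < K) (δ : D) (hδ : δ ≠ 0) (𝔞 : Ideal D)
    (h : ∀ j : ℕ, phiD (phi ^ (-(j * K : ℤ))) δ ∈ 𝔞) : Finite (D ⧸ 𝔞) := by
  refine (jprime_oka (fun j => phiD (phi ^ (-(j * K : ℤ))) δ)).forall_of_forall_prime ?_ ?_ 𝔞 h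
  · intro I hI
    have hwf := set_has_maximal_iff_noetherian.2 jprime_noeth
    obtain ⟨M, hM, hmax⟩ := hwf {I | ¬ ((∀ j : ℕ, phiD (phi ^ (-(j * K : ℤ))) δ ∈ I) →
      Finite (D ⧸ I))} ⟨I, hI⟩
    refine ⟨M, hM, ?_⟩
    intro J hJ hMJ
    by_contra hlt
    exact hmax J hJ (lt_of_le_not_ge hMJ hlt)
  · intro P hP hmem
    exact jprime_prime K hK δ hδ P hP hmem

end Pool.Agent.Helper22.AutMet
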