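import Mathlib
import Pool.Agent.Helper22.AutMet.Base
import Pool.Agent.Helper22.AutMet.Arith
/-! (T0core) infinitely divisible elements are torsion. -/

set_option autoImplicit false

namespace Pool.Agent.Helper22.AutMet

lemma t0core_noeth : IsNoetherianRing D := Algebra.FiniteType.isNoetherianRing (ZMod 2) D

lemma t0core_dom : IsDomain D := inferInstance

/-- the cyclic action on pairs of units -/
def t0coreG (G : Type) [CommGroup G] : Equiv.Perm (G × G) where
  toFun x := (x.1 * x.2⁻¹, x.1⁻¹ * x.2 ^ 2)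
  invFun x := (x.1 ^ 2 * x.2, x.1 * x.2)
  left_inv := by
    rintro ⟨a, b⟩
    ext
    · simp only
      rw [mul_pow, mul_mul_mul_comm]
      simp [pow_two]
    · simp only
      rw [mul_mul_mul_comm]
      simp [pow_two]
  right_inv := by
    rintro ⟨a, b⟩
    ext
    · simp [pow_two, mul_assoc]
    · show (a ^ 2 * b)⁻¹ * (a * b) ^ 2 = b
      rw [mul_pow, pow_two b, ← mul_assoc (a ^ 2), inv_mul_cancel_left]

lemma t0core_period {F : Type} [Field F] [Finite F] (ψ : D →+* F) :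
    ∃ p : ℕ, 0 < p ∧ ∀ i k : ℕ, ψ (mon ((phi ^ (-((i + p * k : ℕ) : ℤ))) (1, 0))) =
      ψ (mon ((phi ^ (-(i : ℤ))) (1, 0))) := by
  classical
  let χ : Multiplicative B →* Fˣ :=
    MonoidHom.toHomUnits ((ψ : D →* F).comp (AddMonoidAlgebra.of (ZMod 2) B))
  have hχ : ∀ v : B, ((χ (Multiplicative.ofAdd v) : Fˣ) : F) = ψ (mon v) := fun v => rfl
  let s : ℕ → Fˣ × Fˣ := fun k =>
    (χ (Multiplicative.ofAdd ((phi ^ (-(k : ℤ))) (1, 0))),
      χ (Multiplicative.ofAdd ((phi ^ (-(k : ℤ))) (0, 1))))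
  have hs : ∀ k, s (k + 1) = t0coreG Fˣ (s k) := by
    intro k
    have e : ∀ z : B, (phi ^ (-((k + 1 : ℕ) : ℤ))) z = (phi ^ (-(k : ℤ))) ((phi⁻¹ : B ≃ₗ[ℤ] B) z) := by
      intro z
      rw [show (-((k + 1 : ℕ) : ℤ)) = (-(k : ℤ)) + (-1) by push_cast; ring, zpow_add, zpow_neg_one]
      rfl
    have e1 : (phi ^ (-((k + 1 : ℕ) : ℤ))) ((1, 0) : B) =
        (phi ^ (-(k : ℤ))) (1, 0) - (phi ^ (-(k : ℤ))) (0, 1) := by
      rw [e, ← map_sub]
      congr 1
    have e2 : (phi ^ (-((k + 1 : ℕ) : ℤ))) ((0, 1) : B) =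
        -(phi ^ (-(k : ℤ))) (1, 0) + (2 : ℕ) • (phi ^ (-(k : ℤ))) (0, 1) := by
      rw [e, ← map_neg, ← map_nsmul, ← map_add]
      congr 1
    ext1
    · show χ (Multiplicative.ofAdd _) = χ _ * (χ _)⁻¹
      rw [e1, ofAdd_sub, map_div, div_eq_mul_inv]
    · show χ (Multiplicative.ofAdd _) = (χ _)⁻¹ * (χ _) ^ 2
      rw [e2, ofAdd_add, map_mul, ofAdd_neg, map_inv, ofAdd_nsmul, map_pow]
  have hs2 : ∀ k, s k = (t0coreG Fˣ ^ k) (s 0) := by
    intro k
    induction k with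
    | zero => rfl
    | succ k ih => rw [hs, ih, pow_succ']; rfl
  refine ⟨orderOf (t0coreG Fˣ), orderOf_pos _, ?_⟩
  intro i k
  have h1 : s (i + orderOf (t0coreG Fˣ) * k) = s i := by
    rw [hs2, hs2 i, pow_add, pow_mul, pow_orderOf_eq_one, one_pow, mul_one]
  have h2 := congrArg (fun x : Fˣ × Fˣ => ((x.1 : Fˣ) : F)) h1
  exact h2

lemma t0core_map (w : B) (v : B) :
    AddMonoidAlgebra.mapDomainRingHom (ZMod 2)
      (AddMonoidHom.mk' (fun z : B => det w z) (by intro a b; simp [det]; ring)) (mon v) =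
    AddMonoidAlgebra.single (det w v) 1 := by
  simp [mon]

lemma t0core_unit (S M : Type) [CommRing S] [Algebra (ZMod 2) S] [Algebra.FiniteType (ZMod 2) S]
    [AddCommGroup M] [Module S M] [Module.Finite S M] (j : D →ₐ[ZMod 2] S) (n : ℕ → M)
    (h : ∀ k : ℕ, n k = j (mon ((phi ^ (-(k + 1 : ℤ))) (1, 0)) - 1) • n (k + 1)) (I : Ideal S)
    (hI : ∀ a : S, a ∈ I ↔ a • n 0 = 0) (i : ℕ) :
    I ⊔ Ideal.span {j (mon ((phi ^ (-(i : ℤ))) (1, 0)) - 1)} = ⊤ := by
  by_contra hne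
  obtain ⟨P, hP, hIP⟩ := Ideal.exists_le_maximal _ hne
  have hSN : IsNoetherianRing S := Algebra.FiniteType.isNoetherianRing (ZMod 2) S
  let _ : Field (S ⧸ P) := Ideal.Quotient.field P
  have : Algebra.FiniteType (ZMod 2) (S ⧸ P) := inferInstance
  have : Module.Finite (ZMod 2) (S ⧸ P) := finite_of_finite_type_of_isJacobsonRing (ZMod 2) (S ⧸ P)
  have : Finite (S ⧸ P) := Module.finite_of_finite (ZMod 2)
  obtain ⟨p, hp, hper⟩ := t0core_period ((Ideal.Quotient.mk P).comp (j : D →+* S))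
  have hfi : ∀ k : ℕ, j (mon ((phi ^ (-((i + p * k : ℕ) : ℤ))) (1, 0)) - 1) ∈ P := by
    intro k
    have h1 := hper i k
    have h2 : j (mon ((phi ^ (-(i : ℤ))) (1, 0)) - 1) ∈ P :=
      hIP (Ideal.mem_sup_right (Ideal.mem_span_singleton_self _))
    rw [← Ideal.Quotient.eq_zero_iff_mem] at h2 ⊢
    rw [map_sub, map_sub, map_one, map_one] at h2 ⊢
    have h3 : (Ideal.Quotient.mk P) (j (mon ((phi ^ (-((i + p * k : ℕ) : ℤ))) (1, 0)))) =
      (Ideal.Quotient.mk P) (j (mon ((phi ^ (-(i : ℤ))) (1, 0)))) := h1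
    rw [h3]; exact h2
  have hdiv : ∀ m l : ℕ, ∃ b : S, n m = b • n (m + l) := by
    intro m l
    induction l with
    | zero => exact ⟨1, by simp⟩
    | succ l ih =>
      obtain ⟨b, hb⟩ := ih
      refine ⟨b * j (mon ((phi ^ (-((m + l : ℕ) + 1 : ℤ))) (1, 0)) - 1), ?_⟩
      rw [hb, mul_smul]
      congr 1
      exact h (m + l)
  have hkey : ∀ k : ℕ, ∃ m : ℕ, ∃ a ∈ P ^ k, n 0 = a • n m := by
    intro k
    induction k with
    | zero => exact ⟨0, 1, by simp, by simp⟩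
    | succ k ih =>
      obtain ⟨m, a, ha, hm⟩ := ih
      -- the next index
      have hbig : m + 1 ≤ i + p * (m + 1) := by nlinarith
      obtain ⟨b, hb⟩ := hdiv m (i + p * (m + 1) - 1 - m)
      have e1 : m + (i + p * (m + 1) - 1 - m) = i + p * (m + 1) - 1 := by omega
      rw [e1, h (i + p * (m + 1) - 1)] at hb
      have e2 : (((i + p * (m + 1) - 1 : ℕ) : ℤ) + 1) = ((i + p * (m + 1) : ℕ) : ℤ) := by
        have : 1 ≤ i + p * (m + 1) := by omega
        push_cast [this]; ring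
      rw [e2] at hb
      refine ⟨i + p * (m + 1) - 1 + 1, a * (b * j (mon ((phi ^ (-((i + p * (m + 1) : ℕ) : ℤ))) (1, 0)) - 1)),
        ?_, ?_⟩
      · rw [pow_succ]
        exact Ideal.mul_mem_mul ha (Ideal.mul_mem_left _ _ (hfi (m + 1)))
      · rw [hm, hb, mul_smul, mul_smul]
  have hmem : n 0 ∈ (⨅ k : ℕ, P ^ k • (⊤ : Submodule S M)) := by
    rw [Submodule.mem_iInf]
    intro k
    obtain ⟨m, a, ha, hm⟩ := hkey k
    rw [hm]
    exact Submodule.smul_mem_smul ha trivial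
  rw [Ideal.mem_iInf_smul_pow_eq_bot_iff] at hmem
  obtain ⟨r, hr⟩ := hmem
  have h1 : (1 - (r : S)) ∈ I := by
    rw [hI, sub_smul, one_smul, hr, sub_self]
  have h2 : (1 - (r : S)) ∈ P := hIP (Ideal.mem_sup_left h1)
  have h3 : (1 : S) ∈ P := by
    have := P.add_mem h2 r.2
    simpa using this
  exact hP.ne_top ((Ideal.eq_top_iff_one P).mpr h3)

lemma t0core_open (S0 : Type) [CommRing S0] [Algebra (ZMod 2) S0] [Algebra.FiniteType (ZMod 2) S0]
    (g : D →ₐ[ZMod 2] S0) (hg : Function.Injective g) :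
    ∃ h : D, h ≠ 0 ∧ ∀ P : Ideal D, P.IsPrime → h ∉ P →
      ∃ P' : Ideal S0, P'.IsPrime ∧ P'.comap (g : D →+* S0) = P := by
  have hN : IsNoetherianRing D := t0core_noeth
  let _ : Algebra D S0 := (g : D →+* S0).toAlgebra
  have : IsScalarTower (ZMod 2) D S0 := IsScalarTower.of_algebraMap_eq fun x => (g.commutes x).symm
  have h1 : Algebra.FiniteType D S0 := Algebra.FiniteType.of_restrictScalars_finiteType (ZMod 2) D S0
  have h2 : Algebra.FinitePresentation D S0 := Algebra.FinitePresentation.of_finiteType.mp h1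
  have h3 : (g : D →+* S0).FinitePresentation := h2
  have h4 := PrimeSpectrum.isConstructible_range_comap h3
  obtain ⟨C, hC⟩ := PrimeSpectrum.exists_constructibleSetData_iff.mpr h4
  -- the generic point
  have hbot : (⟨⊥, Ideal.isPrime_bot⟩ : PrimeSpectrum D) ∈ Set.range (PrimeSpectrum.comap (g : D →+* S0)) := by
    obtain ⟨Q', hQ', hQ2⟩ := Ideal.exists_comap_eq_of_mem_minimalPrimes_of_injective hg ⊥ (by
      rw [IsDomain.minimalPrimes_eq_singleton_bot]; rfl)
    refine ⟨⟨Q', hQ'⟩, ?_⟩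
    ext1
    exact hQ2
  rw [← hC] at hbot
  simp only [PrimeSpectrum.ConstructibleSetData.toSet, Set.mem_iUnion] at hbot
  obtain ⟨c, hc, hbc⟩ := hbot
  obtain ⟨hb1, hb2⟩ := hbc
  refine ⟨c.f, ?_, ?_⟩
  · intro h0
    apply hb2
    simp [h0]
  · intro P hP hfP
    have hmem : (⟨P, hP⟩ : PrimeSpectrum D) ∈ Set.range (PrimeSpectrum.comap (g : D →+* S0)) := by
      rw [← hC]
      simp only [PrimeSpectrum.ConstructibleSetData.toSet, Set.mem_iUnion]
      refine ⟨c, hc, ?_, ?_⟩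
      · rw [PrimeSpectrum.mem_zeroLocus] at hb1 ⊢
        intro x hx
        have := hb1 hx
        have hx0 : x = 0 := by simpa using this
        rw [hx0]
        exact P.zero_mem
      · intro h0
        rw [PrimeSpectrum.mem_zeroLocus] at h0
        exact hfP (h0 rfl)
    obtain ⟨Q', hQ'⟩ := hmem
    refine ⟨Q'.asIdeal, Q'.isPrime, ?_⟩
    exact congrArg PrimeSpectrum.asIdeal hQ'

/-- the linear form `det w` -/
def t0coreDet (w : B) : B →+ ℤ := AddMonoidHom.mk' (fun z : B => det w z) (by intro a b; simp [det]; ring)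

/-- the map of `D` to the Laurent polynomial ring defined by `det w` -/
noncomputable def t0corePsi (w : B) : D →+* AddMonoidAlgebra (ZMod 2) ℤ :=
  AddMonoidAlgebra.mapDomainRingHom (ZMod 2) (t0coreDet w)

lemma t0core_psi_mon (w v : B) : t0corePsi w (mon v) = AddMonoidAlgebra.single (det w v) 1 := by
  simp [t0corePsi, mon, t0coreDet]

lemma t0core_psi_ker (w : B) (h : D) (hh : h ≠ 0) (hk : t0corePsi w h = 0) :
    ∃ z ∈ h.coeff.support, ∃ z' ∈ h.coeff.support, z ≠ z' ∧ det w z = det w z' := by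
  by_contra hcon
  push Not at hcon
  have hinj : Set.InjOn (fun z : B => det w z) (h.coeff.support : Set B) := by
    intro z hz z' hz' hzz
    by_contra hne
    exact hcon z hz z' hz' hne hzz
  apply hh
  have h1 : Finsupp.mapDomain (fun z : B => det w z) h.coeff = 0 := congrArg AddMonoidAlgebra.coeff hk
  rw [← AddMonoidAlgebra.coeff_eq_zero]
  ext z
  by_cases hz : z ∈ h.coeff.support
  · have h2 := Finsupp.mapDomain_apply' (h.coeff.support : Set B) h.coeff (fun _ hx => hx) hinj hz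
    rw [h1] at h2
    exact h2.symm
  · exact Finsupp.notMem_support_iff.mp hz

theorem t0core (S M : Type) [CommRing S] [Algebra (ZMod 2) S] [Algebra.FiniteType (ZMod 2) S]
    [AddCommGroup M] [Module S M] [Module.Finite S M] (j : D →ₐ[ZMod 2] S) (n : ℕ → M)
    (h : ∀ k : ℕ, n k = j (phiD (phi ^ (-(k + 1 : ℤ))) (mon (1, 0) - 1)) • n (k + 1)) :
    ∃ d : D, d ≠ 0 ∧ j d • n 0 = 0 := by
  by_contra hcon
  push Not at hcon
  have h' : ∀ k : ℕ, n k = j (mon ((phi ^ (-(k + 1 : ℤ))) (1, 0)) - 1) • n (k + 1) := by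
    intro k
    have := h k
    rwa [map_sub, map_one, phiD_mon] at this
  let I : Ideal S := LinearMap.ker (LinearMap.toSpanSingleton S M (n 0))
  have hI : ∀ a : S, a ∈ I ↔ a • n 0 = 0 := by
    intro a
    simp [I, LinearMap.mem_ker, LinearMap.toSpanSingleton_apply]
  let g : D →ₐ[ZMod 2] (S ⧸ I) := (Ideal.Quotient.mkₐ (ZMod 2) I).comp j
  have hg : Function.Injective g := by
    rw [injective_iff_map_eq_zero]
    intro d hd
    by_contra hd0
    apply hcon d hd0
    rw [← hI]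
    exact Ideal.Quotient.eq_zero_iff_mem.mp hd
  obtain ⟨c, hc0, hc⟩ := t0core_open (S ⧸ I) g hg
  let w : ℕ → B := fun i => (phi ^ (-(i : ℤ))) (1, 0)
  have hker : ∀ i : ℕ, t0corePsi (w i) c = 0 := by
    intro i
    by_contra hne
    have hdom : IsDomain (AddMonoidAlgebra (ZMod 2) ℤ) := inferInstance
    obtain ⟨P', hP', hP2⟩ := hc (RingHom.ker (t0corePsi (w i))) (RingHom.ker_isPrime _) hne
    have h1 : (mon (w i) - 1 : D) ∈ RingHom.ker (t0corePsi (w i)) := by
      rw [RingHom.mem_ker, map_sub, map_one, t0core_psi_mon, show det (w i) (w i) = 0 by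
        unfold det; ring]
      exact sub_self _
    rw [← hP2, Ideal.mem_comap] at h1
    have h2 := t0core_unit S M j n h' I hI i
    apply hP'.ne_top
    rw [Ideal.eq_top_iff_one]
    have h3 : (1 : S) ∈ I ⊔ Ideal.span {j (mon ((phi ^ (-(i : ℤ))) (1, 0)) - 1)} := by rw [h2]; trivial
    rw [Submodule.mem_sup] at h3
    obtain ⟨a, ha, b, hb, hab⟩ := h3
    rw [Ideal.mem_span_singleton] at hb
    obtain ⟨b', rfl⟩ := hb
    have h4 := congrArg (Ideal.Quotient.mk I) hab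
    rw [map_add, map_mul, Ideal.Quotient.eq_zero_iff_mem.mpr ha, zero_add, map_one] at h4
    rw [← h4]
    exact P'.mul_mem_right _ h1
  have hex : ∀ i : ℕ, ∃ z : B × B, z ∈ c.coeff.support ×ˢ c.coeff.support ∧ z.1 ≠ z.2 ∧ det (w i) z.1 = det (w i) z.2 := by
    intro i
    obtain ⟨z, hz, z', hz', h1, h2⟩ := t0core_psi_ker (w i) c hc0 (hker i)
    exact ⟨(z, z'), Finset.mem_product.mpr ⟨hz, hz'⟩, h1, h2⟩
  choose f hf1 hf2 hf3 using hex
  obtain ⟨a, b, hab, hfab⟩ := Finite.exists_ne_map_eq_of_infinite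
    (fun i : ℕ => (⟨f i, hf1 i⟩ : (c.coeff.support ×ˢ c.coeff.support : Finset (B × B))))
  have hfab' : f a = f b := congrArg Subtype.val hfab
  have hd1 : det (w a) ((f a).1 - (f a).2) = 0 := by
    have := hf3 a
    simp [det] at this ⊢
    linarith
  have hd2 : det (w b) ((f a).1 - (f a).2) = 0 := by
    have := hf3 b
    rw [← hfab'] at this
    simp [det] at this ⊢
    linarith
  have hu : (f a).1 - (f a).2 ≠ 0 := sub_ne_zero.mpr (hf2 a)
  have hnp := not_parallel (-(a : ℤ)) (-(b : ℤ)) (by omega) (1, 0) (by simp)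
  apply hnp
  change det (w a) (w b) = 0
  generalize (f a).1 - (f a).2 = u at hd1 hd2 hu
  generalize w a = x at hd1 ⊢
  generalize w b = y at hd2 ⊢
  obtain ⟨x1, x2⟩ := x
  obtain ⟨y1, y2⟩ := y
  obtain ⟨u1, u2⟩ := u
  simp only [det] at *
  by_cases hu1 : u1 = 0
  · have hu2 : u2 ≠ 0 := fun h => hu (by rw [hu1, h]; rfl)
    have e : u2 * (x1 * y2 - x2 * y1) = 0 := by linear_combination y2 * hd1 - x2 * hd2
    exact (mul_eq_zero.mp e).resolve_left hu2
  · have e : u1 * (x1 * y2 - x2 * y1) = 0 := by linear_combination y1 * hd1 - x1 * hd2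
    exact (mul_eq_zero.mp e).resolve_left hu1

end Pool.Agent.Helper22.AutMet
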