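import Mathlib
import Pool.Agent.Helper22.AutMet.Base
import Pool.Agent.Helper22.AutMet.Arith
import Pool.Agent.Helper22.AutMet.Jprime
import Pool.Agent.Helper22.AutMet.T0core

/-! The concrete module `AA` and its basic properties. -/

set_option autoImplicit false

namespace Pool.Agent.Helper22.AutMet

/-! ### Monomials and additive generation of `D` -/

lemma conc_mon_add (v w : B) : mon (v + w) = mon v * mon w := by
  simp [mon, AddMonoidAlgebra.single_mul_single]

lemma conc_mon_zero : mon 0 = 1 := rfl

lemma conc_mon_ne_zero (v : B) : mon v ≠ 0 := by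
  intro h
  have h1 : mon v * mon (-v) = 1 := by rw [← conc_mon_add, add_neg_cancel, conc_mon_zero]
  rw [h, zero_mul] at h1
  exact zero_ne_one h1

lemma conc_mon_inj : Function.Injective mon := by
  intro v w h
  unfold mon at h
  have := AddMonoidAlgebra.single_left_injective (R := ZMod 2) (M := B) (one_ne_zero) h
  exact this

lemma conc_zmod2 (c : ZMod 2) : c = 0 ∨ c = 1 := by
  fin_cases c
  · left; rfl
  · right; rfl

/-- Induction principle: `D` is additively generated by the monomials. -/
lemma conc_ind {p : D → Prop} (h0 : p 0) (hadd : ∀ x y, p x → p y → p (x + y))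
    (hmon : ∀ v, p (mon v)) (x : D) : p x := by
  refine AddMonoidAlgebra.induction_linear x h0 hadd ?_
  intro m r
  rcases conc_zmod2 r with rfl | rfl
  · simpa using h0
  · exact hmon m

/-! ### The field of fractions and the operators -/

/-- The field of fractions of `D`. -/
abbrev ConcL : Type := FractionRing D

/-- The inclusion of `D` in its field of fractions. -/
noncomputable def concI : D →+* ConcL := algebraMap D ConcL

lemma concI_inj : Function.Injective concI := IsFractionRing.injective D ConcL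

/-- The automorphism of the field of fractions. -/
noncomputable def concS : ConcL ≃+* ConcL :=
  IsFractionRing.ringEquivOfRingEquiv (phiD phi).toRingEquiv

lemma concS_I (d : D) : concS (concI d) = concI (phiD phi d) :=
  IsFractionRing.ringEquivOfRingEquiv_algebraMap _ _

/-- The element `x - 1`. -/
noncomputable def concF : D := mon (1, 0) - 1

lemma concF_ne : concF ≠ 0 := by
  intro h
  unfold concF at h
  rw [sub_eq_zero, ← conc_mon_zero] at h
  have := conc_mon_inj h
  simp at this

lemma concIF_ne : concI concF ≠ 0 := by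
  intro h
  exact concF_ne (concI_inj (by rw [h, map_zero]))

/-- The operator `l ↦ f * σ l`. -/
noncomputable def concT : ConcL ≃ₗ[ℤ] ConcL :=
  { toFun := fun l => concI concF * concS l
    invFun := fun l => concS.symm ((concI concF)⁻¹ * l)
    left_inv := by
      intro l
      simp only []
      rw [inv_mul_cancel_left₀ concIF_ne]
      simp
    right_inv := by
      intro l
      simp only [RingEquiv.apply_symm_apply]
      rw [mul_inv_cancel_left₀ concIF_ne]
    map_add' := by
      intro x y
      rw [map_add, mul_add]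
    map_smul' := by
      intro c x
      simp; ring }

lemma concT_apply (l : ConcL) : concT l = concI concF * concS l := rfl

/-- Multiplication by a monomial. -/
noncomputable def concX (v : B) : ConcL ≃ₗ[ℤ] ConcL :=
  { toFun := fun l => concI (mon v) * l
    invFun := fun l => concI (mon (-v)) * l
    left_inv := by
      intro l
      simp only []
      rw [← mul_assoc, ← map_mul, ← conc_mon_add]
      simp [conc_mon_zero]
    right_inv := by
      intro l
      simp only []
      rw [← mul_assoc, ← map_mul, ← conc_mon_add]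
      simp [conc_mon_zero]
    map_add' := by
      intro x y
      rw [mul_add]
    map_smul' := by
      intro c x
      simp; ring }

lemma concX_apply (v : B) (l : ConcL) : concX v l = concI (mon v) * l := rfl

lemma concX_add (v w : B) : concX (v + w) = concX v * concX w := by
  ext l
  rw [LinearEquiv.mul_apply, concX_apply, concX_apply, concX_apply, conc_mon_add, map_mul, mul_assoc]

lemma concX_zero : concX 0 = 1 := by
  ext l
  rw [concX_apply, conc_mon_zero, map_one, one_mul]; rfl

lemma conc_phiD_mul (e e' : B ≃ₗ[ℤ] B) (d : D) : phiD (e * e') d = phiD e (phiD e' d) := by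
  refine conc_ind (p := fun d => phiD (e * e') d = phiD e (phiD e' d)) ?_ ?_ ?_ d
  · simp
  · intro x y hx hy
    simp only [map_add, hx, hy]
  · intro v
    simp [LinearEquiv.mul_apply]

lemma conc_phiD_one (d : D) : phiD 1 d = d := by
  refine conc_ind (p := fun d => phiD 1 d = d) ?_ ?_ ?_ d
  · simp
  · intro x y hx hy
    simp only [map_add, hx, hy]
  · intro v
    simp

/-- Semilinearity of the operator `T ^ n`. -/
lemma concT_semi (n : ℤ) (d : D) (l : ConcL) :
    (concT ^ n) (concI d * l) = concI (phiD (phi ^ n) d) * (concT ^ n) l := by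
  have h1 : ∀ (d : D) (l : ConcL), concT (concI d * l) = concI (phiD phi d) * concT l := by
    intro d l
    rw [concT_apply, concT_apply, map_mul, concS_I]; ring
  have h2 : ∀ (d : D) (l : ConcL), concT⁻¹ (concI d * l) = concI (phiD phi⁻¹ d) * concT⁻¹ l := by
    intro d l
    have h3 : d = phiD phi (phiD phi⁻¹ d) := by
      rw [← conc_phiD_mul, mul_inv_cancel, conc_phiD_one]
    have h4 : l = concT (concT⁻¹ l) := by
      rw [← LinearEquiv.mul_apply, mul_inv_cancel]; rfl
    have h5 : concI d * l = concT (concI (phiD phi⁻¹ d) * concT⁻¹ l) := by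
      rw [h1, ← h3, ← h4]
    rw [h5, ← LinearEquiv.mul_apply, inv_mul_cancel]; rfl
  induction n using Int.induction_on generalizing d l with
  | zero => simp only [zpow_zero, conc_phiD_one]; rfl
  | succ i ih =>
    rw [zpow_add_one, LinearEquiv.mul_apply, h1, ih, zpow_add_one, conc_phiD_mul,
      LinearEquiv.mul_apply]
  | pred i ih =>
    rw [zpow_sub_one, LinearEquiv.mul_apply, h2, ih, zpow_sub_one, conc_phiD_mul,
      LinearEquiv.mul_apply]

lemma concTX (n : ℤ) (v : B) : concT ^ n * concX v = concX ((phi ^ n) v) * concT ^ n := by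
  ext l
  rw [LinearEquiv.mul_apply, LinearEquiv.mul_apply, concX_apply, concX_apply, concT_semi, phiD_mon]


lemma concT_pow_D (m : ℕ) (d : D) : ∃ d' : D, (concT ^ m) (concI d) = concI d' := by
  induction m generalizing d with
  | zero => exact ⟨d, rfl⟩
  | succ m ih =>
    have : concT (concI d) = concI (concF * phiD phi d) := by
      rw [concT_apply, concS_I, map_mul]
    obtain ⟨d', hd'⟩ := ih (concF * phiD phi d)
    exact ⟨d', by rw [pow_succ, LinearEquiv.mul_apply, this, hd']⟩

lemma concT_pow_mono (m m' : ℕ) (h : m ≤ m') (l : ConcL) (hl : ∃ d : D, (concT ^ m) l = concI d) :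
    ∃ d : D, (concT ^ m') l = concI d := by
  obtain ⟨d, hd⟩ := hl
  obtain ⟨k, rfl⟩ := Nat.exists_eq_add_of_le h
  obtain ⟨d', hd'⟩ := concT_pow_D k d
  refine ⟨d', ?_⟩
  rw [add_comm, pow_add, LinearEquiv.mul_apply, hd, hd']

/-- The module `A` as a submodule of the field of fractions. -/
noncomputable def concA : Submodule D ConcL where
  carrier := {l | ∃ m : ℕ, ∃ d : D, (concT ^ m) l = concI d}
  zero_mem' := ⟨0, 0, by simp⟩
  add_mem' := by
    rintro a b ⟨m, hm⟩ ⟨m', hm'⟩
    obtain ⟨d, hd⟩ := concT_pow_mono m (m + m') (by omega) a hm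
    obtain ⟨d', hd'⟩ := concT_pow_mono m' (m + m') (by omega) b hm'
    exact ⟨m + m', d + d', by rw [map_add, hd, hd', map_add]⟩
  smul_mem' := by
    rintro c a ⟨m, d, hd⟩
    refine ⟨m, phiD (phi ^ (m : ℤ)) c * d, ?_⟩
    have : c • a = concI c * a := Algebra.smul_def c a
    rw [this, ← zpow_natCast, concT_semi, zpow_natCast, zpow_natCast, hd, map_mul]

/-- The module `A`. -/
def AA : Type := ↥concA

noncomputable instance : AddCommGroup AA := inferInstanceAs (AddCommGroup ↥concA)
noncomputable instance : Module D AA := inferInstanceAs (Module D ↥concA)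

/-- The underlying element of the field. -/
def concV (a : AA) : ConcL := a.1

lemma concV_inj : Function.Injective concV := Subtype.val_injective
lemma concV_add (a b : AA) : concV (a + b) = concV a + concV b := rfl
lemma concV_zero : concV 0 = 0 := rfl
lemma concV_smul (d : D) (a : AA) : concV (d • a) = concI d * concV a := Algebra.smul_def d a.1

/-- The action of `Q` on the field. -/
noncomputable def concAct (q : Q) : ConcL ≃ₗ[ℤ] ConcL := concX q.v * concT ^ q.n

lemma concAct_one : concAct 1 = 1 := by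
  simp only [concAct, Q.one_v, Q.one_n, zpow_zero, mul_one, concX_zero]

lemma concAct_mul (p q : Q) : concAct (p * q) = concAct p * concAct q := by
  unfold concAct
  rw [Q.mul_v, Q.mul_n, concX_add, zpow_add]
  calc concX p.v * concX ((phi ^ p.n) q.v) * (concT ^ p.n * concT ^ q.n)
      = concX p.v * (concX ((phi ^ p.n) q.v) * concT ^ p.n) * concT ^ q.n := by group
    _ = _ := by rw [← concTX]; group

lemma concAct_mem (q : Q) (l : ConcL) (hl : l ∈ concA) : concAct q l ∈ concA := by
  obtain ⟨m, hm⟩ := hl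
  -- it suffices to treat the power of `T`
  have h1 : (concT ^ q.n) l ∈ concA := by
    by_cases hn : 0 ≤ q.n
    · refine ⟨m, ?_⟩
      obtain ⟨d', hd'⟩ := concT_pow_mono m (m + q.n.toNat) (by omega) l hm
      refine ⟨d', ?_⟩
      rw [← LinearEquiv.mul_apply, ← zpow_natCast, ← zpow_add, ← hd', ← zpow_natCast]
      congr 2
      simp only [Nat.cast_add]; omega
    · refine ⟨m + q.n.natAbs, ?_⟩
      obtain ⟨d', hd'⟩ := hm
      refine ⟨d', ?_⟩
      rw [← LinearEquiv.mul_apply, ← zpow_natCast, ← zpow_add, ← hd', ← zpow_natCast]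
      congr 2
      simp only [Nat.cast_add]; omega
  have h2 : concAct q l = (mon q.v) • ((concT ^ q.n) l) := by
    rw [concAct, LinearEquiv.mul_apply, concX_apply]
    exact (Algebra.smul_def _ _).symm
  rw [h2]
  exact concA.smul_mem _ h1

noncomputable instance : DistribMulAction Q AA where
  smul q a := ⟨concAct q a.1, concAct_mem q a.1 a.2⟩
  one_smul a := by
    apply concV_inj
    show concAct 1 a.1 = a.1
    rw [concAct_one]; rfl
  mul_smul p q a := by
    apply concV_inj
    show concAct (p * q) a.1 = concAct p (concAct q a.1)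
    rw [concAct_mul]; rfl
  smul_zero q := by
    apply concV_inj
    show concAct q 0 = 0
    rw [map_zero]
  smul_add q a b := by
    apply concV_inj
    show concAct q (a.1 + b.1) = concAct q a.1 + concAct q b.1
    rw [map_add]

lemma concV_q (q : Q) (a : AA) : concV (q • a) = concAct q (concV a) := rfl

/-- The generator of `A`. -/
noncomputable def concE : AA := ⟨1, 0, 1, by simp⟩

lemma concV_E : concV concE = 1 := rfl

/-! ### The basic rules of the module -/

lemma conc_bb (v : B) (a : AA) : bb v • a = mon v • a := by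
  apply concV_inj
  rw [concV_q, concV_smul, concAct, LinearEquiv.mul_apply, concX_apply]
  simp

lemma concAct_tt (n : ℤ) : concAct (tt ^ n) = concT ^ n := by
  rw [tt_zpow, concAct, concX_zero, one_mul]

lemma conc_semi (n : ℤ) (d : D) (a : AA) :
    tt ^ n • (d • a) = phiD (phi ^ n) d • (tt ^ n • a) := by
  apply concV_inj
  rw [concV_q, concV_smul, concV_smul, concV_q, concAct_tt, concT_semi]

lemma conc_tf (d : D) (a : AA) (h : d • a = 0) : d = 0 ∨ a = 0 := by
  have h1 := congrArg concV h
  rw [concV_smul, concV_zero, mul_eq_zero] at h1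
  rcases h1 with h1 | h1
  · left
    exact concI_inj (by rw [h1, map_zero])
  · right
    exact concV_inj (by rw [h1, concV_zero])

lemma concE_ne : concE ≠ 0 := by
  intro h
  have := congrArg concV h
  rw [concV_E, concV_zero] at this
  exact one_ne_zero this

lemma conc_ttE : tt • concE = concF • concE := by
  apply concV_inj
  have h := concAct_tt 1
  rw [zpow_one, zpow_one] at h
  rw [concV_q, concV_smul, concV_E, h, concT_apply, map_one]

lemma conc_cover (a : AA) : ∃ m : ℕ, ∀ m' : ℕ, m ≤ m' → ∃ d : D, tt ^ m' • a = d • concE := by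
  obtain ⟨m, hm⟩ := a.2
  refine ⟨m, fun m' h => ?_⟩
  obtain ⟨d, hd⟩ := concT_pow_mono m m' h a.1 hm
  refine ⟨d, ?_⟩
  apply concV_inj
  rw [concV_q, concV_smul, concV_E, mul_one, ← hd, ← zpow_natCast, concAct_tt, zpow_natCast]
  rfl


/-! ### First properties -/

theorem AA_two : ∀ a : AA, a + a = 0 := by
  intro a
  have h : (1 : D) + 1 = 0 := by
    have h2 : (1 : D) = AddMonoidAlgebra.single 0 1 := rfl
    rw [h2, ← AddMonoidAlgebra.single_add]
    have : (1 : ZMod 2) + 1 = 0 := rfl
    rw [this]; simp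
  calc a + a = ((1 : D) + 1) • a := by rw [add_smul, one_smul]
    _ = 0 := by rw [h, zero_smul]

lemma conc_smulE_inj : Function.Injective (fun d : D => d • concE) := by
  intro d d' h
  have h1 : (d - d') • concE = 0 := by
    rw [sub_smul]; exact sub_eq_zero.mpr h
  rcases conc_tf _ _ h1 with h2 | h2
  · exact sub_eq_zero.mp h2
  · exact absurd h2 concE_ne

theorem AA_infinite : Infinite AA :=
  Infinite.of_injective (fun v : B => mon v • concE)
    (conc_smulE_inj.comp conc_mon_inj)

/-- `D`-multiples lie in the additive closure of the translates. -/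
lemma conc_clos (s : AddSubgroup AA) (a : AA) (h : ∀ v : B, bb v • a ∈ s) (d : D) : d • a ∈ s := by
  refine conc_ind (p := fun d => d • a ∈ s) ?_ ?_ ?_ d
  · rw [zero_smul]; exact s.zero_mem
  · intro x y hx hy
    rw [add_smul]; exact s.add_mem hx hy
  · intro v
    rw [← conc_bb]; exact h v

lemma conc_inv_smul (m : ℕ) (a : AA) : tt ^ (-(m : ℤ)) • (tt ^ m • a) = a := by
  rw [← mul_smul, ← zpow_natCast, ← zpow_add, neg_add_cancel, zpow_zero, one_smul]

theorem AA_gen : ∃ e : AA, ∀ a, a ∈ AddSubgroup.closure {y | ∃ q : Q, y = q • e} := by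
  refine ⟨concE, fun a => ?_⟩
  obtain ⟨m, hm⟩ := conc_cover a
  obtain ⟨d, hd⟩ := hm m le_rfl
  have h1 : a = phiD (phi ^ (-(m : ℤ))) d • (tt ^ (-(m : ℤ)) • concE) := by
    rw [← conc_semi, ← hd, conc_inv_smul]
  rw [h1]
  apply conc_clos
  intro v
  apply AddSubgroup.subset_closure
  exact ⟨bb v * tt ^ (-(m : ℤ)), (mul_smul _ _ _).symm⟩


/-! ### Subgroups stable under the lattice and a power of the stable letter -/

lemma conc_ttE_pow (m : ℕ) : ∃ g : D, tt ^ (m : ℤ) • concE = g • concE := by
  obtain ⟨g, hg⟩ := concT_pow_D m 1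
  refine ⟨g, ?_⟩
  apply concV_inj
  rw [concV_q, concV_smul, concV_E, mul_one, ← hg, concAct_tt, zpow_natCast, map_one concI]

lemma conc_shift (m : ℕ) (d : D) : ∃ g : D,
    phiD (phi ^ (-(m : ℤ))) d • concE = g • (tt ^ (-(m : ℤ)) • (d • concE)) := by
  obtain ⟨g, hg⟩ := conc_ttE_pow m
  refine ⟨phiD (phi ^ (-(m : ℤ))) g, ?_⟩
  have h1 : concE = phiD (phi ^ (-(m : ℤ))) g • (tt ^ (-(m : ℤ)) • concE) := by
    rw [← conc_semi, ← hg, ← mul_smul, ← zpow_add, neg_add_cancel, zpow_zero, one_smul]
  rw [conc_semi, smul_smul, mul_comm, ← smul_smul, ← h1]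

theorem conc_J (P : AddSubgroup AA) (a0 : AA) (ha0 : a0 ∈ P) (hne : a0 ≠ 0)
    (hb : ∀ v : B, ∀ a ∈ P, bb v • a ∈ P) (K : ℕ) (hK : 0 < K)
    (h1 : ∀ a ∈ P, tt ^ (K : ℤ) • a ∈ P) (h2 : ∀ a ∈ P, tt ^ (-(K : ℤ)) • a ∈ P) :
    Finite (AA ⧸ P) := by
  have hD : ∀ a ∈ P, ∀ d : D, d • a ∈ P := fun a ha d => conc_clos P a (fun v => hb v a ha) d
  let I : Ideal D :=
    { carrier := {d | d • concE ∈ P}
      zero_mem' := by
        show (0 : D) • concE ∈ P
        rw [zero_smul]; exact P.zero_mem
      add_mem' := by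
        intro x y hx hy
        show (x + y) • concE ∈ P
        rw [add_smul]; exact P.add_mem hx hy
      smul_mem' := by
        intro c x hx
        show (c • x) • concE ∈ P
        rw [smul_assoc]; exact hD _ hx c }
  have hI : ∀ d : D, d ∈ I ↔ d • concE ∈ P := fun d => Iff.rfl
  have hpos : ∀ j : ℕ, ∀ a ∈ P, tt ^ (((j * K : ℕ)) : ℤ) • a ∈ P := by
    intro j
    induction j with
    | zero => intro a ha; simpa using ha
    | succ j ih =>
      intro a ha
      have := h1 _ (ih a ha)
      rw [← mul_smul, ← zpow_add] at this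
      have e : ((K : ℤ) + ((j * K : ℕ) : ℤ)) = (((j + 1) * K : ℕ) : ℤ) := by push_cast; ring
      rwa [e] at this
  have hneg : ∀ j : ℕ, ∀ a ∈ P, tt ^ (-((j * K : ℕ) : ℤ)) • a ∈ P := by
    intro j
    induction j with
    | zero => intro a ha; simpa using ha
    | succ j ih =>
      intro a ha
      have := h2 _ (ih a ha)
      rw [← mul_smul, ← zpow_add] at this
      have e : (-(K : ℤ) + -((j * K : ℕ) : ℤ)) = -(((j + 1) * K : ℕ) : ℤ) := by push_cast; ring
      rwa [e] at this
  obtain ⟨m, hm⟩ := conc_cover a0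
  obtain ⟨d0, hd0⟩ := hm (m * K) (Nat.le_mul_of_pos_right m hK)
  rw [← zpow_natCast] at hd0
  have hd0I : d0 ∈ I := by
    rw [hI, ← hd0]; exact hpos m a0 ha0
  have hd0ne : d0 ≠ 0 := by
    rintro rfl
    rw [zero_smul] at hd0
    apply hne
    have := congrArg (fun x => tt ^ (-((m * K : ℕ) : ℤ)) • x) hd0
    simpa [← mul_smul, ← zpow_add] using this
  have hfin : Finite (D ⧸ I) := by
    refine jprime K hK d0 hd0ne I ?_
    intro j
    have e : (-(j * K : ℤ)) = -((j * K : ℕ) : ℤ) := by push_cast; ring
    rw [e, hI]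
    obtain ⟨g, hg⟩ := conc_shift (j * K) d0
    rw [hg]
    exact hD _ (hneg j _ hd0I) g
  by_contra hcon
  have hinf : Infinite (AA ⧸ P) := not_finite_iff_infinite.mp hcon
  let g := Infinite.natEmbedding (AA ⧸ P)
  have hg : ∀ i, ∃ a : AA, (QuotientAddGroup.mk a : AA ⧸ P) = g i := fun i =>
    QuotientAddGroup.mk_surjective (g i)
  choose a ha using hg
  choose mm hmm using fun i => conc_cover (a i)
  let c := Nat.card (D ⧸ I)
  let M := ∑ i ∈ Finset.range (c + 1), mm i
  have hM : ∀ i : Fin (c + 1), mm i ≤ M * K := by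
    intro i
    have h3 : mm i ≤ M := Finset.single_le_sum (f := mm) (fun _ _ => Nat.zero_le _)
      (Finset.mem_range.mpr i.2)
    exact h3.trans (Nat.le_mul_of_pos_right M hK)
  choose d hd using fun i : Fin (c + 1) => hmm i (M * K) (hM i)
  have hninj : ¬ Function.Injective (fun i : Fin (c + 1) => (Ideal.Quotient.mk I (d i))) := by
    intro hinj
    have := Nat.card_le_card_of_injective _ hinj
    rw [Nat.card_eq_fintype_card, Fintype.card_fin] at this
    omega
  rw [Function.not_injective_iff] at hninj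
  obtain ⟨i, i', hii, hne'⟩ := hninj
  have h3 : d i - d i' ∈ I := Ideal.Quotient.eq.mp hii
  rw [hI, sub_smul, ← hd, ← hd, ← smul_sub] at h3
  have h4 := hneg M _ h3
  rw [← mul_smul, ← zpow_natCast, ← zpow_add, neg_add_cancel, zpow_zero, one_smul] at h4
  apply hne'
  have h5 : g i = g i' := by
    rw [← ha, ← ha, eq_comm, QuotientAddGroup.eq]
    have : -a i' + a i = a i - a i' := by abel
    rwa [this]
  exact Fin.ext (g.injective h5)


/-! ### The property `T0Prop` -/

section core

variable {R M : Type} [CommRing R] [Algebra (ZMod 2) R] [AddCommGroup M] [Module R M]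

/-- The group algebra over `R` acts on `M`. -/
noncomputable def concRho (τ : Multiplicative B →* Module.End R M) :
    AddMonoidAlgebra R B →ₐ[R] Module.End R M := AddMonoidAlgebra.lift R (Module.End R M) B τ

/-- The comparison of group algebras. -/
noncomputable def concJJ (R : Type) [CommRing R] [Algebra (ZMod 2) R] :
    D →ₐ[ZMod 2] AddMonoidAlgebra R B :=
  AddMonoidAlgebra.mapAlgHom B (Algebra.ofId (ZMod 2) R)

lemma concRho_mon (τ : Multiplicative B →* Module.End R M) (v : B) :
    concRho τ (concJJ R (mon v)) = τ (Multiplicative.ofAdd v) := by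
  simp [concRho, concJJ, mon]

lemma conc_core [Algebra.FiniteType (ZMod 2) R] [Module.Finite R M]
    (τ : Multiplicative B →* Module.End R M) (n : ℕ → M)
    (h : ∀ k : ℕ, n k = concRho τ (concJJ R (phiD (phi ^ (-(k + 1 : ℤ))) concF)) (n (k + 1))) :
    ∃ d : D, d ≠ 0 ∧ concRho τ (concJJ R d) (n 0) = 0 := by
  let S0 := AddMonoidAlgebra R B
  let _ : Module S0 M := Module.compHom M (concRho τ).toRingHom
  have hsm : ∀ (s : S0) (x : M), s • x = concRho τ s x := fun s x => rfl
  have : IsScalarTower R S0 M := ⟨fun r s x => by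
    rw [hsm, hsm, map_smul]; rfl⟩
  have : Module.Finite S0 M := Module.Finite.of_restrictScalars_finite R S0 M
  have : Algebra.FiniteType R S0 := AddMonoidAlgebra.finiteType_of_fg R B
  have : Algebra.FiniteType (ZMod 2) S0 := Algebra.FiniteType.trans (S := R) inferInstance inferInstance
  exact t0core S0 M (concJJ R) n h

end core


lemma conc_pow_mem (H : Subgroup Q) (hH : H.FiniteIndex) : ∃ e : ℕ, 0 < e ∧ ∀ q : Q, q ^ e ∈ H := by
  refine ⟨H.index.factorial, Nat.factorial_pos _, fun q => ?_⟩
  obtain ⟨n, hn, hn', hq⟩ := Subgroup.exists_pow_mem_of_index_ne_zero hH.index_ne_zero q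
  obtain ⟨k, hk⟩ := Nat.dvd_factorial hn hn'
  rw [hk, pow_mul]
  exact H.pow_mem hq k

/-- The largest `D`-submodule of a subgroup. -/
noncomputable def concW (S : AddSubgroup AA) : Submodule D AA where
  carrier := {a | ∀ v : B, bb v • a ∈ S}
  zero_mem' := by
    intro v
    rw [smul_zero]; exact S.zero_mem
  add_mem' := by
    intro a b ha hb v
    rw [smul_add]; exact S.add_mem (ha v) (hb v)
  smul_mem' := by
    intro c a ha v
    rw [conc_bb, smul_comm]
    rw [← conc_bb]
    refine conc_ind (p := fun c => c • (bb v • a) ∈ S) ?_ ?_ ?_ c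
    · rw [zero_smul]; exact S.zero_mem
    · intro x y hx hy
      rw [add_smul]; exact S.add_mem hx hy
    · intro w
      rw [← conc_bb, ← mul_smul, ← bb_add]; exact ha _

lemma concW_mem (S : AddSubgroup AA) (a : AA) : a ∈ concW S ↔ ∀ v : B, bb v • a ∈ S := Iff.rfl

lemma concW_le (S : AddSubgroup AA) (a : AA) (h : a ∈ concW S) : a ∈ S := by
  have := h 0
  simpa using this

lemma conc_decomp (e : ℕ) (he : 0 < e) (v : B) :
    ∃ (i j : Fin e) (w : B), v = e • w + ((i : ℤ), (j : ℤ)) := by
  have he' : (0 : ℤ) < e := by exact_mod_cast he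
  have h1 := Int.emod_nonneg v.1 he'.ne'
  have h2 := Int.emod_lt_of_pos v.1 he'
  have h3 := Int.emod_nonneg v.2 he'.ne'
  have h4 := Int.emod_lt_of_pos v.2 he'
  refine ⟨⟨(v.1 % e).toNat, by omega⟩, ⟨(v.2 % e).toNat, by omega⟩, (v.1 / e, v.2 / e), ?_⟩
  have h5 := Int.mul_ediv_add_emod v.1 e
  have h6 := Int.mul_ediv_add_emod v.2 e
  have h7 : (e • ((v.1 / e, v.2 / e) : B)) = ((e : ℤ) * (v.1 / e), (e : ℤ) * (v.2 / e)) := by
    ext <;> simp
  rw [h7]
  ext
  · show v.1 = (e : ℤ) * (v.1 / e) + ((v.1 % e).toNat : ℤ)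
    omega
  · show v.2 = (e : ℤ) * (v.2 / e) + ((v.2 % e).toNat : ℤ)
    omega

/-- The submodule `concW S` has a nonzero annihilator. -/
lemma concW_ann (S : AddSubgroup AA) (hS : S.FiniteIndex) (e : ℕ) (he : 0 < e)
    (hst : ∀ w : B, ∀ a ∈ S, bb (e • w) • a ∈ S) :
    ∃ δ : D, δ ≠ 0 ∧ ∀ a : AA, δ • a ∈ concW S := by
  let f : AA →+ (Fin e → Fin e → AA ⧸ S) :=
    { toFun := fun a i j => QuotientAddGroup.mk (bb ((i : ℤ), (j : ℤ)) • a)
      map_zero' := by
        funext i j
        rw [smul_zero]; rfl
      map_add' := by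
        intro a b
        funext i j
        rw [smul_add]; rfl }
  have hfin : Finite (AA ⧸ S) := AddSubgroup.finite_quotient_of_finiteIndex
  have hker : ∀ a, f a = 0 → a ∈ concW S := by
    intro a ha v
    obtain ⟨i, j, w, rfl⟩ := conc_decomp e he v
    rw [bb_add, mul_smul]
    apply hst
    have := congrFun (congrFun ha i) j
    exact (QuotientAddGroup.eq_zero_iff _).mp this
  -- two elements of `D` with the same action
  let F : D → (Set.range f → (Fin e → Fin e → AA ⧸ S)) := fun d x => f (d • Classical.choose x.2)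
  have hinfD : Infinite D := Infinite.of_injective mon conc_mon_inj
  obtain ⟨d, d', hdd, hne⟩ := Function.not_injective_iff.mp (not_injective_infinite_finite F)
  refine ⟨d - d', sub_ne_zero.mpr hne, fun a => ?_⟩
  have h1 := congrFun hdd ⟨f a, a, rfl⟩
  set b := Classical.choose (⟨f a, a, rfl⟩ : Set.range f).2 with hb
  have h2 : f b = f a := Classical.choose_spec (⟨f a, a, rfl⟩ : Set.range f).2
  have h3 : a - b ∈ concW S := hker _ (by rw [map_sub, h2, sub_self])
  have h4 : (d - d') • b ∈ concW S := by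
    apply hker
    rw [sub_smul, map_sub, sub_eq_zero]
    exact h1
  have h5 : (d - d') • a = (d - d') • b + (d - d') • (a - b) := by
    rw [smul_sub]; abel
  rw [h5]
  exact (concW S).add_mem h4 ((concW S).smul_mem _ h3)

theorem AA_t0 : T0Prop AA := by
  intro H hH R N _ _ _ _ _ _ m hlin S hS θ hθ
  obtain ⟨e, he, hpow⟩ := conc_pow_mem H hH
  have hbe : ∀ w : B, bb (e • w) ∈ H := fun w => by rw [bb_nsmul]; exact hpow _
  have hst : ∀ w : B, ∀ a ∈ S, bb (e • w) • a ∈ S := fun w a ha => hθ.stab ⟨_, hbe w⟩ a ha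
  obtain ⟨δ, hδ, hδA⟩ := concW_ann S hS e he hst
  have hnoeth : IsNoetherianRing R := Algebra.FiniteType.isNoetherianRing (ZMod 2) R
  -- the module of equivariant functions
  let M : Submodule R (B → N) :=
    { carrier := {u | ∀ v w : B, u (e • w + v) = m ⟨bb (e • w), hbe w⟩ (u v)}
      zero_mem' := by
        intro v w
        simp
      add_mem' := by
        intro a b ha hb v w
        show a (e • w + v) + b (e • w + v) = _
        rw [ha, hb]
        exact (map_add _ _ _).symm
      smul_mem' := by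
        intro c a ha v w
        show c • a (e • w + v) = _
        rw [ha]
        exact (hlin _ _ _ _).symm }
  have hM : ∀ u : M, ∀ v w : B, u.1 (e • w + v) = m ⟨bb (e • w), hbe w⟩ (u.1 v) := fun u => u.2
  have hMfin : Module.Finite R M := by
    let g : M →ₗ[R] (Fin e → Fin e → N) :=
      { toFun := fun u i j => u.1 ((i : ℤ), (j : ℤ))
        map_add' := fun _ _ => rfl
        map_smul' := fun _ _ => rfl }
    refine Module.Finite.of_injective g ?_
    intro u u' h
    apply Subtype.ext
    funext v
    obtain ⟨i, j, w, rfl⟩ := conc_decomp e he v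
    rw [hM, hM]
    congr 1
    exact congrFun (congrFun h i) j
  let τ : Multiplicative B →* Module.End R M :=
    { toFun := fun w =>
        { toFun := fun u => ⟨fun v => u.1 (v + w.toAdd), fun v w' => by
            show u.1 (e • w' + v + w.toAdd) = _
            rw [add_assoc, hM]⟩
          map_add' := fun _ _ => rfl
          map_smul' := fun _ _ => rfl }
      map_one' := by
        ext u v
        show u.1 (v + 0) = _
        rw [add_zero]; rfl
      map_mul' := by
        intro w w'
        ext u v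
        show u.1 (v + (w * w').toAdd) = u.1 (v + w.toAdd + w'.toAdd)
        rw [toAdd_mul, add_assoc] }
  -- the map `Θ`
  let Θ : concW S →+ M := AddMonoidHom.mk' (fun a => ⟨fun v => θ (bb v • a.1), by
      intro v w
      show θ (bb (e • w + v) • a.1) = _
      rw [bb_add, mul_smul]
      exact hθ.eqv ⟨_, hbe w⟩ _ (a.2 v)⟩) (by
      intro a b
      apply Subtype.ext
      funext v
      show θ (bb v • (a.1 + b.1)) = θ (bb v • a.1) + θ (bb v • b.1)
      rw [smul_add]
      exact hθ.add _ (a.2 v) _ (b.2 v))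
  have hΘ : ∀ a v, (Θ a).1 v = θ (bb v • a.1) := fun _ _ => rfl
  have hΘD : ∀ (d : D) (a : concW S), Θ (d • a) = concRho τ (concJJ R d) (Θ a) := by
    intro d a
    refine conc_ind (p := fun d => Θ (d • a) = concRho τ (concJJ R d) (Θ a)) ?_ ?_ ?_ d
    · rw [zero_smul, map_zero, map_zero, map_zero]; rfl
    · intro x y hx hy
      rw [add_smul, map_add, map_add, map_add, hx, hy]; rfl
    · intro v
      rw [concRho_mon]
      apply Subtype.ext
      funext w
      show θ (bb w • (mon v • a.1)) = θ (bb (w + v) • a.1)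
      rw [bb_add, mul_smul, conc_bb v]
  -- the divisible sequence
  let α : ℕ → concW S := fun k => ⟨δ • (tt ^ (-(k : ℤ)) • concE), hδA _⟩
  have hα : ∀ k : ℕ, α k = phiD (phi ^ (-(k + 1 : ℤ))) concF • α (k + 1) := by
    intro k
    apply Subtype.ext
    show δ • (tt ^ (-(k : ℤ)) • concE) = phiD (phi ^ (-(k + 1 : ℤ))) concF •
      (δ • (tt ^ (-((k + 1 : ℕ) : ℤ)) • concE))
    have h1 : (tt ^ (-(k : ℤ)) : Q) = tt ^ (-(k + 1 : ℤ)) * tt := by
      rw [← zpow_add_one]; congr 1; ring
    have h2 : (-((k + 1 : ℕ) : ℤ)) = (-(k + 1 : ℤ)) := by push_cast; ring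
    rw [h1, h2, mul_smul, conc_ttE, conc_semi, smul_smul, mul_comm, ← smul_smul]
  obtain ⟨d, hd, hd0⟩ := conc_core τ (fun k => Θ (α k)) (fun k => by
    show Θ (α k) = _
    rw [hα k, hΘD])
  -- the kernel
  let P : AddSubgroup AA :=
    { carrier := {a | a ∈ concW S ∧ ∀ v : B, θ (bb v • a) = 0}
      zero_mem' := by
        refine ⟨(concW S).zero_mem, fun v => ?_⟩
        have := hΘ 0 v
        rw [map_zero] at this
        exact this.symm
      add_mem' := by
        rintro a b ⟨ha, ha'⟩ ⟨hb, hb'⟩
        refine ⟨(concW S).add_mem ha hb, fun v => ?_⟩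
        rw [smul_add, hθ.add _ (ha v) _ (hb v), ha', hb', add_zero]
      neg_mem' := by
        rintro a ⟨ha, ha'⟩
        have : -a = a := by
          rw [neg_eq_iff_add_eq_zero]; exact AA_two a
        show -a ∈ concW S ∧ ∀ v : B, θ (bb v • (-a)) = 0
        rw [this]
        exact ⟨ha, ha'⟩ }
  have hPm : ∀ a, a ∈ P ↔ a ∈ concW S ∧ ∀ v : B, θ (bb v • a) = 0 := fun a => Iff.rfl
  have ha0 : d • (δ • concE) ∈ P := by
    rw [hPm]
    have hE : δ • concE ∈ concW S := hδA _
    refine ⟨(concW S).smul_mem _ hE, fun v => ?_⟩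
    have h1 : α 0 = ⟨δ • concE, hE⟩ := by
      apply Subtype.ext
      show δ • (tt ^ (-((0 : ℕ) : ℤ)) • concE) = _
      simp
    have h2 : Θ (d • α 0) = 0 := by rw [hΘD]; exact hd0
    rw [h1] at h2
    have h3 := hΘ (d • ⟨δ • concE, hE⟩) v
    rw [h2] at h3
    exact h3.symm
  have hne : d • (δ • concE) ≠ 0 := by
    intro h
    rcases conc_tf _ _ h with h | h
    · exact hd h
    · rcases conc_tf _ _ h with h | h
      · exact hδ h
      · exact concE_ne h
  have hPb : ∀ v : B, ∀ a ∈ P, bb v • a ∈ P := by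
    rintro v a ⟨ha, ha'⟩
    refine ⟨?_, fun w => ?_⟩
    · rw [conc_bb]; exact (concW S).smul_mem _ ha
    · rw [← mul_smul, ← bb_add]; exact ha' _
  have hPt : ∀ n : ℤ, tt ^ n ∈ H → ∀ a ∈ P, tt ^ n • a ∈ P := by
    rintro n hn a ⟨ha, ha'⟩
    have h1 : ∀ v : B, bb v • (tt ^ n • a) = tt ^ n • (bb ((phi ^ (-n)) v) • a) := by
      intro v
      rw [← mul_smul, ← mul_smul]
      congr 1
      have := tt_conj n ((phi ^ (-n)) v)
      rw [← LinearEquiv.mul_apply, ← zpow_add, add_neg_cancel, zpow_zero] at this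
      have h2 : bb v = tt ^ n * bb ((phi ^ (-n)) v) * (tt ^ n)⁻¹ := this.symm
      rw [h2, inv_mul_cancel_right]
    refine ⟨fun v => ?_, fun v => ?_⟩
    · rw [h1]; exact hθ.stab ⟨_, hn⟩ _ (ha _)
    · rw [h1]
      have := hθ.eqv ⟨_, hn⟩ _ (ha ((phi ^ (-n)) v))
      rw [this, ha', map_zero]
  have hte : tt ^ (e : ℤ) ∈ H := by rw [zpow_natCast]; exact hpow _
  have hte' : tt ^ (-(e : ℤ)) ∈ H := by rw [zpow_neg]; exact H.inv_mem hte
  have hfin : Finite (AA ⧸ P) := conc_J P _ ha0 hne hPb e he (hPt _ hte) (hPt _ hte')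
  -- the image is finite
  classical
  let G : AA ⧸ P → N := fun x => if h : ∃ s ∈ S, (QuotientAddGroup.mk s : AA ⧸ P) = x then
    θ (Classical.choose h) else 0
  refine Set.Finite.subset (Set.finite_range G) ?_
  rintro _ ⟨s, hs, rfl⟩
  refine ⟨QuotientAddGroup.mk s, ?_⟩
  have h : ∃ s' ∈ S, (QuotientAddGroup.mk s' : AA ⧸ P) = QuotientAddGroup.mk s := ⟨s, hs, rfl⟩
  have hG : G (QuotientAddGroup.mk s) = θ (Classical.choose h) := dif_pos h
  rw [hG]
  obtain ⟨h1, h2⟩ := Classical.choose_spec h
  set s' := Classical.choose h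
  rw [QuotientAddGroup.eq] at h2
  have h3 := hθ.add _ h1 _ (S.add_mem (S.neg_mem h1) hs)
  have h4 : θ (-s' + s) = 0 := by
    have := h2.2 0
    simpa using this
  rw [h4, add_zero, add_neg_cancel_left] at h3
  exact h3.symm


/-! ### The property `GenProp` -/

/-- The endomorphism `x^v ↦ x^(e v)` of `D`. -/
noncomputable def concPsi (e : ℕ) : D →ₐ[ZMod 2] D :=
  AddMonoidAlgebra.mapDomainAlgHom (ZMod 2) (ZMod 2) (nsmulAddMonoidHom (α := B) e)

lemma concPsi_mon (e : ℕ) (v : B) : concPsi e (mon v) = mon (e • v) := by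
  simp [concPsi, mon]

lemma conc_mon_pow (e : ℕ) (v : B) : mon v ^ e = mon (e • v) := by
  induction e with
  | zero => rw [pow_zero, zero_smul, conc_mon_zero]
  | succ e ih => rw [pow_succ, ih, ← conc_mon_add, succ_nsmul]

lemma conc_finite (e : ℕ) (he : 0 < e) :
    IsNoetherian (concPsi e).range D := by
  have hD : Algebra.FiniteType (ZMod 2) D := AddMonoidAlgebra.finiteType_of_fg _ _
  have h1 : Algebra.FiniteType (ZMod 2) (concPsi e).range :=
    Algebra.FiniteType.of_surjective (concPsi e).rangeRestrict (concPsi e).rangeRestrict_surjective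
  have h2 : IsNoetherianRing (concPsi e).range :=
    Algebra.FiniteType.isNoetherianRing (ZMod 2) _
  have h3 : Algebra.FiniteType (concPsi e).range D :=
    Algebra.FiniteType.of_restrictScalars_finiteType (ZMod 2) (concPsi e).range D
  have h4 : Algebra.IsIntegral (concPsi e).range D := by
    refine ⟨fun d => ?_⟩
    refine conc_ind (p := fun d => IsIntegral (concPsi e).range d) ?_ ?_ ?_ d
    · exact isIntegral_zero
    · intro x y hx hy
      exact hx.add hy
    · intro v
      apply IsIntegral.of_pow he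
      have : mon v ^ e = algebraMap (concPsi e).range D ⟨mon (e • v), mon v, concPsi_mon e v⟩ := by
        rw [conc_mon_pow]; rfl
      rw [this]
      exact isIntegral_algebraMap
  have h5 : Module.Finite (concPsi e).range D := Algebra.IsIntegral.finite
  exact isNoetherian_of_isNoetherianRing_of_finite _ _

theorem AA_genProp : GenProp AA := by
  intro H hH S hS hst
  obtain ⟨e, he, hpow⟩ := conc_pow_mem H hH
  have hbe : ∀ w : B, bb (e • w) ∈ H := fun w => by rw [bb_nsmul]; exact hpow _
  have hcl : ∀ (C : AddSubgroup AA) (_ : ∀ w : B, ∀ a ∈ C, bb (e • w) • a ∈ C)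
      (x : D) (a : AA), a ∈ C → concPsi e x • a ∈ C := by
    intro C hC x a ha
    refine conc_ind (p := fun x => concPsi e x • a ∈ C) ?_ ?_ ?_ x
    · rw [map_zero, zero_smul]; exact C.zero_mem
    · intro x y hx hy
      rw [map_add, add_smul]; exact C.add_mem hx hy
    · intro v
      rw [concPsi_mon, ← conc_bb]; exact hC v a ha
  have hstS : ∀ w : B, ∀ a ∈ S, bb (e • w) • a ∈ S := fun w a ha => hst ⟨_, hbe w⟩ a ha
  let V : Submodule (concPsi e).range D :=
    { carrier := {d | d • concE ∈ S}
      zero_mem' := by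
        show (0 : D) • concE ∈ S
        rw [zero_smul]; exact S.zero_mem
      add_mem' := by
        intro x y hx hy
        show (x + y) • concE ∈ S
        rw [add_smul]; exact S.add_mem hx hy
      smul_mem' := by
        rintro ⟨_, c, rfl⟩ x hx
        show (concPsi e c * x) • concE ∈ S
        rw [mul_smul]
        exact hcl S hstS c _ hx }
  have hN := conc_finite e he
  obtain ⟨G, hG⟩ := (isNoetherian_def.mp hN) V
  classical
  refine ⟨G.image (fun d => d • concE), ?_, ?_⟩
  · intro y hy
    rw [Finset.coe_image] at hy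
    obtain ⟨d, hd, rfl⟩ := hy
    have : d ∈ V := by rw [← hG]; exact Submodule.subset_span hd
    exact this
  · intro x hx K hK hKH
    obtain ⟨m, hm⟩ := conc_cover x
    refine ⟨m, fun j hj => ?_⟩
    obtain ⟨d, hd⟩ := hm (K * j) (hj.trans (Nat.le_mul_of_pos_left j hK))
    have h1 : tt ^ (K * j) • x ∈ S := by
      have : tt ^ (K * j) ∈ H := by rw [pow_mul]; exact H.pow_mem hKH j
      exact hst ⟨_, this⟩ x hx
    rw [hd] at h1 ⊢
    have h2 : d ∈ V := h1
    rw [← hG] at h2
    set C := AddSubgroup.closure {y : AA | ∃ v : B, bb v ∈ H ∧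
      ∃ z ∈ G.image (fun d => d • concE), y = bb v • z} with hCdef
    have hC : ∀ w : B, ∀ a ∈ C, bb (e • w) • a ∈ C := by
      intro w a ha
      refine AddSubgroup.closure_induction (p := fun a _ => bb (e • w) • a ∈ C) ?_ ?_ ?_ ?_ ha
      · rintro y ⟨v, hv, z, hz, rfl⟩
        apply AddSubgroup.subset_closure
        refine ⟨e • w + v, ?_, z, hz, ?_⟩
        · rw [bb_add]; exact H.mul_mem (hbe w) hv
        · rw [bb_add, mul_smul]
      · rw [smul_zero]; exact C.zero_mem
      · intro a b _ _ ha hb
        rw [smul_add]; exact C.add_mem ha hb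
      · intro a _ ha
        rw [smul_neg]; exact C.neg_mem ha
    refine Submodule.span_induction (p := fun d _ => d • concE ∈ C) ?_ ?_ ?_ ?_ h2
    · intro d hd
      apply AddSubgroup.subset_closure
      refine ⟨0, by rw [bb_zero]; exact H.one_mem, d • concE, ?_, by simp⟩
      exact Finset.mem_image_of_mem _ hd
    · rw [zero_smul]; exact C.zero_mem
    · intro a b _ _ ha hb
      rw [add_smul]; exact C.add_mem ha hb
    · rintro ⟨_, c, rfl⟩ x _ hx
      show (concPsi e c * x) • concE ∈ C
      rw [mul_smul]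
      exact hcl C hC c _ hx

end Pool.Agent.Helper22.AutMet
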