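import Mathlib
import Pool.Agent.Helper22.AutMet.Base

/-! (Control) over the ring generated by `U`, distinct cosets of `U` are independent. -/

set_option autoImplicit false

namespace Pool.Agent.Helper22.AutMet

section ControlSec

open Polynomial

variable {R : Type} [CommRing R]

lemma control_comm {G : Type} [CommGroup G] (x0 x1 v0 v1 w : G) :
    x0 / v0 / (x1 / v1) * w * (x1 / x0) = w * (v1 / v0) := by
  have h : ∀ (A : Type) [AddCommGroup A] (x0 x1 v0 v1 w : A),
      x0 - v0 - (x1 - v1) + w + (x1 - x0) = w + (v1 - v0) := by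
    intro A _ x0 x1 v0 v1 w
    abel
  exact h (Additive G) (Additive.ofMul x0) (Additive.ofMul x1) (Additive.ofMul v0)
    (Additive.ofMul v1) (Additive.ofMul w)

lemma control_comm2 {G : Type} [CommGroup G] (e x y w s t : G) :
    e * x / y * w * (y * s / (x * t)) = e * (w * (s / t)) := by
  have h : ∀ (A : Type) [AddCommGroup A] (e x y w s t : A),
      e + x - y + w + (y + s - (x + t)) = e + (w + (s - t)) := by
    intro A _ e x y w s t
    abel
  exact h (Additive G) (Additive.ofMul e) (Additive.ofMul x) (Additive.ofMul y)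
    (Additive.ofMul w) (Additive.ofMul s) (Additive.ofMul t)

lemma control_KU_map {W : Subgroup Rˣ} {f : R →+* R} (h : UStable f W) {a : R}
    (ha : a ∈ KU W) : f a ∈ KU W := by
  have : KU W ≤ (KU W).comap f := by
    refine Subring.closure_le.2 ?_
    rintro _ ⟨u, hu, rfl⟩
    exact Subring.subset_closure ⟨_, h u hu, rfl⟩
  exact this ha

lemma control_unit_mem {W : Subgroup Rˣ} {w : Rˣ} (hw : w ∈ W) : (w : R) ∈ KU W :=
  Subring.subset_closure ⟨w, hw, rfl⟩

lemma control_unit_ne [Nontrivial R] {W : Subgroup Rˣ} {w : Rˣ} (hw : w ∈ W) :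
    (⟨(w : R), control_unit_mem hw⟩ : KU W) ≠ 0 := by
  intro h0
  have : (w : R) = 0 := congrArg Subtype.val h0
  exact w.ne_zero this

/-- The property of the ring generated by `W` used in the induction. -/
def ControlP {I : Type} (β : I → (R →+* R)) (W : Subgroup Rˣ) : Prop :=
  ∀ a ∈ KU W, ∀ c ∈ KU W, a ≠ 0 → c ≠ 0 → ∀ χ : I → Rˣ, (∀ b, χ b ∈ W) →
    (∀ b, β b a * c = χ b * a * β b c) →
    ∃ w ∈ W, ∀ b, Units.map (β b : R →* R) w = χ b * w

lemma control_sum [IsDomain R] {I : Type} (β : I → (R →+* R)) (V W : Subgroup Rˣ) (hWV : W ≤ V)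
    (hWs : ∀ b, UStable (β b) W)
    (hfix : ∀ v ∈ V, (∀ b, Units.map (β b : R →* R) v = v) → v ∈ W)
    (hP : ControlP β W) {ι : Type} (v : ι → Rˣ) (hv : ∀ i, v i ∈ V)
    (hχ : ∀ b i, Units.map (β b : R →* R) (v i) / v i ∈ W)
    (hinj : ∀ i j, v i / v j ∈ W → i = j) (s : Finset ι) :
    ∀ g : ι → R, (∀ i ∈ s, g i ∈ KU W) → ∑ i ∈ s, g i * (v i : R) = 0 → ∀ i ∈ s, g i = 0 := by
  classical
  induction s using Finset.induction_on with
  | empty => intro g _ _ i hi; simp at hi
  | insert i0 s hi0 ih =>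
    intro g hg hsum
    rw [Finset.sum_insert hi0] at hsum
    have hgs : ∀ i ∈ s, g i ∈ KU W := fun i hi => hg i (Finset.mem_insert_of_mem hi)
    have hg0 : g i0 ∈ KU W := hg i0 (Finset.mem_insert_self _ _)
    by_cases h0 : g i0 = 0
    · rw [h0, zero_mul, zero_add] at hsum
      intro i hi
      rcases Finset.mem_insert.1 hi with rfl | hi
      · exact h0
      · exact ih g hgs hsum i hi
    · exfalso
      have key : ∀ b, ∀ i ∈ s, g i0 * (β b (g i) * ((Units.map (β b : R →* R) (v i) / v i : Rˣ) : R))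
          - β b (g i0) * ((Units.map (β b : R →* R) (v i0) / v i0 : Rˣ) : R) * g i = 0 := by
        intro b
        have e1 : ∀ i, ((Units.map (β b : R →* R) (v i) / v i : Rˣ) : R) * (v i : R)
            = β b (v i : R) := by
          intro i
          rw [← Units.val_mul, div_mul_cancel]
          rfl
        apply ih
        · intro i hi
          refine Subring.sub_mem _ (Subring.mul_mem _ hg0 (Subring.mul_mem _
            (control_KU_map (hWs b) (hgs i hi)) (control_unit_mem (hχ b i)))) ?_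
          exact Subring.mul_mem _ (Subring.mul_mem _ (control_KU_map (hWs b) hg0)
            (control_unit_mem (hχ b i0))) (hgs i hi)
        · have h1 : β b (g i0) * β b (v i0 : R) + ∑ i ∈ s, β b (g i) * β b (v i : R) = 0 := by
            have := congrArg (β b) hsum
            simpa [map_sum] using this
          have h2 : ∑ i ∈ s, (g i0 * (β b (g i) *
              ((Units.map (β b : R →* R) (v i) / v i : Rˣ) : R))
              - β b (g i0) * ((Units.map (β b : R →* R) (v i0) / v i0 : Rˣ) : R) * g i)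
                * (v i : R) = g i0 * (∑ i ∈ s, β b (g i) * β b (v i : R))
                - β b (g i0) * ((Units.map (β b : R →* R) (v i0) / v i0 : Rˣ) : R) *
                  ∑ i ∈ s, g i * (v i : R) := by
            rw [Finset.mul_sum, Finset.mul_sum, ← Finset.sum_sub_distrib]
            refine Finset.sum_congr rfl fun i _ => ?_
            rw [← e1 i]; ring
          rw [h2]
          have h3 : ∑ i ∈ s, β b (g i) * β b (v i : R) = - (β b (g i0) * β b (v i0 : R)) :=
            eq_neg_of_add_eq_zero_right h1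
          have h4 : ∑ i ∈ s, g i * (v i : R) = - (g i0 * (v i0 : R)) :=
            eq_neg_of_add_eq_zero_right hsum
          rw [h3, h4, ← e1 i0]; ring
      by_cases hall : ∀ i ∈ s, g i = 0
      · rw [Finset.sum_eq_zero (fun i hi => by rw [hall i hi, zero_mul]), add_zero] at hsum
        exact h0 ((mul_eq_zero.1 hsum).resolve_right (v i0).ne_zero)
      · push Not at hall
        obtain ⟨i1, hi1, hne⟩ := hall
        obtain ⟨w, hw, hwe⟩ := hP (g i1) (hgs i1 hi1) (g i0) hg0 hne h0
          (fun b => (Units.map (β b : R →* R) (v i0) / v i0) /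
            (Units.map (β b : R →* R) (v i1) / v i1))
          (fun b => W.div_mem (hχ b i0) (hχ b i1)) (by
            intro b
            have h5 := sub_eq_zero.1 (key b i1 hi1)
            have h6 : (((Units.map (β b : R →* R) (v i0) / v i0) /
                (Units.map (β b : R →* R) (v i1) / v i1) : Rˣ) : R) *
                ((Units.map (β b : R →* R) (v i1) / v i1 : Rˣ) : R) =
                ((Units.map (β b : R →* R) (v i0) / v i0 : Rˣ) : R) := by
              rw [← Units.val_mul, div_mul_cancel]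
            have h7 : ((Units.map (β b : R →* R) (v i1) / v i1 : Rˣ) : R) ≠ 0 := Units.ne_zero _
            apply mul_right_cancel₀ h7
            rw [← h6] at h5
            linear_combination h5)
        have hfx : w * (v i1 / v i0) ∈ W := by
          apply hfix
          · exact V.mul_mem (hWV hw) (V.div_mem (hv _) (hv _))
          · intro b
            rw [map_mul, hwe b, _root_.map_div]
            exact control_comm _ _ _ _ _
        have h8 : v i1 / v i0 ∈ W := by
          have := W.mul_mem (W.inv_mem hw) hfx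
          rwa [inv_mul_cancel_left] at this
        have := hinj _ _ h8
        exact hi0 (this ▸ hi1)

lemma control_poly {W : Subgroup Rˣ} (s : Rˣ) {a : R}
    (ha : a ∈ KU (W ⊔ Subgroup.zpowers s)) :
    ∃ (n : ℕ) (P : (KU W)[X]), ((s ^ n : Rˣ) : R) * a = aeval (s : R) P := by
  have ha' : a ∈ Subring.closure
    ((fun u : Rˣ => (u : R)) '' ((W ⊔ Subgroup.zpowers s : Subgroup Rˣ) : Set Rˣ)) := ha
  clear ha
  induction ha' using Subring.closure_induction with
  | mem x hx =>
    obtain ⟨u, hu, rfl⟩ := hx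
    obtain ⟨w, hw, t, ht, rfl⟩ := Subgroup.mem_sup.1 hu
    obtain ⟨k, rfl⟩ := Subgroup.mem_zpowers_iff.1 ht
    refine ⟨k.natAbs, C ⟨(w : R), control_unit_mem hw⟩ * X ^ ((k.natAbs : ℤ) + k).toNat, ?_⟩
    have h1 : s ^ k.natAbs * (w * s ^ k) = w * s ^ ((k.natAbs : ℤ) + k).toNat := by
      rw [← zpow_natCast, ← zpow_natCast s ((k.natAbs : ℤ) + k).toNat,
        Int.toNat_of_nonneg (by omega), zpow_add, mul_left_comm]
    simp only [map_mul, aeval_C, map_pow, aeval_X]
    rw [← Units.val_mul, h1]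
    rw [Units.val_mul, Units.val_pow_eq_pow_val]
    rfl
  | zero => exact ⟨0, 0, by simp⟩
  | one => exact ⟨0, 1, by simp⟩
  | add x y _ _ hx hy =>
    obtain ⟨n1, P1, h1⟩ := hx
    obtain ⟨n2, P2, h2⟩ := hy
    refine ⟨n1 + n2, X ^ n2 * P1 + X ^ n1 * P2, ?_⟩
    simp only [map_add, map_mul, map_pow, aeval_X, ← h1, ← h2, Units.val_pow_eq_pow_val]
    ring
  | neg x _ hx =>
    obtain ⟨n1, P1, h1⟩ := hx
    exact ⟨n1, -P1, by rw [mul_neg, h1, map_neg]⟩
  | mul x y _ _ hx hy =>
    obtain ⟨n1, P1, h1⟩ := hx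
    obtain ⟨n2, P2, h2⟩ := hy
    refine ⟨n1 + n2, P1 * P2, ?_⟩
    rw [map_mul, ← h1, ← h2, pow_add, Units.val_mul]
    ring

lemma control_transc [IsDomain R] {I : Type} (β : I → (R →+* R)) (V W : Subgroup Rˣ)
    (hWV : W ≤ V) (hWs : ∀ b, UStable (β b) W)
    (hfix : ∀ v ∈ V, (∀ b, Units.map (β b : R →* R) v = v) → v ∈ W)
    (hP : ControlP β W) (s : Rˣ) (hsV : s ∈ V)
    (hη : ∀ b, Units.map (β b : R →* R) s / s ∈ W)
    (hs : ∀ k : ℤ, s ^ k ∈ W → k = 0) (p : (KU W)[X]) (hp : aeval (s : R) p = 0) : p = 0 := by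
  rw [aeval_eq_sum_range] at hp
  have := control_sum β V W hWV hWs hfix hP (fun k : ℕ => s ^ k) (fun k => V.pow_mem hsV k)
    (fun b k => by
      rw [map_pow, ← div_pow]
      exact W.pow_mem (hη b) k)
    (fun i j hij => by
      have := hs ((i : ℤ) - j) (by
        rw [zpow_sub, zpow_natCast, zpow_natCast, ← div_eq_mul_inv]; exact hij)
      omega)
    (Finset.range (p.natDegree + 1)) (fun i => (p.coeff i : R)) (fun i _ => (p.coeff i).2)
    (by
      rw [← hp]
      refine Finset.sum_congr rfl fun i _ => ?_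
      simp [Subring.smul_def])
  ext i
  by_cases hi : i ≤ p.natDegree
  · simpa using this i (Finset.mem_range.2 (by omega))
  · rw [coeff_eq_zero_of_natDegree_lt (by omega)]
    rfl

/-- The twist of a polynomial. -/
noncomputable def controlTw {K : Type} [CommRing K] (f : K →+* K) (η : K) (P : K[X]) : K[X] :=
  (P.map f).comp (C η * X)

lemma controlTw_natDegree {K : Type} [CommRing K] [IsDomain K] (f : K →+* K)
    (hf : Function.Injective f) (η : K) (hη : η ≠ 0) (P : K[X]) :
    (controlTw f η P).natDegree = P.natDegree := by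
  rw [controlTw, natDegree_comp, natDegree_map_eq_of_injective hf, natDegree_C_mul_X _ hη,
    mul_one]

lemma controlTw_leadingCoeff {K : Type} [CommRing K] [IsDomain K] (f : K →+* K)
    (hf : Function.Injective f) (η : K) (hη : η ≠ 0) (P : K[X]) :
    (controlTw f η P).leadingCoeff = f P.leadingCoeff * η ^ P.natDegree := by
  rw [controlTw, leadingCoeff_comp (by rw [natDegree_C_mul_X _ hη]; exact one_ne_zero),
    leadingCoeff_map_of_injective hf, natDegree_map_eq_of_injective hf, leadingCoeff_C_mul_X]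

lemma controlTw_ne_zero {K : Type} [CommRing K] [IsDomain K] (f : K →+* K)
    (hf : Function.Injective f) (η : K) (hη : η ≠ 0) (P : K[X]) (hP : P ≠ 0) :
    controlTw f η P ≠ 0 := by
  rw [← leadingCoeff_ne_zero, controlTw_leadingCoeff f hf η hη]
  exact mul_ne_zero (by rw [Ne, map_eq_zero_iff f hf]; exact leadingCoeff_ne_zero.2 hP)
    (pow_ne_zero _ hη)

lemma controlTw_aeval (f : R →+* R) (K : Subring R) (hK : ∀ x ∈ K, f x ∈ K) (η : K) (s : R)
    (hs : f s = η * s) (P : K[X]) :
    f (aeval s P) = aeval s (controlTw (f.restrict K K hK) η P) := by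
  rw [controlTw, aeval_comp, aeval_def, aeval_def, hom_eval₂, eval₂_map]
  have h1 : f s = aeval s (C η * X) := by
    rw [map_mul, aeval_C, aeval_X, hs]; rfl
  rw [h1]
  rfl

/-- The polynomial comparison. -/
lemma control_compare {K : Type} [CommRing K] [IsDomain K] (f : K →+* K)
    (hf : Function.Injective f) (η : K) (hη : η ≠ 0) (P P' : K[X]) (hP : P ≠ 0) (hP' : P' ≠ 0)
    (e : K) (he : e ≠ 0) (n n' : ℕ)
    (h : X ^ n' * (controlTw f η P * P') = C e * X ^ n * (P * controlTw f η P')) :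
    n = n' ∧ f P.leadingCoeff * η ^ P.natDegree * P'.leadingCoeff =
      e * (P.leadingCoeff * (f P'.leadingCoeff * η ^ P'.natDegree)) := by
  have h1 := congrArg natDegree h
  have hT : controlTw f η P ≠ 0 := controlTw_ne_zero f hf η hη P hP
  have hT' : controlTw f η P' ≠ 0 := controlTw_ne_zero f hf η hη P' hP'
  rw [natDegree_mul (pow_ne_zero _ X_ne_zero) (mul_ne_zero hT hP'), natDegree_mul hT hP',
    natDegree_mul (mul_ne_zero (C_ne_zero.2 he) (pow_ne_zero _ X_ne_zero)) (mul_ne_zero hP hT'),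
    natDegree_mul (C_ne_zero.2 he) (pow_ne_zero _ X_ne_zero), natDegree_C,
    natDegree_mul hP hT', natDegree_X_pow, natDegree_X_pow, controlTw_natDegree f hf η hη,
    controlTw_natDegree f hf η hη] at h1
  refine ⟨by omega, ?_⟩
  have h2 := congrArg leadingCoeff h
  simpa only [leadingCoeff_mul, leadingCoeff_X_pow, leadingCoeff_C, one_mul, mul_one,
    controlTw_leadingCoeff f hf η hη] using h2

lemma control_step [IsDomain R] {I : Type} (β : I → (R →+* R))
    (hβ : ∀ b, Function.Injective (β b)) (V W : Subgroup Rˣ)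
    (hWV : W ≤ V) (hWs : ∀ b, UStable (β b) W)
    (hfix : ∀ v ∈ V, (∀ b, Units.map (β b : R →* R) v = v) → v ∈ W)
    (hP : ControlP β W) (s : Rˣ) (hsV : s ∈ V)
    (hη : ∀ b, Units.map (β b : R →* R) s / s ∈ W)
    (hs : ∀ k : ℤ, s ^ k ∈ W → k = 0) : ControlP β (W ⊔ Subgroup.zpowers s) := by
  intro a ha c hc ha0 hc0 χ hχ heq
  obtain ⟨n1, P1, h1⟩ := control_poly s ha
  obtain ⟨n2, P2, h2⟩ := control_poly s hc
  have htr := control_transc β V W hWV hWs hfix hP s hsV hη hs
  have hK : ∀ b, ∀ x ∈ KU W, β b x ∈ KU W := fun b x hx => control_KU_map (hWs b) hx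
  obtain ⟨PA, hPA⟩ : ∃ P : (KU W)[X], P = X ^ n2 * P1 := ⟨_, rfl⟩
  obtain ⟨PC, hPC⟩ : ∃ P : (KU W)[X], P = X ^ n1 * P2 := ⟨_, rfl⟩
  have eA : aeval (s : R) PA = ((s ^ (n1 + n2) : Rˣ) : R) * a := by
    rw [hPA, map_mul, ← h1, map_pow, aeval_X, pow_add, Units.val_mul, Units.val_pow_eq_pow_val,
      Units.val_pow_eq_pow_val]
    ring
  have eC : aeval (s : R) PC = ((s ^ (n1 + n2) : Rˣ) : R) * c := by
    rw [hPC, map_mul, ← h2, map_pow, aeval_X, pow_add, Units.val_mul, Units.val_pow_eq_pow_val,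
      Units.val_pow_eq_pow_val]
    ring
  have hPA0 : PA ≠ 0 := by
    intro h0
    rw [h0, map_zero] at eA
    exact mul_ne_zero (Units.ne_zero _) ha0 eA.symm
  have hPC0 : PC ≠ 0 := by
    intro h0
    rw [h0, map_zero] at eC
    exact mul_ne_zero (Units.ne_zero _) hc0 eC.symm
  have hdec : ∀ b, ∃ (e : Rˣ) (j : ℤ), e ∈ W ∧ χ b = e * s ^ j := by
    intro b
    obtain ⟨w, hw, t, ht, h3⟩ := Subgroup.mem_sup.1 (hχ b)
    obtain ⟨k, rfl⟩ := Subgroup.mem_zpowers_iff.1 ht
    exact ⟨w, k, hw, h3.symm⟩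
  choose e j heW hej using hdec
  have hβs : ∀ b, β b (s : R) = ((Units.map (β b : R →* R) s / s : Rˣ) : R) * (s : R) := by
    intro b
    rw [← Units.val_mul, div_mul_cancel]
    rfl
  have main : ∀ b, j b = 0 ∧
      β b (PA.leadingCoeff : R) * ((Units.map (β b : R →* R) s / s : Rˣ) : R) ^ PA.natDegree *
        (PC.leadingCoeff : R) = (e b : R) * ((PA.leadingCoeff : R) * (β b (PC.leadingCoeff : R) *
        ((Units.map (β b : R →* R) s / s : Rˣ) : R) ^ PC.natDegree)) := by
    intro b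
    have hbs : aeval (s : R) (controlTw ((β b).restrict _ _ (hK b))
        ⟨_, control_unit_mem (hη b)⟩ PA) = β b (aeval (s : R) PA) :=
      (controlTw_aeval (β b) (KU W) (hK b) ⟨_, control_unit_mem (hη b)⟩ (s : R) (hβs b) PA).symm
    have hbs' : aeval (s : R) (controlTw ((β b).restrict _ _ (hK b))
        ⟨_, control_unit_mem (hη b)⟩ PC) = β b (aeval (s : R) PC) :=
      (controlTw_aeval (β b) (KU W) (hK b) ⟨_, control_unit_mem (hη b)⟩ (s : R) (hβs b) PC).symm
    have hinjr : Function.Injective ((β b).restrict (KU W) (KU W) (hK b)) := by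
      intro x y hxy
      apply Subtype.ext
      apply hβ b
      exact congrArg Subtype.val hxy
    have hcmp := control_compare ((β b).restrict (KU W) (KU W) (hK b)) hinjr
      ⟨_, control_unit_mem (hη b)⟩ (control_unit_ne (hη b)) PA PC hPA0 hPC0
      ⟨(e b : R), control_unit_mem (heW b)⟩ (control_unit_ne (heW b))
      (j b).toNat (-(j b)).toNat (by
        rw [← sub_eq_zero]
        apply htr
        rw [map_sub, sub_eq_zero, map_mul, map_mul, map_mul, map_mul, map_mul, hbs, hbs', eA, eC,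
          map_pow, map_pow, aeval_X, aeval_C, map_mul, map_mul]
        have h4 := heq b
        have h5 : s ^ (-(j b)).toNat * χ b = e b * s ^ (j b).toNat := by
          rw [hej b, ← zpow_natCast, ← zpow_natCast, mul_left_comm, ← zpow_add]
          congr 2
          omega
        have h6 : (s : R) ^ (-(j b)).toNat * (χ b : R) = (e b : R) * (s : R) ^ (j b).toNat := by
          have := congrArg (fun x : Rˣ => (x : R)) h5
          simpa only [Units.val_mul, Units.val_pow_eq_pow_val] using this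
        have h7 : algebraMap (KU W) R ⟨(e b : R), control_unit_mem (heW b)⟩ = (e b : R) := rfl
        rw [h7]
        linear_combination (s : R) ^ (-(j b)).toNat * β b ((s ^ (n1 + n2) : Rˣ) : R) *
          ((s ^ (n1 + n2) : Rˣ) : R) * h4 + β b ((s ^ (n1 + n2) : Rˣ) : R) *
          ((s ^ (n1 + n2) : Rˣ) : R) * a * β b c * h6)
    refine ⟨by omega, ?_⟩
    have := congrArg Subtype.val hcmp.2
    simpa using this
  obtain ⟨w, hw, hwe⟩ := hP PA.leadingCoeff PA.leadingCoeff.2 PC.leadingCoeff PC.leadingCoeff.2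
    (by
      intro h0
      exact hPA0 (leadingCoeff_eq_zero.1 (Subtype.ext h0)))
    (by
      intro h0
      exact hPC0 (leadingCoeff_eq_zero.1 (Subtype.ext h0)))
    (fun b => e b * (Units.map (β b : R →* R) s / s) ^ PC.natDegree /
      (Units.map (β b : R →* R) s / s) ^ PA.natDegree)
    (fun b => W.div_mem (W.mul_mem (heW b) (W.pow_mem (hη b) _)) (W.pow_mem (hη b) _))
    (by
      intro b
      have h8 := (main b).2
      have h9 : (((Units.map (β b : R →* R) s / s) ^ PA.natDegree : Rˣ) : R) ≠ 0 :=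
        Units.ne_zero _
      apply mul_right_cancel₀ h9
      have h10 : ((e b * (Units.map (β b : R →* R) s / s) ^ PC.natDegree /
          (Units.map (β b : R →* R) s / s) ^ PA.natDegree : Rˣ) : R) *
          (((Units.map (β b : R →* R) s / s) ^ PA.natDegree : Rˣ) : R) =
          (e b : R) * (((Units.map (β b : R →* R) s / s) ^ PC.natDegree : Rˣ) : R) := by
        rw [← Units.val_mul, div_mul_cancel, Units.val_mul]
      rw [← Units.val_pow_eq_pow_val, ← Units.val_pow_eq_pow_val] at h8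
      linear_combination h8 - (PA.leadingCoeff : R) * β b (PC.leadingCoeff : R) * h10)
  refine ⟨w * (s ^ PA.natDegree / s ^ PC.natDegree), ?_, ?_⟩
  · refine Subgroup.mul_mem_sup hw (Subgroup.div_mem _ ?_ ?_) <;>
      exact Subgroup.pow_mem _ (Subgroup.mem_zpowers s) _
  · intro b
    rw [map_mul, hwe b, _root_.map_div, map_pow, map_pow, hej b, (main b).1, zpow_zero, mul_one]
    have h11 : Units.map (β b : R →* R) s = (Units.map (β b : R →* R) s / s) * s := by
      rw [div_mul_cancel]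
    generalize Units.map (β b : R →* R) s / s = η at h11 ⊢
    rw [h11, mul_pow, mul_pow]
    exact control_comm2 _ _ _ _ _ _

end ControlSec

lemma control_prim (G : Type) [AddCommGroup G] [Module.Finite ℤ G]
    (tf : ∀ (j : ℕ) (x : G), 0 < j → j • x = 0 → x = 0) (v : G) (hv : v ≠ 0) :
    ∃ (s : G) (m : ℕ), 0 < m ∧ v = m • s ∧
      ∀ (x : G) (j : ℕ) (k : ℤ), 0 < j → j • x = k • s → ∃ k' : ℤ, x = k' • s := by
  classical
  have tfz : ∀ (j : ℤ) (x : G), j ≠ 0 → j • x = 0 → x = 0 := by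
    intro j x hj hx
    apply tf j.natAbs x (Int.natAbs_pos.2 hj)
    rcases Int.natAbs_eq j with h | h
    · rw [h, natCast_zsmul] at hx; exact hx
    · rw [h, neg_smul, natCast_zsmul, neg_eq_zero] at hx; exact hx
  have : Module.IsTorsionFree ℤ G := Module.IsTorsionFree.of_smul_eq_zero (by
    intro j x hx
    by_cases hj : j = 0
    · exact Or.inl hj
    · exact Or.inr (tfz j x hj hx))
  have : Module.Free ℤ G := inferInstance
  let b := Module.Free.chooseBasis ℤ G
  obtain ⟨i, hi⟩ : ∃ i, b.repr v i ≠ 0 := by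
    by_contra hcon
    push Not at hcon
    apply hv
    apply b.repr.injective
    ext i
    simpa using hcon i
  let T : Set ℕ := {m | 0 < m ∧ ∃ s : G, v = m • s}
  have hTfin : T.Finite := by
    apply (Set.finite_Iic (b.repr v i).natAbs).subset
    rintro m ⟨hm, s, hs⟩
    have h1 : b.repr v i = m * b.repr s i := by
      rw [hs]; simp
    rw [Set.mem_Iic]
    apply Nat.le_of_dvd (Int.natAbs_pos.2 hi)
    rw [h1, Int.natAbs_mul, Int.natAbs_natCast]
    exact Nat.dvd_mul_right _ _
  have hTne : T.Nonempty := ⟨1, one_pos, v, (one_smul ℕ v).symm⟩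
  obtain ⟨m, ⟨hm, s, hs⟩, hmax⟩ := Set.exists_max_image T id hTfin hTne
  refine ⟨s, m, hm, hs, ?_⟩
  intro x j k hj hx
  have hg : (Int.gcd j k : ℤ) ≠ 0 := by
    intro h0
    have : Int.gcd j k = 0 := by exact_mod_cast h0
    rw [Int.gcd_eq_zero_iff] at this
    omega
  obtain ⟨j', hj'⟩ := Int.gcd_dvd_left (j : ℤ) k
  obtain ⟨k', hk'⟩ := Int.gcd_dvd_right (j : ℤ) k
  have h1 : j' • x = k' • s := by
    rw [← sub_eq_zero]
    apply tfz _ _ hg
    rw [smul_sub, smul_smul, smul_smul, ← hj', ← hk', natCast_zsmul, hx, sub_self]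
  have h2 : Int.gcd (j : ℤ) k = (j : ℤ) * Int.gcdA j k + k * Int.gcdB j k := Int.gcd_eq_gcd_ab _ _
  have h3 : j' * Int.gcdA j k + k' * Int.gcdB j k = 1 := by
    apply mul_left_cancel₀ hg
    rw [mul_one, mul_add, ← mul_assoc, ← mul_assoc, ← hj', ← hk', ← h2]
  have h4 : s = j' • (Int.gcdA j k • s + Int.gcdB j k • x) := by
    rw [smul_add, smul_comm j' (Int.gcdB (j : ℤ) k) x, h1, smul_smul, smul_smul, ← add_smul,
      mul_comm (Int.gcdB (j : ℤ) k) k', h3, one_smul]
  have hjpos : 0 < j' := by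
    have h5 : (0 : ℤ) < (Int.gcd j k : ℤ) * j' := by rw [← hj']; exact_mod_cast hj
    have h6 : (0 : ℤ) < Int.gcd j k := lt_of_le_of_ne (Int.natCast_nonneg _) (Ne.symm hg)
    exact (mul_pos_iff_of_pos_left h6).1 h5
  obtain ⟨n, rfl⟩ := Int.eq_ofNat_of_zero_le hjpos.le
  have h7 : m * n ∈ T := by
    refine ⟨Nat.mul_pos hm (by exact_mod_cast hjpos), Int.gcdA j k • s + Int.gcdB j k • x, ?_⟩
    rw [mul_smul, ← natCast_zsmul _ n]
    exact hs.trans (congrArg _ h4)
  have h8 := hmax _ h7
  have h9 : n = 1 := by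
    have hn : 0 < n := by exact_mod_cast hjpos
    have : m * n ≤ m * 1 := by simpa using h8
    have := Nat.le_of_mul_le_mul_left this hm
    omega
  subst h9
  exact ⟨k', by simpa using h1⟩

/-- The submodule of `Additive V` defined by a subgroup. -/
def controlSub {G : Type} [CommGroup G] (V W : Subgroup G) : AddSubgroup (Additive V) :=
  Subgroup.toAddSubgroup (W.subgroupOf V)

lemma control_acc {G : Type} [CommGroup G] (V : Subgroup G) (hV : V.FG) (S : Set (Subgroup G))
    (hS : ∀ W ∈ S, W ≤ V) (hne : S.Nonempty) : ∃ W ∈ S, ∀ W' ∈ S, ¬ W < W' := by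
  have : Group.FG V := (Group.fg_iff_subgroup_fg V).2 hV
  have : AddGroup.FG (Additive V) := inferInstance
  have : Module.Finite ℤ (Additive V) := Module.Finite.iff_addGroup_fg.2 inferInstance
  have : IsNoetherian ℤ (Additive V) := inferInstance
  have : WellFoundedGT (Submodule ℤ (Additive V)) := inferInstance
  let f : Subgroup G → Submodule ℤ (Additive V) := fun W =>
    AddSubgroup.toIntSubmodule (controlSub V W)
  have hmem : ∀ (W : Subgroup G) (x : V), Additive.ofMul x ∈ f W ↔ (x : G) ∈ W := by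
    intro W x
    rfl
  obtain ⟨_, ⟨W, hW, rfl⟩, hmax⟩ := WellFounded.has_min
    (wellFounded_gt : WellFounded ((· > ·) : Submodule ℤ (Additive V) → _ → Prop))
    (f '' S) (hne.image f)
  refine ⟨W, hW, ?_⟩
  intro W' hW' hlt
  apply hmax (f W') ⟨W', hW', rfl⟩
  refine lt_of_le_of_ne ?_ ?_
  · intro x hx
    exact (hmem W' x.toMul).2 (hlt.le ((hmem W x.toMul).1 hx))
  · intro heq
    apply hlt.not_ge
    intro x hx
    have hxV := hS W' hW' hx
    have h1 : Additive.ofMul (⟨x, hxV⟩ : V) ∈ f W' := (hmem W' ⟨x, hxV⟩).2 hx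
    rw [← heq] at h1
    exact (hmem W ⟨x, hxV⟩).1 h1

/-- Choice of a primitive element. -/
lemma control_choose {G : Type} [CommGroup G] (V : Subgroup G) (hV : V.FG) (W : Subgroup G)
    (hiso : ∀ v ∈ V, ∀ j : ℕ, 0 < j → v ^ j ∈ W → v ∈ W) (v : G) (hv : v ∈ V) (hvW : v ∉ W) :
    ∃ s ∈ V, ∃ m : ℕ, 0 < m ∧ v / s ^ m ∈ W ∧
      ∀ x ∈ V, ∀ (j : ℕ), 0 < j → x ^ j ∈ W ⊔ Subgroup.zpowers s → x ∈ W ⊔ Subgroup.zpowers s := by
  have : Group.FG V := (Group.fg_iff_subgroup_fg V).2 hV
  have : AddGroup.FG (Additive (V ⧸ W.subgroupOf V)) := inferInstance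
  have : Module.Finite ℤ (Additive (V ⧸ W.subgroupOf V)) :=
    Module.Finite.iff_addGroup_fg.2 inferInstance
  have hq : ∀ x : V, (x : V ⧸ W.subgroupOf V) = 1 ↔ (x : G) ∈ W := by
    intro x
    rw [QuotientGroup.eq_one_iff]; rfl
  obtain ⟨s, m, hm, hs, hprim⟩ := control_prim (Additive (V ⧸ W.subgroupOf V)) (by
      intro j x hj hx
      obtain ⟨y, hy⟩ := QuotientGroup.mk_surjective x.toMul
      have h1 : ((y ^ j : V) : V ⧸ W.subgroupOf V) = 1 := by
        have : (x.toMul) ^ j = 1 := hx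
        rw [← hy] at this
        exact this
      rw [hq] at h1
      have h2 := hiso y y.2 j hj h1
      have h3 : x.toMul = 1 := by rw [← hy, hq]; exact h2
      exact h3)
    (Additive.ofMul ((⟨v, hv⟩ : V) : V ⧸ W.subgroupOf V)) (by
      intro h0
      apply hvW
      exact (hq ⟨v, hv⟩).1 h0)
  obtain ⟨t, ht⟩ := QuotientGroup.mk_surjective s.toMul
  have hdiv : ∀ x y : V, (x : V ⧸ W.subgroupOf V) = y ↔ (x : G) / y ∈ W := by
    intro x y
    rw [← div_eq_one, ← QuotientGroup.mk_div, hq]; rfl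
  refine ⟨t, t.2, m, hm, ?_, ?_⟩
  · have h1 : ((⟨v, hv⟩ : V) : V ⧸ W.subgroupOf V) = ((t ^ m : V) : V ⧸ W.subgroupOf V) := by
      have h2 : ((⟨v, hv⟩ : V) : V ⧸ W.subgroupOf V) = s.toMul ^ m := hs
      rw [h2, ← ht]; rfl
    exact (hdiv _ _).1 h1
  · intro x hx j hj hxj
    obtain ⟨w, hw, y, hy, h1⟩ := Subgroup.mem_sup.1 hxj
    obtain ⟨k, rfl⟩ := Subgroup.mem_zpowers_iff.1 hy
    obtain ⟨k', hk'⟩ := hprim (Additive.ofMul ((⟨x, hx⟩ : V) : V ⧸ W.subgroupOf V)) j k hj (by
      have h2 : ((⟨x, hx⟩ ^ j : V) : V ⧸ W.subgroupOf V) = ((t ^ k : V) : V ⧸ W.subgroupOf V) := by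
        rw [hdiv]
        have : ((⟨x, hx⟩ ^ j : V) : G) / ((t ^ k : V) : G) = w := by
          simp only [SubmonoidClass.coe_pow, SubgroupClass.coe_zpow]
          rw [← h1, mul_div_cancel_right]
        rw [this]; exact hw
      have h3 : ((⟨x, hx⟩ : V) : V ⧸ W.subgroupOf V) ^ j = s.toMul ^ k := by
        rw [← ht]; exact h2
      exact h3)
    have h4 : ((⟨x, hx⟩ : V) : V ⧸ W.subgroupOf V) = ((t ^ k' : V) : V ⧸ W.subgroupOf V) := by
      have h5 : ((⟨x, hx⟩ : V) : V ⧸ W.subgroupOf V) = s.toMul ^ k' := hk'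
      rw [h5, ← ht]; rfl
    rw [hdiv] at h4
    rw [Subgroup.mem_sup]
    refine ⟨_, h4, _, Subgroup.mem_zpowers_iff.2 ⟨k', rfl⟩, ?_⟩
    simp


theorem control {R : Type} [CommRing R] [IsDomain R] {I : Type} (β : I → (R →+* R))
    (hβ : ∀ b, Function.Injective (β b)) (V U : Subgroup Rˣ) (hV : V.FG) (hUV : U ≤ V)
    (hVs : ∀ b, UStable (β b) V) (hUs : ∀ b, UStable (β b) U)
    (hfix : ∀ v ∈ V, (∀ b, Units.map (β b : R →* R) v = v) → v ∈ U)
    (hiso : ∀ v ∈ V, ∀ j : ℕ, 0 < j → v ^ j ∈ U → v ∈ U)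
    (htriv : ∀ b, ∀ v ∈ V, Units.map (β b : R →* R) v / v ∈ U)
    (hunip : ∀ U' U'' : Subgroup Rˣ, U' < U'' → U'' ≤ V → (∀ b, UStable (β b) U') →
      (∀ b, UStable (β b) U'') → (∀ v ∈ V, ∀ j : ℕ, 0 < j → v ^ j ∈ U' → v ∈ U') →
      ∃ v ∈ U'', v ∉ U' ∧ ∀ b, Units.map (β b : R →* R) v / v ∈ U')
    (hiso1 : ∀ v ∈ V, ∀ j : ℕ, 0 < j → (∀ b, Units.map (β b : R →* R) (v ^ j) = v ^ j) →
      ∀ b, Units.map (β b : R →* R) v = v)
    {ι : Type} (v : ι → Rˣ) (hv : ∀ i, v i ∈ V) (hinj : ∀ i j, v i / v j ∈ U → i = j) :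
    LinearIndependent (KU U) (fun i => ((v i : Rˣ) : R)) := by
  classical
  let V1 : Subgroup Rˣ :=
    { carrier := {x | x ∈ V ∧ ∀ b, Units.map (β b : R →* R) x = x}
      mul_mem' := by
        rintro x y ⟨hx, hx'⟩ ⟨hy, hy'⟩
        exact ⟨V.mul_mem hx hy, fun b => by rw [map_mul, hx' b, hy' b]⟩
      one_mem' := ⟨V.one_mem, fun b => map_one _⟩
      inv_mem' := by
        rintro x ⟨hx, hx'⟩
        exact ⟨V.inv_mem hx, fun b => by rw [map_inv, hx' b]⟩ }
  let SS : Set (Subgroup Rˣ) := {W | V1 ≤ W ∧ W ≤ U ∧ (∀ b, UStable (β b) W) ∧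
    (∀ v ∈ V, ∀ j : ℕ, 0 < j → v ^ j ∈ W → v ∈ W) ∧ ControlP β W}
  have hV1 : V1 ∈ SS := by
    refine ⟨le_rfl, fun x hx => hfix x hx.1 hx.2, ?_, ?_, ?_⟩
    · intro b u hu
      rw [hu.2 b]; exact hu
    · intro x hx j hj hxj
      exact ⟨hx, hiso1 x hx j hj hxj.2⟩
    · intro a ha c hc ha0 hc0 χ hχ heq
      have hfixK : ∀ x ∈ KU V1, ∀ b, β b x = x := by
        intro x hx b
        have : KU V1 ≤ (β b).eqLocus (RingHom.id R) := by
          refine Subring.closure_le.2 ?_
          rintro _ ⟨u, hu, rfl⟩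
          have h1 := hu.2 b
          have h2 := congrArg (fun y : Rˣ => (y : R)) h1
          exact h2
        exact this hx
      refine ⟨1, V1.one_mem, fun b => ?_⟩
      have h1 := heq b
      rw [hfixK a ha b, hfixK c hc b] at h1
      have h2 : (χ b : R) = 1 := by
        apply mul_right_cancel₀ (mul_ne_zero ha0 hc0)
        linear_combination -h1
      have h3 : χ b = 1 := Units.ext h2
      rw [h3, map_one, one_mul]
  obtain ⟨W, ⟨hW1, hWU, hWs, hWiso, hWP⟩, hmax⟩ := control_acc V hV SS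
    (fun W hW => hW.2.1.trans hUV) ⟨V1, hV1⟩
  have hWeq : W = U := by
    by_contra hne
    have hlt : W < U := lt_of_le_of_ne hWU hne
    obtain ⟨x, hxU, hxW, hxb⟩ := hunip W U hlt hUV hWs hUs hWiso
    obtain ⟨s, hsV, m, hm, hxs, hprim⟩ := control_choose V hV W hWiso x (hUV hxU) hxW
    have hsm : s ^ m ∈ U := by
      have h1 : (x / s ^ m)⁻¹ * x ∈ U := U.mul_mem (U.inv_mem (hWU hxs)) hxU
      have h2 : (x / s ^ m)⁻¹ * x = s ^ m := by
        rw [inv_div, div_mul_cancel]
      rwa [h2] at h1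
    have hsU : s ∈ U := hiso s hsV m hm hsm
    have hη : ∀ b, Units.map (β b : R →* R) s / s ∈ W := by
      intro b
      apply hWiso _ (V.div_mem (hVs b s hsV) hsV) m hm
      have h1 : Units.map (β b : R →* R) (x / s ^ m) ∈ W := hWs b _ hxs
      have h2 := hxb b
      have h3 : (Units.map (β b : R →* R) s / s) ^ m =
          (Units.map (β b : R →* R) x / x) * (x / s ^ m) /
            Units.map (β b : R →* R) (x / s ^ m) := by
        rw [div_pow, map_div, map_pow]
        generalize Units.map (β b : R →* R) s ^ m = y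
        generalize Units.map (β b : R →* R) x = z
        generalize s ^ m = t
        rw [div_mul_div_cancel, div_div_div_cancel_left]
      rw [h3]
      exact W.div_mem (W.mul_mem h2 hxs) h1
    have hsW : ∀ k : ℤ, s ^ k ∈ W → k = 0 := by
      intro k hk
      by_contra hk0
      apply hxW
      have h1 : s ^ k.natAbs ∈ W := by
        rcases Int.natAbs_eq k with h | h
        · rw [h, zpow_natCast] at hk; exact hk
        · rw [h, zpow_neg, zpow_natCast] at hk
          exact (W.inv_mem_iff).1 hk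
      have h2 : s ∈ W := hWiso s hsV _ (Int.natAbs_pos.2 hk0) h1
      have h3 : x / s ^ m * s ^ m ∈ W := W.mul_mem hxs (W.pow_mem h2 m)
      rwa [div_mul_cancel] at h3
    apply hmax (W ⊔ Subgroup.zpowers s)
    · refine ⟨hW1.trans le_sup_left, sup_le hWU ?_, ?_, hprim, ?_⟩
      · rw [Subgroup.zpowers_le]; exact hsU
      · intro b u hu
        obtain ⟨w, hw, y, hy, rfl⟩ := Subgroup.mem_sup.1 hu
        obtain ⟨k, rfl⟩ := Subgroup.mem_zpowers_iff.1 hy
        have h1 : Units.map (β b : R →* R) (w * s ^ k) =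
            (Units.map (β b : R →* R) w * (Units.map (β b : R →* R) s / s) ^ k) * s ^ k := by
          rw [map_mul, map_zpow, div_zpow, mul_assoc, div_mul_cancel]
        rw [h1]
        exact Subgroup.mul_mem_sup (W.mul_mem (hWs b w hw) (W.zpow_mem (hη b) k))
          (Subgroup.zpow_mem _ (Subgroup.mem_zpowers s) k)
      · exact control_step β hβ V W (hWU.trans hUV) hWs
          (fun v hv hvf => hW1 ⟨hv, hvf⟩) hWP s hsV hη hsW
    · refine lt_of_le_of_ne le_sup_left ?_
      intro heq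
      have h1 : s ∈ W := by
        rw [heq]
        exact Subgroup.mem_sup_right (Subgroup.mem_zpowers s)
      have := hsW 1 (by rw [zpow_one]; exact h1)
      omega
  rw [hWeq] at hWP
  rw [linearIndependent_iff']
  intro t g hg i hi
  have := control_sum β V U hUV hUs hfix hWP v hv (fun b i => htriv b _ (hv i)) hinj t
    (fun i => (g i : R)) (fun i _ => (g i).2) (by
      rw [← hg]
      exact Finset.sum_congr rfl fun i _ => rfl) i hi
  exact Subtype.ext this

end Pool.Agent.Helper22.AutMet
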