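import Mathlib
import Pool.Agent.Helper22.AutMet.Base

/-! Utilities: finite index subgroups of `Q`, systems. -/

set_option autoImplicit false

namespace Pool.Agent.Helper22.AutMet

/-- Kernels of homomorphisms to finite monoids have finite index. -/
lemma fi_hom (H : Subgroup Q) (hH : H.FiniteIndex) {M : Type} [Monoid M] [Finite M]
    (f : H →* M) :
    ∃ (H' : Subgroup Q) (_ : H'.FiniteIndex) (hle : H' ≤ H), ∀ (q : Q) (hq : q ∈ H'),
      f ⟨q, hle hq⟩ = 1 := by
  let g : H →* Mˣ := f.toHomUnits
  have hker : g.ker.FiniteIndex := Subgroup.finiteIndex_ker g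
  refine ⟨g.ker.map H.subtype, ?_, ?_, ?_⟩
  · constructor
    rw [Subgroup.index_map_subtype]
    exact mul_ne_zero hker.index_ne_zero hH.index_ne_zero
  · exact Subgroup.map_subtype_le _
  · rintro q hq
    obtain ⟨x, hx, rfl⟩ := hq
    have : g x = 1 := hx
    have h2 : ((g x : Mˣ) : M) = 1 := by rw [this]; rfl
    exact h2

lemma exists_pow_mem (H : Subgroup Q) (hH : H.FiniteIndex) :
    ∃ K : ℕ, 0 < K ∧ ∀ q : Q, q ^ K ∈ H := by
  refine ⟨H.index.factorial, Nat.factorial_pos _, fun q => ?_⟩
  obtain ⟨n, hn, hn2, hmem⟩ := Subgroup.exists_pow_mem_of_index_ne_zero hH.index_ne_zero q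
  obtain ⟨k, hk⟩ := Nat.dvd_factorial hn hn2
  rw [hk, pow_mul]
  exact pow_mem hmem k

lemma exists_mult (H : Subgroup Q) (hH : H.FiniteIndex) :
    ∃ K : ℕ, 0 < K ∧ tt ^ K ∈ H ∧ ∀ v : B, bb (K • v) ∈ H := by
  obtain ⟨K, hK, h⟩ := exists_pow_mem H hH
  exact ⟨K, hK, h tt, fun v => by rw [bb_nsmul]; exact h _⟩

/-- affine action of `Q` on `(ZMod L)²`. -/
lemma exists_HB (L : ℕ) (hL : 0 < L) :
    ∃ (H : Subgroup Q) (_ : H.FiniteIndex), ∀ v : B, bb v ∈ H → ∃ w : B, v = L • w := by
  have : NeZero L := ⟨hL.ne'⟩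
  -- reduction map
  let red : B →+ ZMod L × ZMod L :=
    { toFun := fun p => ((p.1 : ZMod L), (p.2 : ZMod L))
      map_zero' := by simp
      map_add' := by intro p q; simp }
  have hred : ∀ p : B, red p = 0 → ∃ w : B, p = L • w := by
    intro p hp
    have h1 : ((p.1 : ℤ) : ZMod L) = 0 := congrArg Prod.fst hp
    have h2 : ((p.2 : ℤ) : ZMod L) = 0 := congrArg Prod.snd hp
    rw [ZMod.intCast_zmod_eq_zero_iff_dvd] at h1 h2
    obtain ⟨a, ha⟩ := h1
    obtain ⟨b, hb⟩ := h2
    exact ⟨(a, b), by ext <;> simp [ha, hb]⟩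
  have hredsurj : Function.Surjective red := by
    rintro ⟨a, b⟩
    exact ⟨((a.val : ℤ), (b.val : ℤ)), by simp [red]⟩
  -- the congruence subgroup
  let N : AddSubgroup B := red.ker
  have hphi : ∀ (k : ℤ) (p : B), p ∈ N → (phi ^ k) p ∈ N := by
    intro k p hp
    obtain ⟨w, rfl⟩ := hred p hp
    rw [map_nsmul]
    show red _ = 0
    rw [map_nsmul]
    ext <;> simp
  let H : Subgroup Q :=
    { carrier := {q | q.v ∈ N}
      one_mem' := N.zero_mem
      mul_mem' := by
        intro a b ha hb
        exact N.add_mem ha (hphi _ _ hb)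
      inv_mem' := by
        intro a ha
        exact N.neg_mem (hphi _ _ ha) }
  refine ⟨H, ?_, fun v hv => hred v hv⟩
  -- finite index: the map Q → B/N, q ↦ q.v separates left cosets
  have : Finite (Q ⧸ H) := by
    let F : Q ⧸ H → ZMod L × ZMod L := Quotient.lift (fun q : Q => red q.v) (by
      intro a b hab
      have hab' : a⁻¹ * b ∈ H := QuotientGroup.leftRel_apply.mp hab
      have h1 : (a⁻¹ * b).v ∈ N := hab'
      have h2 : (a⁻¹ * b).v = (phi ^ (-a.n)) (b.v - a.v) := by
        simp [map_sub]; abel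
      rw [h2] at h1
      have h3 := hphi a.n _ h1
      have h4 : (phi ^ a.n) ((phi ^ (-a.n)) (b.v - a.v)) = b.v - a.v := by
        rw [← LinearEquiv.mul_apply, ← zpow_add]; simp
      rw [h4] at h3
      have h5 : red (b.v - a.v) = 0 := h3
      rw [map_sub, sub_eq_zero] at h5
      exact h5.symm)
    apply Finite.of_injective F
    intro x y
    induction x using QuotientGroup.induction_on with
    | H a =>
    induction y using QuotientGroup.induction_on with
    | H b =>
    intro hxy
    have h1 : red a.v = red b.v := hxy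
    rw [QuotientGroup.eq]
    show (a⁻¹ * b).v ∈ N
    have h2 : (a⁻¹ * b).v = (phi ^ (-a.n)) (b.v - a.v) := by
      simp [map_sub]; abel
    rw [h2]
    apply hphi
    show red _ = 0
    rw [map_sub, h1, sub_self]
  exact Subgroup.finiteIndex_of_finite_quotient

section Sys

variable {H : Type} [Group H] {R N : Type} [CommRing R] [AddCommGroup N] [Module R N]

lemma Sys.r_inv_apply (S : Sys H R N) (q : H) (a : R) : S.r q⁻¹ (S.r q a) = a := by
  have : (S.r q⁻¹ * S.r q) a = a := by rw [← map_mul]; simp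
  exact this

lemma Sys.r_apply_inv (S : Sys H R N) (q : H) (a : R) : S.r q (S.r q⁻¹ a) = a := by
  have : (S.r q * S.r q⁻¹) a = a := by rw [← map_mul]; simp
  exact this

lemma Sys.m_inv_apply (S : Sys H R N) (q : H) (a : N) : S.m q⁻¹ (S.m q a) = a := by
  have : (S.m q⁻¹ * S.m q) a = a := by rw [← map_mul]; simp
  exact this

lemma Sys.m_apply_inv (S : Sys H R N) (q : H) (a : N) : S.m q (S.m q⁻¹ a) = a := by
  have : (S.m q * S.m q⁻¹) a = a := by rw [← map_mul]; simp
  exact this

lemma Sys.r_injective (S : Sys H R N) (q : H) : Function.Injective (S.r q) := by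
  intro a b h
  rw [← S.r_inv_apply q a, h, S.r_inv_apply]

lemma Sys.m_injective (S : Sys H R N) (q : H) : Function.Injective (S.m q) := by
  intro a b h
  rw [← S.m_inv_apply q a, h, S.m_inv_apply]

end Sys

/-- restriction of a system to a subgroup -/
def Sys.res {H H' : Subgroup Q} {R N : Type} [CommRing R] [AddCommGroup N] [Module R N]
    (S : Sys H R N) (hle : H' ≤ H) : Sys H' R N where
  r := S.r.comp (Subgroup.inclusion hle)
  m := S.m.comp (Subgroup.inclusion hle)
  semi := fun q a n => S.semi _ a n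

@[simp] lemma Sys.res_r {H H' : Subgroup Q} {R N : Type} [CommRing R] [AddCommGroup N] [Module R N]
    (S : Sys H R N) (hle : H' ≤ H) (q : H') : (S.res hle).r q = S.r (Subgroup.inclusion hle q) := rfl

@[simp] lemma Sys.res_m {H H' : Subgroup Q} {R N : Type} [CommRing R] [AddCommGroup N] [Module R N]
    (S : Sys H R N) (hle : H' ≤ H) (q : H') : (S.res hle).m q = S.m (Subgroup.inclusion hle q) := rfl

lemma Eqv.res {A N : Type} [AddCommGroup A] [DistribMulAction Q A] [AddCommGroup N]
    {H H' : Subgroup Q} {m : H →* AddMonoid.End N} {T : AddSubgroup A} {θ : A → N}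
    (h : Eqv H m T θ) (hle : H' ≤ H) : Eqv H' (m.comp (Subgroup.inclusion hle)) T θ where
  add := h.add
  stab := fun q x hx => h.stab (Subgroup.inclusion hle q) x hx
  eqv := fun q x hx => h.eqv (Subgroup.inclusion hle q) x hx

lemma Eqv.zero {A N : Type} [AddCommGroup A] [DistribMulAction Q A] [AddCommGroup N]
    {H : Subgroup Q} {m : H →* AddMonoid.End N} {T : AddSubgroup A} {θ : A → N}
    (h : Eqv H m T θ) : θ 0 = 0 := by
  have := h.add 0 T.zero_mem 0 T.zero_mem
  rw [add_zero] at this
  simpa using this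

lemma Eqv.neg {A N : Type} [AddCommGroup A] [DistribMulAction Q A] [AddCommGroup N]
    {H : Subgroup Q} {m : H →* AddMonoid.End N} {T : AddSubgroup A} {θ : A → N}
    (h : Eqv H m T θ) (x : A) (hx : x ∈ T) : θ (-x) = - θ x := by
  have := h.add x hx (-x) (T.neg_mem hx)
  rw [add_neg_cancel, h.zero] at this
  exact (neg_eq_of_add_eq_zero_right this.symm).symm

lemma KU_mem {R : Type} [CommRing R] {U : Subgroup Rˣ} {u : Rˣ} (hu : u ∈ U) : (u : R) ∈ KU U :=
  Subring.subset_closure ⟨u, hu, rfl⟩

lemma KU_mono {R : Type} [CommRing R] {U V : Subgroup Rˣ} (h : U ≤ V) : KU U ≤ KU V := by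
  apply Subring.closure_mono
  rintro _ ⟨u, hu, rfl⟩
  exact ⟨u, h hu, rfl⟩

lemma KU_map_mem {R : Type} [CommRing R] {U : Subgroup Rˣ} {f : R →+* R} (hf : UStable f U)
    {a : R} (ha : a ∈ KU U) : f a ∈ KU U := by
  have : KU U ≤ (KU U).comap f := by
    apply Subring.closure_le.mpr
    rintro _ ⟨u, hu, rfl⟩
    exact KU_mem (hf u hu)
  exact this ha

/-- the restriction of a ring endomorphism to `KU U`. -/
def KUr {R : Type} [CommRing R] (U : Subgroup Rˣ) (f : R →+* R) (hf : UStable f U) :
    KU U →+* KU U := f.restrict (KU U) (KU U) (fun _ h => KU_map_mem hf h)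

@[simp] lemma KUr_coe {R : Type} [CommRing R] (U : Subgroup Rˣ) (f : R →+* R) (hf : UStable f U)
    (a : KU U) : ((KUr U f hf a : KU U) : R) = f a := rfl

/-- `KU U` is generated by finitely many elements if `U` is finitely generated. -/
lemma KU_finiteType {R : Type} [CommRing R] (U : Subgroup Rˣ) (hU : U.FG) :
    Algebra.FiniteType ℤ (KU U) := by
  classical
  obtain ⟨s, hs⟩ := hU
  let T : Finset R := s.image (fun u : Rˣ => (u : R)) ∪ s.image (fun u : Rˣ => ((u⁻¹ : Rˣ) : R))
  have h1 : KU U = Subring.closure (T : Set R) := by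
    apply le_antisymm
    · apply Subring.closure_le.mpr
      rintro _ ⟨u, hu, rfl⟩
      have hu' : u ∈ Subgroup.closure (s : Set Rˣ) := by rw [hs]; exact hu
      clear hu
      induction hu' using Subgroup.closure_induction'' with
      | mem x hx =>
        apply Subring.subset_closure
        simp only [T, Finset.coe_union, Finset.coe_image]
        exact Or.inl ⟨x, hx, rfl⟩
      | inv_mem x hx =>
        apply Subring.subset_closure
        simp only [T, Finset.coe_union, Finset.coe_image]
        exact Or.inr ⟨x, hx, rfl⟩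
      | one => simp
      | mul x y _ _ hx hy =>
        simp only [Units.val_mul]
        exact Subring.mul_mem _ hx hy
    · apply Subring.closure_le.mpr
      intro x hx
      simp only [T, Finset.coe_union, Finset.coe_image] at hx
      rcases hx with ⟨u, hu, rfl⟩ | ⟨u, hu, rfl⟩
      · exact KU_mem (by rw [← hs]; exact Subgroup.subset_closure hu)
      · exact KU_mem (inv_mem (by rw [← hs]; exact Subgroup.subset_closure hu))
  have h2 : Algebra.FiniteType ℤ (Algebra.adjoin ℤ (T : Set R)) :=
    (Subalgebra.fg_iff_finiteType _).mp ⟨T, rfl⟩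
  have h3 : KU U = (Algebra.adjoin ℤ (T : Set R)).toSubring := by
    rw [h1, Algebra.adjoin_int]; rfl
  rw [h3]
  exact h2

lemma subgroup_fg_map {G G' : Type} [Group G] [Group G'] {V : Subgroup G} (h : V.FG)
    (f : G →* G') : (V.map f).FG := by
  classical
  obtain ⟨s, hs⟩ := h
  exact ⟨s.image f, by rw [Finset.coe_image, ← MonoidHom.map_closure, hs]⟩

/-- the action on a quotient by a stable submodule -/
def endQuot {H : Type} [Group H] {R N : Type} [CommRing R] [AddCommGroup N] [Module R N]
    (P : Submodule R N) (m : H →* AddMonoid.End N) (h : ∀ q, ∀ n ∈ P, m q n ∈ P) :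
    H →* AddMonoid.End (N ⧸ P) where
  toFun q := QuotientAddGroup.map P.toAddSubgroup P.toAddSubgroup (m q) (fun n hn => h q n hn)
  map_one' := by
    ext x
    obtain ⟨y, rfl⟩ := P.mkQ_surjective x
    show P.mkQ (m 1 y) = P.mkQ y
    rw [map_one]; rfl
  map_mul' := by
    intro q q'
    ext x
    obtain ⟨y, rfl⟩ := P.mkQ_surjective x
    show P.mkQ (m (q * q') y) = P.mkQ (m q (m q' y))
    rw [map_mul]; rfl

@[simp] lemma endQuot_mk {H : Type} [Group H] {R N : Type} [CommRing R] [AddCommGroup N]
    [Module R N] (P : Submodule R N) (m : H →* AddMonoid.End N) (h : ∀ q, ∀ n ∈ P, m q n ∈ P)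
    (q : H) (n : N) : endQuot P m h q (P.mkQ n) = P.mkQ (m q n) := rfl

/-- the action on a stable submodule -/
def endSub {H : Type} [Group H] {R N : Type} [CommRing R] [AddCommGroup N] [Module R N]
    (P : Submodule R N) (m : H →* AddMonoid.End N) (h : ∀ q, ∀ n ∈ P, m q n ∈ P) :
    H →* AddMonoid.End P where
  toFun q :=
    { toFun := fun x => ⟨m q x, h q x x.2⟩
      map_zero' := by ext; simp
      map_add' := by intro x y; ext; simp }
  map_one' := by
    refine AddMonoidHom.ext fun x => Subtype.ext ?_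
    show m 1 x = x
    rw [map_one]; rfl
  map_mul' := by
    intro q q'
    refine AddMonoidHom.ext fun x => Subtype.ext ?_
    show m (q * q') x = m q (m q' x)
    rw [map_mul]; rfl

@[simp] lemma endSub_coe {H : Type} [Group H] {R N : Type} [CommRing R] [AddCommGroup N]
    [Module R N] (P : Submodule R N) (m : H →* AddMonoid.End N) (h : ∀ q, ∀ n ∈ P, m q n ∈ P)
    (q : H) (n : P) : ((endSub P m h q n : P) : N) = m q n := rfl

/-- quotient system -/
def Sys.quot {H : Type} [Group H] {R N : Type} [CommRing R] [AddCommGroup N] [Module R N]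
    (S : Sys H R N) (P : Submodule R N) (h : ∀ q, ∀ n ∈ P, S.m q n ∈ P) : Sys H R (N ⧸ P) where
  r := S.r
  m := endQuot P S.m h
  semi := by
    intro q a x
    obtain ⟨y, rfl⟩ := P.mkQ_surjective x
    rw [← map_smul, endQuot_mk, endQuot_mk, S.semi, map_smul]

/-- subsystem -/
def Sys.sub {H : Type} [Group H] {R N : Type} [CommRing R] [AddCommGroup N] [Module R N]
    (S : Sys H R N) (P : Submodule R N) (h : ∀ q, ∀ n ∈ P, S.m q n ∈ P) : Sys H R P where
  r := S.r
  m := endSub P S.m h
  semi := by
    intro q a x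
    ext
    simp [S.semi]

lemma Eqv.quot {A R N : Type} [AddCommGroup A] [DistribMulAction Q A] [CommRing R]
    [AddCommGroup N] [Module R N]
    {H : Subgroup Q} {m : H →* AddMonoid.End N} {T : AddSubgroup A} {θ : A → N}
    (h : Eqv H m T θ) (P : Submodule R N) (hP : ∀ q, ∀ n ∈ P, m q n ∈ P) :
    Eqv H (endQuot P m hP) T (fun a => P.mkQ (θ a)) where
  add := fun x hx y hy => by rw [h.add x hx y hy, map_add]
  stab := h.stab
  eqv := fun q x hx => by rw [h.eqv q x hx]; rfl

end Pool.Agent.Helper22.AutMet
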