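import Mathlib
import Pool.Agent.Helper22.AutMet.Base
import Pool.Agent.Helper22.AutMet.Util

/-! (Dev) reduction to the domain case. -/

set_option autoImplicit false

namespace Pool.Agent.Helper22.AutMet

/-- a good prime after shrinking the group -/
lemma dev_prime {R N : Type} [CommRing R] [AddCommGroup N] [Module R N] [IsNoetherianRing R]
    [Module.Finite R N] [Nontrivial N] (H : Subgroup Q) (hH : H.FiniteIndex) (S : Sys H R N) :
    ∃ (𝔭 : Ideal R) (H' : Subgroup Q) (_ : H'.FiniteIndex) (hle : H' ≤ H), 𝔭.IsPrime ∧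
      (∃ x : N, x ≠ 0 ∧ ∀ ρ ∈ 𝔭, ρ • x = 0) ∧
      (∀ x : N, (∀ ρ ∈ 𝔭, ρ • x = 0) → x ≠ 0 → ∀ ρ : R, ρ • x = 0 → ρ ∈ 𝔭) ∧
      (∀ (q : Q) (hq : q ∈ H') (ρ : R), ρ ∈ 𝔭 → S.r ⟨q, hle hq⟩ ρ ∈ 𝔭) := by
  classical
  have hfin : (associatedPrimes R N).Finite := associatedPrimes.finite R N
  have hne : (associatedPrimes R N).Nonempty := associatedPrimes.nonempty R N
  obtain ⟨𝔭, h𝔭, hmax⟩ := hfin.exists_maximal hne
  have hstab : ∀ (q : H) (I : Ideal R), I ∈ associatedPrimes R N →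
      I.comap (S.r q⁻¹) ∈ associatedPrimes R N := by
    intro q I hI
    have hI' : IsAssociatedPrime I N := hI
    rw [isAssociatedPrime_iff] at hI'
    obtain ⟨hp, x, hx⟩ := hI'
    show IsAssociatedPrime _ N
    rw [isAssociatedPrime_iff]
    refine ⟨Ideal.comap_isPrime (S.r q⁻¹) I, S.m q x, ?_⟩
    ext ρ
    rw [Ideal.mem_comap, hx, Submodule.mem_colon_singleton, Submodule.mem_colon_singleton,
      Submodule.mem_bot, Submodule.mem_bot]
    constructor
    · intro h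
      have h1 := congrArg (S.m q) h
      rwa [S.semi, S.r_apply_inv, map_zero] at h1
    · intro h
      have h1 := congrArg (S.m q⁻¹) h
      rwa [S.semi, S.m_inv_apply, map_zero] at h1
  let X := associatedPrimes R N
  have : Finite X := hfin
  have hfinEnd : Finite (Function.End X) := by unfold Function.End; infer_instance
  let F : H →* Function.End X :=
    { toFun := fun q I => ⟨I.1.comap (S.r q⁻¹), hstab q I.1 I.2⟩
      map_one' := by
        funext I; apply Subtype.ext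
        show I.1.comap (S.r (1 : H)⁻¹) = I.1
        ext ρ
        simp [Ideal.mem_comap]
      map_mul' := by
        intro q q'
        funext I; apply Subtype.ext
        show I.1.comap (S.r (q * q')⁻¹) = (I.1.comap (S.r q'⁻¹)).comap (S.r q⁻¹)
        ext ρ
        simp [Ideal.mem_comap] }
  obtain ⟨H', hH', hle, hF⟩ := fi_hom H hH F
  have hp' : IsAssociatedPrime 𝔭 N := h𝔭
  refine ⟨𝔭, H', hH', hle, hp'.isPrime, ?_, ?_, ?_⟩
  · rw [isAssociatedPrime_iff] at hp'
    obtain ⟨hp, x, hx⟩ := hp'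
    refine ⟨x, ?_, ?_⟩
    · rintro rfl
      apply hp.ne_top
      rw [hx, Ideal.eq_top_iff_one, Submodule.mem_colon_singleton]
      simp
    · intro ρ hρ
      rw [hx, Submodule.mem_colon_singleton] at hρ
      simpa using hρ
  · intro x hx hx0 ρ hρ
    obtain ⟨P, hP, hle'⟩ := exists_le_isAssociatedPrime_of_isNoetherianRing R x hx0
    have h1 : 𝔭 ≤ P := by
      intro τ hτ
      apply hle'
      rw [Submodule.mem_colon_singleton]
      simpa using hx τ hτ
    have h2 := hmax hP h1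
    apply h2
    apply hle'
    rw [Submodule.mem_colon_singleton]
    simpa using hρ
  · intro q hq ρ hρ
    have h1 := hF q⁻¹ (inv_mem hq)
    have h2 := congrFun h1 ⟨𝔭, h𝔭⟩
    have h3 : 𝔭.comap (S.r (⟨q⁻¹, hle (inv_mem hq)⟩ : H)⁻¹) = 𝔭 := congrArg Subtype.val h2
    have h4 : (⟨q⁻¹, hle (inv_mem hq)⟩ : H)⁻¹ = ⟨q, hle hq⟩ := by
      apply Subtype.ext; show (q⁻¹)⁻¹ = q; simp
    rw [h4] at h3
    rw [← h3, Ideal.mem_comap] at hρ
    exact hρ

/-- application of the domain case -/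
lemma dev_apply {A : Type} [AddCommGroup A] [DistribMulAction Q A] (h2 : ∀ a : A, a + a = 0)
    (n : ℕ) (h : DomN A n) {R N : Type} [CommRing R] [AddCommGroup N] [Module R N]
    [IsNoetherianRing R] [Module.Finite R N]
    (V : Subgroup Rˣ) (hVfg : V.FG) (hKU : KU V = ⊤) (hrk : Module.finrank ℤ (Additive V) ≤ n)
    (H : Subgroup Q) (hH : H.FiniteIndex) (S : Sys H R N) (hVs : ∀ q, UStable (S.r q) V)
    (𝔭 : Ideal R) (hp : 𝔭.IsPrime)
    (htf : ∀ x : N, (∀ ρ ∈ 𝔭, ρ • x = 0) → x ≠ 0 → ∀ ρ : R, ρ • x = 0 → ρ ∈ 𝔭)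
    (hst : ∀ (q : H) (ρ : R), ρ ∈ 𝔭 → S.r q ρ ∈ 𝔭)
    (T : AddSubgroup A) (hT : T.FiniteIndex) (θ : A → N) (hθ : Eqv H S.m T θ)
    (hval : ∀ a ∈ T, ∀ ρ ∈ 𝔭, ρ • θ a = 0) : (θ '' (T : Set A)).Finite := by
  classical
  let _ : IsDomain (R ⧸ 𝔭) := Ideal.Quotient.isDomain 𝔭
  by_cases hchar : (2 : R) ∈ 𝔭
  swap
  · -- characteristic not two: the image is zero
    apply (Set.finite_singleton (0 : N)).subset
    rintro _ ⟨a, ha, rfl⟩
    show θ a = 0
    by_contra hne
    apply hchar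
    apply htf (θ a) (hval a ha) hne
    rw [two_smul, ← hθ.add a ha a ha, h2, hθ.zero]
  · have hnt : Nontrivial (R ⧸ 𝔭) := inferInstance
    have hc2 : (2 : R ⧸ 𝔭) = 0 := by
      have : Ideal.Quotient.mk 𝔭 (2 : R) = 0 := Ideal.Quotient.eq_zero_iff_mem.mpr hchar
      rwa [map_ofNat] at this
    have hchar2 : CharP (R ⧸ 𝔭) 2 := CharTwo.of_one_ne_zero_of_two_eq_zero one_ne_zero hc2
    let N₁ : Submodule R N := Submodule.torsionBySet R N (𝔭 : Set R)
    have hmemN₁ : ∀ x : N, x ∈ N₁ ↔ ∀ ρ ∈ 𝔭, ρ • x = 0 := by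
      intro x
      rw [Submodule.mem_torsionBySet_iff]
      constructor
      · intro h ρ hρ; exact h ⟨ρ, hρ⟩
      · rintro h ⟨ρ, hρ⟩; exact h ρ hρ
    have hN₁st : ∀ q : H, ∀ x ∈ N₁, S.m q x ∈ N₁ := by
      intro q x hx
      rw [hmemN₁] at hx ⊢
      intro ρ hρ
      have h1 : ρ • S.m q x = S.m q (S.r q⁻¹ ρ • x) := by
        rw [S.semi, S.r_apply_inv]
      rw [h1, hx _ (hst q⁻¹ ρ hρ), map_zero]
    let rq : H →* ((R ⧸ 𝔭) →+* (R ⧸ 𝔭)) :=
      { toFun := fun q => Ideal.quotientMap 𝔭 (S.r q) (fun ρ hρ => hst q ρ hρ)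
        map_one' := by
          ext x
          simp
        map_mul' := by
          intro q q'
          apply Ideal.Quotient.ringHom_ext
          ext x
          simp only [map_mul]
          rfl }
    let S₁ : Sys H (R ⧸ 𝔭) N₁ :=
      { r := rq
        m := endSub N₁ S.m hN₁st
        semi := by
          intro q a x
          obtain ⟨ρ, rfl⟩ := Ideal.Quotient.mk_surjective a
          apply Subtype.ext
          show S.m q (ρ • (x : N)) = (S.r q ρ) • S.m q x
          exact S.semi q ρ x }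
    have hfin1 : Module.Finite (R ⧸ 𝔭) N₁ := by
      have : Module.Finite R N₁ := inferInstance
      exact Module.Finite.of_restrictScalars_finite R (R ⧸ 𝔭) N₁
    have htf1 : ∀ (a : R ⧸ 𝔭) (x : N₁), a • x = 0 → a = 0 ∨ x = 0 := by
      intro a x hax
      obtain ⟨ρ, rfl⟩ := Ideal.Quotient.mk_surjective a
      by_cases hx : x = 0
      · exact Or.inr hx
      · left
        rw [Ideal.Quotient.eq_zero_iff_mem]
        have h1 : ρ • (x : N) = 0 := congrArg Subtype.val hax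
        exact htf x ((hmemN₁ _).mp x.2) (fun h => hx (Subtype.ext h)) ρ h1
    let V₁ : Subgroup (R ⧸ 𝔭)ˣ := V.map (Units.map (Ideal.Quotient.mk 𝔭 : R →* R ⧸ 𝔭))
    have hV₁fg : V₁.FG := subgroup_fg_map hVfg _
    have hKU₁ : KU V₁ = ⊤ := by
      rw [eq_top_iff]
      intro a _
      obtain ⟨ρ, rfl⟩ := Ideal.Quotient.mk_surjective a
      have h1 : KU V ≤ (KU V₁).comap (Ideal.Quotient.mk 𝔭) := by
        apply Subring.closure_le.mpr
        rintro _ ⟨u, hu, rfl⟩
        exact KU_mem (u := Units.map (Ideal.Quotient.mk 𝔭 : R →* R ⧸ 𝔭) u) ⟨u, hu, rfl⟩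
      rw [hKU] at h1
      exact h1 (Subring.mem_top ρ)
    have hrk₁ : Module.finrank ℤ (Additive V₁) ≤ n := by
      have hfgV : Module.Finite ℤ (Additive V) := by
        have : Group.FG V := (Group.fg_iff_subgroup_fg V).mpr hVfg
        exact Module.Finite.iff_addGroup_fg.mpr (GroupFG.iff_add_fg.mp this)
      let f : V →* V₁ := (Units.map (Ideal.Quotient.mk 𝔭 : R →* R ⧸ 𝔭)).subgroupMap V
      have hf : Function.Surjective f := MonoidHom.subgroupMap_surjective _ V
      let f' : Additive V →ₗ[ℤ] Additive V₁ := (MonoidHom.toAdditive f).toIntLinearMap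
      exact (LinearMap.finrank_le_finrank_of_surjective (f := f') hf).trans hrk
    have hVs₁ : ∀ q, UStable (S₁.r q) V₁ := by
      rintro q _ ⟨u, hu, rfl⟩
      refine ⟨Units.map (S.r q : R →* R) u, hVs q u hu, ?_⟩
      apply Units.ext
      rfl
    let θ₁ : A → N₁ := fun a => if ha : a ∈ T then ⟨θ a, (hmemN₁ _).mpr (hval a ha)⟩ else 0
    have hθ₁val : ∀ a ∈ T, ((θ₁ a : N₁) : N) = θ a := by
      intro a ha
      simp [θ₁, ha]
    have hθ₁ : Eqv H S₁.m T θ₁ :=
      { add := by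
          intro x hx y hy
          apply Subtype.ext
          rw [hθ₁val _ (T.add_mem hx hy), hθ.add x hx y hy]
          show _ = ((θ₁ x : N₁) : N) + ((θ₁ y : N₁) : N)
          rw [hθ₁val x hx, hθ₁val y hy]
        stab := hθ.stab
        eqv := by
          intro q x hx
          apply Subtype.ext
          rw [hθ₁val _ (hθ.stab q x hx), hθ.eqv q x hx]
          show _ = S.m q (θ₁ x)
          rw [hθ₁val x hx] }
    have hres := h (R ⧸ 𝔭) N₁ _ inferInstance hchar2 _ _ hfin1 htf1 V₁ hV₁fg hKU₁ hrk₁ H hH S₁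
      hVs₁ T hT θ₁ hθ₁
    have h5 : θ '' (T : Set A) = (fun x : N₁ => (x : N)) '' (θ₁ '' (T : Set A)) := by
      ext y
      constructor
      · rintro ⟨a, ha, rfl⟩
        exact ⟨θ₁ a, ⟨a, ha, rfl⟩, hθ₁val a ha⟩
      · rintro ⟨_, ⟨a, ha, rfl⟩, rfl⟩
        exact ⟨a, ha, (hθ₁val a ha).symm⟩
    rw [h5]
    exact hres.image _

/-- an additive map with finite image has kernel of finite index -/
lemma dev_kernel {A N : Type} [AddCommGroup A] [AddCommGroup N]
    (T : AddSubgroup A) (hT : T.FiniteIndex) (θ : A → N)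
    (hadd : ∀ x ∈ T, ∀ y ∈ T, θ (x + y) = θ x + θ y) (hfin : (θ '' (T : Set A)).Finite) :
    ∃ T' : AddSubgroup A, T'.FiniteIndex ∧ ∀ a, a ∈ T' ↔ (a ∈ T ∧ θ a = 0) := by
  let f : T →+ N := AddMonoidHom.mk' (fun a => θ a) (fun a b => hadd a a.2 b b.2)
  have hrange : Finite f.range := by
    have : (f.range : Set N) = θ '' (T : Set A) := by
      ext y
      constructor
      · rintro ⟨a, rfl⟩; exact ⟨a, a.2, rfl⟩
      · rintro ⟨a, ha, rfl⟩; exact ⟨⟨a, ha⟩, rfl⟩
    have h2 : (f.range : Set N).Finite := by rw [this]; exact hfin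
    exact h2
  have hker : f.ker.FiniteIndex := AddSubgroup.finiteIndex_ker f
  refine ⟨f.ker.map T.subtype, ?_, ?_⟩
  · constructor
    rw [AddSubgroup.index_map_subtype]
    exact mul_ne_zero hker.index_ne_zero hT.index_ne_zero
  · intro a
    constructor
    · rintro ⟨x, hx, rfl⟩
      exact ⟨x.2, hx⟩
    · rintro ⟨ha, h0⟩
      exact ⟨⟨a, ha⟩, h0, rfl⟩

/-- if the kernel has finite index then the image is finite: version relative to a smaller
subgroup -/
lemma dev_finite_of_finiteIndex {A N : Type} [AddCommGroup A] [AddCommGroup N]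
    (T T' : AddSubgroup A) (hT' : T'.FiniteIndex) (hle : T' ≤ T) (θ : A → N)
    (hadd : ∀ x ∈ T, ∀ y ∈ T, θ (x + y) = θ x + θ y) (hfin : (θ '' (T' : Set A)).Finite) :
    (θ '' (T : Set A)).Finite := by
  classical
  -- finitely many cosets
  have hq : Finite (A ⧸ T') := inferInstance
  let rep : A ⧸ T' → A := fun c => if h : ∃ a ∈ T, (a : A ⧸ T') = c then h.choose else 0
  have hrep : ∀ a ∈ T, rep (a : A ⧸ T') ∈ T ∧ ((rep (a : A ⧸ T') : A) : A ⧸ T') = a := by
    intro a ha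
    have h : ∃ b ∈ T, (b : A ⧸ T') = (a : A ⧸ T') := ⟨a, ha, rfl⟩
    have h1 : rep (a : A ⧸ T') = h.choose := by simp only [rep]; rw [dif_pos h]
    rw [h1]
    exact h.choose_spec
  have hsub : θ '' (T : Set A) ⊆ ⋃ c : A ⧸ T', (fun y => θ (rep c) + y) '' (θ '' (T' : Set A)) := by
    rintro _ ⟨a, ha, rfl⟩
    obtain ⟨h1, h2⟩ := hrep a ha
    rw [Set.mem_iUnion]
    refine ⟨(a : A ⧸ T'), θ (-rep (a : A ⧸ T') + a), ⟨_, ?_, rfl⟩, ?_⟩
    · exact QuotientAddGroup.eq.mp h2
    · show θ (rep (a : A ⧸ T')) + θ (-rep (a : A ⧸ T') + a) = θ a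
      rw [← hadd _ h1 _ (T.add_mem (T.neg_mem h1) ha)]
      simp
  exact (Set.finite_iUnion fun c => hfin.image _).subset hsub

theorem devissage {A : Type} [AddCommGroup A] [DistribMulAction Q A] (h2 : ∀ a : A, a + a = 0)
    (n : ℕ) (h : DomN A n) : GoodN A n := by
  classical
  intro R N _ _ _ _ V hVfg hKU hrk H hH S hVs T hT θ hθ
  have hnoeth : IsNoetherianRing R := by
    have := KU_finiteType V hVfg
    rw [hKU] at this
    have e : (⊤ : Subring R) ≃+* R := Subring.topEquiv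
    have h1 : IsNoetherianRing (⊤ : Subring R) := Algebra.FiniteType.isNoetherianRing ℤ _
    exact isNoetherianRing_of_ringEquiv _ e
  have hN : IsNoetherian R N := inferInstance
  -- the statement for quotients, by noetherian induction
  have key : ∀ P : Submodule R N, ∀ (H' : Subgroup Q) (_ : H'.FiniteIndex) (hle : H' ≤ H)
      (hP : ∀ q : H', ∀ x ∈ P, (S.res hle).m q x ∈ P)
      (T' : AddSubgroup A) (_ : T'.FiniteIndex) (θ' : A → N ⧸ P)
      (_ : Eqv H' (endQuot P (S.res hle).m hP) T' θ'), (θ' '' (T' : Set A)).Finite := by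
    intro P
    induction P using IsNoetherian.induction with
    | hgt P ih =>
    intro H' hH' hle hP T' hT' θ' hθ'
    by_cases hnt : Nontrivial (N ⧸ P)
    swap
    · rw [not_nontrivial_iff_subsingleton] at hnt
      exact Set.toFinite _
    let S' : Sys H' R (N ⧸ P) := (S.res hle).quot P hP
    obtain ⟨𝔭, H'', hH'', hle', hp, ⟨x₀, hx₀, hx₀'⟩, htf, hst⟩ := dev_prime H' hH' S'
    let N₁ : Submodule R (N ⧸ P) := Submodule.torsionBySet R (N ⧸ P) (𝔭 : Set R)
    have hmemN₁ : ∀ x : N ⧸ P, x ∈ N₁ ↔ ∀ ρ ∈ 𝔭, ρ • x = 0 := by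
      intro x
      rw [Submodule.mem_torsionBySet_iff]
      constructor
      · intro h ρ hρ; exact h ⟨ρ, hρ⟩
      · rintro h ⟨ρ, hρ⟩; exact h ρ hρ
    let P₁ : Submodule R N := N₁.comap P.mkQ
    have hPP₁ : P ≤ P₁ := by
      intro x hx
      show P.mkQ x ∈ N₁
      have : P.mkQ x = 0 := (Submodule.Quotient.mk_eq_zero P).mpr hx
      rw [this]; exact N₁.zero_mem
    have hPlt : P < P₁ := by
      refine lt_of_le_of_ne hPP₁ ?_
      intro heq
      obtain ⟨y, rfl⟩ := P.mkQ_surjective x₀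
      have h1 : y ∈ P₁ := (hmemN₁ _).mpr hx₀'
      rw [← heq] at h1
      exact hx₀ ((Submodule.Quotient.mk_eq_zero P).mpr h1)
    let hle'' : H'' ≤ H := hle'.trans hle
    have hN₁st : ∀ (q : Q) (hq : q ∈ H''), ∀ x ∈ N₁, S'.m ⟨q, hle' hq⟩ x ∈ N₁ := by
      intro q hq x hx
      rw [hmemN₁] at hx ⊢
      intro ρ hρ
      have h1 : ρ • S'.m ⟨q, hle' hq⟩ x =
          S'.m ⟨q, hle' hq⟩ (S'.r (⟨q, hle' hq⟩ : H')⁻¹ ρ • x) := by
        rw [S'.semi, S'.r_apply_inv]
      have h6 : S'.r (⟨q, hle' hq⟩ : H')⁻¹ ρ • x = 0 := hx _ (hst q⁻¹ (inv_mem hq) ρ hρ)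
      rw [h1, h6, map_zero]
    have hP₁st : ∀ q : H'', ∀ x ∈ P₁, (S.res hle'').m q x ∈ P₁ := by
      rintro ⟨q, hq⟩ x hx
      exact hN₁st q hq (P.mkQ x) hx
    -- the composite to the smaller quotient
    let fac : (N ⧸ P) →ₗ[R] (N ⧸ P₁) := Submodule.mapQ P P₁ LinearMap.id hPP₁
    have hfac : ∀ x : N, fac (P.mkQ x) = P₁.mkQ x := fun x => rfl
    let θ₂ : A → N ⧸ P₁ := fun a => fac (θ' a)
    have hθ₂ : Eqv H'' (endQuot P₁ (S.res hle'').m hP₁st) T' θ₂ :=
      { add := by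
          intro x hx y hy
          show fac _ = fac _ + fac _
          rw [hθ'.add x hx y hy, map_add]
        stab := fun q x hx => hθ'.stab ⟨q, hle' q.2⟩ x hx
        eqv := by
          intro q x hx
          show fac (θ' ((q : Q) • x)) = _
          rw [hθ'.eqv ⟨q, hle' q.2⟩ x hx]
          show _ = endQuot P₁ (S.res hle'').m hP₁st q (fac (θ' x))
          obtain ⟨y, hy⟩ := P.mkQ_surjective (θ' x)
          rw [← hy]
          rfl }
    have hfin₂ := ih P₁ hPlt H'' hH'' hle'' hP₁st T' hT' θ₂ hθ₂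
    obtain ⟨T'', hT'', hmemT''⟩ := dev_kernel T' hT' θ₂ hθ₂.add hfin₂
    have hT''le : T'' ≤ T' := fun a ha => ((hmemT'' a).mp ha).1
    apply dev_finite_of_finiteIndex T' T'' hT'' hT''le θ' hθ'.add
    -- apply the domain case
    have hfin3 : Module.Finite R (N ⧸ P) := inferInstance
    have hθ'' : Eqv H'' (S'.res hle').m T'' θ' :=
      { add := fun x hx y hy => hθ'.add x (hT''le hx) y (hT''le hy)
        stab := by
          intro q x hx
          rw [hmemT''] at hx ⊢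
          refine ⟨hθ₂.stab q x hx.1, ?_⟩
          rw [hθ₂.eqv q x hx.1, hx.2, map_zero]
        eqv := fun q x hx => hθ'.eqv ⟨q, hle' q.2⟩ x (hT''le hx) }
    refine dev_apply h2 n h V hVfg hKU hrk H'' hH'' (S'.res hle') (fun q => hVs _) 𝔭 hp htf
      (fun q ρ hρ => hst q q.2 ρ hρ) T'' hT'' θ' hθ'' ?_
    intro a ha
    have h1 := ((hmemT'' a).mp ha).2
    obtain ⟨y, hy⟩ := P.mkQ_surjective (θ' a)
    have h3 : fac (P.mkQ y) = 0 := by rw [hy]; exact h1
    rw [hfac] at h3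
    have h4 : y ∈ P₁ := (Submodule.Quotient.mk_eq_zero P₁).mp h3
    rw [← hy]
    exact (hmemN₁ _).mp h4
  have hbot := key ⊥ H hH le_rfl (by
    intro q x hx
    rw [Submodule.mem_bot] at hx ⊢
    rw [hx, map_zero]) T hT (fun a => (⊥ : Submodule R N).mkQ (θ a)) (by
      exact Eqv.quot (Eqv.res hθ le_rfl) _ _)
  have hinj : Function.Injective (⊥ : Submodule R N).mkQ := by
    rw [← LinearMap.ker_eq_bot, Submodule.ker_mkQ]
  have h5 : (⊥ : Submodule R N).mkQ '' (θ '' (T : Set A)) =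
      (fun a => (⊥ : Submodule R N).mkQ (θ a)) '' (T : Set A) := by
    rw [Set.image_image]
  rw [← h5] at hbot
  exact Set.Finite.of_finite_image hbot hinj.injOn

end Pool.Agent.Helper22.AutMet
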