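import Mathlib
import Pool.Agent.Helper22.AutMet.Base

/-! (N1) a group of exponent two acts through a finite quotient on a finitely generated abelian
group. -/

set_option autoImplicit false

namespace Pool.Agent.Helper22.AutMet

/-- a subgroup is of finite index if its cosets are separated by a map to a finite type -/
lemma e2_fi {A X : Type} [AddCommGroup A] [Finite X] (T : AddSubgroup A) (g : A → X)
    (hg : ∀ a b, g a = g b → a - b ∈ T) : T.FiniteIndex := by
  have : Finite (A ⧸ T) := by
    apply Finite.of_injective (fun x : A ⧸ T => g x.out)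
    intro x y hxy
    have h1 := hg _ _ hxy.symm
    rw [← QuotientAddGroup.out_eq' x, ← QuotientAddGroup.out_eq' y, QuotientAddGroup.eq]
    have h2 : -x.out + y.out = y.out - x.out := by abel
    rw [h2]; exact h1
  exact AddSubgroup.finiteIndex_of_finite_quotient

lemma e2_core (W : Type) [AddCommGroup W] [Module.Finite ℤ W] (e : ℤ) (he : 0 < e)
    (htor : ∀ (j : ℤ) (w : W), j ≠ 0 → j • w = 0 → e • w = 0) (u : W →+ W)
    (hu : ∀ w, u (u w) = -((2 : ℤ) • u w)) (hum : ∀ w, ∃ w', u w = (4 * e) • w') (w : W) :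
    u w = 0 := by
  -- elements of `mW` are torsion free
  have h1 : ∀ (j : ℤ) (w : W), j ≠ 0 → j • ((4 * e) • w) = 0 → (4 * e) • w = 0 := by
    intro j w hj h
    rw [← mul_smul] at h
    have := htor (j * (4 * e)) w (mul_ne_zero hj (by omega)) h
    rw [mul_smul, this, smul_zero]
  set X : Submodule ℤ W := LinearMap.range u.toIntLinearMap with hX
  have h2 : X ≤ (Ideal.span {(2 : ℤ)}) • X := by
    rintro _ ⟨w, rfl⟩
    obtain ⟨w', hw'⟩ := hum w
    have h3 : u (u w) = (4 * e) • u w' := by rw [hw', map_zsmul]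
    rw [hu] at h3
    obtain ⟨w'', hw''⟩ := hum w'
    -- u w + 2 e u w' is torsion
    have h4 : (2 : ℤ) • ((4 * e) • (w' + (2 * e) • w'')) = 0 := by
      have h5 : (4 * e) • (w' + (2 * e) • w'') = u w + (2 * e) • u w' := by
        rw [smul_add, ← hw', hw'', ← mul_smul, ← mul_smul, mul_comm (4 * e) (2 * e)]
      rw [h5, smul_add, ← mul_smul]
      have h6 : (2 : ℤ) * (2 * e) = 4 * e := by ring
      rw [h6, ← h3]
      abel
    have h5 := h1 2 _ (by norm_num) h4
    have h6 : (4 * e) • (w' + (2 * e) • w'') = u w + (2 * e) • u w' := by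
      rw [smul_add, ← hw', hw'', ← mul_smul, ← mul_smul, mul_comm (4 * e) (2 * e)]
    rw [h6] at h5
    have h7 : u w = (2 : ℤ) • u (-(e • w')) := by
      rw [map_neg, map_zsmul, smul_neg, ← mul_smul]
      exact eq_neg_of_add_eq_zero_left h5
    show u w ∈ _
    rw [h7]
    exact Submodule.smul_mem_smul (Ideal.mem_span_singleton_self 2) ⟨_, rfl⟩
  obtain ⟨r, hr, hr2⟩ := Submodule.exists_sub_one_mem_and_smul_eq_zero_of_fg_of_le_smul
    (Ideal.span {(2 : ℤ)}) X (IsNoetherian.noetherian X) h2
  have h3 : r ≠ 0 := by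
    rintro rfl
    rw [Ideal.mem_span_singleton] at hr
    omega
  have h4 := hr2 (u w) ⟨w, rfl⟩
  obtain ⟨w', hw'⟩ := hum w
  rw [hw'] at h4 ⊢
  exact h1 r w' h3 h4

theorem noEmb_E2 (W : Type) [AddCommGroup W] [Module.Finite ℤ W] {A : Type} [AddCommGroup A]
    (h2 : ∀ a : A, a + a = 0) (α : Multiplicative A →* AddMonoid.End W) :
    ∃ T : AddSubgroup A, T.FiniteIndex ∧ ∀ a, a ∈ T ↔ α (Multiplicative.ofAdd a) = 1 := by
  set T : AddSubgroup A :=
    { carrier := {a | α (Multiplicative.ofAdd a) = 1}
      add_mem' := by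
        intro a b ha hb
        show α (Multiplicative.ofAdd (a + b)) = 1
        rw [ofAdd_add, map_mul, ha, hb, mul_one]
      zero_mem' := by
        show α (Multiplicative.ofAdd 0) = 1
        rw [ofAdd_zero, map_one]
      neg_mem' := by
        intro a ha
        show α (Multiplicative.ofAdd (-a)) = 1
        have h3 : α (Multiplicative.ofAdd (-a)) * α (Multiplicative.ofAdd a) = 1 := by
          rw [← map_mul, ← ofAdd_add, neg_add_cancel, ofAdd_zero, map_one]
        have h4 : α (Multiplicative.ofAdd a) = 1 := ha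
        rwa [h4, mul_one] at h3 } with hT
  refine ⟨T, ?_, fun a => Iff.rfl⟩
  -- exponent of the torsion
  have hfin : Finite (Submodule.torsion ℤ W) :=
    Module.finite_of_fg_torsion _ (Submodule.torsion_isTorsion)
  set e : ℤ := (Nat.card (Submodule.torsion ℤ W) : ℤ) with he
  have hepos : 0 < e := by
    have : 0 < Nat.card (Submodule.torsion ℤ W) := Nat.card_pos
    omega
  have htor : ∀ (j : ℤ) (w : W), j ≠ 0 → j • w = 0 → e • w = 0 := by
    intro j w hj hw
    have hmem : w ∈ Submodule.torsion ℤ W :=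
      (Submodule.mem_torsion_iff w).2 ⟨⟨j, mem_nonZeroDivisors_of_ne_zero hj⟩, hw⟩
    have h3 : Nat.card (Submodule.torsion ℤ W) • (⟨w, hmem⟩ : Submodule.torsion ℤ W) = 0 :=
      card_nsmul_eq_zero'
    have h4 := congrArg Subtype.val h3
    rw [he, natCast_zsmul]
    exact h4
  -- the quotient
  set P : Submodule ℤ W := LinearMap.range (LinearMap.lsmul ℤ W (4 * e)) with hP
  have hPmem : ∀ w : W, w ∈ P ↔ ∃ w', w = (4 * e) • w' := by
    intro w
    constructor
    · rintro ⟨w', rfl⟩; exact ⟨w', rfl⟩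
    · rintro ⟨w', rfl⟩; exact ⟨w', rfl⟩
  have hPfin : Finite (W ⧸ P) := by
    apply Module.finite_of_fg_torsion
    intro x
    obtain ⟨y, rfl⟩ := P.mkQ_surjective x
    refine ⟨⟨4 * e, mem_nonZeroDivisors_of_ne_zero (by omega)⟩, ?_⟩
    show (4 * e) • P.mkQ y = 0
    rw [← map_smul]
    exact (Submodule.Quotient.mk_eq_zero P).2 ((hPmem _).2 ⟨y, rfl⟩)
  obtain ⟨n, s, hs⟩ := Module.Finite.exists_fin (R := ℤ) (M := W)
  refine e2_fi T (fun a => fun i : Fin n => P.mkQ (α (Multiplicative.ofAdd a) (s i))) ?_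
  intro a b hab
  -- equality modulo `P` on all of `W`
  have h3 : ∀ w : W, α (Multiplicative.ofAdd a) w - α (Multiplicative.ofAdd b) w ∈ P := by
    intro w
    have hw : w ∈ Submodule.span ℤ (Set.range s) := by rw [hs]; trivial
    induction hw using Submodule.span_induction with
    | mem w hw =>
      obtain ⟨i, rfl⟩ := hw
      have := congrFun hab i
      exact (Submodule.Quotient.eq P).1 this
    | zero => simp
    | add x y _ _ hx hy =>
      rw [map_add, map_add, add_sub_add_comm]
      exact P.add_mem hx hy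
    | smul c x _ hx =>
      rw [map_zsmul, map_zsmul, ← smul_sub]
      exact P.smul_mem c hx
  have hstab : ∀ (g : AddMonoid.End W) (w : W), w ∈ P → g w ∈ P := by
    intro g w hw
    obtain ⟨w', rfl⟩ := (hPmem _).1 hw
    exact (hPmem _).2 ⟨g w', map_zsmul g _ _⟩
  have h4 : ∀ w : W, α (Multiplicative.ofAdd (a - b)) w - w ∈ P := by
    intro w
    have h5 := hstab (α (Multiplicative.ofAdd (-b))) _ (h3 w)
    rw [map_sub] at h5
    have h6 : ∀ c : A, α (Multiplicative.ofAdd (-b)) (α (Multiplicative.ofAdd c) w) =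
        α (Multiplicative.ofAdd (c - b)) w := by
      intro c
      have : α (Multiplicative.ofAdd (-b)) * α (Multiplicative.ofAdd c) =
          α (Multiplicative.ofAdd (c - b)) := by
        rw [← map_mul, ← ofAdd_add]; congr 2; abel
      exact congrArg (fun f : AddMonoid.End W => f w) this
    rw [h6, h6, sub_self, ofAdd_zero, map_one] at h5
    exact h5
  -- the core argument
  set g : AddMonoid.End W := α (Multiplicative.ofAdd (a - b)) with hg
  have hgg : ∀ w, g (g w) = w := by
    intro w
    have : g * g = 1 := by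
      rw [hg, ← map_mul, ← ofAdd_add, h2, ofAdd_zero, map_one]
    exact congrArg (fun f : AddMonoid.End W => f w) this
  have h5 := e2_core W e hepos htor ((show W →+ W from g) - AddMonoidHom.id W) (by
    intro w
    show g (g w - w) - (g w - w) = -((2 : ℤ) • (g w - w))
    rw [map_sub, hgg, two_smul]
    abel) (fun w => (hPmem _).1 (h4 w))
  show g = 1
  refine AddMonoidHom.ext fun w => ?_
  have h6 : g w - w = 0 := h5 w
  exact sub_eq_zero.1 h6

end Pool.Agent.Helper22.AutMet
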