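import Mathlib
import Pool.Agent.Helper22.AutMet.Base
import Pool.Agent.Helper22.AutMet.Conc

/-! Final reduction: the group `AA ⋊ Q` satisfies the hypotheses of the frozen statement. -/

set_option autoImplicit false

namespace Pool.Agent.Helper22.AutMet

/-- the lattice as a subgroup map -/
def bbHom : Multiplicative B →* Q where
  toFun x := bb (Multiplicative.toAdd x)
  map_one' := rfl
  map_mul' x y := bb_add _ _

lemma eq_bb_of_n_eq_zero (q : Q) (h : q.n = 0) : q = bb q.v := by
  ext1
  · rfl
  · simp [h]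

theorem Q_subgroup_fg (H : Subgroup Q) : H.FG := by
  classical
  -- the image in ℤ is cyclic
  obtain ⟨c, hc⟩ := (inferInstance : IsCyclic (H.map Q.proj))
  obtain ⟨h0, h0H, h0c⟩ := c.2
  -- the lattice part
  let L : AddSubgroup B :=
    { carrier := {v | bb v ∈ H}
      zero_mem' := by
        show bb 0 ∈ H
        rw [bb_zero]; exact H.one_mem
      add_mem' := by
        intro v w hv hw
        show bb (v + w) ∈ H
        rw [bb_add]; exact H.mul_mem hv hw
      neg_mem' := by
        intro v hv
        show bb (-v) ∈ H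
        rw [bb_neg]; exact H.inv_mem hv }
  have hLfg : (AddSubgroup.toIntSubmodule L).FG := IsNoetherian.noetherian _
  obtain ⟨s, hs⟩ := hLfg
  have hsL : AddSubgroup.closure (s : Set B) = L := by
    have h1 : Submodule.toAddSubgroup (Submodule.span ℤ (s : Set B)) = AddSubgroup.closure (s : Set B) :=
      Submodule.span_int_eq_addSubgroupClosure _
    rw [hs] at h1
    rw [← h1]
    rfl
  refine ⟨insert h0 (s.image bb), ?_⟩
  set K : Subgroup Q := Subgroup.closure ((insert h0 (s.image bb) : Finset Q) : Set Q) with hK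
  have hh0 : h0 ∈ K := Subgroup.subset_closure (by simp)
  have hbb : ∀ v ∈ L, bb v ∈ K := by
    intro v hv
    rw [← hsL] at hv
    induction hv using AddSubgroup.closure_induction with
    | mem x hx => exact Subgroup.subset_closure (by
        simp only [Finset.coe_insert, Finset.coe_image, Set.mem_insert_iff, Set.mem_image]
        exact Or.inr ⟨x, hx, rfl⟩)
    | zero => rw [bb_zero]; exact K.one_mem
    | add x y _ _ hx hy => rw [bb_add]; exact K.mul_mem hx hy
    | neg x _ hx => rw [bb_neg]; exact K.inv_mem hx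
  apply le_antisymm
  · rw [hK, Subgroup.closure_le]
    intro x hx
    simp only [Finset.coe_insert, Finset.coe_image, Set.mem_insert_iff, Set.mem_image] at hx
    rcases hx with rfl | ⟨v, hv, rfl⟩
    · exact h0H
    · have : v ∈ L := by
        rw [← hsL]; exact AddSubgroup.subset_closure hv
      exact this
  · intro h hh
    obtain ⟨k, hk⟩ := hc ⟨Q.proj h, ⟨h, hh, rfl⟩⟩
    have hk' : (Q.proj h0) ^ k = Q.proj h := by
      have := congrArg Subtype.val hk
      simp only [Subgroup.coe_zpow] at this
      rw [h0c]; exact this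
    have h1 : h * (h0 ^ k)⁻¹ ∈ H := H.mul_mem hh (H.inv_mem (H.zpow_mem h0H k))
    have h2 : (h * (h0 ^ k)⁻¹).n = 0 := by
      have h3 : Q.proj (h * (h0 ^ k)⁻¹) = 1 := by
        rw [map_mul, map_inv, map_zpow, hk', mul_inv_cancel]
      exact Multiplicative.ofAdd.injective h3
    have h4 := eq_bb_of_n_eq_zero _ h2
    have h5 : bb (h * (h0 ^ k)⁻¹).v ∈ K := hbb _ (by show bb _ ∈ H; rw [← h4]; exact h1)
    rw [← h4] at h5
    have h6 : h = (h * (h0 ^ k)⁻¹) * h0 ^ k := by group
    rw [h6]
    exact K.mul_mem h5 (K.zpow_mem hh0 k)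

theorem Q_solvable : Group.IsSolvable Q := by
  apply Group.isSolvable_of_ker_le_range bbHom Q.proj
  intro q hq
  have : q.n = 0 := Multiplicative.ofAdd.injective hq
  exact ⟨Multiplicative.ofAdd q.v, (eq_bb_of_n_eq_zero q this).symm⟩

theorem GA_fg : Group.FG (GA AA) := by
  classical
  obtain ⟨e, he⟩ := AA_gen
  obtain ⟨s, hs⟩ := Q_subgroup_fg ⊤
  rw [Group.fg_iff]
  refine ⟨insert (GA.inA (Multiplicative.ofAdd e)) ((GA.inQ (A := AA)) '' (s : Set Q)), ?_,
    (s.finite_toSet.image _).insert _⟩
  set K := Subgroup.closure (insert (GA.inA (Multiplicative.ofAdd e))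
    ((GA.inQ (A := AA)) '' (s : Set Q))) with hK
  have hQ : ∀ q : Q, GA.inQ q ∈ K := by
    intro q
    have hq : q ∈ Subgroup.closure (s : Set Q) := by rw [hs]; trivial
    have h1 : GA.inQ (A := AA) q ∈ (Subgroup.closure (s : Set Q)).map (GA.inQ (A := AA)) := ⟨q, hq, rfl⟩
    rw [MonoidHom.map_closure] at h1
    exact Subgroup.closure_mono (Set.subset_insert _ _) h1
  have hA : ∀ a : AA, GA.inA (Multiplicative.ofAdd a) ∈ K := by
    intro a
    have ha := he a
    induction ha using AddSubgroup.closure_induction with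
    | mem x hx =>
      obtain ⟨q, rfl⟩ := hx
      have h1 : GA.inA (Multiplicative.ofAdd (q • e))
          = GA.inQ q * GA.inA (Multiplicative.ofAdd e) * (GA.inQ q)⁻¹ := by
        ext1
        · simp [GA.inA, GA.inQ]
        · simp [GA.inA, GA.inQ]
      rw [h1]
      exact K.mul_mem (K.mul_mem (hQ q) (Subgroup.subset_closure (Set.mem_insert _ _)))
        (K.inv_mem (hQ q))
    | zero => rw [ofAdd_zero, map_one]; exact K.one_mem
    | add x y _ _ hx hy => rw [ofAdd_add, map_mul]; exact K.mul_mem hx hy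
    | neg x _ hx => rw [ofAdd_neg, map_inv]; exact K.inv_mem hx
  rw [eq_top_iff]
  intro g _
  have h1 : g = GA.inA (Multiplicative.ofAdd g.a) * GA.inQ g.q := by
    ext1
    · simp [GA.inA, GA.inQ]
    · simp [GA.inA, GA.inQ]
  rw [h1]
  exact K.mul_mem (hA _) (hQ _)

theorem GA_proj_surjective : Function.Surjective (GA.proj (A := AA)) := by
  intro q
  exact ⟨⟨0, q⟩, rfl⟩

/-- the quotient `GA AA ⧸ ker` is `Q`. -/
noncomputable def quotEquiv : (GA AA ⧸ (GA.proj (A := AA)).ker) ≃* Q :=
  QuotientGroup.quotientKerEquivOfSurjective _ GA_proj_surjective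

theorem final_reduction
    (hno : ∀ (M : Type) [Group M] [Group.FG M], derivedSeries M 2 = ⊥ →
      ∀ f : GA AA →* MulAut M, ¬ Function.Injective f) :
    ¬ (∀ (G : Type) [Group G] [Group.FG G] (A : Subgroup G) [A.Normal],
      (∀ x ∈ A, ∀ y ∈ A, x * y = y * x) →
      (∀ H : Subgroup (G ⧸ A), H.FG) →
      (∃ K : Subgroup (G ⧸ A), K.index ≠ 0 ∧ IsSolvable K) →
      ∃ (M : Type) (_ : Group M), Group.FG M ∧ derivedSeries M 2 = ⊥ ∧
        ∃ f : G →* MulAut M, Function.Injective f) := by
  intro hall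
  have : Group.FG (GA AA) := GA_fg
  have : Group.IsSolvable Q := Q_solvable
  obtain ⟨M, hM, hfg, hd, f, hf⟩ := hall (GA AA) (GA.proj (A := AA)).ker
    (by
      intro x hx y hy
      have hx' : x.q = 1 := hx
      have hy' : y.q = 1 := hy
      ext1
      · simp [hx', hy', add_comm]
      · simp [hx', hy'])
    (by
      intro H
      have h1 : (H.map (quotEquiv : (GA AA ⧸ (GA.proj (A := AA)).ker) →* Q)).FG := Q_subgroup_fg _
      have h2 : ((H.map (quotEquiv : (GA AA ⧸ (GA.proj (A := AA)).ker) →* Q)).map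
        (quotEquiv.symm : Q →* (GA AA ⧸ (GA.proj (A := AA)).ker))).FG := by
        classical
        obtain ⟨s, hs⟩ := h1
        refine ⟨s.image quotEquiv.symm, ?_⟩
        rw [← hs, MonoidHom.map_closure, Finset.coe_image]
        rfl
      rw [Subgroup.map_map] at h2
      have h3 : ((quotEquiv.symm : Q →* (GA AA ⧸ (GA.proj (A := AA)).ker)).comp
        (quotEquiv : (GA AA ⧸ (GA.proj (A := AA)).ker) →* Q)) = MonoidHom.id _ := by
        ext x
        simp
      rw [h3, Subgroup.map_id] at h2
      exact h2)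
    (by
      refine ⟨⊤, by simp, ?_⟩
      have : Group.IsSolvable (GA AA ⧸ (GA.proj (A := AA)).ker) :=
        Group.isSolvable_of_isSolvable_injective (f := (quotEquiv : (GA AA ⧸ (GA.proj (A := AA)).ker) →* Q))
          quotEquiv.injective
      exact (inferInstance : Group.IsSolvable
        (⊤ : Subgroup (GA AA ⧸ (GA.proj (A := AA)).ker))))
  exact @hno M hM hfg hd f hf

end Pool.Agent.Helper22.AutMet
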