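import Mathlib
import Pool.Agent.Helper22.AutMet.Base
import Pool.Agent.Helper22.AutMet.Util

/-! The commutative ring generated by a commutative group `C` of automorphisms of an abelian group. -/

set_option autoImplicit false

namespace Pool.Agent.Helper22.AutMet

variable {Y : Type} [AddCommGroup Y]

/-- the subring of `End Y` generated by `C` -/
def RCs (C : Subgroup (AddMonoid.End Y)ˣ) : Subring (AddMonoid.End Y) :=
  Subring.closure ((fun x : (AddMonoid.End Y)ˣ => (x : AddMonoid.End Y)) '' (C : Set (AddMonoid.End Y)ˣ))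

lemma RCs_mem {C : Subgroup (AddMonoid.End Y)ˣ} {x : (AddMonoid.End Y)ˣ} (hx : x ∈ C) :
    (x : AddMonoid.End Y) ∈ RCs C := Subring.subset_closure ⟨x, hx, rfl⟩

/-- the commutative ring generated by `C` -/
def RC (C : Subgroup (AddMonoid.End Y)ˣ) (_ : ∀ x ∈ C, ∀ y ∈ C, x * y = y * x) : Type := RCs C

variable {C : Subgroup (AddMonoid.End Y)ˣ} (h : ∀ x ∈ C, ∀ y ∈ C, x * y = y * x)

instance : CommRing (RC C h) :=
  Subring.closureCommRingOfComm (by
    rintro _ ⟨x, hx, rfl⟩ _ ⟨y, hy, rfl⟩
    show ((x : AddMonoid.End Y) * y) = y * x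
    rw [← Units.val_mul, ← Units.val_mul, h x hx y hy])

/-- the inclusion in the endomorphism ring -/
def RC.incl : RC C h →+* AddMonoid.End Y := (RCs C).subtype

lemma RC.incl_injective : Function.Injective (RC.incl h) := Subtype.val_injective

lemma RC.incl_mem (r : RC C h) : RC.incl h r ∈ RCs C := r.2

/-- an element of `RC` from a member of `RCs` -/
def RC.mk (x : AddMonoid.End Y) (hx : x ∈ RCs C) : RC C h := ⟨x, hx⟩

@[simp] lemma RC.incl_mk (x : AddMonoid.End Y) (hx : x ∈ RCs C) :
    RC.incl h (RC.mk h x hx) = x := rfl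

instance : Module (RC C h) Y where
  smul r y := RC.incl h r y
  one_smul y := by show RC.incl h 1 y = y; rw [map_one]; rfl
  mul_smul r s y := by show RC.incl h (r * s) y = _; rw [map_mul]; rfl
  smul_zero r := map_zero _
  smul_add r := map_add _
  add_smul r s y := by show RC.incl h (r + s) y = _; rw [map_add]; rfl
  zero_smul y := by show RC.incl h 0 y = _; rw [map_zero]; rfl

lemma RC.smul_def (r : RC C h) (y : Y) : r • y = RC.incl h r y := rfl

/-- the units coming from `C` -/
def RC.unit : C →* (RC C h)ˣ where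
  toFun x :=
    { val := RC.mk h ((x : (AddMonoid.End Y)ˣ) : AddMonoid.End Y) (RCs_mem x.2)
      inv := RC.mk h ((x⁻¹ : (AddMonoid.End Y)ˣ) : AddMonoid.End Y) (RCs_mem (C.inv_mem x.2))
      val_inv := by
        apply RC.incl_injective h
        rw [map_mul, map_one]
        exact Units.mul_inv _
      inv_val := by
        apply RC.incl_injective h
        rw [map_mul, map_one]
        exact Units.inv_mul _ }
  map_one' := rfl
  map_mul' := fun x y => Units.ext rfl

@[simp] lemma RC.incl_unit (x : C) :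
    RC.incl h ((RC.unit h x : (RC C h)ˣ) : RC C h) = ((x : (AddMonoid.End Y)ˣ) : AddMonoid.End Y) := rfl

/-- the group of units coming from `C` -/
def VC : Subgroup (RC C h)ˣ := (RC.unit h).range

lemma VC_FG (hfg : C.FG) : (VC h).FG := by
  have h1 : Group.FG C := (Group.fg_iff_subgroup_fg C).2 hfg
  have h2 : (⊤ : Subgroup C).FG := h1.out
  have h3 := subgroup_fg_map h2 (RC.unit h)
  rwa [← MonoidHom.range_eq_map] at h3

lemma RC_ind {p : RC C h → Prop} (h0 : p 0) (h1 : p 1)
    (hadd : ∀ x y, p x → p y → p (x + y)) (hneg : ∀ x, p x → p (-x))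
    (hmul : ∀ x y, p x → p y → p (x * y))
    (hu : ∀ x : C, p ((RC.unit h x : (RC C h)ˣ) : RC C h)) (r : RC C h) : p r := by
  obtain ⟨r, hr⟩ := r
  have : ∀ (r : AddMonoid.End Y) (hr : r ∈ RCs C), p (RC.mk h r hr) := by
    intro r hr
    induction hr using Subring.closure_induction with
    | mem x hx =>
      obtain ⟨u, hu', rfl⟩ := hx
      exact hu ⟨u, hu'⟩
    | zero => exact h0
    | one => exact h1
    | add x y hx hy ihx ihy => exact hadd _ _ ihx ihy
    | neg x hx ihx => exact hneg _ ihx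
    | mul x y hx hy ihx ihy => exact hmul _ _ ihx ihy
  exact this r hr

lemma KU_VC : KU (VC h) = ⊤ := by
  rw [eq_top_iff]
  intro r _
  induction r using RC_ind h with
  | h0 => exact Subring.zero_mem _
  | h1 => exact Subring.one_mem _
  | hadd x y hx hy => exact Subring.add_mem _ (hx trivial) (hy trivial)
  | hneg x hx => exact Subring.neg_mem _ (hx trivial)
  | hmul x y hx hy => exact Subring.mul_mem _ (hx trivial) (hy trivial)
  | hu x => exact KU_mem ⟨x, rfl⟩

lemma RC_noeth (hfg : C.FG) : IsNoetherianRing (RC C h) := by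
  have h1 := KU_finiteType (VC h) (VC_FG h hfg)
  have h2 : IsNoetherianRing (KU (VC h)) := Algebra.FiniteType.isNoetherianRing ℤ _
  have e : KU (VC h) ≃+* RC C h :=
    (RingEquiv.subringCongr (KU_VC h)).trans Subring.topEquiv
  exact isNoetherianRing_of_ringEquiv _ e

lemma RC_finite (hY : ∃ s : Finset Y, ∀ y, y ∈ AddSubgroup.closure
    {z | ∃ x ∈ C, ∃ w ∈ s, z = (x : AddMonoid.End Y) w}) : Module.Finite (RC C h) Y := by
  obtain ⟨s, hs⟩ := hY
  refine ⟨⟨s, ?_⟩⟩
  rw [eq_top_iff]
  intro y _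
  have h1 : AddSubgroup.closure {z | ∃ x ∈ C, ∃ w ∈ s, z = (x : AddMonoid.End Y) w} ≤
      (Submodule.span (RC C h) (s : Set Y)).toAddSubgroup := by
    rw [AddSubgroup.closure_le]
    rintro _ ⟨x, hx, w, hw, rfl⟩
    have h2 := Submodule.smul_mem (Submodule.span (RC C h) (s : Set Y))
      ((RC.unit h ⟨x, hx⟩ : (RC C h)ˣ) : RC C h) (Submodule.subset_span hw)
    exact h2
  exact h1 (hs y)

section conj

variable {G : Type} [Group G] (F : G →* AddMonoid.End Y)

lemma RC_F_inv (g : G) : F g * F g⁻¹ = 1 := by rw [← map_mul, mul_inv_cancel, map_one]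

lemma RC_F_inv' (g : G) : F g⁻¹ * F g = 1 := by rw [← map_mul, inv_mul_cancel, map_one]

lemma RC_conj_mem (hn : ∀ g : G, ∀ x ∈ C, ∃ y ∈ C, F g * x = y * F g) (g : G)
    (r : AddMonoid.End Y) (hr : r ∈ RCs C) : F g * r * F g⁻¹ ∈ RCs C := by
  induction hr using Subring.closure_induction with
  | mem x hx =>
    obtain ⟨u, hu, rfl⟩ := hx
    obtain ⟨y, hy, hxy⟩ := hn g u hu
    show F g * (u : AddMonoid.End Y) * F g⁻¹ ∈ RCs C
    rw [hxy, mul_assoc, RC_F_inv, mul_one]
    exact RCs_mem hy
  | zero => rw [mul_zero, zero_mul]; exact Subring.zero_mem _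
  | one => rw [mul_one, RC_F_inv]; exact Subring.one_mem _
  | add x y hx hy ihx ihy => rw [mul_add, add_mul]; exact Subring.add_mem _ ihx ihy
  | neg x hx ihx => rw [mul_neg, neg_mul]; exact Subring.neg_mem _ ihx
  | mul x y hx hy ihx ihy =>
    have e : F g * (x * y) * F g⁻¹ = (F g * x * F g⁻¹) * (F g * y * F g⁻¹) := by
      have : (F g * x * F g⁻¹) * (F g * y * F g⁻¹) = F g * x * (F g⁻¹ * F g) * y * F g⁻¹ := by
        simp only [mul_assoc]
      rw [this, RC_F_inv', mul_one]
      simp only [mul_assoc]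
    rw [e]
    exact Subring.mul_mem _ ihx ihy

/-- conjugation by `F g` on the ring `RC` -/
def RC.conj (hn : ∀ g : G, ∀ x ∈ C, ∃ y ∈ C, F g * x = y * F g) : G →* (RC C h →+* RC C h) where
  toFun g :=
    { toFun := fun r => RC.mk h (F g * RC.incl h r * F g⁻¹) (RC_conj_mem F hn g _ (RC.incl_mem h r))
      map_one' := by
        apply RC.incl_injective h
        show F g * RC.incl h 1 * F g⁻¹ = RC.incl h 1
        rw [map_one, mul_one, RC_F_inv]
      map_mul' := by
        intro r s
        apply RC.incl_injective h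
        show F g * RC.incl h (r * s) * F g⁻¹ =
          (F g * RC.incl h r * F g⁻¹) * (F g * RC.incl h s * F g⁻¹)
        have : (F g * RC.incl h r * F g⁻¹) * (F g * RC.incl h s * F g⁻¹) =
            F g * RC.incl h r * (F g⁻¹ * F g) * RC.incl h s * F g⁻¹ := by
          simp only [mul_assoc]
        rw [this, RC_F_inv', mul_one, map_mul]
        simp only [mul_assoc]
      map_zero' := by
        apply RC.incl_injective h
        show F g * RC.incl h 0 * F g⁻¹ = RC.incl h 0
        rw [map_zero, mul_zero, zero_mul]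
      map_add' := by
        intro r s
        apply RC.incl_injective h
        show F g * RC.incl h (r + s) * F g⁻¹ =
          F g * RC.incl h r * F g⁻¹ + F g * RC.incl h s * F g⁻¹
        rw [map_add, mul_add, add_mul] }
  map_one' := by
    refine RingHom.ext fun r => ?_
    apply RC.incl_injective h
    show F 1 * RC.incl h r * F 1⁻¹ = RC.incl h r
    rw [inv_one, map_one, one_mul, mul_one]
  map_mul' := by
    intro g g'
    refine RingHom.ext fun r => ?_
    apply RC.incl_injective h
    show F (g * g') * RC.incl h r * F (g * g')⁻¹ = F g * (F g' * RC.incl h r * F g'⁻¹) * F g⁻¹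
    rw [mul_inv_rev, map_mul, map_mul]
    simp only [mul_assoc]

lemma RC.incl_conj (hn : ∀ g : G, ∀ x ∈ C, ∃ y ∈ C, F g * x = y * F g) (g : G) (r : RC C h) :
    RC.incl h (RC.conj h F hn g r) = F g * RC.incl h r * F g⁻¹ := rfl

lemma RC.conj_stable (hn : ∀ g : G, ∀ x ∈ C, ∃ y ∈ C, F g * x = y * F g) (g : G) :
    UStable (RC.conj h F hn g) (VC h) := by
  rintro _ ⟨u, rfl⟩
  obtain ⟨y, hy, hxy⟩ := hn g u u.2
  refine ⟨⟨y, hy⟩, ?_⟩
  apply Units.ext
  apply RC.incl_injective h
  show (y : AddMonoid.End Y) = F g * ((u : (AddMonoid.End Y)ˣ) : AddMonoid.End Y) * F g⁻¹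
  rw [hxy, mul_assoc, RC_F_inv, mul_one]

lemma RC.conj_smul (hn : ∀ g : G, ∀ x ∈ C, ∃ y ∈ C, F g * x = y * F g) (g : G) (r : RC C h)
    (y : Y) : F g (r • y) = RC.conj h F hn g r • F g y := by
  show F g (RC.incl h r y) = (F g * RC.incl h r * F g⁻¹) (F g y)
  show F g (RC.incl h r y) = F g (RC.incl h r ((F g⁻¹ * F g) y))
  rw [RC_F_inv']; rfl

end conj

end Pool.Agent.Helper22.AutMet
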