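import Mathlib
import Pool.Agent.Helper22.AutMet.Base
import Pool.Agent.Helper22.AutMet.Util
import Pool.Agent.Helper22.AutMet.RingC

/-! Set-up for metabelian groups: the derived subgroup as a module. -/

set_option autoImplicit false

namespace Pool.Agent.Helper22.AutMet

open scoped commutatorElement

/-- the derived subgroup of a metabelian group, written additively -/
def YM (M : Type) [Group M] (_ : derivedSeries M 2 = ⊥) : Type := Additive (commutator M)

variable {M : Type} [Group M] (hM : derivedSeries M 2 = ⊥)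

include hM in
lemma ym_comm (x y : M) (hx : x ∈ commutator M) (hy : y ∈ commutator M) : x * y = y * x := by
  have h1 : ⁅x, y⁆ ∈ derivedSeries M 2 := by
    have e : derivedSeries M 2 = ⁅derivedSeries M 1, derivedSeries M 1⁆ := derivedSeries_succ M 1
    rw [e, derivedSeries_one]
    exact Subgroup.commutator_mem_commutator hx hy
  rw [hM, Subgroup.mem_bot, commutatorElement_eq_one_iff_mul_comm] at h1
  exact h1

instance : AddCommGroup (YM M hM) :=
  { (inferInstance : AddGroup (Additive (commutator M))) with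
    add_comm := by
      intro a b
      show Additive.ofMul (Additive.toMul (α := commutator M) a * Additive.toMul (α := commutator M) b) =
        Additive.ofMul (Additive.toMul (α := commutator M) b * Additive.toMul (α := commutator M) a)
      congr 1
      exact Subtype.ext (ym_comm hM _ _ (Subtype.property _) (Subtype.property _)) }

/-- the element of `YM` given by an element of the derived subgroup -/
def YM.of (x : M) (hx : x ∈ commutator M) : YM M hM := Additive.ofMul (⟨x, hx⟩ : commutator M)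

/-- the underlying element -/
def YM.val (y : YM M hM) : M := ((Additive.toMul (α := commutator M) y : commutator M) : M)

lemma YM.val_mem (y : YM M hM) : YM.val hM y ∈ commutator M :=
  (Additive.toMul (α := commutator M) y : commutator M).2

@[simp] lemma YM.val_of (x : M) (hx : x ∈ commutator M) : YM.val hM (YM.of hM x hx) = x := rfl

@[simp] lemma YM.val_add (x y : YM M hM) :
    YM.val hM (x + y) = YM.val hM x * YM.val hM y := rfl

@[simp] lemma YM.val_zero : YM.val hM 0 = 1 := rfl

@[simp] lemma YM.val_neg (x : YM M hM) : YM.val hM (-x) = (YM.val hM x)⁻¹ := rfl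

lemma YM.ext {x y : YM M hM} (h : YM.val hM x = YM.val hM y) : x = y :=
  Subtype.ext h

lemma ym_aut_mem (φ : MulAut M) (x : M) (hx : x ∈ commutator M) : φ x ∈ commutator M := by
  have h1 : (commutator M).Characteristic := inferInstance
  have h2 := Subgroup.characteristic_iff_map_le.1 h1 φ
  exact h2 ⟨x, hx, rfl⟩

/-- automorphisms act on the derived subgroup -/
def YM.aut : MulAut M →* AddMonoid.End (YM M hM) where
  toFun φ :=
    { toFun := fun y => YM.of hM (φ (YM.val hM y)) (ym_aut_mem φ _ (YM.val_mem hM y))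
      map_zero' := by
        apply YM.ext
        show φ 1 = 1
        exact map_one φ
      map_add' := by
        intro x y
        apply YM.ext
        show φ (YM.val hM x * YM.val hM y) = φ (YM.val hM x) * φ (YM.val hM y)
        exact map_mul φ _ _ }
  map_one' := rfl
  map_mul' := fun _ _ => rfl

@[simp] lemma YM.val_aut (φ : MulAut M) (y : YM M hM) :
    YM.val hM (YM.aut hM φ y) = φ (YM.val hM y) := rfl

/-- the conjugation action of `M` -/
def YM.c : M →* (AddMonoid.End (YM M hM))ˣ := ((YM.aut hM).comp MulAut.conj).toHomUnits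

@[simp] lemma YM.val_c (m : M) (y : YM M hM) :
    YM.val hM (((YM.c hM m : (AddMonoid.End (YM M hM))ˣ) : AddMonoid.End (YM M hM)) y) =
      m * YM.val hM y * m⁻¹ := rfl

/-- the group of automorphisms of the derived subgroup induced by conjugation -/
def YM.C : Subgroup (AddMonoid.End (YM M hM))ˣ := (YM.c hM).range

lemma YM.c_mem (m : M) : YM.c hM m ∈ YM.C hM := ⟨m, rfl⟩

lemma YM.c_eq_one (m : M) (hm : m ∈ commutator M) : YM.c hM m = 1 := by
  apply Units.ext
  refine AddMonoidHom.ext fun y => ?_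
  apply YM.ext
  show m * YM.val hM y * m⁻¹ = YM.val hM y
  rw [ym_comm hM m _ hm (YM.val_mem hM y), mul_assoc, mul_inv_cancel, mul_one]

lemma YM.C_comm : ∀ x ∈ YM.C hM, ∀ y ∈ YM.C hM, x * y = y * x := by
  rintro _ ⟨a, rfl⟩ _ ⟨b, rfl⟩
  have h1 : YM.c hM ⁅a, b⁆ = 1 :=
    YM.c_eq_one hM _ (Subgroup.commutator_mem_commutator (Subgroup.mem_top a) (Subgroup.mem_top b))
  rw [← map_mul, ← map_mul]
  have h2 : a * b = ⁅a, b⁆ * (b * a) := by
    rw [commutatorElement_def]; group
  rw [h2, map_mul, h1, one_mul]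

lemma YM.C_fg [Group.FG M] : (YM.C hM).FG := by
  have h1 : (⊤ : Subgroup M).FG := Group.FG.out
  have h2 := subgroup_fg_map h1 (YM.c hM)
  rwa [← MonoidHom.range_eq_map] at h2

lemma YM.aut_c (φ : MulAut M) (m : M) :
    YM.aut hM φ * ((YM.c hM m : (AddMonoid.End (YM M hM))ˣ) : AddMonoid.End (YM M hM)) =
      ((YM.c hM (φ m) : (AddMonoid.End (YM M hM))ˣ) : AddMonoid.End (YM M hM)) * YM.aut hM φ := by
  refine AddMonoidHom.ext fun y => ?_
  apply YM.ext
  show φ (m * YM.val hM y * m⁻¹) = φ m * φ (YM.val hM y) * (φ m)⁻¹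
  rw [map_mul, map_mul, map_inv]

lemma YM.norm {G : Type} [Group G] (f : G →* MulAut M) :
    ∀ g : G, ∀ x ∈ YM.C hM, ∃ y ∈ YM.C hM, ((YM.aut hM).comp f) g * x = y * ((YM.aut hM).comp f) g := by
  rintro g _ ⟨m, rfl⟩
  exact ⟨YM.c hM (f g m), YM.c_mem hM _, YM.aut_c hM (f g) m⟩

lemma ym_commutator_le (s : Set M) (hs : Subgroup.closure s = ⊤) :
    commutator M ≤ Subgroup.normalClosure {z | ∃ x ∈ s, ∃ y ∈ s, z = ⁅x, y⁆} := by
  set K := Subgroup.normalClosure {z | ∃ x ∈ s, ∃ y ∈ s, z = ⁅x, y⁆} with hK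
  have h1 : ∀ x ∈ s, ∀ y ∈ s, (QuotientGroup.mk' K x) * (QuotientGroup.mk' K y) =
      (QuotientGroup.mk' K y) * (QuotientGroup.mk' K x) := by
    intro x hx y hy
    have h2 : ⁅x, y⁆ ∈ K := Subgroup.subset_normalClosure ⟨x, hx, y, hy, rfl⟩
    have h3 : QuotientGroup.mk' K ⁅x, y⁆ = 1 := (QuotientGroup.eq_one_iff _).2 h2
    rw [map_commutatorElement, commutatorElement_eq_one_iff_mul_comm] at h3
    exact h3
  have h2 : ∀ x ∈ s, ∀ m : M, (QuotientGroup.mk' K x) * (QuotientGroup.mk' K m) =
      (QuotientGroup.mk' K m) * (QuotientGroup.mk' K x) := by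
    intro x hx m
    have hm : m ∈ Subgroup.closure s := by rw [hs]; trivial
    induction hm using Subgroup.closure_induction with
    | mem y hy => exact h1 x hx y hy
    | one => rw [map_one, mul_one, one_mul]
    | mul a b _ _ ha hb => rw [map_mul, ← mul_assoc, ha, mul_assoc, hb, mul_assoc]
    | inv a _ ha =>
      rw [map_inv]
      exact (Commute.inv_right (show Commute _ _ from ha)).eq
  have h3 : ∀ m' m : M, (QuotientGroup.mk' K m') * (QuotientGroup.mk' K m) =
      (QuotientGroup.mk' K m) * (QuotientGroup.mk' K m') := by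
    intro m' m
    have hm : m' ∈ Subgroup.closure s := by rw [hs]; trivial
    induction hm using Subgroup.closure_induction with
    | mem y hy => exact h2 y hy m
    | one => rw [map_one, mul_one, one_mul]
    | mul a b _ _ ha hb => rw [map_mul, mul_assoc, hb, ← mul_assoc, ha, mul_assoc]
    | inv a _ ha =>
      rw [map_inv]
      exact (Commute.inv_left (show Commute _ _ from ha)).eq
  rw [commutator_def, Subgroup.commutator_le]
  intro a _ b _
  have h4 : QuotientGroup.mk' K ⁅a, b⁆ = 1 := by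
    rw [map_commutatorElement, commutatorElement_eq_one_iff_mul_comm]
    exact h3 a b
  exact (QuotientGroup.eq_one_iff _).1 h4

lemma YM.fg [Group.FG M] : ∃ s : Finset (YM M hM), ∀ y, y ∈ AddSubgroup.closure
    {z | ∃ x ∈ YM.C hM, ∃ w ∈ s, z = (x : AddMonoid.End (YM M hM)) w} := by
  classical
  obtain ⟨S, hS⟩ := (Group.FG.out : (⊤ : Subgroup M).FG)
  have hcm : ∀ p : M × M, ⁅p.1, p.2⁆ ∈ commutator M := fun p =>
    Subgroup.commutator_mem_commutator (Subgroup.mem_top _) (Subgroup.mem_top _)
  refine ⟨(S ×ˢ S).image fun p => YM.of hM ⁅p.1, p.2⁆ (hcm p), ?_⟩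
  intro y
  set P := AddSubgroup.closure {z | ∃ x ∈ YM.C hM, ∃ w ∈ (S ×ˢ S).image
    (fun p => YM.of hM ⁅p.1, p.2⁆ (hcm p)), z = (x : AddMonoid.End (YM M hM)) w} with hP
  have h1 : ∀ z ∈ Subgroup.normalClosure {z | ∃ x ∈ (S : Set M), ∃ y ∈ (S : Set M), z = ⁅x, y⁆},
      ∃ hz : z ∈ commutator M, YM.of hM z hz ∈ P := by
    intro z hz
    unfold Subgroup.normalClosure at hz
    induction hz using Subgroup.closure_induction with
    | mem z hz =>
      rw [Group.mem_conjugatesOfSet_iff] at hz
      obtain ⟨w, ⟨x, hx, y, hy, rfl⟩, hw⟩ := hz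
      rw [isConj_iff] at hw
      obtain ⟨g, rfl⟩ := hw
      have hmem : g * ⁅x, y⁆ * g⁻¹ ∈ commutator M :=
        (inferInstance : (commutator M).Normal).conj_mem _ (hcm (x, y)) g
      refine ⟨hmem, AddSubgroup.subset_closure ⟨YM.c hM g, YM.c_mem hM g,
        YM.of hM ⁅x, y⁆ (hcm (x, y)), ?_, ?_⟩⟩
      · rw [Finset.mem_image]
        exact ⟨(x, y), Finset.mem_product.2 ⟨hx, hy⟩, rfl⟩
      · apply YM.ext
        rfl
    | one => exact ⟨Subgroup.one_mem _, P.zero_mem⟩
    | mul a b _ _ ha hb =>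
      obtain ⟨ha1, ha2⟩ := ha
      obtain ⟨hb1, hb2⟩ := hb
      exact ⟨Subgroup.mul_mem _ ha1 hb1, P.add_mem ha2 hb2⟩
    | inv a _ ha =>
      obtain ⟨ha1, ha2⟩ := ha
      exact ⟨Subgroup.inv_mem _ ha1, P.neg_mem ha2⟩
  obtain ⟨hz, h2⟩ := h1 _ (ym_commutator_le (S : Set M) hS (YM.val_mem hM y))
  exact h2

end Pool.Agent.Helper22.AutMet
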