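import Mathlib
import Pool.Agent.Helper22.AutMet.Base
import Pool.Agent.Helper22.AutMet.Util
import Pool.Agent.Helper22.AutMet.RingC

/-! (N2) elements acting linearly over the ring of a finitely generated unit group. -/

set_option autoImplicit false

namespace Pool.Agent.Helper22.AutMet

lemma n2_fi {A : Type} [AddCommGroup A] (T T' : AddSubgroup A) (hT : T.FiniteIndex) (hle : T' ≤ T)
    {X : Type} (g : A → X) (hfin : (g '' (T : Set A)).Finite)
    (hg : ∀ a ∈ T, ∀ b ∈ T, g a = g b → a - b ∈ T') : T'.FiniteIndex := by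
  have h1 : Finite (T ⧸ T'.addSubgroupOf T) := by
    have : Finite (g '' (T : Set A)) := hfin
    refine Finite.of_injective (fun x : T ⧸ T'.addSubgroupOf T =>
      (⟨g (Quotient.out x : T), ⟨_, (Quotient.out x : T).2, rfl⟩⟩ : (g '' (T : Set A)))) ?_
    intro x y hxy
    have h2 : g (Quotient.out x : T) = g (Quotient.out y : T) := congrArg Subtype.val hxy
    have h3 := hg _ (Quotient.out y : T).2 _ (Quotient.out x : T).2 h2.symm
    rw [← Quotient.out_eq x, ← Quotient.out_eq y]
    apply QuotientAddGroup.eq.mpr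
    rw [AddSubgroup.mem_addSubgroupOf]
    have : ((-(Quotient.out x : T) + (Quotient.out y : T) : T) : A) =
      (Quotient.out y : T) - (Quotient.out x : T) := by
      push_cast; abel
    rw [this]
    exact h3
  constructor
  rw [← AddSubgroup.relIndex_mul_index hle]
  refine mul_ne_zero ?_ hT.index_ne_zero
  exact (AddSubgroup.finiteIndex_of_finite_quotient (H := T'.addSubgroupOf T)).index_ne_zero

section core

variable {A : Type} [AddCommGroup A] [DistribMulAction Q A]

/-- the subgroup of elements congruent to one modulo an ideal -/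
def n2T (h2 : ∀ a : A, a + a = 0) {C : Type} [CommRing C] (u : A → C) (T : AddSubgroup A)
    (hu : ∀ x ∈ T, ∀ y ∈ T, u (x + y) = u x * u y) (hu0 : u 0 = 1) (J : Ideal C) : AddSubgroup A where
  carrier := {a | a ∈ T ∧ u a - 1 ∈ J}
  zero_mem' := ⟨T.zero_mem, by rw [hu0, sub_self]; exact J.zero_mem⟩
  add_mem' := by
    rintro a b ⟨ha, ha'⟩ ⟨hb, hb'⟩
    refine ⟨T.add_mem ha hb, ?_⟩
    rw [hu a ha b hb]
    have : u a * u b - 1 = (u a - 1) * u b + (u b - 1) := by ring
    rw [this]
    exact J.add_mem (J.mul_mem_right _ ha') hb'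
  neg_mem' := by
    rintro a ⟨ha, ha'⟩
    have : -a = a := neg_eq_of_add_eq_zero_left (h2 a)
    rw [this]
    exact ⟨ha, ha'⟩

/-- the induced action on a quotient -/
def n2m {C : Type} [CommRing C] (c : Q →* (C →+* C)) (J : Ideal C) (hJ : ∀ q, J ≤ J.comap (c q)) :
    Q →* AddMonoid.End (C ⧸ J) where
  toFun q := (Ideal.quotientMap J (c q) (hJ q) : C ⧸ J →+* C ⧸ J).toAddMonoidHom
  map_one' := by
    ext x
    obtain ⟨x, rfl⟩ := Ideal.Quotient.mk_surjective x
    show Ideal.quotientMap J (c 1) (hJ 1) (Ideal.Quotient.mk J x) = _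
    rw [Ideal.quotientMap_mk, map_one]
    rfl
  map_mul' q q' := by
    ext x
    obtain ⟨x, rfl⟩ := Ideal.Quotient.mk_surjective x
    show Ideal.quotientMap J (c (q * q')) (hJ _) (Ideal.Quotient.mk J x) =
      Ideal.quotientMap J (c q) (hJ _) (Ideal.quotientMap J (c q') (hJ _) (Ideal.Quotient.mk J x))
    rw [Ideal.quotientMap_mk, Ideal.quotientMap_mk, Ideal.quotientMap_mk, map_mul]
    rfl

theorem n2_core (h2 : ∀ a : A, a + a = 0) (hgood : ∀ n, GoodN A n)
    (R C : Type) [CommRing R] [IsNoetherianRing R] [CommRing C] [Algebra R C] [Module.Finite R C]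
    (V : Subgroup Rˣ) (hV : V.FG) (hKU : KU V = ⊤) (r : Q →* (R →+* R))
    (hr : ∀ q, UStable (r q) V) (c : Q →* (C →+* C))
    (hc : ∀ q a, c q (algebraMap R C a) = algebraMap R C (r q a))
    (T : AddSubgroup A) (hT : T.FiniteIndex) (hTst : ∀ q : Q, ∀ a ∈ T, q • a ∈ T)
    (u : A → C) (hu0 : u 0 = 1) (hu : ∀ x ∈ T, ∀ y ∈ T, u (x + y) = u x * u y)
    (huq : ∀ q : Q, ∀ x ∈ T, u (q • x) = c q (u x)) :
    ∃ T' : AddSubgroup A, T' ≤ T ∧ T'.FiniteIndex ∧ (∀ (q : Q), ∀ a ∈ T', q • a ∈ T') ∧
      ∀ a ∈ T', u a = 1 := by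
  classical
  have hneg : ∀ a : A, -a = a := fun a => neg_eq_of_add_eq_zero_left (h2 a)
  have hsq : ∀ a ∈ T, u a * u a = 1 := by
    intro a ha
    rw [← hu a ha a ha, h2, hu0]
  have hNC : IsNoetherianRing C := by
    have : IsNoetherian R C := isNoetherian_of_isNoetherianRing_of_finite R C
    exact isNoetherian_of_tower R this
  set I : Ideal C := nilradical C with hI
  have hIq : ∀ q, I ≤ I.comap (c q) := by
    intro q x hx
    rw [Ideal.mem_comap]
    rw [hI, mem_nilradical] at hx ⊢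
    exact hx.map (c q)
  have hIjq : ∀ (j : ℕ) (q : Q), I ^ j ≤ (I ^ j).comap (c q) := by
    intro j q
    rw [← Ideal.map_le_iff_le_comap, Ideal.map_pow]
    exact Ideal.pow_right_mono (Ideal.map_le_iff_le_comap.mpr (hIq q)) j
  let TT : ℕ → AddSubgroup A := fun j => n2T h2 u T hu hu0 (I ^ j)
  have hTT : ∀ j a, a ∈ TT j ↔ a ∈ T ∧ u a - 1 ∈ I ^ j := fun j a => Iff.rfl
  have hTTst : ∀ j (q : Q), ∀ a ∈ TT j, q • a ∈ TT j := by
    intro j q a ha
    rw [hTT] at ha ⊢
    refine ⟨hTst q a ha.1, ?_⟩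
    rw [huq q a ha.1]
    have := hIjq j q ha.2
    rwa [Ideal.mem_comap, map_sub, map_one] at this
  have hfi1 : (TT 1).FiniteIndex := by
    have hfin : Finite (minimalPrimes C) := (minimalPrimes.finite_of_isNoetherianRing C).to_subtype
    apply n2_fi T (TT 1) hT (fun a ha => ha.1)
      (fun a => ({p | u a - 1 ∈ p.1} : Set (minimalPrimes C))) (Set.toFinite _)
    intro a ha b hb hab
    have hb' : -b = b := hneg b
    rw [sub_eq_add_neg, hb', hTT]
    refine ⟨T.add_mem ha hb, ?_⟩
    rw [pow_one, hI, nilradical, ← Ideal.sInf_minimalPrimes, Ideal.mem_sInf]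
    intro p hp
    have hpp : p.IsPrime := hp.1.1
    rw [hu a ha b hb]
    have hiff : u a - 1 ∈ p ↔ u b - 1 ∈ p := by
      have := congrArg (fun s : Set (minimalPrimes C) => (⟨p, hp⟩ : minimalPrimes C) ∈ s) hab
      exact iff_of_eq this
    have hpm : ∀ x ∈ T, u x - 1 ∉ p → u x + 1 ∈ p := by
      intro x hx hx'
      have : (u x - 1) * (u x + 1) ∈ p := by
        have e : (u x - 1) * (u x + 1) = u x * u x - 1 := by ring
        rw [e, hsq x hx, sub_self]
        exact p.zero_mem
      exact (hpp.mem_or_mem this).resolve_left hx'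
    by_cases h : u a - 1 ∈ p
    · have e : u a * u b - 1 = (u a - 1) * u b + (u b - 1) := by ring
      rw [e]
      exact p.add_mem (p.mul_mem_right _ h) (hiff.mp h)
    · have h3 := hpm a ha h
      have h4 := hpm b hb (fun h' => h (hiff.mpr h'))
      have e : u a * u b - 1 = (u a + 1) * u b - (u b + 1) := by ring
      rw [e]
      exact p.sub_mem (p.mul_mem_right _ h3) h4
  have hstep : ∀ j, 1 ≤ j → (TT j).FiniteIndex → (TT (j + 1)).FiniteIndex := by
    intro j hj hfi
    let J : Ideal C := I ^ (j + 1)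
    have hJ : ∀ q, J ≤ J.comap (c q) := hIjq (j + 1)
    let S : Sys (⊤ : Subgroup Q) R (C ⧸ J) :=
      { r := r.comp (⊤ : Subgroup Q).subtype
        m := (n2m c J hJ).comp (⊤ : Subgroup Q).subtype
        semi := by
          intro q a n
          obtain ⟨x, rfl⟩ := Ideal.Quotient.mk_surjective n
          show Ideal.quotientMap J (c q) (hJ q) (a • Ideal.Quotient.mk J x) =
            r q a • Ideal.quotientMap J (c q) (hJ q) (Ideal.Quotient.mk J x)
          have e : a • Ideal.Quotient.mk J x = Ideal.Quotient.mk J (algebraMap R C a * x) := by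
            rw [← Algebra.smul_def]; rfl
          rw [e, Ideal.quotientMap_mk, Ideal.quotientMap_mk, map_mul, hc, ← Algebra.smul_def]
          rfl }
    let θ : A → C ⧸ J := fun a => Ideal.Quotient.mk J (u a - 1)
    have hθ : Eqv (⊤ : Subgroup Q) S.m (TT j) θ :=
      { add := by
          intro x hx y hy
          rw [hTT] at hx hy
          show Ideal.Quotient.mk J _ = Ideal.Quotient.mk J _ + Ideal.Quotient.mk J _
          rw [hu x hx.1 y hy.1, ← map_add, Ideal.Quotient.eq]
          have e : u x * u y - 1 - (u x - 1 + (u y - 1)) = (u x - 1) * (u y - 1) := by ring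
          rw [e]
          have h3 : (u x - 1) * (u y - 1) ∈ I ^ (j + j) := by
            rw [pow_add]
            exact Ideal.mul_mem_mul hx.2 hy.2
          exact Ideal.pow_le_pow_right (by omega) h3
        stab := fun q x hx => hTTst j q x hx
        eqv := by
          intro q x hx
          rw [hTT] at hx
          show Ideal.Quotient.mk J (u ((q : Q) • x) - 1) =
            Ideal.quotientMap J (c q) (hJ q) (Ideal.Quotient.mk J (u x - 1))
          rw [Ideal.quotientMap_mk, huq q x hx.1, map_sub (c q), map_one (c q)] }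
    have hfin := hgood (Module.finrank ℤ (Additive V)) R (C ⧸ J) _ _ _ inferInstance V hV hKU le_rfl
      ⊤ inferInstance S (fun q => hr q) (TT j) hfi θ hθ
    apply n2_fi (TT j) (TT (j + 1)) hfi ?_ θ hfin
    · intro a ha b hb hab
      rw [hTT] at ha hb
      have hb' : -b = b := hneg b
      rw [sub_eq_add_neg, hb', hTT]
      refine ⟨T.add_mem ha.1 hb.1, ?_⟩
      have h3 : (u a - 1) - (u b - 1) ∈ J := Ideal.Quotient.eq.mp hab
      have h4 : (u a - 1) * (u b - 1) ∈ J := by
        have h3 : (u a - 1) * (u b - 1) ∈ I ^ (j + j) := by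
          rw [pow_add]
          exact Ideal.mul_mem_mul ha.2 hb.2
        exact Ideal.pow_le_pow_right (by omega) h3
      rw [hu a ha.1 b hb.1]
      have h5 : u b * u b = 1 := hsq b hb.1
      have e : u a * u b - 1 = ((u a - 1) - (u b - 1)) * u b := by
        linear_combination h5
      rw [e]
      exact J.mul_mem_right _ h3
    · intro a ha
      rw [hTT] at ha ⊢
      exact ⟨ha.1, Ideal.pow_le_pow_right (by omega) ha.2⟩
  have hall : ∀ j, (TT (j + 1)).FiniteIndex := by
    intro j
    induction j with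
    | zero => exact hfi1
    | succ j ih => exact hstep (j + 1) (by omega) ih
  obtain ⟨n, hn⟩ := IsNoetherianRing.isNilpotent_nilradical C
  refine ⟨TT (n + 1), fun a ha => ha.1, hall n, hTTst _, ?_⟩
  intro a ha
  rw [hTT] at ha
  have h3 : u a - 1 ∈ I ^ n := Ideal.pow_le_pow_right (by omega) ha.2
  rw [hI, hn] at h3
  have h4 : u a - 1 = 0 := h3
  exact sub_eq_zero.mp h4

/-- conjugation by the image of an element of `Q` -/
def n2conj {Y : Type} [AddCommGroup Y] (F : GA A →* AddMonoid.End Y) (q : Q) :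
    AddMonoid.End Y →+* AddMonoid.End Y where
  toFun φ := F (GA.inQ q) * φ * F (GA.inQ q⁻¹)
  map_one' := by rw [mul_one, ← map_mul, ← map_mul, mul_inv_cancel, map_one, map_one]
  map_mul' φ ψ := by
    have h : F (GA.inQ q⁻¹) * F (GA.inQ q) = 1 := by
      rw [← map_mul, ← map_mul, inv_mul_cancel, map_one, map_one]
    calc F (GA.inQ q) * (φ * ψ) * F (GA.inQ q⁻¹)
        = F (GA.inQ q) * φ * 1 * ψ * F (GA.inQ q⁻¹) := by simp only [mul_assoc, one_mul]
      _ = F (GA.inQ q) * φ * F (GA.inQ q⁻¹) * (F (GA.inQ q) * ψ * F (GA.inQ q⁻¹)) := by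
          rw [← h]; simp only [mul_assoc]
  map_zero' := by rw [mul_zero, zero_mul]
  map_add' φ ψ := by rw [mul_add, add_mul]

lemma n2_inQ_inA (q : Q) (a : A) :
    GA.inQ q * GA.inA (Multiplicative.ofAdd a) * GA.inQ q⁻¹ =
      GA.inA (Multiplicative.ofAdd (q • a)) := by
  ext1
  · show (0 + q • a) + (q * 1) • (0 : A) = q • a
    rw [zero_add, smul_zero, add_zero]
  · show q * 1 * q⁻¹ = 1
    rw [mul_one, mul_inv_cancel]

theorem n2_mod (h2 : ∀ a : A, a + a = 0) (hgood : ∀ n, GoodN A n)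
    (R Y : Type) [CommRing R] [IsNoetherianRing R] [AddCommGroup Y] [Module R Y] [Module.Finite R Y]
    (V : Subgroup Rˣ) (hV : V.FG) (hKU : KU V = ⊤) (r : Q →* (R →+* R))
    (hr : ∀ q, UStable (r q) V) (F : GA A →* AddMonoid.End Y)
    (hF : ∀ (q : Q) (x : R) (y : Y), F (GA.inQ q) (x • y) = r q x • F (GA.inQ q) y)
    (T : AddSubgroup A) (hT : T.FiniteIndex) (hTst : ∀ q : Q, ∀ a ∈ T, q • a ∈ T)
    (hTR : ∀ a ∈ T, ∀ (x : R) (y : Y), F (GA.inA (Multiplicative.ofAdd a)) (x • y) =
      x • F (GA.inA (Multiplicative.ofAdd a)) y) :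
    ∃ T' : AddSubgroup A, T' ≤ T ∧ T'.FiniteIndex ∧ (∀ (q : Q), ∀ a ∈ T', q • a ∈ T') ∧
      ∀ a ∈ T', F (GA.inA (Multiplicative.ofAdd a)) = 1 := by
  classical
  let ι : R →+* AddMonoid.End Y := Module.toAddMonoidEnd R Y
  have hι : ∀ x y, ι x y = x • y := fun _ _ => rfl
  let FA : A → AddMonoid.End Y := fun a => F (GA.inA (Multiplicative.ofAdd a))
  have hFA : ∀ a b, FA (a + b) = FA a * FA b := by
    intro a b
    show F (GA.inA (Multiplicative.ofAdd (a + b))) = _
    rw [ofAdd_add, map_mul, map_mul]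
  have hFA0 : FA 0 = 1 := by
    show F (GA.inA (Multiplicative.ofAdd 0)) = _
    rw [ofAdd_zero, map_one, map_one]
  let s : Set (AddMonoid.End Y) := Set.range ι ∪ FA '' (T : Set A)
  let E : Subring (AddMonoid.End Y) := Subring.closure s
  have hιFA : ∀ x, ∀ a ∈ T, ι x * FA a = FA a * ι x := by
    intro x a ha
    ext y
    exact (hTR a ha x y).symm
  have hcomm : ∀ x ∈ s, ∀ y ∈ s, x * y = y * x := by
    rintro _ (⟨x, rfl⟩ | ⟨a, ha, rfl⟩) _ (⟨y, rfl⟩ | ⟨b, hb, rfl⟩)
    · rw [← map_mul, mul_comm, map_mul]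
    · exact hιFA x b hb
    · exact (hιFA y a ha).symm
    · rw [← hFA, add_comm, hFA]
  let _ : CommRing E := Subring.closureCommRingOfComm hcomm
  let j : R →+* E := ι.codRestrict E (fun x => Subring.subset_closure (Or.inl ⟨x, rfl⟩))
  let _ : Algebra R E := j.toAlgebra
  have hj : ∀ x, ((algebraMap R E x : E) : AddMonoid.End Y) = ι x := fun x => rfl
  have hElin : ∀ φ ∈ E, ∀ (x : R), ι x * φ = φ * ι x := by
    intro φ hφ x
    have : E ≤ Subring.centralizer (Set.range ι) := by
      apply Subring.closure_le.mpr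
      rintro _ (⟨y, rfl⟩ | ⟨b, hb, rfl⟩)
      · rw [SetLike.mem_coe, Subring.mem_centralizer_iff]
        rintro _ ⟨z, rfl⟩
        rw [← map_mul, mul_comm, map_mul]
      · rw [SetLike.mem_coe, Subring.mem_centralizer_iff]
        rintro _ ⟨z, rfl⟩
        exact hιFA z b hb
    have h3 := this hφ
    rw [Subring.mem_centralizer_iff] at h3
    exact h3 _ ⟨x, rfl⟩
  have hfin : Module.Finite R E := by
    obtain ⟨t, ht⟩ := (inferInstance : Module.Finite R Y).fg_top
    have hNY : IsNoetherian R (t → Y) := inferInstance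
    let e : E →ₗ[R] (t → Y) :=
      { toFun := fun φ w => (φ : AddMonoid.End Y) w
        map_add' := by intro φ ψ; rfl
        map_smul' := by
          intro x φ
          funext w
          show ((x • φ : E) : AddMonoid.End Y) (w : Y) = x • ((φ : AddMonoid.End Y) (w : Y))
          rw [Algebra.smul_def]
          rfl }
    have he : Function.Injective e := by
      intro φ ψ h
      apply Subtype.ext
      ext y
      have hy : y ∈ Submodule.span R (t : Set Y) := by rw [ht]; trivial
      induction hy using Submodule.span_induction with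
      | mem w hw => exact congrFun h ⟨w, hw⟩
      | zero => rw [map_zero, map_zero]
      | add y z _ _ hy hz => rw [map_add, map_add, hy, hz]
      | smul x y _ hy =>
        have h3 := DFunLike.congr_fun (hElin φ φ.2 x) y
        have h4 := DFunLike.congr_fun (hElin ψ ψ.2 x) y
        have h5 : (φ : AddMonoid.End Y) (x • y) = x • (φ : AddMonoid.End Y) y := h3.symm
        have h6 : (ψ : AddMonoid.End Y) (x • y) = x • (ψ : AddMonoid.End Y) y := h4.symm
        rw [h5, h6, hy]
    exact Module.Finite.of_injective e he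
  -- conjugation
  have hconjι : ∀ (q : Q) (x : R), n2conj F q (ι x) = ι (r q x) := by
    intro q x
    ext y
    show F (GA.inQ q) (x • F (GA.inQ q⁻¹) y) = r q x • y
    rw [hF]
    have : F (GA.inQ q) (F (GA.inQ q⁻¹) y) = (F (GA.inQ q) * F (GA.inQ q⁻¹)) y := rfl
    rw [this, ← map_mul, ← map_mul, mul_inv_cancel, map_one, map_one]
    rfl
  have hconjFA : ∀ (q : Q) (a : A), n2conj F q (FA a) = FA (q • a) := by
    intro q a
    show F (GA.inQ q) * F (GA.inA (Multiplicative.ofAdd a)) * F (GA.inQ q⁻¹) = F _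
    rw [← map_mul, ← map_mul, n2_inQ_inA]
  have hconjE : ∀ (q : Q), ∀ φ ∈ E, n2conj F q φ ∈ E := by
    intro q φ hφ
    have : E ≤ E.comap (n2conj F q) := by
      apply Subring.closure_le.mpr
      rintro _ (⟨y, rfl⟩ | ⟨b, hb, rfl⟩)
      · rw [SetLike.mem_coe, Subring.mem_comap, hconjι]
        exact Subring.subset_closure (Or.inl ⟨_, rfl⟩)
      · rw [SetLike.mem_coe, Subring.mem_comap, hconjFA]
        exact Subring.subset_closure (Or.inr ⟨_, hTst q b hb, rfl⟩)
    exact this hφ
  let c : Q →* (E →+* E) :=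
    { toFun := fun q => (n2conj F q).restrict E E (hconjE q)
      map_one' := by
        ext1 φ
        apply Subtype.ext
        show F (GA.inQ 1) * (φ : AddMonoid.End Y) * F (GA.inQ 1⁻¹) = φ
        rw [inv_one, map_one, map_one, one_mul, mul_one]
      map_mul' := by
        intro q q'
        ext1 φ
        apply Subtype.ext
        show F (GA.inQ (q * q')) * (φ : AddMonoid.End Y) * F (GA.inQ (q * q')⁻¹) =
          F (GA.inQ q) * (F (GA.inQ q') * (φ : AddMonoid.End Y) * F (GA.inQ q'⁻¹)) * F (GA.inQ q⁻¹)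
        rw [mul_inv_rev, map_mul, map_mul, map_mul, map_mul]
        simp only [mul_assoc] }
  let u : A → E := fun a => if h : a ∈ T then ⟨FA a, Subring.subset_closure (Or.inr ⟨a, h, rfl⟩)⟩ else 1
  have hu : ∀ a ∈ T, ((u a : E) : AddMonoid.End Y) = FA a := by
    intro a ha
    simp only [u, dif_pos ha]
  obtain ⟨T', h3, h4, h5, h6⟩ := n2_core h2 hgood R E V hV hKU r hr c
    (by
      intro q a
      apply Subtype.ext
      exact hconjι q a)
    T hT hTst u
    (by
      apply Subtype.ext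
      rw [hu 0 T.zero_mem, hFA0]
      rfl)
    (by
      intro x hx y hy
      apply Subtype.ext
      rw [hu _ (T.add_mem hx hy), hFA]
      show _ = ((u x : E) : AddMonoid.End Y) * ((u y : E) : AddMonoid.End Y)
      rw [hu x hx, hu y hy])
    (by
      intro q x hx
      apply Subtype.ext
      rw [hu _ (hTst q x hx), ← hconjFA]
      show _ = n2conj F q ((u x : E) : AddMonoid.End Y)
      rw [hu x hx])
  refine ⟨T', h3, h4, h5, ?_⟩
  intro a ha
  have h7 := h6 a ha
  have h8 := hu a (h3 ha)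
  rw [h7] at h8
  exact h8.symm

end core

theorem noEmb_N2 {A : Type} [AddCommGroup A] [DistribMulAction Q A] (h2 : ∀ a : A, a + a = 0)
    (hgood : ∀ n, GoodN A n) (Y : Type) [AddCommGroup Y] (F : GA A →* AddMonoid.End Y)
    (C : Subgroup (AddMonoid.End Y)ˣ) (hCfg : C.FG) (hCcomm : ∀ x ∈ C, ∀ y ∈ C, x * y = y * x)
    (hCnorm : ∀ g : GA A, ∀ x ∈ C, ∃ y ∈ C, F g * x = y * F g)
    (hYfg : ∃ s : Finset Y, ∀ y, y ∈ AddSubgroup.closure
      {z | ∃ x ∈ C, ∃ w ∈ s, z = (x : AddMonoid.End Y) w})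
    (T : AddSubgroup A) (hT : T.FiniteIndex) (hTst : ∀ (q : Q), ∀ a ∈ T, q • a ∈ T)
    (hTc : ∀ a ∈ T, ∀ x ∈ C, F (GA.inA (Multiplicative.ofAdd a)) * x =
      x * F (GA.inA (Multiplicative.ofAdd a))) :
    ∃ T' : AddSubgroup A, T' ≤ T ∧ T'.FiniteIndex ∧ (∀ (q : Q), ∀ a ∈ T', q • a ∈ T') ∧
      ∀ a ∈ T', F (GA.inA (Multiplicative.ofAdd a)) = 1 := by
  have hN : IsNoetherianRing (RC C hCcomm) := RC_noeth hCcomm hCfg
  have hfin : Module.Finite (RC C hCcomm) Y := RC_finite hCcomm hYfg
  apply n2_mod h2 hgood (RC C hCcomm) Y (VC hCcomm) (VC_FG hCcomm hCfg) (KU_VC hCcomm)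
    ((RC.conj hCcomm F hCnorm).comp GA.inQ) (fun q => RC.conj_stable hCcomm F hCnorm (GA.inQ q)) F
    (fun q x y => RC.conj_smul hCcomm F hCnorm (GA.inQ q) x y) T hT hTst
  intro a ha x
  have key : F (GA.inA (Multiplicative.ofAdd a)) * RC.incl hCcomm x =
      RC.incl hCcomm x * F (GA.inA (Multiplicative.ofAdd a)) := by
    induction x using RC_ind hCcomm with
    | h0 => rw [map_zero, mul_zero, zero_mul]
    | h1 => rw [map_one, mul_one, one_mul]
    | hadd x y hx hy => rw [map_add, mul_add, add_mul, hx, hy]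
    | hneg x hx => rw [map_neg, mul_neg, neg_mul, hx]
    | hmul x y hx hy => rw [map_mul, ← mul_assoc, hx, mul_assoc, hy, ← mul_assoc]
    | hu x => exact hTc a ha x x.2
  intro y
  exact DFunLike.congr_fun key y

end Pool.Agent.Helper22.AutMet
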