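import Mathlib
import Pool.Agent.Helper22.AutMet.Base
import Pool.Agent.Helper22.AutMet.Util
import Pool.Agent.Helper22.AutMet.RingC
import Pool.Agent.Helper22.AutMet.MetM
import Pool.Agent.Helper22.AutMet.E2

/-! (N3) derivations. -/

set_option autoImplicit false

namespace Pool.Agent.Helper22.AutMet

variable {M : Type} [Group M] (hM : derivedSeries M 2 = ⊥)

/-- the ring generated by the conjugation action of `M` on the derived subgroup -/
abbrev RM : Type := RC (YM.C hM) (YM.C_comm hM)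

/-- the element of `RM` given by an element of `M` -/
def YM.u (m : M) : RM hM :=
  ((RC.unit (YM.C_comm hM) ⟨YM.c hM m, YM.c_mem hM m⟩ : (RM hM)ˣ) : RM hM)

lemma YM.val_u (m : M) (y : YM M hM) :
    YM.val hM (YM.u hM m • y) = m * YM.val hM y * m⁻¹ := rfl

lemma YM.u_inv (m : M) (y : YM M hM) : YM.u hM m⁻¹ • (YM.u hM m • y) = y := by
  apply YM.ext
  rw [YM.val_u, YM.val_u]
  group

lemma YM.aut_u (φ : MulAut M) (m : M) (y : YM M hM) :
    YM.aut hM φ (YM.u hM m • y) = YM.u hM (φ m) • YM.aut hM φ y := by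
  apply YM.ext
  show φ (m * YM.val hM y * m⁻¹) = φ m * φ (YM.val hM y) * (φ m)⁻¹
  rw [map_mul, map_mul, map_inv]

/-- the module of derivations -/
def Der : Submodule (RM hM) (M → YM M hM) where
  carrier := {δ | ∀ m m', δ (m * m') = δ m + YM.u hM m • δ m'}
  add_mem' := by
    intro a b ha hb m m'
    show a (m * m') + b (m * m') = (a m + b m) + YM.u hM m • (a m' + b m')
    rw [ha, hb, smul_add]
    abel
  zero_mem' := by
    intro m m'
    show (0 : YM M hM) = 0 + YM.u hM m • 0
    rw [smul_zero, add_zero]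
  smul_mem' := by
    intro r a ha m m'
    show r • a (m * m') = r • a m + YM.u hM m • (r • a m')
    rw [ha, smul_add, smul_comm]

lemma Der_one (δ : Der hM) : (δ : M → YM M hM) 1 = 0 := by
  have h1 := δ.2 1 1
  have h2 : YM.u hM 1 • (δ : M → YM M hM) 1 = (δ : M → YM M hM) 1 := by
    apply YM.ext
    rw [YM.val_u]
    simp
  rw [mul_one, h2] at h1
  simpa using h1

lemma Der_finite [Group.FG M] : Module.Finite (RM hM) (Der hM) := by
  have h1 : IsNoetherianRing (RM hM) := RC_noeth (YM.C_comm hM) (YM.C_fg hM)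
  have h2 : Module.Finite (RM hM) (YM M hM) := RC_finite (YM.C_comm hM) (YM.fg hM)
  obtain ⟨S, hS⟩ := (Group.FG.out : (⊤ : Subgroup M).FG)
  have h3 : Module.Finite (RM hM) (S → YM M hM) := inferInstance
  set ev : Der hM →ₗ[RM hM] (S → YM M hM) :=
    LinearMap.pi fun s => (LinearMap.proj (s : M)).comp (Der hM).subtype with hev
  apply Module.Finite.of_injective ev
  rw [injective_iff_map_eq_zero]
  intro δ hδ
  apply Subtype.ext
  funext m
  have hm : m ∈ Subgroup.closure (S : Set M) := by rw [hS]; trivial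
  show (δ : M → YM M hM) m = 0
  induction hm using Subgroup.closure_induction with
  | mem x hx => exact congrFun hδ ⟨x, hx⟩
  | one => exact Der_one hM δ
  | mul a b _ _ ha hb => rw [δ.2, ha, hb, smul_zero, add_zero]
  | inv a _ ha =>
    have h4 := δ.2 a a⁻¹
    rw [mul_inv_cancel, Der_one, ha, zero_add] at h4
    rw [← YM.u_inv hM a ((δ : M → YM M hM) a⁻¹), ← h4, smul_zero]

/-- the automorphism group acts on derivations -/
def Der.act : MulAut M →* AddMonoid.End (Der hM) where
  toFun φ :=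
    { toFun := fun δ => ⟨fun m => YM.aut hM φ ((δ : M → YM M hM) (φ⁻¹ m)), by
        intro m m'
        show YM.aut hM φ ((δ : M → YM M hM) (φ⁻¹ (m * m'))) =
          YM.aut hM φ ((δ : M → YM M hM) (φ⁻¹ m)) +
            YM.u hM m • YM.aut hM φ ((δ : M → YM M hM) (φ⁻¹ m'))
        rw [map_mul, δ.2, map_add, YM.aut_u, MulAut.apply_inv_self]⟩
      map_zero' := by
        apply Subtype.ext
        funext m
        exact map_zero (YM.aut hM φ)
      map_add' := by
        intro a b
        apply Subtype.ext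
        funext m
        exact map_add (YM.aut hM φ) _ _ }
  map_one' := by
    refine AddMonoidHom.ext fun δ => Subtype.ext ?_
    funext m
    show YM.aut hM 1 ((δ : M → YM M hM) ((1 : MulAut M)⁻¹ m)) = (δ : M → YM M hM) m
    rw [inv_one, map_one]; rfl
  map_mul' := by
    intro φ ψ
    refine AddMonoidHom.ext fun δ => Subtype.ext ?_
    funext m
    show YM.aut hM (φ * ψ) ((δ : M → YM M hM) ((φ * ψ)⁻¹ m)) =
      YM.aut hM φ (YM.aut hM ψ ((δ : M → YM M hM) (ψ⁻¹ (φ⁻¹ m))))
    rw [mul_inv_rev, map_mul]; rfl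

lemma Der.act_apply (φ : MulAut M) (δ : Der hM) (m : M) :
    ((Der.act hM φ δ : Der hM) : M → YM M hM) m = YM.aut hM φ ((δ : M → YM M hM) (φ⁻¹ m)) := rfl

/-- the semilinear system on derivations -/
def Der.sys {G : Type} [Group G] (f : G →* MulAut M) : Sys G (RM hM) (Der hM) where
  r := RC.conj (YM.C_comm hM) ((YM.aut hM).comp f) (YM.norm hM f)
  m := (Der.act hM).comp f
  semi := by
    intro q a δ
    apply Subtype.ext
    funext m
    exact RC.conj_smul (YM.C_comm hM) ((YM.aut hM).comp f) (YM.norm hM f) q a _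

lemma n3_fi {A X : Type} [AddCommGroup A] (T T' : AddSubgroup A) (hT : T.FiniteIndex)
    (g : A → X) (hfin : (g '' (T : Set A)).Finite)
    (hg : ∀ a ∈ T, ∀ b ∈ T, g a = g b → a - b ∈ T') : T'.FiniteIndex := by
  have h1 : Finite (A ⧸ T) := AddSubgroup.finite_quotient_of_finiteIndex
  have h2 : Finite (g '' (T : Set A)) := hfin
  have hmem : ∀ a : A, a - (QuotientAddGroup.mk (s := T) a : A ⧸ T).out ∈ T := by
    intro a
    have h3 : (QuotientAddGroup.mk (s := T) (QuotientAddGroup.mk (s := T) a : A ⧸ T).out : A ⧸ T) =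
        QuotientAddGroup.mk (s := T) a := QuotientAddGroup.out_eq' _
    rw [QuotientAddGroup.eq] at h3
    have h4 : -(QuotientAddGroup.mk (s := T) a : A ⧸ T).out + a =
      a - (QuotientAddGroup.mk (s := T) a : A ⧸ T).out := by abel
    rwa [h4] at h3
  refine e2_fi (X := (A ⧸ T) × (g '' (T : Set A))) T'
    (fun a => (QuotientAddGroup.mk (s := T) a,
      ⟨g (a - (QuotientAddGroup.mk (s := T) a : A ⧸ T).out), _, hmem a, rfl⟩)) ?_
  intro a b hab
  rw [Prod.mk.injEq] at hab
  obtain ⟨h3, h4⟩ := hab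
  have h5 := congrArg Subtype.val h4
  have h6 := hg _ (hmem a) _ (hmem b) h5
  rw [h3, sub_sub_sub_cancel_right] at h6
  exact h6

section N3

variable {A : Type} [AddCommGroup A] [DistribMulAction Q A]

lemma ga_conj (q : Q) (a : A) : GA.inA (Multiplicative.ofAdd (q • a)) =
    GA.inQ q * GA.inA (Multiplicative.ofAdd a) * (GA.inQ q)⁻¹ := by
  ext1
  · simp [GA.inA, GA.inQ]
  · simp [GA.inA, GA.inQ]

/-- the derivation attached to `a` -/
def n3_der (f : GA A →* MulAut M) (T : AddSubgroup A)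
    (h1 : ∀ a ∈ T, ∀ m : M, f (GA.inA (Multiplicative.ofAdd a)) m * m⁻¹ ∈ commutator M)
    (a : A) (ha : a ∈ T) : Der hM :=
  ⟨fun m => YM.of hM (f (GA.inA (Multiplicative.ofAdd a)) m * m⁻¹) (h1 a ha m), by
    intro m m'
    apply YM.ext
    show f (GA.inA (Multiplicative.ofAdd a)) (m * m') * (m * m')⁻¹ =
      (f (GA.inA (Multiplicative.ofAdd a)) m * m⁻¹) *
        (m * (f (GA.inA (Multiplicative.ofAdd a)) m' * m'⁻¹) * m⁻¹)
    rw [map_mul]
    group⟩

lemma n3_val (f : GA A →* MulAut M) (T : AddSubgroup A)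
    (h1 : ∀ a ∈ T, ∀ m : M, f (GA.inA (Multiplicative.ofAdd a)) m * m⁻¹ ∈ commutator M)
    (a : A) (ha : a ∈ T) (m : M) :
    YM.val hM ((n3_der hM f T h1 a ha : M → YM M hM) m) =
      f (GA.inA (Multiplicative.ofAdd a)) m * m⁻¹ := rfl

theorem noEmb_N3 (hgood : ∀ n, GoodN A n) (M : Type) [Group M] [Group.FG M]
    (hM : derivedSeries M 2 = ⊥) (f : GA A →* MulAut M)
    (T : AddSubgroup A) (hT : T.FiniteIndex) (hTst : ∀ (q : Q), ∀ a ∈ T, q • a ∈ T)
    (h1 : ∀ a ∈ T, ∀ m : M, f (GA.inA (Multiplicative.ofAdd a)) m * m⁻¹ ∈ commutator M)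
    (h2 : ∀ a ∈ T, ∀ m ∈ commutator M, f (GA.inA (Multiplicative.ofAdd a)) m = m) :
    ∃ T' : AddSubgroup A, T'.FiniteIndex ∧
      ∀ a ∈ T', f (GA.inA (Multiplicative.ofAdd a)) = 1 := by
  classical
  have hfin := Der_finite hM
  set fQ : (⊤ : Subgroup Q) →* MulAut M := f.comp (GA.inQ.comp (Subgroup.subtype ⊤)) with hfQ
  set θ : A → Der hM := fun a => if ha : a ∈ T then n3_der hM f T h1 a ha else 0 with hθ
  have hθT : ∀ a (ha : a ∈ T), θ a = n3_der hM f T h1 a ha := fun a ha => dif_pos ha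
  have hE : Eqv (⊤ : Subgroup Q) (Der.sys hM fQ).m T θ := by
    refine ⟨?_, ?_, ?_⟩
    · intro x hx y hy
      rw [hθT x hx, hθT y hy, hθT _ (T.add_mem hx hy)]
      apply Subtype.ext
      funext m
      apply YM.ext
      show f (GA.inA (Multiplicative.ofAdd (x + y))) m * m⁻¹ =
        (f (GA.inA (Multiplicative.ofAdd x)) m * m⁻¹) *
          (f (GA.inA (Multiplicative.ofAdd y)) m * m⁻¹)
      have e1 : f (GA.inA (Multiplicative.ofAdd (x + y))) m =
          f (GA.inA (Multiplicative.ofAdd x)) (f (GA.inA (Multiplicative.ofAdd y)) m) := by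
        rw [ofAdd_add, map_mul, map_mul]; rfl
      have e2 : f (GA.inA (Multiplicative.ofAdd y)) m =
          (f (GA.inA (Multiplicative.ofAdd y)) m * m⁻¹) * m := by group
      rw [e1]
      conv_lhs => rw [e2]
      rw [map_mul, h2 x hx _ (h1 y hy m)]
      have e3 := ym_comm hM _ _ (h1 x hx m) (h1 y hy m)
      rw [e3]
      group
    · intro q x hx
      exact hTst q x hx
    · intro q x hx
      rw [hθT x hx, hθT _ (hTst q x hx)]
      apply Subtype.ext
      funext m
      apply YM.ext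
      show f (GA.inA (Multiplicative.ofAdd ((q : Q) • x))) m * m⁻¹ =
        fQ q (f (GA.inA (Multiplicative.ofAdd x)) ((fQ q)⁻¹ m) * ((fQ q)⁻¹ m)⁻¹)
      rw [ga_conj, map_mul, map_mul, map_inv, map_mul, map_inv, MulAut.apply_inv_self]
      rfl
  have hres := hgood (Module.finrank ℤ (Additive (VC (YM.C_comm hM)))) (RM hM) (Der hM)
    inferInstance inferInstance inferInstance hfin (VC (YM.C_comm hM))
    (VC_FG (YM.C_comm hM) (YM.C_fg hM)) (KU_VC (YM.C_comm hM)) le_rfl ⊤ inferInstance
    (Der.sys hM fQ) (fun q => RC.conj_stable (YM.C_comm hM) _ (YM.norm hM fQ) q) T hT θ hE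
  set T' : AddSubgroup A :=
    { carrier := {a | f (GA.inA (Multiplicative.ofAdd a)) = 1}
      add_mem' := by
        intro a b ha hb
        show f (GA.inA (Multiplicative.ofAdd (a + b))) = 1
        rw [ofAdd_add, map_mul, map_mul, ha, hb, mul_one]
      zero_mem' := by
        show f (GA.inA (Multiplicative.ofAdd 0)) = 1
        rw [ofAdd_zero, map_one, map_one]
      neg_mem' := by
        intro a ha
        show f (GA.inA (Multiplicative.ofAdd (-a))) = 1
        have h3 : f (GA.inA (Multiplicative.ofAdd a)) = 1 := ha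
        rw [ofAdd_neg, map_inv, map_inv, h3, inv_one] } with hT'
  refine ⟨T', n3_fi T T' hT θ hres ?_, fun a ha => ha⟩
  intro a ha b hb hab
  rw [hθT a ha, hθT b hb] at hab
  have h3 : f (GA.inA (Multiplicative.ofAdd a)) = f (GA.inA (Multiplicative.ofAdd b)) := by
    ext m
    have h4 := congrArg (fun δ : Der hM => YM.val hM ((δ : M → YM M hM) m)) hab
    have h5 : f (GA.inA (Multiplicative.ofAdd a)) m * m⁻¹ =
      f (GA.inA (Multiplicative.ofAdd b)) m * m⁻¹ := h4
    exact mul_right_cancel h5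
  show f (GA.inA (Multiplicative.ofAdd (a - b))) = 1
  rw [ofAdd_sub, map_div, map_div, h3, div_self']

end N3

end Pool.Agent.Helper22.AutMet
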