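import Mathlib
import Pool.Agent.Helper22.AutMet.Base
import Pool.Agent.Helper22.AutMet.Util
import Pool.Agent.Helper22.AutMet.RingC
import Pool.Agent.Helper22.AutMet.MetM
import Pool.Agent.Helper22.AutMet.E2
import Pool.Agent.Helper22.AutMet.N2
import Pool.Agent.Helper22.AutMet.N3

/-! (I1) no embedding into the automorphism group of a finitely generated metabelian group. -/

set_option autoImplicit false

namespace Pool.Agent.Helper22.AutMet

/-- automorphisms act on the abelianization -/
def autAb (M : Type) [Group M] : MulAut M →* AddMonoid.End (Additive (Abelianization M)) where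
  toFun φ := MonoidHom.toAdditive (Abelianization.map φ.toMonoidHom)
  map_one' := by
    refine AddMonoidHom.ext fun x => ?_
    obtain ⟨m, rfl⟩ := QuotientGroup.mk_surjective (Additive.toMul x)
    rfl
  map_mul' := by
    intro φ ψ
    refine AddMonoidHom.ext fun x => ?_
    obtain ⟨m, rfl⟩ := QuotientGroup.mk_surjective (Additive.toMul x)
    rfl

lemma autAb_mk {M : Type} [Group M] (φ : MulAut M) (m : M) :
    autAb M φ (Additive.ofMul (Abelianization.of m)) = Additive.ofMul (Abelianization.of (φ m)) := rfl

lemma ab_eq_iff {M : Type} [Group M] (x y : M) :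
    (Abelianization.of x : Abelianization M) = Abelianization.of y ↔ x * y⁻¹ ∈ commutator M := by
  have h1 : (Abelianization.of x : Abelianization M) = Abelianization.of y ↔
      (Abelianization.of (x * y⁻¹) : Abelianization M) = 1 := by
    rw [map_mul, map_inv, mul_inv_eq_one]
  rw [h1]
  have h2 := Abelianization.ker_of M
  rw [← h2, MonoidHom.mem_ker]

theorem noEmbedding {A : Type} [AddCommGroup A] [DistribMulAction Q A] (h2 : ∀ a : A, a + a = 0)
    (hinf : Infinite A) (hgood : ∀ n, GoodN A n)
    (M : Type) [Group M] [Group.FG M] (hM : derivedSeries M 2 = ⊥)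
    (f : GA A →* MulAut M) (hf : Function.Injective f) : False := by
  classical
  -- the abelianization is finitely generated
  have hfg : Module.Finite ℤ (Additive (Abelianization M)) := by
    have h3 : Group.FG (Abelianization M) := Group.fg_of_surjective (f := Abelianization.of)
      (QuotientGroup.mk_surjective)
    have h4 : AddGroup.FG (Additive (Abelianization M)) := inferInstance
    exact Module.Finite.iff_addGroup_fg.2 h4
  set α : Multiplicative A →* AddMonoid.End (Additive (Abelianization M)) :=
    (autAb M).comp (f.comp GA.inA) with hα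
  obtain ⟨T0, hT0, hT0m⟩ := noEmb_E2 (Additive (Abelianization M)) h2 α
  have hab : ∀ a, a ∈ T0 ↔ ∀ m : M, f (GA.inA (Multiplicative.ofAdd a)) m * m⁻¹ ∈ commutator M := by
    intro a
    rw [hT0m]
    constructor
    · intro h3 m
      rw [← ab_eq_iff]
      have h4 := congrArg (fun g : AddMonoid.End (Additive (Abelianization M)) =>
        g (Additive.ofMul (Abelianization.of m))) h3
      exact h4
    · intro h3
      refine AddMonoidHom.ext fun x => ?_
      obtain ⟨m, hm⟩ := QuotientGroup.mk_surjective (Additive.toMul x)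
      have h4 := (ab_eq_iff _ _).2 (h3 m)
      have h5 : x = Additive.ofMul (Abelianization.of m) := by
        rw [← ofMul_toMul x]
        exact congrArg Additive.ofMul hm.symm
      rw [h5]
      exact h4
  have hT0st : ∀ (q : Q), ∀ a ∈ T0, q • a ∈ T0 := by
    intro q a ha
    rw [hab] at ha ⊢
    intro m
    rw [ga_conj, map_mul, map_mul, map_inv]
    show f (GA.inQ q) (f (GA.inA (Multiplicative.ofAdd a)) ((f (GA.inQ q))⁻¹ m)) * m⁻¹ ∈ _
    have h3 := ym_aut_mem (f (GA.inQ q)) _ (ha ((f (GA.inQ q))⁻¹ m))
    rw [map_mul, map_inv, MulAut.apply_inv_self] at h3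
    exact h3
  set F : GA A →* AddMonoid.End (YM M hM) := (YM.aut hM).comp f with hF
  obtain ⟨T1, hT1le, hT1, hT1st, hT1F⟩ := noEmb_N2 h2 hgood (YM M hM) F (YM.C hM)
    (YM.C_fg hM) (YM.C_comm hM) (YM.norm hM f) (YM.fg hM) T0 hT0 hT0st (by
      rintro a ha _ ⟨m, rfl⟩
      have h3 := YM.aut_c hM (f (GA.inA (Multiplicative.ofAdd a))) m
      have h4 : YM.c hM (f (GA.inA (Multiplicative.ofAdd a)) m) = YM.c hM m := by
        have h5 : f (GA.inA (Multiplicative.ofAdd a)) m =
            (f (GA.inA (Multiplicative.ofAdd a)) m * m⁻¹) * m := by group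
        rw [h5, map_mul, YM.c_eq_one hM _ ((hab a).1 ha m), one_mul]
      rw [h4] at h3
      exact h3)
  obtain ⟨T2, hT2, hT2f⟩ := noEmb_N3 hgood M hM f T1 hT1 hT1st
    (fun a ha m => (hab a).1 (hT1le ha) m) (by
      intro a ha m hm
      have h3 := hT1F a ha
      have h4 := congrArg (fun g : AddMonoid.End (YM M hM) => YM.val hM (g (YM.of hM m hm))) h3
      exact h4)
  -- a finite index subgroup of an infinite group is nontrivial
  have h3 : ∃ a ∈ T2, a ≠ 0 := by
    by_contra hcon
    push_neg at hcon
    have h4 : T2 = ⊥ := by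
      rw [eq_bot_iff]
      intro a ha
      exact hcon a ha
    have h5 : T2.index = 0 := by
      rw [h4, AddSubgroup.index_bot]
      exact Nat.card_eq_zero_of_infinite
    exact hT2.index_ne_zero h5
  obtain ⟨a, ha, ha0⟩ := h3
  have h4 : f (GA.inA (Multiplicative.ofAdd a)) = f 1 := by rw [hT2f a ha, map_one]
  have h5 := congrArg GA.a (hf h4)
  exact ha0 h5

end Pool.Agent.Helper22.AutMet
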