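import Mathlib
import Pool.Agent.Helper22.AutMet.Base
import Pool.Agent.Helper22.AutMet.Arith
/-! (T2) rank bound in type F. -/

set_option autoImplicit false

namespace Pool.Agent.Helper22.AutMet

/-- subadditive sequences with `a (τ j) ≤ 2 a j + C0`, `τ ≥ 3`, grow sublinearly -/
lemma typeF_growth (a : ℕ → ℕ) (hsub : ∀ i j, a (i + j) ≤ a i + a j) (τ C0 : ℕ) (hτ : 3 ≤ τ)
    (hd : ∀ j, a (τ * j) ≤ 2 * a j + C0) (r C1 : ℕ) :
    ∃ J : ℕ, ∀ j ≤ J, r * (2 * (a j + C1) + 1) < J + 1 := by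
  have h1 : ∀ i, a (τ ^ i) + C0 ≤ 2 ^ i * (a 1 + C0) := by
    intro i
    induction i with
    | zero => simp
    | succ i ih =>
      have := hd (τ ^ i)
      rw [pow_succ, mul_comm (τ ^ i) τ, pow_succ]
      nlinarith
  obtain ⟨i, hi⟩ : ∃ i : ℕ, 8 * (r + 1) * (2 ^ i * (a 1 + C0)) ≤ 3 ^ i := by
    obtain ⟨i, hi⟩ := pow_unbounded_of_one_lt ((8 * (r + 1) * (a 1 + C0) : ℕ) : ℚ)
      (show (1 : ℚ) < 3 / 2 by norm_num)
    refine ⟨i, ?_⟩
    rw [div_pow, lt_div_iff₀ (by positivity)] at hi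
    have h2 : 8 * (r + 1) * (a 1 + C0) * 2 ^ i < 3 ^ i := by exact_mod_cast hi
    nlinarith
  have h3 : 3 ^ i ≤ τ ^ i := Nat.pow_le_pow_left hτ i
  set m := τ ^ i with hm
  have hmpos : 0 < m := Nat.pos_of_ne_zero (by positivity)
  have h4 : 8 * (r + 1) * a m ≤ m := by
    have := h1 i
    rw [← hm] at this
    have h5 : 8 * (r + 1) * a m ≤ 8 * (r + 1) * (2 ^ i * (a 1 + C0)) := by
      apply Nat.mul_le_mul_left
      omega
    omega
  set Bm := ∑ k ∈ Finset.range m, a k with hBm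
  have h6 : ∀ q s, a (m * q + s) ≤ q * a m + a s := by
    intro q s
    induction q with
    | zero => simp
    | succ q ih =>
      have := hsub m (m * q + s)
      have e : m * (q + 1) + s = m + (m * q + s) := by ring
      rw [e]
      nlinarith
  have h7 : ∀ j, 8 * (r + 1) * a j ≤ j + 8 * (r + 1) * Bm := by
    intro j
    have h8 := h6 (j / m) (j % m)
    rw [Nat.div_add_mod] at h8
    have h9 : a (j % m) ≤ Bm :=
      Finset.single_le_sum (f := a) (fun _ _ => Nat.zero_le _)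
        (Finset.mem_range.2 (Nat.mod_lt _ hmpos))
    have h10 : j / m * (8 * (r + 1) * a m) ≤ j / m * m := Nat.mul_le_mul_left _ h4
    have h11 : j / m * m ≤ j := Nat.div_mul_le_self j m
    have h12 : 8 * (r + 1) * a j ≤ 8 * (r + 1) * (j / m * a m + Bm) := by
      apply Nat.mul_le_mul_left
      omega
    nlinarith
  refine ⟨8 * (r + 1) * (Bm + C1 + 1), ?_⟩
  intro j hj
  have := h7 j
  nlinarith

section sat

variable {K N : Type} [CommRing K] [IsDomain K] [AddCommGroup N] [Module K N]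

/-- the elements with a nonzero multiple in the span of `X` -/
def typeF_sat (K : Type) {N : Type} [CommRing K] [IsDomain K] [AddCommGroup N] [Module K N]
    (X : Set N) : Submodule K N where
  carrier := {n | ∃ κ : K, κ ≠ 0 ∧ κ • n ∈ Submodule.span K X}
  add_mem' := by
    rintro a b ⟨κ, hκ, h1⟩ ⟨μ, hμ, h2⟩
    refine ⟨κ * μ, mul_ne_zero hκ hμ, ?_⟩
    rw [smul_add]
    apply Submodule.add_mem
    · rw [mul_comm, mul_smul]
      exact Submodule.smul_mem _ _ h1
    · rw [mul_smul]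
      exact Submodule.smul_mem _ _ h2
  zero_mem' := ⟨1, one_ne_zero, by simp⟩
  smul_mem' := by
    rintro c a ⟨κ, hκ, h1⟩
    refine ⟨κ, hκ, ?_⟩
    rw [smul_comm]
    exact Submodule.smul_mem _ _ h1

lemma typeF_sat_sub {X : Set N} : X ⊆ typeF_sat K X := by
  intro x hx
  exact ⟨1, one_ne_zero, by simpa using Submodule.subset_span hx⟩

lemma typeF_sat_le {X Y : Set N} (h : X ⊆ typeF_sat K Y) : typeF_sat K X ≤ typeF_sat K Y := by
  have h2 : Submodule.span K X ≤ typeF_sat K Y := Submodule.span_le.2 h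
  rintro n ⟨κ, hκ, h1⟩
  obtain ⟨μ, hμ, h3⟩ := h2 h1
  exact ⟨μ * κ, mul_ne_zero hμ hκ, by rwa [mul_smul]⟩

lemma typeF_sat_mono {X Y : Set N} (h : X ⊆ Y) : typeF_sat K X ≤ typeF_sat K Y :=
  typeF_sat_le (h.trans typeF_sat_sub)

/-- many elements of `sat T` are dependent -/
lemma typeF_dep {T : Set N} (hT : T.Finite) (y : Fin (hT.toFinset.card + 1) → N)
    (hy : ∀ i, y i ∈ typeF_sat K T) : ¬ LinearIndependent K y := by
  intro hli
  choose κ hκ h1 using hy
  have h2 : LinearIndependent K (fun i => κ i • y i) := by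
    rw [Fintype.linearIndependent_iff] at hli ⊢
    intro g hg i
    have := hli (fun i => g i * κ i) (by simpa [mul_smul] using hg) i
    exact (mul_eq_zero.1 this).resolve_right (hκ i)
  have : Fintype T := hT.fintype
  have h3 := linearIndependent_le_span_aux' (fun i => κ i • y i) h2 T (by
    rintro _ ⟨i, rfl⟩
    exact h1 i)
  rw [Fintype.card_fin] at h3
  have h4 : Fintype.card T = hT.toFinset.card := by
    rw [Set.Finite.card_toFinset]
  omega

end sat

lemma typeF_bb_zsmul (a : ℤ) (v : B) : bb (a • v) = bb v ^ a := by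
  induction a using Int.induction_on with
  | zero => simp
  | succ i ih => rw [add_smul, bb_add, ih, zpow_add, one_smul, zpow_one]
  | pred i ih => rw [sub_smul, sub_eq_add_neg, bb_add, ih, one_smul, bb_neg,
      ← zpow_sub_one]

section sys

variable {R N : Type} [CommRing R] [AddCommGroup N] [Module R N]
variable {H : Subgroup Q} (S : Sys H R N) (U : Subgroup Rˣ)

lemma typeF_r_inv (q : H) (c : R) : S.r q⁻¹ (S.r q c) = c := by
  have := S.r.map_mul q⁻¹ q
  rw [inv_mul_cancel, S.r.map_one] at this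
  exact (congrArg (fun f : R →+* R => f c) this).symm

lemma typeF_r_inj (q : H) : Function.Injective (S.r q) := by
  intro a b hab
  rw [← typeF_r_inv S q a, hab, typeF_r_inv S q b]

lemma typeF_r_KU (hUs : ∀ q, UStable (S.r q) U) (q : H) (κ : R) (h : κ ∈ KU U) :
    S.r q κ ∈ KU U := by
  have h1 : KU U ≤ (KU U).comap (S.r q) := by
    refine Subring.closure_le.2 ?_
    rintro _ ⟨u, hu, rfl⟩
    exact Subring.subset_closure ⟨Units.map (S.r q : R →* R) u, hUs q u hu, rfl⟩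
  exact h1 h

lemma typeF_m_mul (q q' : H) (n : N) : S.m (q * q') n = S.m q (S.m q' n) := by
  rw [S.m.map_mul]; rfl

lemma typeF_m_one (n : N) : S.m 1 n = n := by
  rw [S.m.map_one]; rfl

/-- the scalar `r q κ` as an element of `KU U` -/
def typeF_rK (hUs : ∀ q, UStable (S.r q) U) (q : H) (κ : KU U) : KU U :=
  ⟨S.r q κ, typeF_r_KU S U hUs q κ κ.2⟩

lemma typeF_rK_ne (hUs : ∀ q, UStable (S.r q) U) (q : H) (κ : KU U) (h : κ ≠ 0) :
    typeF_rK S U hUs q κ ≠ 0 := by
  intro h0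
  apply h
  have h1 : S.r q κ = 0 := congrArg Subtype.val h0
  have h2 : (κ : R) = 0 := typeF_r_inj S q (by rw [h1, map_zero])
  exact Subtype.ext h2

lemma typeF_semi (hUs : ∀ q, UStable (S.r q) U) (q : H) (κ : KU U) (n : N) :
    S.m q (κ • n) = typeF_rK S U hUs q κ • S.m q n := S.semi q κ n

lemma typeF_m_span (hUs : ∀ q, UStable (S.r q) U) (q : H) (X : Set N) (n : N)
    (hn : n ∈ Submodule.span (KU U) X) : S.m q n ∈ Submodule.span (KU U) (S.m q '' X) := by
  induction hn using Submodule.span_induction with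
  | mem x hx => exact Submodule.subset_span ⟨x, hx, rfl⟩
  | zero => simp
  | add x y _ _ hx hy => rw [map_add]; exact Submodule.add_mem _ hx hy
  | smul a x _ hx =>
    rw [typeF_semi S U hUs]
    exact Submodule.smul_mem _ _ hx

lemma typeF_m_sat [IsDomain R] (hUs : ∀ q, UStable (S.r q) U) (q : H) (X : Set N) (n : N)
    (hn : n ∈ typeF_sat (KU U) X) : S.m q n ∈ typeF_sat (KU U) (S.m q '' X) := by
  obtain ⟨κ, hκ, h⟩ := hn
  refine ⟨typeF_rK S U hUs q κ, typeF_rK_ne S U hUs q κ hκ, ?_⟩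
  rw [← typeF_semi S U hUs]
  exact typeF_m_span S U hUs q X _ h

/-- generators of the filtration -/
def typeF_gen (s : Rˣ) {r : ℕ} (x : Fin r → N) (e : ℕ) :
    Fin r × (Finset.Icc (-(e : ℤ)) e) → N :=
  fun p => ((s ^ (p.2 : ℤ) : Rˣ) : R) • x p.1

/-- the filtration of the module -/
def typeF_fil (s : Rˣ) {r : ℕ} (x : Fin r → N) (e : ℕ) : Submodule (KU U) N :=
  Submodule.span (KU U) (Set.range (typeF_gen s x e))

lemma typeF_gen_mem (s : Rˣ) {r : ℕ} (x : Fin r → N) (e : ℕ) (i : ℤ) (hi : i.natAbs ≤ e)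
    (k : Fin r) : ((s ^ i : Rˣ) : R) • x k ∈ typeF_fil U s x e := by
  apply Submodule.subset_span
  exact ⟨(k, ⟨i, Finset.mem_Icc.2 ⟨by omega, by omega⟩⟩), rfl⟩

lemma typeF_fil_mono (s : Rˣ) {r : ℕ} (x : Fin r → N) {e e' : ℕ} (h : e ≤ e') :
    typeF_fil U s x e ≤ typeF_fil U s x e' := by
  apply Submodule.span_le.2
  rintro _ ⟨⟨k, i, hi⟩, rfl⟩
  rw [Finset.mem_Icc] at hi
  exact typeF_gen_mem U s x e' i (by omega) k

lemma typeF_fil_shift (s : Rˣ) {r : ℕ} (x : Fin r → N) (e : ℕ) (i : ℤ) (y : N)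
    (hy : y ∈ typeF_fil U s x e) : ((s ^ i : Rˣ) : R) • y ∈ typeF_fil U s x (e + i.natAbs) := by
  induction hy using Submodule.span_induction with
  | mem y hy =>
    obtain ⟨⟨k, j, hj⟩, rfl⟩ := hy
    rw [Finset.mem_Icc] at hj
    have := typeF_gen_mem U s x (e + i.natAbs) (i + j) (by omega) k
    rw [zpow_add, Units.val_mul, mul_smul] at this
    exact this
  | zero => simp
  | add a b _ _ ha hb => rw [smul_add]; exact Submodule.add_mem _ ha hb
  | smul κ a _ ha =>
    rw [smul_comm]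
    exact Submodule.smul_mem _ _ ha

lemma typeF_fil_exh (s : Rˣ)
    (hspan : ∀ a : R, a ∈ Submodule.span (KU U) (Set.range fun k : ℤ => ((s ^ k : Rˣ) : R)))
    {r : ℕ} (x : Fin r → N) (hx : Submodule.span R (Set.range x) = ⊤) (y : N) :
    ∃ e, y ∈ typeF_fil U s x e := by
  have hy : y ∈ Submodule.span R (Set.range x) := by rw [hx]; trivial
  induction hy using Submodule.span_induction with
  | mem y hy =>
    obtain ⟨k, rfl⟩ := hy
    refine ⟨0, ?_⟩
    have := typeF_gen_mem U s x 0 0 (by simp) k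
    simpa using this
  | zero => exact ⟨0, Submodule.zero_mem _⟩
  | add a b _ _ ha hb =>
    obtain ⟨e, he⟩ := ha
    obtain ⟨f, hf⟩ := hb
    exact ⟨max e f, Submodule.add_mem _ (typeF_fil_mono U s x (le_max_left _ _) he)
      (typeF_fil_mono U s x (le_max_right _ _) hf)⟩
  | smul a y _ hy =>
    obtain ⟨e, he⟩ := hy
    have ha := hspan a
    induction ha using Submodule.span_induction with
    | mem a ha =>
      obtain ⟨i, rfl⟩ := ha
      exact ⟨_, typeF_fil_shift U s x e i y he⟩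
    | zero => exact ⟨0, by simp⟩
    | add a b _ _ ha hb =>
      obtain ⟨e, he⟩ := ha
      obtain ⟨f, hf⟩ := hb
      refine ⟨max e f, ?_⟩
      rw [add_smul]
      exact Submodule.add_mem _ (typeF_fil_mono U s x (le_max_left _ _) he)
        (typeF_fil_mono U s x (le_max_right _ _) hf)
    | smul κ a _ ha =>
      obtain ⟨f, hf⟩ := ha
      refine ⟨f, ?_⟩
      rw [smul_assoc]
      exact Submodule.smul_mem _ _ hf

lemma typeF_r_pow (s : Rˣ) (q : H) (hs : Units.map (S.r q : R →* R) s / s ∈ U) (i : ℤ) :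
    ∃ κ : KU U, S.r q ((s ^ i : Rˣ) : R) = κ * ((s ^ i : Rˣ) : R) := by
  refine ⟨⟨(((Units.map (S.r q : R →* R) s / s) ^ i : Rˣ) : R),
    Subring.subset_closure ⟨_, U.zpow_mem hs i, rfl⟩⟩, ?_⟩
  show S.r q ((s ^ i : Rˣ) : R) =
    (((Units.map (S.r q : R →* R) s / s) ^ i : Rˣ) : R) * ((s ^ i : Rˣ) : R)
  rw [← Units.val_mul, ← mul_zpow, div_mul_cancel, ← map_zpow]
  rfl

lemma typeF_m_fil (hUs : ∀ q, UStable (S.r q) U) (s : Rˣ) {r : ℕ} (x : Fin r → N) (q : H)
    (hs : Units.map (S.r q : R →* R) s / s ∈ U) (c : ℕ)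
    (hc : ∀ k, S.m q (x k) ∈ typeF_fil U s x c) (e : ℕ) (y : N) (hy : y ∈ typeF_fil U s x e) :
    S.m q y ∈ typeF_fil U s x (c + e) := by
  induction hy using Submodule.span_induction with
  | mem y hy =>
    obtain ⟨⟨k, i, hi⟩, rfl⟩ := hy
    rw [Finset.mem_Icc] at hi
    show S.m q (((s ^ i : Rˣ) : R) • x k) ∈ _
    obtain ⟨κ, hκ⟩ := typeF_r_pow S U s q hs i
    rw [S.semi, hκ, mul_smul]
    apply Submodule.smul_mem _ κ
    exact typeF_fil_mono U s x (by omega) (typeF_fil_shift U s x c i _ (hc k))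
  | zero => simp
  | add a b _ _ ha hb => rw [map_add]; exact Submodule.add_mem _ ha hb
  | smul κ a _ ha =>
    rw [typeF_semi S U hUs]
    exact Submodule.smul_mem _ _ ha

/-- `q` shifts the filtration by at most `c` -/
def typeF_P (s : Rˣ) {r : ℕ} (x : Fin r → N) (q : H) (c : ℕ) : Prop :=
  ∀ k, S.m q (x k) ∈ typeF_fil U s x c

lemma typeF_P_ex (s : Rˣ)
    (hspan : ∀ a : R, a ∈ Submodule.span (KU U) (Set.range fun k : ℤ => ((s ^ k : Rˣ) : R)))
    {r : ℕ} (x : Fin r → N) (hx : Submodule.span R (Set.range x) = ⊤) (q : H) :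
    ∃ c, typeF_P S U s x q c := by
  choose c hc using fun k => typeF_fil_exh U s hspan x hx (S.m q (x k))
  exact ⟨∑ k, c k, fun k => typeF_fil_mono U s x
    (Finset.single_le_sum (f := c) (fun _ _ => Nat.zero_le _) (Finset.mem_univ k)) (hc k)⟩

lemma typeF_bpow (K : ℕ) (ht : tt ^ K ∈ H) (v : B) (hv : bb v ∈ H) :
    (⟨bb v, hv⟩ : H) ^ (tr K).toNat =
      (⟨tt ^ K, ht⟩ * ⟨bb v, hv⟩ * ⟨tt ^ K, ht⟩⁻¹) * (⟨tt ^ K, ht⟩⁻¹ * ⟨bb v, hv⟩ * ⟨tt ^ K, ht⟩) := by
  apply Subtype.ext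
  show bb v ^ (tr K).toNat = (tt ^ K * bb v * (tt ^ K)⁻¹) * ((tt ^ K)⁻¹ * bb v * tt ^ K)
  have h1 := tt_conj K v
  have h2 := tt_conj (-K) v
  rw [zpow_natCast] at h1
  rw [zpow_neg, zpow_natCast, inv_inv] at h2
  rw [h1, h2, ← bb_add, phi_tr, ← bb_nsmul]
  congr 1
  have h3 : 0 ≤ tr K := by
    have := tr_step K
    omega
  rw [← natCast_zsmul, Int.toNat_of_nonneg h3]

/-- powers of a lattice element applied to one vector are dependent -/
lemma typeF_dep1 [IsDomain R] (hUs : ∀ q, UStable (S.r q) U) (s : Rˣ)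
    (hspan : ∀ a : R, a ∈ Submodule.span (KU U) (Set.range fun k : ℤ => ((s ^ k : Rˣ) : R)))
    (hs : ∀ q : H, Units.map (S.r q : R →* R) s / s ∈ U)
    {r : ℕ} (x : Fin r → N) (hx : Submodule.span R (Set.range x) = ⊤)
    (K : ℕ) (hK : 0 < K) (ht : tt ^ K ∈ H) (v : B) (hv : bb v ∈ H) (y : N) :
    ∃ J : ℕ, ¬ LinearIndependent (KU U)
      (fun j : Fin (J + 1) => S.m ((⟨bb v, hv⟩ : H) ^ (j : ℕ)) y) := by
  classical
  have hex := typeF_P_ex S U s hspan x hx
  set c : H → ℕ := fun q => Nat.find (hex q) with hc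
  have hcP : ∀ q, typeF_P S U s x q (c q) := fun q => Nat.find_spec (hex q)
  have hsub : ∀ q q', c (q * q') ≤ c q + c q' := by
    intro q q'
    apply Nat.find_min'
    intro k
    rw [typeF_m_mul]
    exact typeF_m_fil S U hUs s x q (hs q) _ (hcP q) _ _ (hcP q' k)
  set b : H := ⟨bb v, hv⟩ with hb
  set t : H := ⟨tt ^ K, ht⟩ with htt
  obtain ⟨C1, hC1⟩ := typeF_fil_exh U s hspan x hx y
  obtain ⟨J, hJ⟩ := typeF_growth (fun j => c (b ^ j)) (fun i j => by
      show c (b ^ (i + j)) ≤ c (b ^ i) + c (b ^ j)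
      rw [pow_add]; exact hsub _ _) (tr K).toNat (2 * (c t + c t⁻¹))
    (by have := three_le_tr K hK; omega)
    (fun j => by
      show c (b ^ ((tr K).toNat * j)) ≤ 2 * c (b ^ j) + 2 * (c t + c t⁻¹)
      have hbj : b ^ j = ⟨bb (j • v), by rw [bb_nsmul]; exact H.pow_mem hv j⟩ := by
        apply Subtype.ext
        show bb v ^ j = bb (j • v)
        rw [bb_nsmul]
      have h1 : b ^ ((tr K).toNat * j) = (t * b ^ j * t⁻¹) * (t⁻¹ * b ^ j * t) := by
        rw [mul_comm, pow_mul, hbj]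
        exact typeF_bpow K ht (j • v) _
      rw [h1]
      have h2 := hsub (t * b ^ j * t⁻¹) (t⁻¹ * b ^ j * t)
      have h3 := hsub (t * b ^ j) t⁻¹
      have h4 := hsub t (b ^ j)
      have h5 := hsub (t⁻¹ * b ^ j) t
      have h6 := hsub t⁻¹ (b ^ j)
      omega) r C1
  refine ⟨J, fun hli => ?_⟩
  -- all vectors lie in one step of the filtration
  obtain ⟨j0, hj0, hmax⟩ : ∃ j0 ≤ J, ∀ j ≤ J, c (b ^ j) ≤ c (b ^ j0) := by
    obtain ⟨j0, hj0, h⟩ := Finset.exists_max_image (Finset.range (J + 1)) (fun j => c (b ^ j))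
      ⟨0, by simp⟩
    rw [Finset.mem_range] at hj0
    exact ⟨j0, by omega, fun j hj => h j (Finset.mem_range.2 (by omega))⟩
  have h1 := linearIndependent_le_span_aux' _ hli
    (Set.range (typeF_gen s x (c (b ^ j0) + C1))) (by
    rintro _ ⟨j, rfl⟩
    have h2 := typeF_m_fil S U hUs s x (b ^ (j : ℕ)) (hs _) _ (hcP _) _ _ hC1
    exact typeF_fil_mono U s x (by have := hmax j (by omega); omega) h2)
  rw [Fintype.card_fin] at h1
  have h2 : Fintype.card (Set.range (typeF_gen s x (c (b ^ j0) + C1))) ≤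
      Fintype.card (Fin r × (Finset.Icc (-((c (b ^ j0) + C1 : ℕ) : ℤ)) ((c (b ^ j0) + C1 : ℕ) : ℤ))) :=
    Fintype.card_range_le _
  rw [Fintype.card_prod, Fintype.card_fin, Fintype.card_coe, Int.card_Icc] at h2
  have h3 := hJ j0 hj0
  have h4 : (((c (b ^ j0) + C1 : ℕ) : ℤ) + 1 - -((c (b ^ j0) + C1 : ℕ) : ℤ)).toNat =
      2 * (c (b ^ j0) + C1) + 1 := by omega
  rw [h4] at h2
  omega

/-- from one dependence relation, all powers of `b` applied to `y` are in a finite rank part -/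
lemma typeF_cyc [IsDomain R] (hUs : ∀ q, UStable (S.r q) U) (b : H) (y : N) (J : ℕ)
    (hJ : ¬ LinearIndependent (KU U) (fun j : Fin (J + 1) => S.m (b ^ (j : ℕ)) y)) :
    ∃ X : Set N, X.Finite ∧ ∀ j : ℤ, S.m (b ^ j) y ∈ typeF_sat (KU U) X := by
  classical
  -- the property that the `k`-th power depends on the earlier ones
  have hex : ∃ k : ℕ, ∃ κ : ℕ → KU U, κ k ≠ 0 ∧
      ∑ j ∈ Finset.range (k + 1), κ j • S.m (b ^ j) y = 0 := by
    rw [Fintype.not_linearIndependent_iff] at hJ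
    obtain ⟨g, hg, i0, hi0⟩ := hJ
    set κ : ℕ → KU U := fun j => if h : j < J + 1 then g ⟨j, h⟩ else 0 with hκ
    have hκi : ∀ i : Fin (J + 1), κ i = g i := by
      intro i
      simp only [hκ]
      rw [dif_pos i.2]
    have hsum : ∑ j ∈ Finset.range (J + 1), κ j • S.m (b ^ j) y = 0 := by
      rw [Finset.sum_range, ← hg]
      exact Finset.sum_congr rfl fun i _ => by rw [hκi]
    -- take the largest index
    set k := Nat.findGreatest (fun j => κ j ≠ 0) J with hk
    have hk0 : κ k ≠ 0 := by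
      refine Nat.findGreatest_spec (P := fun j => κ j ≠ 0) (m := (i0 : ℕ)) (by omega) ?_
      show κ (i0 : ℕ) ≠ 0
      rw [hκi]; exact hi0
    have hkJ : k ≤ J := Nat.findGreatest_le J
    refine ⟨k, κ, hk0, ?_⟩
    rw [← hsum]
    apply Finset.sum_subset
    · intro j hj
      rw [Finset.mem_range] at hj ⊢
      omega
    · intro j hj hj2
      rw [Finset.mem_range] at hj hj2
      have : κ j = 0 := by
        by_contra h
        have := Nat.le_findGreatest (P := fun j => κ j ≠ 0) (n := J) (m := j) (by omega) h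
        omega
      rw [this, zero_smul]
  set k := Nat.find hex with hk
  obtain ⟨κ, hκ, hrel⟩ := Nat.find_spec hex
  rw [← hk] at hκ hrel
  set X : Set N := (fun j : ℕ => S.m (b ^ j) y) '' (Set.Iio k) with hX
  have hmem : ∀ j < k, S.m (b ^ j) y ∈ typeF_sat (KU U) X := fun j hj =>
    typeF_sat_sub ⟨j, hj, rfl⟩
  -- the `k`-th power
  have hkm : S.m (b ^ k) y ∈ typeF_sat (KU U) X := by
    refine ⟨κ k, hκ, ?_⟩
    rw [Finset.sum_range_succ, add_comm] at hrel
    rw [eq_neg_of_add_eq_zero_left hrel]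
    apply Submodule.neg_mem
    apply Submodule.sum_mem
    intro j hj
    apply Submodule.smul_mem
    exact Submodule.subset_span ⟨j, Finset.mem_range.1 hj, rfl⟩
  have hup : ∀ n ∈ typeF_sat (KU U) X, S.m b n ∈ typeF_sat (KU U) X := by
    intro n hn
    have h1 := typeF_m_sat S U hUs b X n hn
    refine typeF_sat_le ?_ h1
    rintro _ ⟨_, ⟨j, hj, rfl⟩, rfl⟩
    show S.m b (S.m (b ^ j) y) ∈ typeF_sat (KU U) X
    rw [← typeF_m_mul, ← pow_succ']
    have hj' : j < k := hj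
    rcases Nat.lt_or_ge (j + 1) k with h | h
    · exact hmem _ h
    · have : j + 1 = k := by omega
      rw [this]; exact hkm
  have hinv : 0 < k → S.m b⁻¹ y ∈ typeF_sat (KU U) X := by
    intro hkpos
    have h1 : S.m b⁻¹ (∑ j ∈ Finset.range (k + 1), κ j • S.m (b ^ j) y) = 0 := by
      rw [hrel, map_zero]
    rw [map_sum] at h1
    rw [Finset.sum_range_succ'] at h1
    have h2 : ∀ j : ℕ, S.m b⁻¹ (κ (j + 1) • S.m (b ^ (j + 1)) y) =
        typeF_rK S U hUs b⁻¹ (κ (j + 1)) • S.m (b ^ j) y := by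
      intro j
      rw [typeF_semi S U hUs, ← typeF_m_mul]
      congr 2
      rw [pow_succ']
      group
    simp only [h2] at h1
    by_cases h0 : κ 0 = 0
    · exfalso
      rw [h0, zero_smul, map_zero, add_zero] at h1
      refine Nat.find_min hex (m := k - 1) (by omega)
        ⟨fun j => typeF_rK S U hUs b⁻¹ (κ (j + 1)), ?_, ?_⟩
      · show typeF_rK S U hUs b⁻¹ (κ (k - 1 + 1)) ≠ 0
        rw [Nat.sub_add_cancel hkpos]
        exact typeF_rK_ne S U hUs _ _ hκ
      · rw [Nat.sub_add_cancel hkpos]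
        exact h1
    · refine ⟨typeF_rK S U hUs b⁻¹ (κ 0), typeF_rK_ne S U hUs _ _ h0, ?_⟩
      rw [typeF_semi S U hUs, pow_zero, typeF_m_one, add_comm] at h1
      rw [eq_neg_of_add_eq_zero_left h1]
      apply Submodule.neg_mem
      apply Submodule.sum_mem
      intro j hj
      apply Submodule.smul_mem
      exact Submodule.subset_span ⟨j, Finset.mem_range.1 hj, rfl⟩
  have hdown : ∀ n ∈ typeF_sat (KU U) X, S.m b⁻¹ n ∈ typeF_sat (KU U) X := by
    intro n hn
    have h1 := typeF_m_sat S U hUs b⁻¹ X n hn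
    refine typeF_sat_le ?_ h1
    rintro _ ⟨_, ⟨j, hj, rfl⟩, rfl⟩
    show S.m b⁻¹ (S.m (b ^ j) y) ∈ typeF_sat (KU U) X
    have hj' : j < k := hj
    rw [← typeF_m_mul]
    cases j with
    | zero =>
      rw [pow_zero, mul_one]
      exact hinv (by omega)
    | succ j =>
      have : b⁻¹ * b ^ (j + 1) = b ^ j := by rw [pow_succ']; group
      rw [this]
      exact hmem _ (by omega)
  have h0 : y ∈ typeF_sat (KU U) X := by
    rcases Nat.eq_zero_or_pos k with h | h
    · rw [h, pow_zero, typeF_m_one] at hkm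
      exact hkm
    · have := hmem 0 h
      rwa [pow_zero, typeF_m_one] at this
  refine ⟨X, (Set.finite_Iio k).image _, ?_⟩
  intro j
  induction j using Int.induction_on with
  | zero => rw [zpow_zero, typeF_m_one]; exact h0
  | succ i ih =>
    rw [zpow_add_one, ← (Commute.refl b).zpow_right (i : ℤ) |>.eq, typeF_m_mul]
    exact hup _ ih
  | pred i ih =>
    rw [zpow_sub_one, ← (Commute.refl b).inv_left.zpow_right (-(i : ℤ)) |>.eq, typeF_m_mul]
    exact hdown _ ih

/-- the whole lattice part applied to one vector has finite rank -/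
lemma typeF_lat [IsDomain R] (hUs : ∀ q, UStable (S.r q) U)
    (hcyc : ∀ (v : B) (hv : bb v ∈ H) (y : N), ∃ X : Set N, X.Finite ∧
      ∀ j : ℤ, S.m ((⟨bb v, hv⟩ : H) ^ j) y ∈ typeF_sat (KU U) X)
    (l : List B) (hl : ∀ v ∈ l, bb v ∈ H) : ∀ y : N, ∃ X : Set N, X.Finite ∧
      ∀ v ∈ Submodule.span ℤ {w | w ∈ l}, ∀ hv : bb v ∈ H,
        S.m ⟨bb v, hv⟩ y ∈ typeF_sat (KU U) X := by
  induction l with
  | nil =>
    intro y
    refine ⟨{y}, Set.finite_singleton y, ?_⟩
    intro v hv hvH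
    have h1 : v = 0 := by simpa using hv
    subst h1
    have : (⟨bb 0, hvH⟩ : H) = 1 := Subtype.ext bb_zero
    rw [this, typeF_m_one]
    exact typeF_sat_sub rfl
  | cons v0 l ih =>
    intro y
    have ih := ih (fun v hv => hl v (List.mem_cons_of_mem _ hv))
    have hv0 : bb v0 ∈ H := hl v0 List.mem_cons_self
    obtain ⟨X, hXf, hX⟩ := hcyc v0 hv0 y
    choose Y hYf hY using ih
    refine ⟨⋃ x ∈ X, Y x, hXf.biUnion fun x _ => hYf x, ?_⟩
    intro v hv hvH
    have hset : {w | w ∈ v0 :: l} = insert v0 {w | w ∈ l} := by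
      ext w; simp
    rw [hset, Submodule.mem_span_insert] at hv
    obtain ⟨a, z, hz, rfl⟩ := hv
    have hav : bb (a • v0) ∈ H := by
      rw [typeF_bb_zsmul]; exact H.zpow_mem hv0 a
    have hpow : ∀ a : ℤ, ((⟨bb v0, hv0⟩ : H) ^ a : H).1 = bb (a • v0) := by
      intro a
      show bb v0 ^ a = bb (a • v0)
      rw [typeF_bb_zsmul]
    have hzH : bb z ∈ H := by
      have h1 : bb z = (bb (a • v0))⁻¹ * bb (a • v0 + z) := by
        rw [bb_add]; group
      rw [h1]
      exact H.mul_mem (H.inv_mem hav) hvH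
    have h1 : (⟨bb (a • v0 + z), hvH⟩ : H) = ⟨bb z, hzH⟩ * (⟨bb v0, hv0⟩ : H) ^ a := by
      apply Subtype.ext
      show bb (a • v0 + z) = bb z * ((⟨bb v0, hv0⟩ : H) ^ a : H).1
      rw [hpow, add_comm, bb_add]
    rw [h1, typeF_m_mul]
    have h2 := typeF_m_sat S U hUs ⟨bb z, hzH⟩ X _ (hX a)
    refine typeF_sat_le ?_ h2
    rintro _ ⟨x, hx, rfl⟩
    exact typeF_sat_mono (Set.subset_biUnion_of_mem hx) (hY x z hz hzH)

end sys

theorem typeF {A : Type} [AddCommGroup A] [DistribMulAction Q A] (h0 : GenProp A)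
    {R N : Type} [CommRing R] [IsDomain R] [AddCommGroup N] [Module R N]
    [Module.Finite R N] (htf : ∀ (a : R) (x : N), a • x = 0 → a = 0 ∨ x = 0)
    (U : Subgroup Rˣ) (s : Rˣ)
    (hspan : ∀ a : R, a ∈ Submodule.span (KU U) (Set.range fun k : ℤ => ((s ^ k : Rˣ) : R)))
    (H : Subgroup Q) (hH : H.FiniteIndex) (S : Sys H R N) (hUs : ∀ q, UStable (S.r q) U)
    (hs : ∀ q : H, Units.map (S.r q : R →* R) s / s ∈ U)
    (T : AddSubgroup A) (hT : T.FiniteIndex) (θ : A → N) (hθ : Eqv H S.m T θ) :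
    ∃ d : ℕ, ∀ y : Fin (d + 1) → N, (∀ i, y i ∈ θ '' (T : Set A)) →
      ¬ LinearIndependent (KU U) y := by
  classical
  obtain ⟨r, x, hx⟩ := Module.Finite.exists_fin (R := R) (M := N)
  obtain ⟨K, hK, -, ht⟩ := Subgroup.exists_pow_mem_of_index_ne_zero hH.index_ne_zero tt
  have hcyc : ∀ (v : B) (hv : bb v ∈ H) (y : N), ∃ X : Set N, X.Finite ∧
      ∀ j : ℤ, S.m ((⟨bb v, hv⟩ : H) ^ j) y ∈ typeF_sat (KU U) X := by
    intro v hv y
    obtain ⟨J, hJ⟩ := typeF_dep1 S U hUs s hspan hs x hx K hK ht v hv y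
    exact typeF_cyc S U hUs _ y J hJ
  -- generators of the lattice part
  set P : Submodule ℤ B :=
    { carrier := {v | bb v ∈ H}
      add_mem' := by
        intro a b ha hb
        show bb (a + b) ∈ H
        rw [bb_add]; exact H.mul_mem ha hb
      zero_mem' := by
        show bb 0 ∈ H
        rw [bb_zero]; exact H.one_mem
      smul_mem' := by
        intro c a ha
        show bb (c • a) ∈ H
        rw [typeF_bb_zsmul]; exact H.zpow_mem ha c } with hP
  obtain ⟨G, hG⟩ := IsNoetherian.noetherian P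
  have hGm : ∀ v ∈ G.toList, bb v ∈ H := by
    intro v hv
    have : v ∈ P := by
      rw [← hG]
      exact Submodule.subset_span (by simpa using hv)
    exact this
  have hlat := typeF_lat S U hUs hcyc G.toList hGm
  have hGs : {w | w ∈ G.toList} = (G : Set B) := by
    ext w; simp
  rw [hGs, hG] at hlat
  choose X hXf hX using hlat
  obtain ⟨F, hFT, hF⟩ := h0 H hH T hT hθ.stab
  set Z : Set N := ⋃ z ∈ (F : Set A), X (θ z) with hZ
  have hZf : Z.Finite := F.finite_toSet.biUnion fun z _ => hXf (θ z)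
  have hθ0 : θ 0 = 0 := by
    have := hθ.add 0 T.zero_mem 0 T.zero_mem
    rw [add_zero] at this
    simpa using this
  have hcl : ∀ a ∈ AddSubgroup.closure {y : A | ∃ v : B, bb v ∈ H ∧ ∃ z ∈ F, y = bb v • z},
      a ∈ T ∧ θ a ∈ typeF_sat (KU U) Z := by
    intro a ha
    induction ha using AddSubgroup.closure_induction with
    | mem a ha =>
      obtain ⟨v, hv, z, hz, rfl⟩ := ha
      have hzT : z ∈ T := hFT hz
      refine ⟨hθ.stab ⟨bb v, hv⟩ z hzT, ?_⟩
      have := hθ.eqv ⟨bb v, hv⟩ z hzT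
      rw [this]
      exact typeF_sat_mono (Set.subset_biUnion_of_mem (u := fun z => X (θ z)) hz)
        (hX (θ z) v hv hv)
    | zero => exact ⟨T.zero_mem, by rw [hθ0]; exact Submodule.zero_mem _⟩
    | add a b _ _ ha hb =>
      refine ⟨T.add_mem ha.1 hb.1, ?_⟩
      rw [hθ.add a ha.1 b hb.1]
      exact Submodule.add_mem _ ha.2 hb.2
    | neg a _ ha =>
      refine ⟨T.neg_mem ha.1, ?_⟩
      have h1 := hθ.add a ha.1 (-a) (T.neg_mem ha.1)
      rw [add_neg_cancel, hθ0] at h1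
      have h2 : θ (-a) = -θ a := (neg_eq_of_add_eq_zero_right h1.symm).symm
      rw [h2]
      exact Submodule.neg_mem _ ha.2
  refine ⟨hZf.toFinset.card, ?_⟩
  intro y hy hli
  choose w hw hwy using hy
  choose j0 hj0 using fun i => hF (w i) (hw i) K hK ht
  set j := ∑ i, j0 i with hj
  have hjle : ∀ i, j0 i ≤ j := fun i =>
    Finset.single_le_sum (f := j0) (fun _ _ => Nat.zero_le _) (Finset.mem_univ i)
  have htj : tt ^ (K * j) ∈ H := by rw [pow_mul]; exact H.pow_mem ht j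
  have h1 : ∀ i, S.m ⟨tt ^ (K * j), htj⟩ (y i) ∈ typeF_sat (KU U) Z := by
    intro i
    have h2 := (hcl _ (hj0 i j (hjle i))).2
    have h3 := hθ.eqv ⟨tt ^ (K * j), htj⟩ (w i) (hw i)
    rw [hwy] at h3
    rw [← h3]
    exact h2
  apply typeF_dep hZf (fun i => S.m ⟨tt ^ (K * j), htj⟩ (y i)) h1
  rw [Fintype.linearIndependent_iff] at hli ⊢
  intro g hg i
  set q : H := ⟨tt ^ (K * j), htj⟩ with hq
  have h4 : S.m q⁻¹ (∑ i, g i • S.m q (y i)) = 0 := by
    rw [hg, map_zero]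
  rw [map_sum] at h4
  have h5 : ∀ i, S.m q⁻¹ (g i • S.m q (y i)) = typeF_rK S U hUs q⁻¹ (g i) • y i := by
    intro i
    rw [typeF_semi S U hUs, ← typeF_m_mul, inv_mul_cancel, typeF_m_one]
  simp only [h5] at h4
  have h6 := hli _ h4 i
  by_contra h7
  exact typeF_rK_ne S U hUs q⁻¹ (g i) h7 h6

end Pool.Agent.Helper22.AutMet
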