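import Mathlib
import Pool.Agent.Helper22.AutMet.Base
import Pool.Agent.Helper22.AutMet.Util

/-! (T1) rank bound in type N. -/

set_option autoImplicit false

namespace Pool.Agent.Helper22.AutMet

lemma typeN_ff_coeff {κ G : Type} [Field κ] [CommGroup G] (φ : G →* G) (S : Finset G)
    (hφ : ∀ s ∈ S, ∀ s' ∈ S, ∀ w ∈ S, ∀ w' ∈ S, s ≠ s' → φ (s / s') ≠ w' / w)
    (x y : MonoidAlgebra κ G) (hx : ∀ h, x.coeff h ≠ 0 → ∃ s ∈ S, φ s = h)
    (hy : ∀ h, y.coeff h ≠ 0 → h ∈ S) (u w : G) (hu : u ∈ S) (hw : w ∈ S) :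
    (x * y).coeff (φ u * w) = x.coeff (φ u) * y.coeff w := by
  classical
  rw [MonoidAlgebra.coeff_mul_apply_left, Finsupp.sum]
  rw [Finset.sum_eq_single (φ u)]
  · simp
  · intro h hh hne
    have hh' : x.coeff h ≠ 0 := by simpa using hh
    obtain ⟨s, hs, rfl⟩ := hx h hh'
    by_contra hcon
    have hy' : y.coeff ((φ s)⁻¹ * (φ u * w)) ≠ 0 := by
      intro h0; exact hcon (by rw [h0, mul_zero])
    have hmem := hy _ hy'
    have hus : u ≠ s := by rintro rfl; exact hne rfl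
    refine hφ u hu s hs w hw _ hmem hus ?_
    rw [map_div, div_eq_mul_inv, div_eq_mul_inv, ← mul_assoc, mul_assoc ((φ s)⁻¹ * φ u),
      mul_inv_cancel, mul_one, mul_comm]
  · intro h
    have : x.coeff (φ u) = 0 := by simpa using h
    rw [this, zero_mul]

lemma typeN_ff {κ G : Type} [Field κ] [CommGroup G] (φ : ℕ → (G →* G))
    (hmov : ∀ u : G, u ≠ 1 → ∀ u' : G, {j : ℕ | φ j u = u'}.Finite)
    (a d : MonoidAlgebra κ G) (hd : d ≠ 0) (aj dj : ℕ → MonoidAlgebra κ G)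
    (ζ : ℕ → G → κ) (hζ : ∀ j u, ζ j u ≠ 0)
    (ha1 : ∀ j u, (aj j).coeff (φ j u) = ζ j u * a.coeff u)
    (ha2 : ∀ j h, (aj j).coeff h ≠ 0 → ∃ u, a.coeff u ≠ 0 ∧ φ j u = h)
    (hd1 : ∀ j u, (dj j).coeff (φ j u) = ζ j u * d.coeff u)
    (hd2 : ∀ j h, (dj j).coeff h ≠ 0 → ∃ u, d.coeff u ≠ 0 ∧ φ j u = h)
    (hrel : ∀ j, aj j * d = a * dj j) : ∃ c : κ, a = c • d := by
  classical
  set S : Finset G := a.coeff.support ∪ d.coeff.support with hS
  have haS : ∀ h, a.coeff h ≠ 0 → h ∈ S := by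
    intro h hh; rw [hS, Finset.mem_union]; left; simpa using hh
  have hdS : ∀ h, d.coeff h ≠ 0 → h ∈ S := by
    intro h hh; rw [hS, Finset.mem_union]; right; simpa using hh
  -- choose a good index
  have hfin : (⋃ p ∈ ((S ×ˢ S) ×ˢ (S ×ˢ S) : Finset ((G × G) × (G × G))),
      {j : ℕ | p.1.1 ≠ p.1.2 ∧ φ j (p.1.1 / p.1.2) = p.2.2 / p.2.1}).Finite := by
    refine Set.Finite.biUnion (Finset.finite_toSet _) ?_
    rintro ⟨⟨s, s'⟩, ⟨w, w'⟩⟩ -
    by_cases h : s = s'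
    · simp [h]
    · refine (hmov (s / s') ?_ (w' / w)).subset ?_
      · rwa [Ne, div_eq_one]
      · rintro j ⟨-, hj⟩
        exact hj
  obtain ⟨j, hj⟩ := hfin.exists_notMem
  have hgood : ∀ s ∈ S, ∀ s' ∈ S, ∀ w ∈ S, ∀ w' ∈ S, s ≠ s' → φ j (s / s') ≠ w' / w := by
    intro s hs s' hs' w hw w' hw' hne heq
    apply hj
    simp only [Set.mem_iUnion]
    refine ⟨((s, s'), (w, w')), ?_, hne, heq⟩
    simp [hs, hs', hw, hw']
  have key : ∀ u ∈ S, ∀ w ∈ S, a.coeff u * d.coeff w = a.coeff w * d.coeff u := by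
    intro u hu w hw
    have h1 := typeN_ff_coeff (φ j) S hgood (aj j) d
      (fun h hh => by obtain ⟨u, hu, rfl⟩ := ha2 j h hh; exact ⟨u, haS u hu, rfl⟩) hdS u w hu hw
    have h2 := typeN_ff_coeff (φ j) S hgood (dj j) a
      (fun h hh => by obtain ⟨u, hu, rfl⟩ := hd2 j h hh; exact ⟨u, hdS u hu, rfl⟩) haS u w hu hw
    rw [hrel j, mul_comm a (dj j), h2, ha1, hd1] at h1
    have h3 : ζ j u * (d.coeff u * a.coeff w) = ζ j u * (a.coeff u * d.coeff w) := by
      rw [← mul_assoc, ← mul_assoc]; exact h1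
    have h4 := mul_left_cancel₀ (hζ j u) h3
    rw [← h4, mul_comm]
  have hne : d.coeff ≠ 0 := by
    intro h; exact hd (by simpa using h)
  obtain ⟨w, hw⟩ := Finsupp.ne_iff.mp hne
  have hw' : d.coeff w ≠ 0 := hw
  refine ⟨a.coeff w / d.coeff w, ?_⟩
  ext u
  rw [MonoidAlgebra.coeff_smul_apply, smul_eq_mul]
  by_cases hu : u ∈ S
  · have := key u hu w (hdS w hw')
    field_simp
    rw [this]
  · have e1 : a.coeff u = 0 := by
      by_contra h; exact hu (haS u h)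
    have e2 : d.coeff u = 0 := by
      by_contra h; exact hu (hdS u h)
    rw [e1, e2, mul_zero]

lemma charTwo_algebra_finiteType (K : Type) [CommRing K] [Nontrivial K] [Algebra.FiniteType ℤ K]
    (h2 : (2 : K) = 0) : ∃ (_ : Algebra (ZMod 2) K), Algebra.FiniteType (ZMod 2) K := by
  have : CharP K 2 := CharTwo.of_one_ne_zero_of_two_eq_zero one_ne_zero h2
  refine ⟨ZMod.algebra _ 2, ?_⟩
  let _ : Algebra (ZMod 2) K := ZMod.algebra _ 2
  exact Algebra.FiniteType.of_restrictScalars_finiteType ℤ (ZMod 2) K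

lemma typeN_maxid (K : Type) [CommRing K] [IsDomain K] [Algebra.FiniteType ℤ K]
    (h2 : (2 : K) = 0) (δ : K) (hδ : δ ≠ 0) :
    ∃ 𝔫 : Ideal K, 𝔫.IsMaximal ∧ δ ∉ 𝔫 ∧ Finite (K ⧸ 𝔫) := by
  obtain ⟨_, hft⟩ := charTwo_algebra_finiteType K h2
  have hJ : IsJacobsonRing K := isJacobsonRing_of_finiteType (A := ZMod 2)
  have h1 : (⊥ : Ideal K).jacobson = ⊥ := hJ.out (Ideal.isPrime_bot.isRadical)
  have h3 : δ ∉ (⊥ : Ideal K).jacobson := by rw [h1]; simpa using hδ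
  rw [Ideal.jacobson, Ideal.mem_sInf] at h3
  push Not at h3
  obtain ⟨𝔫, ⟨-, hmax⟩, hδn⟩ := h3
  refine ⟨𝔫, hmax, hδn, ?_⟩
  let _ : Field (K ⧸ 𝔫) := Ideal.Quotient.field 𝔫
  have : Module.Finite (ZMod 2) (K ⧸ 𝔫) := finite_of_finite_type_of_isJacobsonRing _ _
  exact Module.finite_of_finite (ZMod 2)

lemma typeN_embed {R N : Type} [CommRing R] [IsDomain R] [AddCommGroup N] [Module R N]
    [Module.Finite R N] (htf : ∀ (a : R) (x : N), a • x = 0 → a = 0 ∨ x = 0) :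
    ∃ (r : Type) (_ : Fintype r) (ι : N →ₗ[R] (r → R)), Function.Injective ι := by
  classical
  obtain ⟨m, s, hs⟩ := Module.Finite.exists_fin (R := R) (M := N)
  obtain ⟨I, hI, hI2⟩ := exists_maximal_linearIndepOn R s
  choose! c hc0 hc using hI2
  set C : R := ∏ i : Fin m, if i ∈ I then 1 else c i with hC
  have hC0 : C ≠ 0 := by
    rw [hC, Finset.prod_ne_zero_iff]
    intro i _
    split_ifs with h
    · exact one_ne_zero
    · exact hc0 i h
  have hmem : ∀ n : N, C • n ∈ Submodule.span R (s '' I) := by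
    intro n
    have hn : n ∈ Submodule.span R (Set.range s) := by rw [hs]; trivial
    induction hn using Submodule.span_induction with
    | mem x hx =>
      obtain ⟨i, rfl⟩ := hx
      by_cases h : i ∈ I
      · exact Submodule.smul_mem _ _ (Submodule.subset_span ⟨i, h, rfl⟩)
      · have : C = (∏ j ∈ Finset.univ.erase i, if j ∈ I then 1 else c j) * c i := by
          rw [hC, ← Finset.prod_erase_mul _ _ (Finset.mem_univ i), if_neg h]
        rw [this, mul_smul]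
        exact Submodule.smul_mem _ _ (hc i h)
    | zero => simp
    | add x y _ _ hx hy => rw [smul_add]; exact Submodule.add_mem _ hx hy
    | smul a x _ hx => rw [smul_comm]; exact Submodule.smul_mem _ _ hx
  have hI' : LinearIndependent R (fun i : I => s i) := hI
  have hrange : Set.range (fun i : I => s i) = s '' I := by
    ext x; simp
  refine ⟨I, inferInstance, ?_, ?_⟩
  · exact (Finsupp.lcoeFun).comp ((hI'.repr).comp
      ((LinearMap.lsmul R N C).codRestrict (Submodule.span R (Set.range fun i : I => s i))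
        (fun n => by rw [hrange]; exact hmem n)))
  · intro x y hxy
    have h1 : hI'.repr ⟨C • x, by rw [hrange]; exact hmem x⟩ =
        hI'.repr ⟨C • y, by rw [hrange]; exact hmem y⟩ := DFunLike.coe_injective hxy
    have h2 := hI'.linearCombination_comp_repr
    have h3 := LinearMap.ext_iff.mp h2
    have e1 := h3 (⟨C • x, by rw [hrange]; exact hmem x⟩)
    have e2 := h3 (⟨C • y, by rw [hrange]; exact hmem y⟩)
    have h4 : C • x = C • y := by
      have e3 : (Submodule.subtype _ ⟨C • x, (by rw [hrange]; exact hmem x : C • x ∈ Submodule.span R (Set.range fun i : I => s i))⟩ : N) = C • x := rfl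
      have e4 : (Submodule.subtype _ ⟨C • y, (by rw [hrange]; exact hmem y : C • y ∈ Submodule.span R (Set.range fun i : I => s i))⟩ : N) = C • y := rfl
      rw [← e3, ← e4, ← e1, ← e2]
      exact congrArg (Finsupp.linearCombination R fun i : I => s i) h1
    have h5 : C • (x - y) = 0 := by rw [smul_sub, h4, sub_self]
    rcases htf _ _ h5 with h | h
    · exact absurd h hC0
    · exact sub_eq_zero.mp h

/-- A functional separating a finite independent family in a free module over a domain. -/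
lemma typeN_functional {K Φ : Type} [CommRing K] [IsDomain K] [AddCommGroup Φ] [Module K Φ]
    {G : Type} (b : Module.Basis G K Φ) {n : ℕ} (z : Fin n → Φ) (hz : LinearIndependent K z) :
    ∃ (ψ : Φ →ₗ[K] (Fin n → K)) (δ : K), δ ≠ 0 ∧ ∀ i, ψ (z i) = Pi.single i δ := by
  classical
  let F := FractionRing K
  let j : Φ →ₗ[K] (G →₀ F) :=
    (Finsupp.mapRange.linearMap (Algebra.linearMap K F)).comp b.repr.toLinearMap
  have hj : Function.Injective j := by
    intro x y hxy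
    apply b.repr.injective
    ext g
    have h1 := DFunLike.congr_fun hxy g
    have h2 : algebraMap K F (b.repr x g) = algebraMap K F (b.repr y g) := by simpa [j] using h1
    exact IsFractionRing.injective K F h2
  have h1 : LinearIndependent K (j ∘ z) := hz.map' j (LinearMap.ker_eq_bot.mpr hj)
  have h2 : LinearIndependent F (j ∘ z) := (LinearIndependent.iff_fractionRing (R := K) (K := F)).mp h1
  obtain ⟨g, hg⟩ := (Finsupp.linearCombination F (j ∘ z)).exists_leftInverse_of_injective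
    (LinearMap.ker_eq_bot.mpr h2)
  have hg' : ∀ i, g (j (z i)) = Finsupp.single i 1 := by
    intro i
    have := LinearMap.congr_fun hg (Finsupp.single i 1)
    simpa using this
  let S : Finset G := Finset.univ.biUnion fun i => (b.repr (z i)).support
  let E : Finset F := (S ×ˢ (Finset.univ : Finset (Fin n))).image
    fun p => g (Finsupp.single p.1 1) p.2
  obtain ⟨δ, hδ⟩ := IsLocalization.exist_integer_multiples_of_finset (nonZeroDivisors K) E
  have hδ' : ∀ s : G, ∃ f : Fin n → K, s ∈ S → ∀ k,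
      algebraMap K F (f k) = algebraMap K F (δ : K) * g (Finsupp.single s 1) k := by
    intro s
    by_cases hs : s ∈ S
    · have : ∀ k, ∃ c : K, algebraMap K F c = algebraMap K F (δ : K) * g (Finsupp.single s 1) k := by
        intro k
        obtain ⟨c, hc⟩ := hδ (g (Finsupp.single s 1) k)
          (Finset.mem_image.mpr ⟨(s, k), by simp [hs], rfl⟩)
        exact ⟨c, by rw [hc, Algebra.smul_def]⟩
      choose f hf using this
      exact ⟨f, fun _ => hf⟩
    · exact ⟨0, fun h => absurd h hs⟩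
  choose f hf using hδ'
  refine ⟨b.constr K f, δ, nonZeroDivisors.coe_ne_zero δ, fun i => ?_⟩
  have hsupp : (b.repr (z i)).support ⊆ S := by
    intro x hx
    exact Finset.mem_biUnion.mpr ⟨i, Finset.mem_univ _, hx⟩
  funext k
  apply IsFractionRing.injective K F
  rw [Module.Basis.constr_apply, Finsupp.sum, Finset.sum_apply, map_sum]
  have h3 : j (z i) = ∑ s ∈ (b.repr (z i)).support,
      algebraMap K F (b.repr (z i) s) • (Finsupp.single s (1 : F)) := by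
    ext x
    simp only [j, LinearMap.comp_apply, Finsupp.mapRange.linearMap_apply,
      Finsupp.coe_finsetSum, Finset.sum_apply, Finsupp.smul_apply, Finsupp.single_apply]
    by_cases hx : x ∈ (b.repr (z i)).support
    · rw [Finset.sum_eq_single x]
      · simp
      · intro y _ hyx; simp [hyx]
      · intro h; exact absurd hx h
    · rw [Finset.sum_eq_zero]
      · have : b.repr (z i) x = 0 := by simpa using hx
        simp [this]
      · intro y hy
        have : y ≠ x := by rintro rfl; exact hx hy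
        simp [this]
  have h4 := hg' i
  rw [h3, map_sum] at h4
  have h5 := DFunLike.congr_fun h4 k
  simp only [map_smul, Finsupp.coe_finsetSum, Finset.sum_apply, Finsupp.smul_apply, smul_eq_mul] at h5
  have h6 : ∑ s ∈ (b.repr (z i)).support, algebraMap K F (((b.repr (z i)) s • f s) k) =
      algebraMap K F (δ : K) * ∑ s ∈ (b.repr (z i)).support,
        algebraMap K F (b.repr (z i) s) * g (Finsupp.single s 1) k := by
    rw [Finset.mul_sum]
    refine Finset.sum_congr rfl fun s hs => ?_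
    rw [Pi.smul_apply, smul_eq_mul, map_mul, hf s (hsupp hs) k]
    ring
  rw [h6, h5]
  by_cases hik : i = k
  · subst hik; simp
  · rw [Finsupp.single_apply, if_neg hik, Pi.single_apply, if_neg (Ne.symm hik)]
    simp

lemma typeN_Pi {R : Type} [CommRing R] (K₀ : Subring R) {G : Type} [CommGroup G] (σ : G →* Rˣ)
    (hspan : ∀ a : R, a ∈ Submodule.span K₀ (Set.range fun g : G => ((σ g : Rˣ) : R)))
    (hind : LinearIndependent K₀ (fun g : G => ((σ g : Rˣ) : R))) (𝔫 : Ideal K₀) :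
    ∃ P : R →+* MonoidAlgebra (K₀ ⧸ 𝔫) G,
      (∀ (k : K₀) (g : G), P ((k : R) * (σ g : Rˣ)) =
        MonoidAlgebra.single g (Ideal.Quotient.mk 𝔫 k)) ∧
      (∀ ρ : R, P ρ = 0 → ρ ∈ 𝔫 • (⊤ : Submodule K₀ R)) := by
  classical
  let σ' : G →* R := (Units.coeHom R).comp σ
  let Ψ : MonoidAlgebra K₀ G →ₐ[K₀] R := MonoidAlgebra.lift K₀ R G σ'
  have hΨ : ∀ x : MonoidAlgebra K₀ G, Ψ x = Finsupp.linearCombination K₀
      (fun g : G => ((σ g : Rˣ) : R)) x.coeff := by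
    intro x
    rw [Finsupp.linearCombination_apply]
    exact MonoidAlgebra.lift_apply σ' x
  have hinj : Function.Injective Ψ := by
    intro x y hxy
    rw [hΨ, hΨ] at hxy
    have := hind hxy
    exact MonoidAlgebra.coeff_injective this
  have hsurj : Function.Surjective Ψ := by
    intro a
    obtain ⟨c, hc⟩ := (Finsupp.mem_span_range_iff_exists_finsupp).mp (hspan a)
    refine ⟨MonoidAlgebra.ofCoeff c, ?_⟩
    rw [hΨ, Finsupp.linearCombination_apply]
    exact hc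
  let e : MonoidAlgebra K₀ G ≃ₐ[K₀] R := AlgEquiv.ofBijective Ψ ⟨hinj, hsurj⟩
  refine ⟨(MonoidAlgebra.mapRingHom G (Ideal.Quotient.mk 𝔫)).comp
    (e.symm : R →+* MonoidAlgebra K₀ G), ?_, ?_⟩
  · intro k g
    have h1 : (k : R) * (σ g : Rˣ) = e (MonoidAlgebra.single g k) := by
      show _ = Ψ _
      rw [MonoidAlgebra.lift_single]
      rfl
    rw [h1]
    simp
  · intro ρ hρ
    obtain ⟨x, rfl⟩ := e.surjective ρ
    have h1 : MonoidAlgebra.mapRingHom G (Ideal.Quotient.mk 𝔫) x = 0 := by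
      simpa using hρ
    have h2 : e x = Ψ x := rfl
    rw [h2, hΨ, Finsupp.linearCombination_apply, Finsupp.sum]
    refine Submodule.sum_mem _ fun g _ => ?_
    refine Submodule.smul_mem_smul ?_ Submodule.mem_top
    have h3 := congrArg (fun y => y.coeff g) h1
    simp only [MonoidAlgebra.coeff_mapRingHom] at h3
    exact Ideal.Quotient.eq_zero_iff_mem.mp h3

/-- coefficients of the image of a semilinear map -/
lemma typeN_coeff {R : Type} [CommRing R] (K₀ : Subring R) {G : Type} [CommGroup G] (σ : G →* Rˣ)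
    (hspan : ∀ a : R, a ∈ Submodule.span K₀ (Set.range fun g : G => ((σ g : Rˣ) : R)))
    (𝔫 : Ideal K₀) (P : R →+* MonoidAlgebra (K₀ ⧸ 𝔫) G)
    (hP : ∀ (k : K₀) (g : G), P ((k : R) * (σ g : Rˣ)) =
        MonoidAlgebra.single g (Ideal.Quotient.mk 𝔫 k))
    (f : R →+* R) (fK : K₀ →+* K₀) (hfK : ∀ k : K₀, ((fK k : K₀) : R) = f k)
    (hmk : ∀ k : K₀, Ideal.Quotient.mk 𝔫 (fK k) = Ideal.Quotient.mk 𝔫 k)
    (a : G → G) (ha : Function.Injective a) (z : G → K₀)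
    (hz : ∀ g : G, f (σ g : Rˣ) = z g * (σ (a g) : Rˣ)) (ρ : R) (u : G) :
    (P (f ρ)).coeff (a u) = Ideal.Quotient.mk 𝔫 (z u) * (P ρ).coeff u := by
  classical
  have h := hspan ρ
  have hPK : ∀ k : K₀, P (k : R) = MonoidAlgebra.single 1 (Ideal.Quotient.mk 𝔫 k) := by
    intro k
    have := hP k 1
    simpa using this
  induction h using Submodule.span_induction with
  | mem x hx =>
    obtain ⟨g, rfl⟩ := hx
    have h1 := hP 1 g
    rw [hz g, hP]
    simp only [OneMemClass.coe_one, one_mul, map_one] at h1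
    rw [h1]
    simp only [MonoidAlgebra.coeff_single, Finsupp.single_apply]
    by_cases hgu : g = u
    · subst hgu; simp
    · rw [if_neg hgu, if_neg (fun h => hgu (ha h))]; simp
  | zero => simp
  | add x y _ _ hx hy =>
    rw [map_add, map_add, map_add, MonoidAlgebra.coeff_add, MonoidAlgebra.coeff_add,
      Finsupp.add_apply, Finsupp.add_apply, hx, hy, mul_add]
  | smul k x _ hx =>
    have h1 : k • x = (k : R) * x := rfl
    rw [h1, map_mul, map_mul, map_mul, ← hfK, hPK, hPK, hmk]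
    rw [MonoidAlgebra.coeff_single_mul_apply, MonoidAlgebra.coeff_single_mul_apply]
    simp only [inv_one, one_mul]
    rw [hx]
    ring

/-- finiteness of ring homs from a finitely generated ring to a finite ring -/
lemma finite_ringHom (K κ : Type) [CommRing K] [Algebra.FiniteType ℤ K] [CommRing κ] [Finite κ] :
    Finite (K →+* κ) := by
  obtain ⟨n, f, hf⟩ := (Algebra.FiniteType.iff_quotient_mvPolynomial'' (R := ℤ) (S := K)).mp
    inferInstance
  let F : (K →+* κ) → (Fin n → κ) := fun π i => π (f (MvPolynomial.X i))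
  apply Finite.of_injective F
  intro π π' h
  have h2 : π.comp (f : MvPolynomial (Fin n) ℤ →+* K) = π'.comp (f : MvPolynomial (Fin n) ℤ →+* K) := by
    apply MvPolynomial.ringHom_ext
    · intro r
      simp
    · intro i
      exact congrFun h i
  ext x
  obtain ⟨y, rfl⟩ := hf x
  exact RingHom.congr_fun h2 y

/-- a finite index subgroup acts trivially on a finite residue ring -/
lemma typeN_stab {R N : Type} [CommRing R] [AddCommGroup N] [Module R N]
    (U : Subgroup Rˣ) (hU : U.FG) (H : Subgroup Q) (hH : H.FiniteIndex) (S : Sys H R N)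
    (hUs : ∀ q, UStable (S.r q) U) (𝔫 : Ideal (KU U)) (hfin : Finite (KU U ⧸ 𝔫)) :
    ∃ (H' : Subgroup Q) (_ : H'.FiniteIndex) (hle : H' ≤ H), ∀ (q : Q) (hq : q ∈ H') (k : KU U),
      Ideal.Quotient.mk 𝔫 (KUr U (S.r ⟨q, hle hq⟩) (hUs _) k) = Ideal.Quotient.mk 𝔫 k := by
  have := KU_finiteType U hU
  have : Finite (KU U →+* (KU U ⧸ 𝔫)) := finite_ringHom _ _
  let X := (KU U →+* (KU U ⧸ 𝔫))
  have hfin2 : Finite (Function.End X) := by unfold Function.End; infer_instance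
  let F : H →* Function.End X :=
    { toFun := fun q π => π.comp (KUr U (S.r q⁻¹) (hUs _))
      map_one' := by
        funext π
        ext x
        have : (KUr U (S.r (1 : H)⁻¹) (hUs _)) x = x := by
          ext; simp
        show π ((KUr U (S.r (1 : H)⁻¹) (hUs _)) x) = π x
        rw [this]
      map_mul' := by
        intro q q'
        funext π
        ext x
        have : (KUr U (S.r (q * q')⁻¹) (hUs _)) x =
            (KUr U (S.r q'⁻¹) (hUs _)) ((KUr U (S.r q⁻¹) (hUs _)) x) := by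
          ext; simp
        show π _ = π _
        rw [this] }
  obtain ⟨H', hH', hle, h⟩ := fi_hom H hH F
  refine ⟨H', hH', hle, fun q hq k => ?_⟩
  have h1 := h q hq
  have h2 := congrFun h1 (Ideal.Quotient.mk 𝔫)
  have h3 := RingHom.congr_fun h2 (KUr U (S.r ⟨q, hle hq⟩) (hUs _) k)
  have h4 : (KUr U (S.r (⟨q, hle hq⟩ : H)⁻¹) (hUs _)) (KUr U (S.r ⟨q, hle hq⟩) (hUs _) k) = k := by
    ext
    exact S.r_inv_apply _ _
  have h5 : (Ideal.Quotient.mk 𝔫) ((KUr U (S.r (⟨q, hle hq⟩ : H)⁻¹) (hUs _))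
      (KUr U (S.r ⟨q, hle hq⟩) (hUs _) k)) = (Ideal.Quotient.mk 𝔫)
      (KUr U (S.r ⟨q, hle hq⟩) (hUs _) k) := h3
  rw [h4] at h5
  exact h5.symm

/-- the torsion submodule relative to a prime -/
def typeN_Nt {R N : Type} [CommRing R] [AddCommGroup N] [Module R N] (𝔓 : Ideal R)
    (h𝔓 : 𝔓.IsPrime) : Submodule R N where
  carrier := {n | ∃ ρ : R, ρ ∉ 𝔓 ∧ ρ • n ∈ 𝔓 • (⊤ : Submodule R N)}
  zero_mem' := ⟨1, fun h => h𝔓.ne_top ((Ideal.eq_top_iff_one _).mpr h), by simp⟩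
  add_mem' := by
    rintro x y ⟨ρ, hρ, hx⟩ ⟨ρ', hρ', hy⟩
    refine ⟨ρ * ρ', fun h => (h𝔓.mem_or_mem h).elim hρ hρ', ?_⟩
    rw [smul_add]
    refine Submodule.add_mem _ ?_ ?_
    · rw [mul_comm, mul_smul]; exact Submodule.smul_mem _ _ hx
    · rw [mul_smul]; exact Submodule.smul_mem _ _ hy
  smul_mem' := by
    rintro c x ⟨ρ, hρ, hx⟩
    refine ⟨ρ, hρ, ?_⟩
    rw [smul_comm]
    exact Submodule.smul_mem _ _ hx

/-- the lattice part becomes trivial modulo the prime, after shrinking -/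
lemma typeN_trivB {R N : Type} [CommRing R] [AddCommGroup N] [Module R N]
    (U : Subgroup Rˣ) {G : Type} [CommGroup G] (σ : G →* Rˣ)
    (hspan : ∀ a : R, a ∈ Submodule.span (KU U) (Set.range fun g : G => ((σ g : Rˣ) : R)))
    (H : Subgroup Q) (S : Sys H R N) (hUs : ∀ q, UStable (S.r q) U)
    (act : H →* Monoid.End G)
    (hact : ∀ (q : H) (g : G), ∃ z ∈ U, Units.map (S.r q : R →* R) (σ g) = z * σ (act q g))
    (hactB : ∀ (v : B) (hv : bb v ∈ H), act ⟨bb v, hv⟩ = 1)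
    (𝔫 : Ideal (KU U)) (hfin : Finite (KU U ⧸ 𝔫))
    (P : R →+* MonoidAlgebra (KU U ⧸ 𝔫) G)
    (hP : ∀ (k : KU U) (g : G), P ((k : R) * (σ g : Rˣ)) =
        MonoidAlgebra.single g (Ideal.Quotient.mk 𝔫 k))
    (H' : Subgroup Q) (hH' : H'.FiniteIndex) (hle : H' ≤ H)
    (hmk : ∀ (q : Q) (hq : q ∈ H') (k : KU U),
      Ideal.Quotient.mk 𝔫 (KUr U (S.r ⟨q, hle hq⟩) (hUs _) k) = Ideal.Quotient.mk 𝔫 k) :
    ∃ (H'' : Subgroup Q) (_ : H''.FiniteIndex) (hle' : H'' ≤ H'), ∀ (v : B) (hv : bb v ∈ H'')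
      (ρ : R), P (S.r ⟨bb v, hle (hle' hv)⟩ ρ) = P ρ := by
  obtain ⟨K', hK', -, hb⟩ := exists_mult H' hH'
  set c : ℕ := Nat.card (KU U ⧸ 𝔫)ˣ with hc
  have hc0 : 0 < c := Nat.card_pos
  obtain ⟨H₂, hH₂, hdiv⟩ := exists_HB (K' * c) (Nat.mul_pos hK' hc0)
  refine ⟨H' ⊓ H₂, inferInstance, inf_le_left, ?_⟩
  intro v hv ρ
  obtain ⟨w, hw⟩ := hdiv v hv.2
  have hbH' : bb (K' • w) ∈ H' := hb w
  let b1 : H := ⟨bb (K' • w), hle hbH'⟩
  have hbv : (⟨bb v, hle ((inf_le_left : H' ⊓ H₂ ≤ H') hv)⟩ : H) = b1 ^ c := by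
    apply Subtype.ext
    show bb v = (bb (K' • w)) ^ c
    rw [← bb_nsmul, hw, smul_smul, mul_comm]
  have hact1 : act b1 = 1 := hactB _ _
  have key : ∀ (g : G) (n : ℕ), ∃ z : KU U, S.r (b1 ^ n) (σ g : Rˣ) = (z : R) * (σ g : Rˣ) ∧
      ∃ z1 : (KU U ⧸ 𝔫)ˣ, (∀ g' : Unit, Ideal.Quotient.mk 𝔫 z = ((z1 ^ n : (KU U ⧸ 𝔫)ˣ) : KU U ⧸ 𝔫)) := by
    intro g
    obtain ⟨z, hz, hzg⟩ := hact b1 g
    rw [hact1] at hzg
    have hz1 : S.r b1 (σ g : Rˣ) = (z : R) * (σ g : Rˣ) := congrArg (fun u : Rˣ => (u : R)) hzg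
    let zK : KU U := ⟨z, KU_mem hz⟩
    let zK' : KU U := ⟨((z⁻¹ : Rˣ) : R), KU_mem (inv_mem hz)⟩
    have hzz : zK * zK' = 1 := by
      apply Subtype.ext; show (z : R) * ((z⁻¹ : Rˣ) : R) = 1; simp
    let z1 : (KU U ⧸ 𝔫)ˣ := ⟨Ideal.Quotient.mk 𝔫 zK, Ideal.Quotient.mk 𝔫 zK', by
      rw [← map_mul, hzz, map_one], by rw [← map_mul, mul_comm, hzz, map_one]⟩
    intro n
    have : ∃ y : KU U, S.r (b1 ^ n) (σ g : Rˣ) = (y : R) * (σ g : Rˣ) ∧
        Ideal.Quotient.mk 𝔫 y = ((z1 ^ n : (KU U ⧸ 𝔫)ˣ) : KU U ⧸ 𝔫) := by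
      induction n with
      | zero => exact ⟨1, by simp, by simp⟩
      | succ n ih =>
        obtain ⟨y, hy1, hy2⟩ := ih
        refine ⟨KUr U (S.r b1) (hUs _) y * zK, ?_, ?_⟩
        · rw [pow_succ', map_mul]
          show S.r b1 (S.r (b1 ^ n) (σ g : Rˣ)) = _
          rw [hy1, map_mul, hz1]
          show _ = (S.r b1 (y : R) * (z : R)) * _
          ring
        · rw [map_mul, hmk _ hbH' y, hy2, pow_succ, Units.val_mul]
    obtain ⟨y, hy1, hy2⟩ := this
    exact ⟨y, hy1, z1, fun _ => hy2⟩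
  have key2 : ∀ g : G, ∃ z : KU U, S.r (b1 ^ c) (σ g : Rˣ) = (z : R) * (σ g : Rˣ) ∧
      Ideal.Quotient.mk 𝔫 z = 1 := by
    intro g
    obtain ⟨z, hz1, z1, hz2⟩ := key g c
    refine ⟨z, hz1, ?_⟩
    rw [hz2 (), hc, pow_card_eq_one', Units.val_one]
  choose z hz1 hz2 using key2
  rw [hbv]
  apply MonoidAlgebra.coeff_injective
  ext u
  have hpow : ∀ k : KU U, Ideal.Quotient.mk 𝔫 (KUr U (S.r (b1 ^ c)) (hUs _) k) =
      Ideal.Quotient.mk 𝔫 k := by
    intro k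
    have h1 := hmk (bb v) ((inf_le_left : H' ⊓ H₂ ≤ H') hv) k
    have h2 : S.r (b1 ^ c) = S.r ⟨bb v, hle ((inf_le_left : H' ⊓ H₂ ≤ H') hv)⟩ := by rw [hbv]
    have h3 : KUr U (S.r (b1 ^ c)) (hUs _) k =
        KUr U (S.r ⟨bb v, hle ((inf_le_left : H' ⊓ H₂ ≤ H') hv)⟩) (hUs _) k := by
      apply Subtype.ext
      show S.r (b1 ^ c) (k : R) = S.r ⟨bb v, hle ((inf_le_left : H' ⊓ H₂ ≤ H') hv)⟩ (k : R)
      rw [h2]
    rw [h3, h1]
  have h := typeN_coeff (KU U) σ hspan 𝔫 P hP (S.r (b1 ^ c)) (KUr U (S.r (b1 ^ c)) (hUs _))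
    (fun _ => rfl) hpow id Function.injective_id z hz1 ρ u
  rw [hz2, one_mul] at h
  exact h

/-- coefficient description of the semilinear action modulo a residue field -/
lemma typeN_coef2 {R N : Type} [CommRing R] [AddCommGroup N] [Module R N]
    (U : Subgroup Rˣ) {G : Type} [CommGroup G] (σ : G →* Rˣ)
    (hspan : ∀ a : R, a ∈ Submodule.span (KU U) (Set.range fun g : G => ((σ g : Rˣ) : R)))
    (H : Subgroup Q) (S : Sys H R N) (hUs : ∀ q, UStable (S.r q) U)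
    (act : H →* Monoid.End G)
    (hact : ∀ (q : H) (g : G), ∃ z ∈ U, Units.map (S.r q : R →* R) (σ g) = z * σ (act q g))
    (𝔫 : Ideal (KU U)) (hne : 𝔫.IsMaximal)
    (P : R →+* MonoidAlgebra (KU U ⧸ 𝔫) G)
    (hP : ∀ (k : KU U) (g : G), P ((k : R) * (σ g : Rˣ)) =
        MonoidAlgebra.single g (Ideal.Quotient.mk 𝔫 k))
    (H' : Subgroup Q) (hle : H' ≤ H)
    (hmk : ∀ (q : Q) (hq : q ∈ H') (k : KU U),
      Ideal.Quotient.mk 𝔫 (KUr U (S.r ⟨q, hle hq⟩) (hUs _) k) = Ideal.Quotient.mk 𝔫 k)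
    (q : Q) (hq : q ∈ H') :
    ∃ ζ : G → (KU U ⧸ 𝔫), (∀ u, ζ u ≠ 0) ∧ ∀ (ρ : R) (u : G),
      (P (S.r ⟨q, hle hq⟩ ρ)).coeff (act ⟨q, hle hq⟩ u) = ζ u * (P ρ).coeff u := by
  have hnt : Nontrivial (KU U ⧸ 𝔫) := Ideal.Quotient.nontrivial_iff.mpr hne.ne_top
  choose z hzU hz using hact ⟨q, hle hq⟩
  let zK : G → KU U := fun u => ⟨z u, KU_mem (hzU u)⟩
  refine ⟨fun u => Ideal.Quotient.mk 𝔫 (zK u), ?_, ?_⟩
  · intro u h0
    let zK' : KU U := ⟨((z u)⁻¹ : Rˣ), KU_mem (inv_mem (hzU u))⟩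
    have hzz : zK u * zK' = 1 := by
      apply Subtype.ext; show (z u : R) * (((z u)⁻¹ : Rˣ) : R) = 1; simp
    have h1 : Ideal.Quotient.mk 𝔫 (zK u) * Ideal.Quotient.mk 𝔫 zK' = 1 := by
      rw [← map_mul, hzz, map_one]
    have h0' : Ideal.Quotient.mk 𝔫 (zK u) = 0 := h0
    rw [h0', zero_mul] at h1
    exact zero_ne_one h1
  · intro ρ u
    have hinj : Function.Injective (act ⟨q, hle hq⟩) := by
      intro a b hab
      have h1 : ∀ g : G, act (⟨q, hle hq⟩ : H)⁻¹ (act ⟨q, hle hq⟩ g) = g := by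
        intro g
        have : (act (⟨q, hle hq⟩ : H)⁻¹ * act ⟨q, hle hq⟩) g = g := by rw [← map_mul]; simp
        exact this
      rw [← h1 a, hab, h1]
    exact typeN_coeff (KU U) σ hspan 𝔫 P hP (S.r ⟨q, hle hq⟩) (KUr U (S.r ⟨q, hle hq⟩) (hUs _))
      (fun _ => rfl) (hmk q hq) (act ⟨q, hle hq⟩) hinj zK
      (fun g => congrArg (fun u : Rˣ => (u : R)) (hz g)) ρ u

/-- the fixed fraction argument -/
lemma typeN_fixed {R N : Type} [CommRing R] [AddCommGroup N] [Module R N]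
    (U : Subgroup Rˣ) {G : Type} [CommGroup G] (σ : G →* Rˣ)
    (hspan : ∀ a : R, a ∈ Submodule.span (KU U) (Set.range fun g : G => ((σ g : Rˣ) : R)))
    (H : Subgroup Q) (S : Sys H R N) (hUs : ∀ q, UStable (S.r q) U)
    (act : H →* Monoid.End G)
    (hact : ∀ (q : H) (g : G), ∃ z ∈ U, Units.map (S.r q : R →* R) (σ g) = z * σ (act q g))
    (hactT : ∀ (m : ℕ), 0 < m → ∀ (hm : tt ^ m ∈ H) (g : G), act ⟨tt ^ m, hm⟩ g = g → g = 1)
    (𝔫 : Ideal (KU U)) (hne : 𝔫.IsMaximal)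
    (P : R →+* MonoidAlgebra (KU U ⧸ 𝔫) G)
    (hP : ∀ (k : KU U) (g : G), P ((k : R) * (σ g : Rˣ)) =
        MonoidAlgebra.single g (Ideal.Quotient.mk 𝔫 k))
    (H' : Subgroup Q) (hle : H' ≤ H)
    (hmk : ∀ (q : Q) (hq : q ∈ H') (k : KU U),
      Ideal.Quotient.mk 𝔫 (KUr U (S.r ⟨q, hle hq⟩) (hUs _) k) = Ideal.Quotient.mk 𝔫 k)
    (K : ℕ) (hK : 0 < K) (hKH : tt ^ K ∈ H') (a d : R) (hd : P d ≠ 0)
    (hrel : ∀ j : ℕ, P (S.r (⟨tt ^ K, hle hKH⟩ ^ (j + 1)) a) * P d =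
      P a * P (S.r (⟨tt ^ K, hle hKH⟩ ^ (j + 1)) d)) :
    ∃ c : KU U ⧸ 𝔫, P a = c • P d := by
  let _ : Field (KU U ⧸ 𝔫) := Ideal.Quotient.field 𝔫
  set g : H := ⟨tt ^ K, hle hKH⟩ with hg
  have hgj : ∀ j : ℕ, ∃ ζ : G → (KU U ⧸ 𝔫), (∀ u, ζ u ≠ 0) ∧ ∀ (ρ : R) (u : G),
      (P (S.r (g ^ (j + 1)) ρ)).coeff (act (g ^ (j + 1)) u) = ζ u * (P ρ).coeff u := by
    intro j
    exact typeN_coef2 U σ hspan H S hUs act hact 𝔫 hne P hP H' hle hmk ((tt ^ K) ^ (j + 1))
      (pow_mem hKH _)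
  choose ζ hζ0 hζ using hgj
  have hinv : ∀ (j : ℕ) (h : G), act (g ^ (j + 1)) (act (g ^ (j + 1))⁻¹ h) = h := by
    intro j h
    have : (act (g ^ (j + 1)) * act (g ^ (j + 1))⁻¹) h = h := by rw [← map_mul]; simp
    exact this
  have hinv' : ∀ (j : ℕ) (h : G), act (g ^ j)⁻¹ (act (g ^ j) h) = h := by
    intro j h
    have : (act (g ^ j)⁻¹ * act (g ^ j)) h = h := by rw [← map_mul]; simp
    exact this
  have hsupp : ∀ (ρ : R) (j : ℕ) (h : G), (P (S.r (g ^ (j + 1)) ρ)).coeff h ≠ 0 →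
      ∃ u, (P ρ).coeff u ≠ 0 ∧ act (g ^ (j + 1)) u = h := by
    intro ρ j h hh
    refine ⟨act (g ^ (j + 1))⁻¹ h, ?_, hinv j h⟩
    intro h0
    apply hh
    rw [← hinv j h, hζ, h0, mul_zero]
  refine typeN_ff (fun j => (act (g ^ (j + 1)) : G →* G)) ?_ (P a) (P d) hd
    (fun j => P (S.r (g ^ (j + 1)) a)) (fun j => P (S.r (g ^ (j + 1)) d)) ζ hζ0
    (fun j u => hζ j a u) (hsupp a) (fun j u => hζ j d u) (hsupp d) hrel
  intro u hu u'
  apply Set.Subsingleton.finite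
  have aux : ∀ j j' : ℕ, j < j' → act (g ^ (j + 1)) u = u' → act (g ^ (j' + 1)) u = u' → False := by
    intro j j' hlt h1 h2
    have h3 : act (g ^ (j' + 1)) u = act (g ^ (j + 1)) (act (g ^ (j' - j)) u) := by
      have : (act (g ^ (j + 1)) * act (g ^ (j' - j))) u = act (g ^ (j' + 1)) u := by
        rw [← map_mul, ← pow_add]; congr 3; omega
      exact this.symm
    rw [← h1, h3] at h2
    have h4 := congrArg (act (g ^ (j + 1))⁻¹) h2
    rw [hinv', hinv'] at h4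
    have h5 : g ^ (j' - j) = ⟨tt ^ (K * (j' - j)), by rw [pow_mul]; exact pow_mem (hle hKH) _⟩ := by
      apply Subtype.ext
      show (tt ^ K) ^ (j' - j) = tt ^ (K * (j' - j))
      rw [pow_mul]
    rw [h5] at h4
    exact hu (hactT (K * (j' - j)) (Nat.mul_pos hK (by omega)) _ u h4)
  intro j hj j' hj'
  rcases lt_trichotomy j j' with h | h | h
  · exact (aux j j' h hj hj').elim
  · exact h
  · exact (aux j' j h hj' hj).elim

lemma typeN_smul_top {R N : Type} [CommRing R] [AddCommGroup N] [Module R N] {H : Type} [Group H]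
    (S : Sys H R N) (𝔓 : Ideal R) (q : H) (h : ∀ ρ ∈ 𝔓, S.r q ρ ∈ 𝔓) (n : N)
    (hn : n ∈ 𝔓 • (⊤ : Submodule R N)) : S.m q n ∈ 𝔓 • (⊤ : Submodule R N) := by
  induction hn using Submodule.smul_induction_on' with
  | smul ρ hρ x _ =>
    rw [S.semi]
    exact Submodule.smul_mem_smul (h ρ hρ) Submodule.mem_top
  | add x _ y _ hx hy => rw [map_add]; exact Submodule.add_mem _ hx hy

/-- a nontrivial relation modulo a prime among more elements than generators -/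
lemma typeN_relation {R N' : Type} [CommRing R] [AddCommGroup N'] [Module R N'] (𝔓 : Ideal R)
    (hp : 𝔓.IsPrime) (hkill : ∀ ρ ∈ 𝔓, ∀ n : N', ρ • n = 0) {r₀ : ℕ} (x : Fin r₀ → N')
    (e : Fin (r₀ + 1) → N') (he : ∀ i, e i ∈ Submodule.span R (Set.range x)) :
    ∃ ρ : Fin (r₀ + 1) → R, (∑ i, ρ i • e i = 0) ∧ ∃ i, ρ i ∉ 𝔓 := by
  classical
  have ha : ∀ i, ∃ c : Fin r₀ → R, ∑ j, c j • x j = e i := fun i =>
    (Submodule.mem_span_range_iff_exists_fun R).mp (he i)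
  choose a ha using ha
  have hnt : Nontrivial (R ⧸ 𝔓) := Ideal.Quotient.nontrivial_iff.mpr hp.ne_top
  let f : (Fin (r₀ + 1) → (R ⧸ 𝔓)) →ₗ[R ⧸ 𝔓] (Fin r₀ → (R ⧸ 𝔓)) :=
    { toFun := fun c j => ∑ i, c i * Ideal.Quotient.mk 𝔓 (a i j)
      map_add' := by
        intro c c'; funext j; simp [add_mul, Finset.sum_add_distrib]
      map_smul' := by
        intro t c; funext j; simp [Finset.mul_sum, mul_assoc] }
  have hninj : ¬ Function.Injective f := by
    intro hinj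
    have := le_of_fin_injective (R ⧸ 𝔓) f hinj
    omega
  obtain ⟨c, hc, hc0⟩ : ∃ c, f c = 0 ∧ c ≠ 0 := by
    by_contra hcon
    push Not at hcon
    exact hninj ((injective_iff_map_eq_zero f).mpr hcon)
  choose ρ hρ using fun i => Ideal.Quotient.mk_surjective (I := 𝔓) (c i)
  refine ⟨ρ, ?_, ?_⟩
  · have h1 : ∑ i, ρ i • e i = ∑ j, (∑ i, ρ i * a i j) • x j := by
      simp_rw [← ha, Finset.smul_sum, Finset.sum_smul, mul_smul]
      rw [Finset.sum_comm]
    rw [h1]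
    refine Finset.sum_eq_zero fun j _ => hkill _ ?_ _
    rw [← Ideal.Quotient.eq_zero_iff_mem, map_sum]
    have h2 := congrFun hc j
    simp only [map_mul, hρ]
    exact h2
  · by_contra hcon
    push Not at hcon
    apply hc0
    funext i
    rw [← hρ i]
    exact Ideal.Quotient.eq_zero_iff_mem.mpr (hcon i)

theorem typeN {A : Type} [AddCommGroup A] [DistribMulAction Q A] (h0 : T0Prop A)
    {R N : Type} [CommRing R] [IsDomain R] [Algebra (ZMod 2) R] [Algebra.FiniteType (ZMod 2) R]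
    [AddCommGroup N] [Module R N]
    [Module.Finite R N] (htf : ∀ (a : R) (x : N), a • x = 0 → a = 0 ∨ x = 0)
    (U : Subgroup Rˣ) (hU : U.FG)
    {G : Type} [CommGroup G] (hup : UniqueProds G) (σ : G →* Rˣ)
    (hspan : ∀ a : R, a ∈ Submodule.span (KU U) (Set.range fun g : G => ((σ g : Rˣ) : R)))
    (hind : LinearIndependent (KU U) (fun g : G => ((σ g : Rˣ) : R)))
    (H : Subgroup Q) (hH : H.FiniteIndex) (S : Sys H R N) (hUs : ∀ q, UStable (S.r q) U)
    (act : H →* Monoid.End G)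
    (hact : ∀ (q : H) (g : G), ∃ z ∈ U, Units.map (S.r q : R →* R) (σ g) = z * σ (act q g))
    (hactB : ∀ (v : B) (hv : bb v ∈ H), act ⟨bb v, hv⟩ = 1)
    (hactT : ∀ (m : ℕ), 0 < m → ∀ (hm : tt ^ m ∈ H) (g : G), act ⟨tt ^ m, hm⟩ g = g → g = 1)
    (T : AddSubgroup A) (hT : T.FiniteIndex) (θ : A → N) (hθ : Eqv H S.m T θ) :
    ∃ d : ℕ, ∀ y : Fin (d + 1) → N, (∀ i, y i ∈ θ '' (T : Set A)) →
      ¬ LinearIndependent (KU U) y := by
  classical
  obtain ⟨r₀, x, hx⟩ := Module.Finite.exists_fin (R := R) (M := N)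
  refine ⟨r₀, fun y hy hyind => ?_⟩
  obtain ⟨r, _, ι, hι⟩ := typeN_embed htf
  have hspan' : (⊤ : Submodule (KU U) R) ≤
      Submodule.span (KU U) (Set.range fun g : G => ((σ g : Rˣ) : R)) := fun a _ => hspan a
  let basR : Module.Basis G (KU U) R := Module.Basis.mk hind hspan'
  let bas := Pi.basis (fun _ : r => basR)
  let ι' : N →ₗ[KU U] (r → R) := ι.restrictScalars (KU U)
  have hz : LinearIndependent (KU U) (fun i => ι' (y i)) :=
    hyind.map' ι' (LinearMap.ker_eq_bot.mpr hι)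
  obtain ⟨ψ, δ, hδ, hψ⟩ := typeN_functional bas (fun i => ι' (y i)) hz
  have h2R : (2 : R) = 0 := by
    have h1 : algebraMap (ZMod 2) R ((2 : ℕ) : ZMod 2) = 0 := by
      have : ((2 : ℕ) : ZMod 2) = 0 := by decide
      rw [this, map_zero]
    rw [map_natCast] at h1
    exact_mod_cast h1
  have h2K : (2 : KU U) = 0 := Subtype.ext h2R
  have hKft := KU_finiteType U hU
  obtain ⟨𝔫, hmax, hδn, hfin⟩ := typeN_maxid (KU U) h2K δ hδ
  let _ : Field (KU U ⧸ 𝔫) := Ideal.Quotient.field 𝔫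
  obtain ⟨P, hP, hPker⟩ := typeN_Pi (KU U) σ hspan hind 𝔫
  have hPK : ∀ k : KU U, P (k : R) = MonoidAlgebra.single 1 (Ideal.Quotient.mk 𝔫 k) := by
    intro k
    have := hP k 1
    simpa using this
  set 𝔓 : Ideal R := RingHom.ker P with h𝔓
  have hprime : 𝔓.IsPrime := RingHom.ker_isPrime P
  have mem𝔓 : ∀ ρ, ρ ∈ 𝔓 ↔ P ρ = 0 := fun ρ => RingHom.mem_ker
  obtain ⟨H1, hH1, hle1, hmk⟩ := typeN_stab U hU H hH S hUs 𝔫 hfin
  obtain ⟨H2, hH2, hle2, hB⟩ := typeN_trivB U σ hspan H S hUs act hact hactB 𝔫 hfin P hP H1 hH1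
    hle1 hmk
  -- stability of the prime
  have hst : ∀ (q : Q) (hq : q ∈ H1) (ρ : R), ρ ∈ 𝔓 → S.r ⟨q, hle1 hq⟩ ρ ∈ 𝔓 := by
    intro q hq ρ hρ
    rw [mem𝔓] at hρ ⊢
    obtain ⟨ζ, -, hζ⟩ := typeN_coef2 U σ hspan H S hUs act hact 𝔫 hmax P hP H1 hle1 hmk q hq
    apply MonoidAlgebra.coeff_injective
    ext h
    have h3 : act ⟨q, hle1 hq⟩ (act (⟨q, hle1 hq⟩ : H)⁻¹ h) = h := by
      have : (act ⟨q, hle1 hq⟩ * act (⟨q, hle1 hq⟩ : H)⁻¹) h = h := by rw [← map_mul]; simp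
      exact this
    rw [← h3, hζ, hρ]
    simp
  have hst' : ∀ (q : Q) (hq : q ∈ H1) (ρ : R), ρ ∉ 𝔓 → S.r ⟨q, hle1 hq⟩ ρ ∉ 𝔓 := by
    intro q hq ρ hρ hcon
    apply hρ
    have h1 := hst q⁻¹ (inv_mem hq) _ hcon
    have h2 : (⟨q⁻¹, hle1 (inv_mem hq)⟩ : H) = (⟨q, hle1 hq⟩ : H)⁻¹ := rfl
    rw [h2, S.r_inv_apply] at h1
    exact h1
  let Nt : Submodule R N := typeN_Nt 𝔓 hprime
  have hkill0 : ∀ n ∈ 𝔓 • (⊤ : Submodule R N), n ∈ Nt := by
    intro n hn
    exact ⟨1, fun h => hprime.ne_top ((Ideal.eq_top_iff_one _).mpr h), by rwa [one_smul]⟩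
  have hkill : ∀ ρ ∈ 𝔓, ∀ n : N ⧸ Nt, ρ • n = 0 := by
    intro ρ hρ n
    obtain ⟨n, rfl⟩ := Nt.mkQ_surjective n
    rw [← map_smul]
    exact (Submodule.Quotient.mk_eq_zero Nt).mpr (hkill0 _ (Submodule.smul_mem_smul hρ Submodule.mem_top))
  have htf2 : ∀ (ρ : R) (n : N ⧸ Nt), ρ ∉ 𝔓 → ρ • n = 0 → n = 0 := by
    intro ρ n hρ hn
    obtain ⟨n, rfl⟩ := Nt.mkQ_surjective n
    rw [← map_smul] at hn
    obtain ⟨ρ', hρ', h1⟩ := (Submodule.Quotient.mk_eq_zero Nt).mp hn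
    refine (Submodule.Quotient.mk_eq_zero Nt).mpr ⟨ρ' * ρ, fun h => (hprime.mem_or_mem h).elim hρ' hρ, ?_⟩
    rw [mul_smul]; exact h1
  let hle : H2 ≤ H := hle2.trans hle1
  let S2 := S.res hle
  have hstab : ∀ q : H2, ∀ n ∈ Nt, S2.m q n ∈ Nt := by
    rintro ⟨q, hq⟩ n ⟨ρ, hρ, hn⟩
    refine ⟨S.r ⟨q, hle hq⟩ ρ, hst' q (hle2 hq) ρ hρ, ?_⟩
    have h1 : S2.m ⟨q, hq⟩ n = S.m ⟨q, hle hq⟩ n := rfl
    rw [h1, ← S.semi]
    exact typeN_smul_top S 𝔓 _ (hst q (hle2 hq)) _ hn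
  let m2 := endQuot Nt S2.m hstab
  have hlin : ∀ (v : B) (hv : bb v ∈ H2) (a : R) (n : N ⧸ Nt),
      m2 ⟨bb v, hv⟩ (a • n) = a • m2 ⟨bb v, hv⟩ n := by
    intro v hv a n
    obtain ⟨n, rfl⟩ := Nt.mkQ_surjective n
    rw [← map_smul]
    show Nt.mkQ (S.m ⟨bb v, hle hv⟩ (a • n)) = a • Nt.mkQ (S.m ⟨bb v, hle hv⟩ n)
    have e1 : S.m ⟨bb v, hle hv⟩ (a • n) = S.r ⟨bb v, hle hv⟩ a • S.m ⟨bb v, hle hv⟩ n :=
      S.semi _ _ _
    rw [e1, map_smul Nt.mkQ, ← sub_eq_zero, ← sub_smul]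
    apply hkill
    rw [mem𝔓, map_sub, hB v hv a, sub_self]
  have hfinIm := h0 H2 hH2 R (N ⧸ Nt) _ _ inferInstance _ _ inferInstance m2 hlin T hT
    (fun a => Nt.mkQ (θ a)) ((hθ.res hle).quot Nt hstab)
  -- the finite set of values
  set X : Set (N ⧸ Nt) := (fun a => Nt.mkQ (θ a)) '' (T : Set A) with hX
  have hXfin : Finite X := hfinIm
  have hXst : ∀ (q : H2) (n : N ⧸ Nt), n ∈ X → m2 q n ∈ X := by
    rintro q n ⟨a, ha, rfl⟩
    refine ⟨(q : Q) • a, hθ.stab ⟨q, hle q.2⟩ a ha, ?_⟩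
    show Nt.mkQ (θ ((q : Q) • a)) = Nt.mkQ (S.m ⟨q, hle q.2⟩ (θ a))
    rw [← hθ.eqv ⟨q, hle q.2⟩ a ha]
  let F : H2 →* Function.End X :=
    { toFun := fun q n => ⟨m2 q n, hXst q n n.2⟩
      map_one' := by
        funext n; apply Subtype.ext; show m2 1 n = n; rw [map_one]; rfl
      map_mul' := by
        intro q q'; funext n; apply Subtype.ext
        show m2 (q * q') n = m2 q (m2 q' n); rw [map_mul]; rfl }
  have hfinEnd : Finite (Function.End X) := by unfold Function.End; infer_instance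
  obtain ⟨H3, hH3, hle3, hF⟩ := fi_hom H2 hH2 F
  obtain ⟨K, hK, hKH3, -⟩ := exists_mult H3 hH3
  have hKH2 : tt ^ K ∈ H2 := hle3 hKH3
  have hKH1 : tt ^ K ∈ H1 := hle2 hKH2
  set g : H := ⟨tt ^ K, hle1 hKH1⟩ with hg
  set e : Fin (r₀ + 1) → N ⧸ Nt := fun i => Nt.mkQ (y i) with he
  have hfix : ∀ (j : ℕ) (i : Fin (r₀ + 1)), Nt.mkQ (S.m (g ^ j) (y i)) = e i := by
    intro j i
    have hmem : (tt ^ K) ^ j ∈ H3 := pow_mem hKH3 j
    have h1 := hF ((tt ^ K) ^ j) hmem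
    have hyX : e i ∈ X := by
      obtain ⟨a, ha, hay⟩ := hy i
      exact ⟨a, ha, by rw [he]; simp only [hay]⟩
    have h2 := congrFun h1 ⟨e i, hyX⟩
    have h3 := congrArg Subtype.val h2
    exact h3
  have he1 : ∀ (j : ℕ) (ρ : Fin (r₀ + 1) → R), (∑ i, ρ i • e i = 0) →
      ∑ i, S.r (g ^ j) (ρ i) • e i = 0 := by
    intro j ρ hρ
    have h1 : Nt.mkQ (∑ i, ρ i • y i) = 0 := by
      rw [map_sum]; simp only [map_smul]; exact hρ
    have h2 : (∑ i, ρ i • y i) ∈ Nt := (Submodule.Quotient.mk_eq_zero Nt).mp h1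
    have h3 : S.m (g ^ j) (∑ i, ρ i • y i) ∈ Nt :=
      hstab ⟨(tt ^ K) ^ j, pow_mem hKH2 j⟩ _ h2
    rw [map_sum] at h3
    simp only [S.semi] at h3
    have h4 := (Submodule.Quotient.mk_eq_zero Nt).mpr h3
    have h5 : Nt.mkQ (∑ i, S.r (g ^ j) (ρ i) • S.m (g ^ j) (y i)) = 0 := h4
    rw [map_sum] at h5
    simp only [map_smul, hfix] at h5
    exact h5
  -- minimal relation
  let Good : (Fin (r₀ + 1) → R) → Prop := fun ρ => (∑ i, ρ i • e i = 0) ∧ ∃ i, ρ i ∉ 𝔓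
  have hex : ∃ n : ℕ, ∃ ρ : Fin (r₀ + 1) → R, Good ρ ∧
      (Finset.univ.filter fun i => ρ i ∉ 𝔓).card = n := by
    obtain ⟨ρ, h1, h2⟩ := typeN_relation 𝔓 hprime hkill (fun j => Nt.mkQ (x j)) e (by
      intro i
      have h3 : y i ∈ Submodule.span R (Set.range x) := by rw [hx]; trivial
      have h4 := Submodule.mem_map_of_mem (f := Nt.mkQ) h3
      rw [Submodule.map_span, ← Set.range_comp] at h4
      exact h4)
    exact ⟨_, ρ, ⟨h1, h2⟩, rfl⟩
  obtain ⟨ρ, ⟨hρ, i0, hi0⟩, hcard⟩ := Nat.find_spec hex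
  have hmin : ∀ τ : Fin (r₀ + 1) → R, (∑ i, τ i • e i = 0) →
      (Finset.univ.filter fun i => τ i ∉ 𝔓).card < (Finset.univ.filter fun i => ρ i ∉ 𝔓).card →
      ∀ i, τ i ∈ 𝔓 := by
    intro τ hτ hlt i
    by_contra hcon
    have := Nat.find_min hex (m := (Finset.univ.filter fun i => τ i ∉ 𝔓).card) (by
      rw [← hcard]; exact hlt)
    exact this ⟨τ, ⟨hτ, i, hcon⟩, rfl⟩
  have hrel : ∀ (i : Fin (r₀ + 1)) (j : ℕ), P (S.r (g ^ (j + 1)) (ρ i)) * P (ρ i0) =
      P (ρ i) * P (S.r (g ^ (j + 1)) (ρ i0)) := by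
    intro i j
    let τ : Fin (r₀ + 1) → R := fun i => ρ i0 * S.r (g ^ (j + 1)) (ρ i) -
      S.r (g ^ (j + 1)) (ρ i0) * ρ i
    have h1 : ∑ i, τ i • e i = 0 := by
      simp only [τ, sub_smul, mul_smul, Finset.sum_sub_distrib]
      rw [← Finset.smul_sum, ← Finset.smul_sum, he1 (j + 1) ρ hρ, hρ]
      simp
    have hmemH1 : (tt ^ K) ^ (j + 1) ∈ H1 := pow_mem hKH1 _
    have h2 : (Finset.univ.filter fun i => τ i ∉ 𝔓) ⊂ (Finset.univ.filter fun i => ρ i ∉ 𝔓) := by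
      rw [Finset.ssubset_iff_of_subset]
      · refine ⟨i0, by simpa using hi0, ?_⟩
        simp [τ, mul_comm]
      · intro i hi
        simp only [Finset.mem_filter, Finset.mem_univ, true_and] at hi ⊢
        intro hcon
        apply hi
        exact Ideal.sub_mem _ (Ideal.mul_mem_left _ _ (hst ((tt ^ K) ^ (j + 1)) hmemH1 _ hcon))
          (Ideal.mul_mem_left _ _ hcon)
    have h3 := hmin τ h1 (Finset.card_lt_card h2) i
    rw [mem𝔓] at h3
    have h4 : P (ρ i0) * P (S.r (g ^ (j + 1)) (ρ i)) - P (S.r (g ^ (j + 1)) (ρ i0)) * P (ρ i) = 0 := by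
      rw [← map_mul, ← map_mul, ← map_sub]; exact h3
    rw [sub_eq_zero] at h4
    rw [mul_comm, h4, mul_comm]
  have hi0' : P (ρ i0) ≠ 0 := fun h => hi0 ((mem𝔓 _).mpr h)
  have hc : ∀ i, ∃ c : KU U ⧸ 𝔫, P (ρ i) = c • P (ρ i0) := fun i =>
    typeN_fixed U σ hspan H S hUs act hact hactT 𝔫 hmax P hP H1 hle1 hmk K hK hKH1 (ρ i) (ρ i0)
      hi0' (hrel i)
  choose c hc using hc
  have hc0 : c i0 = 1 := by
    have h1 : (c i0 - 1) • P (ρ i0) = 0 := by
      rw [sub_smul, one_smul, ← hc i0, sub_self]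
    rcases smul_eq_zero.mp h1 with h | h
    · exact sub_eq_zero.mp h
    · exact absurd h hi0'
  choose c' hc' using fun i => Ideal.Quotient.mk_surjective (I := 𝔫) (c i)
  have hdiff : ∀ i, ρ i - (c' i : R) * ρ i0 ∈ 𝔓 := by
    intro i
    rw [mem𝔓, map_sub, map_mul, hPK, hc', hc i]
    apply MonoidAlgebra.coeff_injective
    ext u
    rw [MonoidAlgebra.coeff_sub, Finsupp.sub_apply, MonoidAlgebra.coeff_single_mul_apply,
      MonoidAlgebra.coeff_smul_apply]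
    simp
  set w : N := ∑ i, (c' i) • y i with hw
  have hwNt : ρ i0 • w ∈ Nt := by
    apply (Submodule.Quotient.mk_eq_zero Nt).mp
    show Nt.mkQ (ρ i0 • w) = 0
    have h1 : ρ i0 • w = ∑ i, ((c' i : R) * ρ i0) • y i := by
      rw [hw, Finset.smul_sum]
      refine Finset.sum_congr rfl fun i _ => ?_
      show ρ i0 • ((c' i : R) • y i) = _
      rw [smul_smul, mul_comm]
    rw [h1, map_sum]
    have h2 : ∀ i, Nt.mkQ (((c' i : R) * ρ i0) • y i) = ρ i • e i := by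
      intro i
      rw [map_smul]
      have h3 := hkill _ (hdiff i) (e i)
      rw [sub_smul, sub_eq_zero] at h3
      exact h3.symm
    simp only [h2]
    exact hρ
  obtain ⟨ρ', hρ', hmemw⟩ := hwNt
  have hcoord : ∀ k : r, ι w k ∈ 𝔓 := by
    intro k
    have h1 : ∀ n ∈ 𝔓 • (⊤ : Submodule R N), ι n k ∈ 𝔓 := by
      intro n hn
      induction hn using Submodule.smul_induction_on' with
      | smul a ha x _ =>
        rw [map_smul]; exact Ideal.mul_mem_right _ _ ha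
      | add x _ y _ hx hy => rw [map_add]; exact Ideal.add_mem _ hx hy
    have h2 := h1 _ hmemw
    rw [map_smul, map_smul] at h2
    have h3 : ρ' * (ρ i0 * ι w k) ∈ 𝔓 := h2
    rcases hprime.mem_or_mem h3 with h | h
    · exact absurd h hρ'
    · rcases hprime.mem_or_mem h with h | h
      · exact absurd h hi0
      · exact h
  have hmemtop : ι' w ∈ 𝔫 • (⊤ : Submodule (KU U) (r → R)) := by
    have h1 : ι' w = ∑ k : r, LinearMap.single (KU U) (fun _ : r => R) k (ι w k) := by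
      show ι w = _
      funext k'
      simp [Finset.sum_apply, Pi.single_apply]
    rw [h1]
    refine Submodule.sum_mem _ fun k _ => ?_
    have h2 := hPker _ ((mem𝔓 _).mp (hcoord k))
    have h3 := Submodule.mem_map_of_mem (f := LinearMap.single (KU U) (fun _ : r => R) k) h2
    rw [Submodule.map_smul''] at h3
    exact Submodule.smul_mono le_rfl le_top h3
  have hψw : ψ (ι' w) i0 ∈ 𝔫 := by
    have h3 := Submodule.mem_map_of_mem (f := ψ) hmemtop
    rw [Submodule.map_smul''] at h3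
    have h1 : ∀ n ∈ 𝔫 • (Submodule.map ψ ⊤), n i0 ∈ 𝔫 := by
      intro n hn
      induction hn using Submodule.smul_induction_on' with
      | smul a ha x _ =>
        rw [Pi.smul_apply]; exact Ideal.mul_mem_right _ _ ha
      | add x _ y _ hx hy => rw [Pi.add_apply]; exact Ideal.add_mem _ hx hy
    exact h1 _ h3
  have hval : ψ (ι' w) i0 = c' i0 * δ := by
    rw [hw, map_sum, map_sum]
    simp only [map_smul, hψ]
    rw [Finset.sum_apply, Finset.sum_eq_single i0]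
    · simp
    · intro i _ hne
      simp [Ne.symm hne]
    · intro h; exact absurd (Finset.mem_univ _) h
  rw [hval] at hψw
  have h1 : Ideal.Quotient.mk 𝔫 (c' i0 * δ) = 0 := Ideal.Quotient.eq_zero_iff_mem.mpr hψw
  rw [map_mul, hc', hc0, one_mul] at h1
  exact hδn (Ideal.Quotient.eq_zero_iff_mem.mp h1)

end Pool.Agent.Helper22.AutMet
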