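import Mathlib
import Pool.Agent.Helper22.AutMet.Base
import Pool.Agent.Helper22.AutMet.Util
import Pool.Agent.Helper22.AutMet.Choice
import Pool.Agent.Helper22.AutMet.Control
import Pool.Agent.Helper22.AutMet.TypeN
import Pool.Agent.Helper22.AutMet.TypeF
import Pool.Agent.Helper22.AutMet.Dev

/-! (Step) the induction step and the main theorem. -/

set_option autoImplicit false

namespace Pool.Agent.Helper22.AutMet

lemma step_noeth {R : Type} [CommRing R] (U : Subgroup Rˣ) (hU : U.FG) : IsNoetherianRing (KU U) := by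
  have := KU_finiteType U hU
  exact Algebra.FiniteType.isNoetherianRing ℤ _

/-- sets of bounded rank span finitely generated modules -/
lemma step_fg {R N : Type} [CommRing R] [IsDomain R] [AddCommGroup N] [Module R N]
    [Module.Finite R N] (htf : ∀ (a : R) (x : N), a • x = 0 → a = 0 ∨ x = 0)
    (K₀ : Subring R) (hK : IsNoetherianRing K₀) {ι : Type} (b : Module.Basis ι K₀ R)
    (Y : Set N) (d : ℕ)
    (hd : ∀ y : Fin (d + 1) → N, (∀ i, y i ∈ Y) → ¬ LinearIndependent K₀ y) :
    Module.Finite K₀ (Submodule.span K₀ Y) := by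
  classical
  obtain ⟨r, _, e, he⟩ := typeN_embed htf
  let bas := Pi.basis (fun _ : r => b)
  let e' : N →ₗ[K₀] (r → R) := e.restrictScalars K₀
  obtain ⟨s, hs, hs2⟩ := exists_maximal_linearIndepOn K₀ (fun y : Y => (y : N))
  have hsfin : s.Finite := by
    by_contra hinf
    have hinf' : s.Infinite := hinf
    have : Infinite s := hinf'.to_subtype
    let g := Infinite.natEmbedding s
    let y : Fin (d + 1) → N := fun i => ((g i : Y) : N)
    apply hd y (fun i => (g i : Y).2)
    have h1 : LinearIndependent K₀ (fun i : s => ((i : Y) : N)) := hs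
    have h2 := h1.comp (fun i : Fin (d + 1) => g i) (by
      intro i j hij
      have := g.injective hij
      exact Fin.ext this)
    exact h2
  let T : Finset Y := hsfin.toFinset
  let Sg : Finset ((_ : r) × ι) := T.biUnion fun y => (bas.repr (e' y)).support
  have hsupp : ∀ y ∈ Submodule.span K₀ Y, ∀ k, k ∉ Sg → bas.repr (e' y) k = 0 := by
    have h0 : ∀ z ∈ Submodule.span K₀ ((fun y : Y => (y : N)) '' s), ∀ k, k ∉ Sg →
        bas.repr (e' z) k = 0 := by
      intro z hz k hk
      induction hz using Submodule.span_induction with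
      | mem x hx =>
        obtain ⟨y, hy, rfl⟩ := hx
        by_contra hcon
        apply hk
        exact Finset.mem_biUnion.mpr ⟨y, hsfin.mem_toFinset.mpr hy, Finsupp.mem_support_iff.mpr hcon⟩
      | zero => simp
      | add x y _ _ hx hy => rw [map_add, map_add, Finsupp.add_apply, hx, hy, add_zero]
      | smul a x _ hx => rw [map_smul, map_smul, Finsupp.smul_apply, hx, smul_zero]
    intro y hy k hk
    induction hy using Submodule.span_induction with
    | mem x hx =>
      by_cases h : (⟨x, hx⟩ : Y) ∈ s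
      · exact h0 x (Submodule.subset_span ⟨⟨x, hx⟩, h, rfl⟩) k hk
      · obtain ⟨a, ha, hax⟩ := hs2 ⟨x, hx⟩ h
        have h1 := h0 _ hax k hk
        rw [map_smul, map_smul, Finsupp.smul_apply, smul_eq_mul] at h1
        exact (mul_eq_zero.mp h1).resolve_left ha
    | zero => simp
    | add x y _ _ hx hy => rw [map_add, map_add, Finsupp.add_apply, hx, hy, add_zero]
    | smul a x _ hx => rw [map_smul, map_smul, Finsupp.smul_apply, hx, smul_zero]
  let g : Submodule.span K₀ Y →ₗ[K₀] (Sg → K₀) :=
    { toFun := fun y k => bas.repr (e' y) k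
      map_add' := by intro x y; funext k; simp
      map_smul' := by intro a y; funext k; simp }
  have hg : Function.Injective g := by
    rw [injective_iff_map_eq_zero]
    intro y hy
    have h1 : bas.repr (e' y) = 0 := by
      refine Finsupp.ext fun k => ?_
      by_cases hk : k ∈ Sg
      · exact congrFun hy ⟨k, hk⟩
      · exact hsupp y y.2 k hk
    have h2 : e' y = 0 := by simpa using h1
    have h3 : e (y : N) = e 0 := by rw [map_zero]; exact h2
    exact Subtype.ext (he h3)
  have : IsNoetherian K₀ (Submodule.span K₀ Y) := isNoetherian_of_injective g hg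
  infer_instance

/-- the group of units of `KU U` corresponding to `U` -/
def stepUnits {R : Type} [CommRing R] (U : Subgroup Rˣ) : U →* (KU U)ˣ where
  toFun u := ⟨⟨(u : Rˣ), KU_mem u.2⟩, ⟨((u⁻¹ : U) : Rˣ), KU_mem (u⁻¹).2⟩, by
    apply Subtype.ext; show ((u : Rˣ) : R) * (((u : Rˣ)⁻¹ : Rˣ) : R) = 1; simp, by
    apply Subtype.ext; show (((u : Rˣ)⁻¹ : Rˣ) : R) * ((u : Rˣ) : R) = 1; simp⟩
  map_one' := by
    apply Units.ext; apply Subtype.ext; rfl
  map_mul' := by
    intro x y; apply Units.ext; apply Subtype.ext; rfl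

lemma stepUnits_KU {R : Type} [CommRing R] (U : Subgroup Rˣ) :
    KU (stepUnits U).range = ⊤ := by
  rw [eq_top_iff]
  rintro ⟨x, hx⟩ -
  have h1 : KU U ≤ (KU (stepUnits U).range).map (KU U).subtype := by
    apply Subring.closure_le.mpr
    rintro _ ⟨u, hu, rfl⟩
    exact ⟨(stepUnits U ⟨u, hu⟩ : (KU U)ˣ), KU_mem ⟨⟨u, hu⟩, rfl⟩, rfl⟩
  obtain ⟨y, hy, hyx⟩ := h1 hx
  have : y = ⟨x, hx⟩ := Subtype.ext hyx
  rw [← this]; exact hy

/-- reduction to the smaller ring -/
lemma step_final {A : Type} [AddCommGroup A] [DistribMulAction Q A]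
    (n : ℕ) (ih : ∀ m < n, GoodN A m)
    {R N : Type} [CommRing R] [IsDomain R] [AddCommGroup N] [Module R N]
    [Module.Finite R N] (htf : ∀ (a : R) (x : N), a • x = 0 → a = 0 ∨ x = 0)
    (U : Subgroup Rˣ) (hU : U.FG) (hrk : Module.finrank ℤ (Additive U) < n)
    {ι : Type} (b : Module.Basis ι (KU U) R)
    (H : Subgroup Q) (hH : H.FiniteIndex) (S : Sys H R N) (hUs : ∀ q, UStable (S.r q) U)
    (T : AddSubgroup A) (hT : T.FiniteIndex) (θ : A → N) (hθ : Eqv H S.m T θ)
    (d : ℕ) (hd : ∀ y : Fin (d + 1) → N, (∀ i, y i ∈ θ '' (T : Set A)) →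
      ¬ LinearIndependent (KU U) y) : (θ '' (T : Set A)).Finite := by
  classical
  have hK := step_noeth U hU
  have hfin := step_fg htf (KU U) hK b (θ '' (T : Set A)) d hd
  set X : Submodule (KU U) N := Submodule.span (KU U) (θ '' (T : Set A)) with hX
  have hXst : ∀ q : H, ∀ x ∈ X, S.m q x ∈ X := by
    intro q x hx
    induction hx using Submodule.span_induction with
    | mem x hx =>
      obtain ⟨a, ha, rfl⟩ := hx
      exact Submodule.subset_span ⟨(q : Q) • a, hθ.stab q a ha, hθ.eqv q a ha⟩
    | zero => rw [map_zero]; exact X.zero_mem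
    | add x y _ _ hx hy => rw [map_add]; exact X.add_mem hx hy
    | smul k x _ hx =>
      have h1 : S.m q (k • x) = (KUr U (S.r q) (hUs q) k) • S.m q x := S.semi q k x
      rw [h1]
      exact X.smul_mem _ hx
  let rq : H →* (KU U →+* KU U) :=
    { toFun := fun q => KUr U (S.r q) (hUs q)
      map_one' := by
        ext x; simp
      map_mul' := by
        intro q q'; ext x; simp }
  let S₁ : Sys H (KU U) X :=
    { r := rq
      m := endSub X S.m hXst
      semi := by
        intro q a x
        apply Subtype.ext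
        show S.m q ((a : R) • (x : N)) = (S.r q (a : R)) • S.m q x
        exact S.semi q a x }
  let V₁ : Subgroup (KU U)ˣ := (stepUnits U).range
  have hUg : Group.FG U := (Group.fg_iff_subgroup_fg U).mpr hU
  have hV₁ : V₁.FG := by
    have : Group.FG V₁ := Group.fg_range (stepUnits U)
    exact (Group.fg_iff_subgroup_fg V₁).mp this
  have hUfin : Module.Finite ℤ (Additive U) :=
    Module.Finite.iff_addGroup_fg.mpr (GroupFG.iff_add_fg.mp hUg)
  have hrk₁ : Module.finrank ℤ (Additive V₁) < n := by
    refine lt_of_le_of_lt ?_ hrk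
    let f : U →* V₁ := (stepUnits U).rangeRestrict
    have hf : Function.Surjective f := MonoidHom.rangeRestrict_surjective _
    let f' : Additive U →ₗ[ℤ] Additive V₁ := (MonoidHom.toAdditive f).toIntLinearMap
    exact LinearMap.finrank_le_finrank_of_surjective (f := f') hf
  have hVs₁ : ∀ q, UStable (S₁.r q) V₁ := by
    rintro q _ ⟨u, rfl⟩
    refine ⟨⟨Units.map (S.r q : R →* R) u, hUs q u u.2⟩, ?_⟩
    apply Units.ext
    apply Subtype.ext
    rfl
  have hθX : ∀ a ∈ T, θ a ∈ X := fun a ha => Submodule.subset_span ⟨a, ha, rfl⟩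
  let θ₁ : A → X := fun a => if ha : a ∈ T then ⟨θ a, hθX a ha⟩ else 0
  have hθ₁val : ∀ a ∈ T, ((θ₁ a : X) : N) = θ a := by
    intro a ha
    simp [θ₁, ha]
  have hθ₁ : Eqv H S₁.m T θ₁ :=
    { add := by
        intro x hx y hy
        apply Subtype.ext
        rw [hθ₁val _ (T.add_mem hx hy), hθ.add x hx y hy]
        show _ = ((θ₁ x : X) : N) + ((θ₁ y : X) : N)
        rw [hθ₁val x hx, hθ₁val y hy]
      stab := hθ.stab
      eqv := by
        intro q x hx
        apply Subtype.ext
        rw [hθ₁val _ (hθ.stab q x hx), hθ.eqv q x hx]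
        show _ = S.m q (θ₁ x)
        rw [hθ₁val x hx] }
  have hres := ih _ hrk₁ (KU U) X _ _ _ hfin V₁ hV₁ (stepUnits_KU U) le_rfl H hH S₁ hVs₁ T hT θ₁ hθ₁
  have h5 : θ '' (T : Set A) = (fun x : X => (x : N)) '' (θ₁ '' (T : Set A)) := by
    ext y
    constructor
    · rintro ⟨a, ha, rfl⟩
      exact ⟨θ₁ a, ⟨a, ha, rfl⟩, hθ₁val a ha⟩
    · rintro ⟨_, ⟨a, ha, rfl⟩, rfl⟩
      exact ⟨a, ha, (hθ₁val a ha).symm⟩
  rw [h5]
  exact hres.image _

/-- spanning from factorisations -/
lemma step_span {R : Type} [CommRing R] (U V : Subgroup Rˣ) (hKU : KU V = ⊤) {ι : Type}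
    (σ : ι → Rˣ) (h1 : ∃ i, σ i = 1) (hmul : ∀ i j, ∃ k, σ i * σ j = σ k)
    (h : ∀ v ∈ V, ∃ u ∈ U, ∃ i, v = u * σ i) (a : R) :
    a ∈ Submodule.span (KU U) (Set.range fun i : ι => ((σ i : Rˣ) : R)) := by
  set M := Submodule.span (KU U) (Set.range fun i : ι => ((σ i : Rˣ) : R)) with hM
  have hσ : ∀ i, ((σ i : Rˣ) : R) ∈ M := fun i => Submodule.subset_span ⟨i, rfl⟩
  have hmulM : ∀ x ∈ M, ∀ y ∈ M, x * y ∈ M := by
    intro x hx y hy
    induction hx using Submodule.span_induction with
    | mem x hx =>
      obtain ⟨i, rfl⟩ := hx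
      induction hy using Submodule.span_induction with
      | mem y hy =>
        obtain ⟨j, rfl⟩ := hy
        obtain ⟨k, hk⟩ := hmul i j
        have : ((σ i : Rˣ) : R) * ((σ j : Rˣ) : R) = ((σ k : Rˣ) : R) := by
          rw [← Units.val_mul, hk]
        show ((σ i : Rˣ) : R) * ((σ j : Rˣ) : R) ∈ M
        rw [this]; exact hσ k
      | zero => rw [mul_zero]; exact M.zero_mem
      | add x y _ _ hx hy => rw [mul_add]; exact M.add_mem hx hy
      | smul k x _ hx =>
        have : ((σ i : Rˣ) : R) * (k • x) = k • (((σ i : Rˣ) : R) * x) := by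
          show ((σ i : Rˣ) : R) * ((k : R) * x) = (k : R) * (((σ i : Rˣ) : R) * x); ring
        show ((σ i : Rˣ) : R) * (k • x) ∈ M
        rw [this]; exact M.smul_mem _ hx
    | zero => rw [zero_mul]; exact M.zero_mem
    | add x y _ _ hx hy => rw [add_mul]; exact M.add_mem hx hy
    | smul k x _ hx =>
      have : (k • x) * y = k • (x * y) := by
        show ((k : R) * x) * y = (k : R) * (x * y); ring
      rw [this]; exact M.smul_mem _ hx
  have ha : a ∈ KU V := by rw [hKU]; trivial
  unfold KU at ha
  induction ha using Subring.closure_induction with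
  | mem x hx =>
    obtain ⟨v, hv, rfl⟩ := hx
    obtain ⟨u, hu, i, rfl⟩ := h v hv
    have : ((u * σ i : Rˣ) : R) = (⟨(u : R), KU_mem hu⟩ : KU U) • ((σ i : Rˣ) : R) := rfl
    show ((u * σ i : Rˣ) : R) ∈ M
    rw [this]; exact M.smul_mem _ (hσ i)
  | zero => exact M.zero_mem
  | one =>
    obtain ⟨i, hi⟩ := h1
    have := hσ i
    rwa [hi] at this
  | add x y _ _ hx hy => exact M.add_mem hx hy
  | neg x _ hx => exact M.neg_mem hx
  | mul x y _ _ hx hy => exact hmulM x hx y hy

/-- the subgroup of units corresponding to an additive subgroup -/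
def stepDn {R : Type} [CommRing R] (V : Subgroup Rˣ) (U : AddSubgroup (Additive V)) :
    Subgroup Rˣ where
  carrier := {u | ∃ h : u ∈ V, Additive.ofMul (⟨u, h⟩ : V) ∈ U}
  one_mem' := ⟨V.one_mem, U.zero_mem⟩
  mul_mem' := by
    rintro a b ⟨ha, ha'⟩ ⟨hb, hb'⟩
    exact ⟨V.mul_mem ha hb, U.add_mem ha' hb'⟩
  inv_mem' := by
    rintro a ⟨ha, ha'⟩
    exact ⟨V.inv_mem ha, U.neg_mem ha'⟩

/-- the additive subgroup corresponding to a group of units -/
def stepUp {R : Type} [CommRing R] (V : Subgroup Rˣ) (U : Subgroup Rˣ) :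
    AddSubgroup (Additive V) where
  carrier := {w | ((Additive.toMul w : V) : Rˣ) ∈ U}
  zero_mem' := U.one_mem
  add_mem' := fun ha hb => U.mul_mem ha hb
  neg_mem' := fun ha => U.inv_mem ha

lemma mem_stepDn {R : Type} [CommRing R] (V : Subgroup Rˣ) (U : AddSubgroup (Additive V))
    (u : Rˣ) (h : u ∈ V) : u ∈ stepDn V U ↔ Additive.ofMul (⟨u, h⟩ : V) ∈ U :=
  ⟨fun ⟨_, h'⟩ => h', fun h' => ⟨h, h'⟩⟩

/-- the action on the additive version of the unit group -/
def stepRho {R N : Type} [CommRing R] [AddCommGroup N] [Module R N] {H : Subgroup Q}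
    (S : Sys H R N) (V : Subgroup Rˣ) (hVs : ∀ q, UStable (S.r q) V) :
    H →* AddMonoid.End (Additive V) where
  toFun q := MonoidHom.toAdditive
    (((Units.map (S.r q : R →* R)).comp V.subtype).codRestrict V (fun v => hVs q v v.2))
  map_one' := by
    refine AddMonoidHom.ext fun w => ?_
    apply Additive.toMul.injective
    apply Subtype.ext
    apply Units.ext
    show S.r 1 _ = _
    rw [map_one]; rfl
  map_mul' := by
    intro q q'
    refine AddMonoidHom.ext fun w => ?_
    apply Additive.toMul.injective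
    apply Subtype.ext
    apply Units.ext
    show S.r (q * q') _ = S.r q (S.r q' _)
    rw [map_mul]; rfl

lemma stepRho_apply {R N : Type} [CommRing R] [AddCommGroup N] [Module R N] {H : Subgroup Q}
    (S : Sys H R N) (V : Subgroup Rˣ) (hVs : ∀ q, UStable (S.r q) V) (q : H) (v : Rˣ) (hv : v ∈ V) :
    stepRho S V hVs q (Additive.ofMul (⟨v, hv⟩ : V)) =
      Additive.ofMul (⟨Units.map (S.r q : R →* R) v, hVs q v hv⟩ : V) := rfl

lemma step_ft {R : Type} [CommRing R] [Nontrivial R] (h2 : (2 : R) = 0) (V : Subgroup Rˣ)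
    (hV : V.FG) (hKU : KU V = ⊤) :
    ∃ (_ : Algebra (ZMod 2) R), Algebra.FiniteType (ZMod 2) R := by
  have h1 := KU_finiteType V hV
  rw [hKU] at h1
  have h3 : Algebra.FiniteType ℤ R :=
    Algebra.FiniteType.equiv h1 (Subring.topEquiv.toIntAlgEquiv)
  exact charTwo_algebra_finiteType R h2

lemma step_natAbs {W : Type} [AddCommGroup W] (U : AddSubgroup W) (k : ℤ) (w : W)
    (h : k • w ∈ U) : k.natAbs • w ∈ U := by
  rw [← natCast_zsmul, Int.natCast_natAbs]
  rcases abs_choice k with h' | h'
  · rw [h']; exact h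
  · rw [h', neg_zsmul]; exact U.neg_mem h

/-- the induced action on the quotient of the unit group -/
def stepAct {H' : Type} [Group H'] {W : Type} [AddCommGroup W] (ρ : H' →* AddMonoid.End W)
    (Us : Submodule ℤ W) (hst : ∀ q, ∀ w ∈ Us, ρ q w ∈ Us) :
    H' →* Monoid.End (Multiplicative (W ⧸ Us)) where
  toFun q := AddMonoidHom.toMultiplicative (endQuot Us ρ hst q)
  map_one' := by
    refine MonoidHom.ext fun g => ?_
    apply Multiplicative.toAdd.injective
    show endQuot Us ρ hst 1 (Multiplicative.toAdd g) = Multiplicative.toAdd g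
    rw [map_one]; rfl
  map_mul' := by
    intro q q'
    refine MonoidHom.ext fun g => ?_
    apply Multiplicative.toAdd.injective
    show endQuot Us ρ hst (q * q') (Multiplicative.toAdd g) =
      endQuot Us ρ hst q (endQuot Us ρ hst q' (Multiplicative.toAdd g))
    rw [map_mul]; rfl

lemma stepAct_apply {H' : Type} [Group H'] {W : Type} [AddCommGroup W] (ρ : H' →* AddMonoid.End W)
    (Us : Submodule ℤ W) (hst : ∀ q, ∀ w ∈ Us, ρ q w ∈ Us) (q : H') (w : W) :
    stepAct ρ Us hst q (Multiplicative.ofAdd (Us.mkQ w)) =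
      Multiplicative.ofAdd (Us.mkQ (ρ q w)) := rfl

lemma step_uniqueSums (W : Type) [AddCommGroup W] [Module.Finite ℤ W] [Module.Free ℤ W] :
    UniqueSums W := by
  let b := Module.Free.chooseBasis ℤ W
  let e : W →ₙ+ (Module.Free.ChooseBasisIndex ℤ W →₀ ℤ) :=
    (b.repr.toAddEquiv : W ≃+ _).toAddMonoidHom
  exact UniqueSums.of_injective_addHom e b.repr.injective inferInstance

lemma step_dn_fg {R : Type} [CommRing R] (V : Subgroup Rˣ) [Module.Finite ℤ (Additive V)]
    (U : AddSubgroup (Additive V)) : (stepDn V U).FG := by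
  have h1 : (AddSubgroup.toIntSubmodule U).FG := IsNoetherian.noetherian _
  have h2 : U.FG := by
    have := (Submodule.fg_iff_addSubgroup_fg _).mp h1
    simpa using this
  let P : Subgroup V := AddSubgroup.toSubgroup' U
  have hP : P.FG := by
    rw [Subgroup.fg_iff_add_fg]
    exact h2
  have h3 : stepDn V U = P.map V.subtype := by
    ext u
    constructor
    · rintro ⟨h, h'⟩
      exact ⟨⟨u, h⟩, h', rfl⟩
    · rintro ⟨x, hx, rfl⟩
      exact ⟨x.2, hx⟩
  rw [h3]
  exact subgroup_fg_map hP _

lemma step_dn_rank {R : Type} [CommRing R] (V : Subgroup Rˣ) [Module.Finite ℤ (Additive V)]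
    (U : AddSubgroup (Additive V)) (htop : U ≠ ⊤)
    [Module.IsTorsionFree ℤ (Additive V ⧸ AddSubgroup.toIntSubmodule U)] :
    Module.finrank ℤ (Additive (stepDn V U)) < Module.finrank ℤ (Additive V) := by
  have h1 := Submodule.finrank_quotient_add_finrank (AddSubgroup.toIntSubmodule U)
  have hnt : Nontrivial (Additive V ⧸ AddSubgroup.toIntSubmodule U) := by
    rw [Submodule.Quotient.nontrivial_iff]
    intro h
    apply htop
    have := congrArg Submodule.toAddSubgroup h
    simpa using this
  have h2 : 0 < Module.finrank ℤ (Additive V ⧸ AddSubgroup.toIntSubmodule U) := Module.finrank_pos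
  let f : (AddSubgroup.toIntSubmodule U) →+ Additive (stepDn V U) :=
    { toFun := fun w => Additive.ofMul ⟨((Additive.toMul (w : Additive V) : V) : Rˣ),
        ⟨(Additive.toMul (w : Additive V)).2, w.2⟩⟩
      map_zero' := rfl
      map_add' := fun _ _ => rfl }
  have hf : Function.Surjective f := by
    intro y
    obtain ⟨h, h'⟩ := (Additive.toMul y).2
    exact ⟨⟨Additive.ofMul ⟨_, h⟩, h'⟩, rfl⟩
  have h3 := LinearMap.finrank_le_finrank_of_surjective (f := f.toIntLinearMap) hf
  omega

theorem domStep {A : Type} [AddCommGroup A] [DistribMulAction Q A]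
    (h0 : T0Prop A) (h1 : GenProp A)
    (n : ℕ) (ih : ∀ m < n, GoodN A m) : DomN A n := by
  classical
  intro R N _ _ hchar _ _ _ htf V hV hKU hrk H hH S hVs T hT θ hθ
  have h2R : (2 : R) = 0 := by
    have := CharP.cast_eq_zero R 2
    exact_mod_cast this
  obtain ⟨_, hft⟩ := step_ft h2R V hV hKU
  have hVg : Group.FG V := (Group.fg_iff_subgroup_fg V).mpr hV
  have hW : Module.Finite ℤ (Additive V) :=
    Module.Finite.iff_addGroup_fg.mpr (GroupFG.iff_add_fg.mp hVg)
  rcases choice (Additive V) H hH (stepRho S V hVs) with ⟨H', hH', hle, htriv⟩ |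
    ⟨H', hH', hle, U, hUst, hUtop, hUiso, hUfix, hfiso, hUtriv, hunip, hcase⟩
  · -- the lattice part acts trivially
    refine h0 H' hH' R N _ _ hft _ _ inferInstance (S.res hle).m ?_ T hT θ (hθ.res hle)
    intro v hv a x
    have hra : S.r ⟨bb v, hle hv⟩ a = a := by
      have h3 : KU V ≤ RingHom.eqLocus (S.r ⟨bb v, hle hv⟩) (RingHom.id R) := by
        apply Subring.closure_le.mpr
        rintro _ ⟨u, hu, rfl⟩
        have h4 := htriv v hv
        have h5 := DFunLike.congr_fun h4 (Additive.ofMul (⟨u, hu⟩ : V))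
        rw [stepRho_apply] at h5
        have h6 := congrArg (fun w : Additive V => (((Additive.toMul w : V) : Rˣ) : R)) h5
        exact h6
      rw [hKU] at h3
      exact h3 (Subring.mem_top a)
    show S.m ⟨bb v, hle hv⟩ (a • x) = a • S.m ⟨bb v, hle hv⟩ x
    rw [S.semi, hra]
  · set U' := stepDn V U with hU'
    have hU'V : U' ≤ V := fun u h => h.1
    have hmem : ∀ (u : Rˣ) (h : u ∈ V), u ∈ U' ↔ Additive.ofMul (⟨u, h⟩ : V) ∈ U :=
      mem_stepDn V U
    have hUs : ∀ q : H', UStable ((S.res hle).r q) U' := by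
      rintro ⟨q, hq⟩ u hu
      refine (hmem _ (hVs _ u hu.1)).mpr ?_
      exact hUst q hq _ ((hmem u hu.1).mp hu)
    have hU'fg : U'.FG := step_dn_fg V U
    -- the quotient
    let Us : Submodule ℤ (Additive V) := AddSubgroup.toIntSubmodule U
    have hmemUs : ∀ w, w ∈ Us ↔ w ∈ U := fun w => Iff.rfl
    have htfree : Module.IsTorsionFree ℤ (Additive V ⧸ Us) := by
      rw [Module.isTorsionFree_iff_smul_eq_zero]
      intro k m hkm
      obtain ⟨w, rfl⟩ := Us.mkQ_surjective m
      by_cases hk : k = 0
      · exact Or.inl hk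
      · right
        rw [← map_smul] at hkm
        have h3 : k • w ∈ U := (Submodule.Quotient.mk_eq_zero Us).mp hkm
        apply (Submodule.Quotient.mk_eq_zero Us).mpr
        exact hUiso w k.natAbs (Int.natAbs_pos.mpr hk) (step_natAbs U k w h3)
    have hrkU : Module.finrank ℤ (Additive U') < n :=
      lt_of_lt_of_le (step_dn_rank V U hUtop) hrk
    have hfree : Module.Free ℤ (Additive V ⧸ Us) := Module.free_of_finite_type_torsion_free'
    -- control
    let I : Type := {v : B // bb v ∈ H'}
    let β : I → (R →+* R) := fun b => S.r ⟨bb b.1, hle b.2⟩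
    have hctl : ∀ {ι : Type} (v : ι → Rˣ), (∀ i, v i ∈ V) → (∀ i j, v i / v j ∈ U' → i = j) →
        LinearIndependent (KU U') (fun i => ((v i : Rˣ) : R)) := by
      intro ι v hv hinj
      refine control β (fun b => S.r_injective _) V U' hV hU'V (fun b => hVs _)
        (fun b => hUs ⟨bb b.1, b.2⟩) ?_ ?_ ?_ ?_ ?_ v hv hinj
      · intro u hu hfix
        rw [hmem u hu]
        apply hUfix
        intro v' hv'
        rw [stepRho_apply]
        apply Additive.toMul.injective
        apply Subtype.ext
        exact hfix ⟨v', hv'⟩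
      · intro u hu j hj huj
        rw [hmem u hu]
        apply hUiso _ j hj
        exact (hmem (u ^ j) (V.pow_mem hu j)).mp huj
      · intro b u hu
        refine (hmem _ (V.div_mem (hVs _ u hu) hu)).mpr ?_
        exact hUtriv b.1 b.2 (Additive.ofMul (⟨u, hu⟩ : V))
      · intro U1 U2 hlt hU2V hst1 hst2 hiso1
        have hlt' : stepUp V U1 < stepUp V U2 := by
          refine lt_of_le_of_ne (fun w hw => hlt.le hw) ?_
          intro heq
          apply hlt.not_ge
          intro u hu
          have h3 : Additive.ofMul (⟨u, hU2V hu⟩ : V) ∈ stepUp V U2 := hu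
          rw [← heq] at h3
          exact h3
        obtain ⟨w, hw2, hw1, hw⟩ := hunip (stepUp V U1) (stepUp V U2) hlt'
          (fun v hv w hw => hst1 ⟨v, hv⟩ _ hw) (fun v hv w hw => hst2 ⟨v, hv⟩ _ hw)
          (fun w j hj hw => hiso1 _ (Additive.toMul w).2 j hj hw)
        exact ⟨((Additive.toMul w : V) : Rˣ), hw2, hw1, fun b => hw b.1 b.2⟩
      · intro u hu j hj hfix b
        have h3 := hfiso (Additive.ofMul (⟨u, hu⟩ : V)) j hj (by
          intro v' hv'
          apply Additive.toMul.injective
          apply Subtype.ext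
          exact hfix ⟨v', hv'⟩) b.1 b.2
        have h4 := congrArg (fun w : Additive V => ((Additive.toMul w : V) : Rˣ)) h3
        exact h4
    rcases hcase with hN | ⟨s, hs1, hs2⟩
    · -- type N
      obtain ⟨sec, hsec⟩ := Module.projective_lifting_property Us.mkQ LinearMap.id Us.mkQ_surjective
      have hsec' : ∀ x, Us.mkQ (sec x) = x := fun x => LinearMap.congr_fun hsec x
      let G : Type := Multiplicative (Additive V ⧸ Us)
      let σ : G →* Rˣ :=
        { toFun := fun g => ((Additive.toMul (sec (Multiplicative.toAdd g)) : V) : Rˣ)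
          map_one' := by
            show ((Additive.toMul (sec 0) : V) : Rˣ) = 1
            rw [map_zero]; rfl
          map_mul' := by
            intro g g'
            show ((Additive.toMul (sec (Multiplicative.toAdd g + Multiplicative.toAdd g')) : V) : Rˣ) = _
            rw [map_add]; rfl }
      have hσV : ∀ g, σ g ∈ V := fun g => (Additive.toMul (sec (Multiplicative.toAdd g))).2
      have hσinj : ∀ g g' : G, σ g / σ g' ∈ U' → g = g' := by
        intro g g' h3
        have h4 := (hmem _ (V.div_mem (hσV g) (hσV g'))).mp h3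
        have h5 : sec (Multiplicative.toAdd g) - sec (Multiplicative.toAdd g') ∈ Us := h4
        have h6 := (Submodule.Quotient.mk_eq_zero Us).mpr h5
        have h7 : Us.mkQ (sec (Multiplicative.toAdd g) - sec (Multiplicative.toAdd g')) = 0 := h6
        rw [map_sub, hsec', hsec', sub_eq_zero] at h7
        exact Multiplicative.toAdd.injective h7
      have hind := hctl σ hσV hσinj
      have hspan := step_span U' V hKU σ ⟨1, map_one σ⟩ (fun i j => ⟨i * j, (map_mul σ i j).symm⟩) (by
        intro v hv
        let w : Additive V := Additive.ofMul (⟨v, hv⟩ : V)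
        let g : G := Multiplicative.ofAdd (Us.mkQ w)
        refine ⟨v / σ g, ?_, g, by simp⟩
        refine (hmem _ (V.div_mem hv (hσV g))).mpr ?_
        have h3 : Us.mkQ (w - sec (Us.mkQ w)) = 0 := by
          rw [map_sub, hsec', sub_self]
        exact (Submodule.Quotient.mk_eq_zero Us).mp h3)
      let b : Module.Basis G (KU U') R := Module.Basis.mk hind (fun a _ => hspan a)
      -- the action on the quotient
      let ρ' : H' →* AddMonoid.End (Additive V) := (stepRho S V hVs).comp (Subgroup.inclusion hle)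
      have hρs : ∀ q : H', ∀ w ∈ Us, ρ' q w ∈ Us := fun q w hw => hUst q q.2 w hw
      let act : H' →* Monoid.End G := stepAct ρ' Us hρs
      have hactap : ∀ (q : H') (w : Additive V), act q (Multiplicative.ofAdd (Us.mkQ w)) =
          Multiplicative.ofAdd (Us.mkQ (stepRho S V hVs ⟨q, hle q.2⟩ w)) := fun q w =>
        stepAct_apply ρ' Us hρs q w
      obtain ⟨d, hd⟩ := typeN h0 htf U' hU'fg
        (G := G) (by
          have := step_uniqueSums (Additive V ⧸ Us)
          infer_instance) σ hspan hind H' hH' (S.res hle) hUs act (by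
          intro q g
          refine ⟨Units.map ((S.res hle).r q : R →* R) (σ g) / σ (act q g), ?_, by simp⟩
          have hVq := hVs ⟨q, hle q.2⟩ (σ g) (hσV g)
          refine (hmem _ (V.div_mem hVq (hσV _))).mpr ?_
          have h3 : Us.mkQ (stepRho S V hVs ⟨q, hle q.2⟩ (sec (Multiplicative.toAdd g)) -
              sec (Multiplicative.toAdd (act q g))) = 0 := by
            rw [map_sub, hsec', sub_eq_zero]
            have h4 : g = Multiplicative.ofAdd (Us.mkQ (sec (Multiplicative.toAdd g))) := by
              rw [hsec']; rfl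
            have h5 := hactap q (sec (Multiplicative.toAdd g))
            rw [← h4] at h5
            rw [h5]; rfl
          exact (Submodule.Quotient.mk_eq_zero Us).mp h3) (by
          intro v hv
          refine MonoidHom.ext fun g => ?_
          obtain ⟨w, hw⟩ := Us.mkQ_surjective (Multiplicative.toAdd g)
          have h4 : g = Multiplicative.ofAdd (Us.mkQ w) := by rw [hw]; rfl
          rw [h4]
          have h5 := hactap ⟨bb v, hv⟩ w
          have h6 : Us.mkQ (stepRho S V hVs ⟨bb v, hle hv⟩ w) = Us.mkQ w := by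
            rw [← sub_eq_zero, ← map_sub]
            exact (Submodule.Quotient.mk_eq_zero Us).mpr (hUtriv v hv w)
          exact h5.trans (congrArg Multiplicative.ofAdd h6)) (by
          intro m hm hmH g hg
          obtain ⟨w, hw⟩ := Us.mkQ_surjective (Multiplicative.toAdd g)
          have h4 : g = Multiplicative.ofAdd (Us.mkQ w) := by rw [hw]; rfl
          rw [h4] at hg
          have h5 : Us.mkQ (stepRho S V hVs ⟨tt ^ m, hle hmH⟩ w) = Us.mkQ w :=
            (hactap ⟨tt ^ m, hmH⟩ w).symm.trans hg
          rw [← sub_eq_zero, ← map_sub] at h5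
          have h6 := hN m hm hmH w ((Submodule.Quotient.mk_eq_zero Us).mp h5)
          rw [h4]
          have h7 : Us.mkQ w = 0 := (Submodule.Quotient.mk_eq_zero Us).mpr h6
          rw [h7]; rfl) T hT θ (hθ.res hle)
      exact step_final n ih htf U' hU'fg hrkU b H' hH' (S.res hle) hUs T hT θ (hθ.res hle) d hd
    · -- type F
      let su : Rˣ := ((Additive.toMul s : V) : Rˣ)
      have hsuV : su ∈ V := (Additive.toMul s).2
      have hsnot : s ∉ U := by
        intro hsU
        apply hUtop
        rw [eq_top_iff]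
        intro w _
        obtain ⟨k, hk⟩ := hs1 w
        have := U.add_mem hk (U.zsmul_mem hsU k)
        simpa using this
      let σ : ℤ → Rˣ := fun k => su ^ k
      have hσV : ∀ k, σ k ∈ V := fun k => V.zpow_mem hsuV k
      have hσinj : ∀ k l : ℤ, σ k / σ l ∈ U' → k = l := by
        intro k l h3
        by_contra hne
        have h4 : su ^ (k - l) ∈ U' := by rw [zpow_sub]; exact h3
        have h5 : (k - l) • s ∈ U := (hmem _ (V.zpow_mem hsuV _)).mp h4
        apply hsnot
        apply hUiso s (k - l).natAbs (Int.natAbs_pos.mpr (sub_ne_zero.mpr hne))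
        exact step_natAbs U _ s h5
      have hind := hctl σ hσV hσinj
      have hspan := step_span U' V hKU σ ⟨0, by simp [σ]⟩
        (fun i j => ⟨i + j, by simp [σ, zpow_add]⟩) (by
        intro v hv
        obtain ⟨k, hk⟩ := hs1 (Additive.ofMul (⟨v, hv⟩ : V))
        refine ⟨v / σ k, ?_, k, by simp⟩
        exact (hmem _ (V.div_mem hv (hσV k))).mpr hk)
      let b : Module.Basis ℤ (KU U') R := Module.Basis.mk hind (fun a _ => hspan a)
      obtain ⟨d, hd⟩ := typeF h1 htf U' su hspan H' hH' (S.res hle) hUs (by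
        intro q
        refine (hmem _ (V.div_mem (hVs _ su hsuV) hsuV)).mpr ?_
        exact hs2 q q.2) T hT θ (hθ.res hle)
      exact step_final n ih htf U' hU'fg hrkU b H' hH' (S.res hle) hUs T hT θ (hθ.res hle) d hd

theorem goodN {A : Type} [AddCommGroup A] [DistribMulAction Q A] (h2 : ∀ a : A, a + a = 0)
    (h0 : T0Prop A) (h1 : GenProp A) (n : ℕ) : GoodN A n := by
  induction n using Nat.strong_induction_on with
  | _ n ih => exact devissage h2 n (domStep h0 h1 n ih)

end Pool.Agent.Helper22.AutMet
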